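import Pool.Agent.P.MP_fa2423_pr.DetLow

set_option autoImplicit false
set_option linter.unusedSectionVars false

namespace Pool.Agent.Fa2423

open Finset MeasureTheory Filter Topology
open scoped ENNReal

theorem Ex_ind_eq {V : Type} [Fintype V] [DecidableEq V] (p : ℝ) (P : (V → V → Bool) → Prop) :
    Ex p (fun B => ind (P B)) = ∑ B : V → V → Bool, Set.indicator {B | P B}
      (fun B : V → V → Bool => ∏ i, ∏ j, if B i j then p else 1 - p) B := by
  unfold Ex
  refine sum_congr rfl fun B _ => ?_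
  by_cases h : P B
  · rw [Set.indicator_of_mem (s := {B | P B}) h]
    simp only [ind_pos h, mul_one, wt]
  · rw [Set.indicator_of_notMem (s := {B | P B}) h]
    simp only [ind_neg h, mul_zero]

theorem ae_far (p : ℕ → ℝ) (h0 : ∀ n, 0 ≤ p n) (h1 : ∀ n, p n ≤ 1) :
    ∀ᵐ z : ℂ, Tendsto (fun n : ℕ => Ex (p n) (fun B : Fin n → Fin n → Bool =>
      ind (∃ a ∈ (Am B).charpoly.roots, ‖z - a‖ < 1 / (n : ℝ) ^ 2))) atTop (𝓝 0) := by
  classical
  let f : ℕ → ℂ → ℝ≥0∞ := fun n z => ∑ B : Fin n → Fin n → Bool, ENNReal.ofReal (wt (p n) B) *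
    ∑ a ∈ (Am B).charpoly.roots.toFinset, (Metric.ball a (1 / (n : ℝ) ^ 2)).indicator 1 z
  have hind : ∀ (n : ℕ) (a : ℂ), Measurable fun z : ℂ =>
      (Metric.ball a (1 / (n : ℝ) ^ 2)).indicator (1 : ℂ → ℝ≥0∞) z := fun n a =>
    measurable_one.indicator measurableSet_ball
  have hmeas : ∀ n, Measurable (f n) := fun n =>
    Finset.measurable_sum _ fun B _ => (Finset.measurable_sum _ fun a _ => hind n a).const_mul _
  have hint : ∀ n, ∫⁻ z, f n z ≤ ENNReal.ofReal (4 * (1 / (n : ℝ) ^ 3)) := by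
    intro n
    have e1 : ∫⁻ z, f n z = ∑ B : Fin n → Fin n → Bool, ENNReal.ofReal (wt (p n) B) *
        ∑ a ∈ (Am B).charpoly.roots.toFinset, volume (Metric.ball a (1 / (n : ℝ) ^ 2)) := by
      rw [lintegral_finsetSum _ fun B _ =>
        (Finset.measurable_sum _ fun a _ => hind n a).const_mul _]
      refine sum_congr rfl fun B _ => ?_
      rw [lintegral_const_mul _ (Finset.measurable_sum _ fun a _ => hind n a),
        lintegral_finsetSum _ fun a _ => hind n a]
      congr 1
      refine sum_congr rfl fun a _ => ?_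
      exact lintegral_indicator_one measurableSet_ball
    have e2 : ∀ B : Fin n → Fin n → Bool,
        ∑ a ∈ (Am B).charpoly.roots.toFinset, volume (Metric.ball a (1 / (n : ℝ) ^ 2)) ≤
        ENNReal.ofReal (4 * (1 / (n : ℝ) ^ 3)) := by
      intro B
      have e3 : ∀ a : ℂ, volume (Metric.ball a (1 / (n : ℝ) ^ 2)) ≤
          ENNReal.ofReal (4 * (1 / (n : ℝ) ^ 2) ^ 2) := by
        intro a
        rw [Complex.volume_ball, ENNReal.ofReal_mul (by norm_num), mul_comm,
          ENNReal.ofReal_pow (by positivity)]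
        gcongr
        rw [← ENNReal.ofReal_coe_nnreal]
        exact ENNReal.ofReal_le_ofReal (by simpa using Real.pi_le_four)
      refine (sum_le_sum fun a _ => e3 a).trans ?_
      rw [sum_const, nsmul_eq_mul]
      have e4 : (Am B).charpoly.roots.toFinset.card ≤ n := by
        refine (Multiset.toFinset_card_le _).trans ((Polynomial.card_roots' _).trans ?_)
        simp
      calc ((Am B).charpoly.roots.toFinset.card : ℝ≥0∞) * ENNReal.ofReal (4 * (1 / (n : ℝ) ^ 2) ^ 2)
          ≤ (n : ℝ≥0∞) * ENNReal.ofReal (4 * (1 / (n : ℝ) ^ 2) ^ 2) := by gcongr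
        _ = ENNReal.ofReal (4 * (1 / (n : ℝ) ^ 3)) := by
          rw [← ENNReal.ofReal_natCast, ← ENNReal.ofReal_mul (Nat.cast_nonneg _)]
          congr 1
          rcases Nat.eq_zero_or_pos n with h | h
          · simp [h]
          · have : (n : ℝ) ≠ 0 := by positivity
            field_simp
    rw [e1]
    refine (sum_le_sum fun B _ => mul_le_mul_right (e2 B) _).trans ?_
    rw [← sum_mul, ← ENNReal.ofReal_sum_of_nonneg fun B _ => wt_nonneg (h0 n) (h1 n) B]
    have e5 := Ex_one (V := Fin n) (p n)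
    unfold Ex at e5
    simp only [mul_one] at e5
    rw [e5]
    simp
  have hsum : ∫⁻ z, ∑' n, f n z ≠ ⊤ := by
    rw [lintegral_tsum fun n => (hmeas n).aemeasurable]
    refine ne_top_of_le_ne_top ?_ (ENNReal.tsum_le_tsum hint)
    exact ((Real.summable_one_div_nat_pow.2 (by norm_num)).mul_left 4).tsum_ofReal_lt_top.ne
  filter_upwards [ae_lt_top (Measurable.tsum hmeas) hsum] with z hz
  have ht := (ENNReal.tendsto_toReal ENNReal.zero_ne_top).comp
    (ENNReal.tendsto_atTop_zero_of_tsum_ne_top hz.ne)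
  refine squeeze_zero (fun n => Ex_nonneg (h0 n) (h1 n) fun B => ind_nonneg _) (fun n => ?_) ht
  have hne : f n z ≠ ⊤ := ENNReal.ne_top_of_tsum_ne_top hz.ne n
  rw [Function.comp_apply, ← ENNReal.ofReal_le_iff_le_toReal hne]
  unfold Ex
  rw [ENNReal.ofReal_sum_of_nonneg fun B _ => mul_nonneg (wt_nonneg (h0 n) (h1 n) B) (ind_nonneg _)]
  refine sum_le_sum fun B _ => ?_
  rw [ENNReal.ofReal_mul (wt_nonneg (h0 n) (h1 n) B)]
  refine mul_le_mul_right ?_ _
  by_cases h : ∃ a ∈ (Am B).charpoly.roots, ‖z - a‖ < 1 / (n : ℝ) ^ 2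
  · rw [ind_pos h]
    obtain ⟨a, ha, ha'⟩ := h
    refine le_trans ?_ (single_le_sum (f := fun a : ℂ =>
      (Metric.ball a (1 / (n : ℝ) ^ 2)).indicator (1 : ℂ → ℝ≥0∞) z) (fun _ _ => zero_le)
      (Multiset.mem_toFinset.2 ha))
    rw [Set.indicator_of_mem (by rw [Metric.mem_ball, dist_eq_norm]; exact ha')]
    simp
  · rw [ind_neg h]
    simp

end Pool.Agent.Fa2423
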