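import Pool.Agent.P.MP_fa2423_pr.SubDet

set_option autoImplicit false
set_option linter.unusedSectionVars false

namespace Pool.Agent.Fa2423

open Finset MeasureTheory Filter Topology

theorem ae_delta : ∀ᵐ z : ℂ, ∀ m : ℕ, ∃ δ : ℝ, 0 < δ ∧ ∀ c ≤ m, ∀ B : Fin c → Fin c → Bool,
    δ * ‖z‖ ^ c ≤ ‖(Mz B z).det‖ := by
  have h : ∀ᵐ z : ℂ, ∀ c : ℕ, ∀ B : Fin c → Fin c → Bool, (Mz B z).det ≠ 0 := by
    rw [ae_all_iff]
    intro c
    rw [ae_all_iff]
    intro B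
    have h1 := (Polynomial.finite_setOfPred_isRoot (Am B).charpoly_monic.ne_zero).measure_zero
      (volume : Measure ℂ)
    rw [ae_iff]
    refine measure_mono_null (fun z hz => ?_) h1
    have h2 : Matrix.scalar (Fin c) z - Am B = -Mz B z := by
      unfold Mz Am
      rw [neg_sub, Matrix.smul_one_eq_diagonal, Matrix.scalar_apply]
    have h3 : (Mz B z).det = 0 := not_not.1 hz
    show (Am B).charpoly.eval z = 0
    rw [Matrix.eval_charpoly, h2, Matrix.det_neg, h3, mul_zero]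
  filter_upwards [h] with z hz m
  have h1 : ∀ᶠ δ : ℝ in 𝓝 0, ∀ c ∈ range (m + 1), ∀ B : Fin c → Fin c → Bool,
      δ * ‖z‖ ^ c ≤ ‖(Mz B z).det‖ := by
    rw [eventually_all_finset]
    intro c _
    rw [eventually_all]
    intro B
    have h2 : Tendsto (fun δ : ℝ => δ * ‖z‖ ^ c) (𝓝 0) (𝓝 0) := by
      simpa using (tendsto_id (x := 𝓝 (0 : ℝ))).mul_const (‖z‖ ^ c)
    exact h2.eventually (eventually_le_nhds (norm_pos_iff.2 (hz c B)))
  obtain ⟨δ, hδ, hδ0⟩ := ((h1.filter_mono nhdsWithin_le_nhds).and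
    (self_mem_nhdsWithin (s := Set.Ioi (0 : ℝ)))).exists
  exact ⟨δ, hδ0, fun c hc B => hδ c (mem_range.2 (by omega)) B⟩

variable {V : Type} [Fintype V] [DecidableEq V]

/-- the typical subcritical structure -/
def Nice (k m r : ℕ) (B : V → V → Bool) : Prop :=
  (¬ ∃ x : Fin (k + 1) → V, IsP B x) ∧ (Cy k B).card ≤ m ∧
    ∀ i, (Ds univ {i} B).card ≤ r ∧ ∑ a ∈ Ds univ {i} B, od B a ≤ (Ds univ {i} B).card

theorem not_nice (α : ℝ) (a0 : 0 < α) (a1 : α < 1) (n : ℕ) (hn : Fintype.card V = n) (k m r : ℕ)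
    (hm : 0 < m) (hr : 0 < r) (hrn : (r : ℝ) ^ 2 ≤ n) :
    Ex (α / n) (fun B : V → V → Bool => ind (¬ Nice k m r B)) ≤ n * α ^ k + (1 - α)⁻¹ / m +
      n * (α⁻¹ / (α⁻¹ * Real.exp (α - 1)) ^ r) + n * (3 * (r : ℝ) ^ 4 / (n : ℝ) ^ 2) := by
  have hr0 : (0 : ℝ) < r := by exact_mod_cast hr
  have hn0 : (0 : ℝ) < n := lt_of_lt_of_le (by positivity) hrn
  have hn1 : 0 < n := by exact_mod_cast hn0
  have h0 : 0 ≤ α / n := by positivity
  have h1 := p_le a1.le hn1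
  have hpt : ∀ B : V → V → Bool, ind (¬ Nice k m r B) ≤
      ind (∃ x : Fin (k + 1) → V, IsP B x) + ind (m < (Cy k B).card) +
      (∑ u, ind (r < (Ds univ {u} B).card)) + ∑ u, ind ((Ds univ {u} B).card ≤ r ∧
        (Ds univ {u} B).card + 1 ≤ ∑ a ∈ Ds univ {u} B, od B a) := by
    intro B
    have b1 := ind_nonneg (∃ x : Fin (k + 1) → V, IsP B x)
    have b2 := ind_nonneg (m < (Cy k B).card)
    have b3 : 0 ≤ ∑ u, ind (r < (Ds univ {u} B).card) := sum_nonneg fun _ _ => ind_nonneg _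
    have b4 : 0 ≤ ∑ u, ind ((Ds univ {u} B).card ≤ r ∧
        (Ds univ {u} B).card + 1 ≤ ∑ a ∈ Ds univ {u} B, od B a) :=
      sum_nonneg fun _ _ => ind_nonneg _
    refine ind_le (by linarith) fun h => ?_
    by_cases c1 : ∃ x : Fin (k + 1) → V, IsP B x
    · rw [ind_pos c1]; linarith
    by_cases c2 : m < (Cy k B).card
    · rw [ind_pos c2]; linarith
    have c3 : ∃ i, ¬ ((Ds univ {i} B).card ≤ r ∧
        ∑ a ∈ Ds univ {i} B, od B a ≤ (Ds univ {i} B).card) := by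
      by_contra c3
      exact h ⟨c1, not_lt.1 c2, fun i => by_contra fun h' => c3 ⟨i, h'⟩⟩
    obtain ⟨i, hi⟩ := c3
    by_cases c4 : r < (Ds univ {i} B).card
    · have := single_le_sum (f := fun u => ind (r < (Ds univ {u} B).card))
        (fun _ _ => ind_nonneg _) (mem_univ i)
      rw [ind_pos c4] at this
      linarith
    · have := single_le_sum (f := fun u => ind ((Ds univ {u} B).card ≤ r ∧
        (Ds univ {u} B).card + 1 ≤ ∑ a ∈ Ds univ {u} B, od B a))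
        (fun _ _ => ind_nonneg _) (mem_univ i)
      rw [ind_pos ⟨by omega, by omega⟩] at this
      linarith
  refine (Ex_mono h0 h1 hpt).trans ?_
  rw [Ex_add, Ex_add, Ex_add, Ex_sum, Ex_sum]
  have e1 := long_sub (V := V) α a0.le a1.le n hn hn1 k
  have e2 := Cy_sub (V := V) α a0.le a1 n hn hn1 k m hm
  have e3 := sum_le_sum fun u (_ : u ∈ (univ : Finset V)) => tail_sub α a0 a1.le n hn u r
  have e4 := sum_le_sum fun u (_ : u ∈ (univ : Finset V)) =>
    tail_excess α a0.le a1.le n hn u r hr hrn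
  rw [sum_const, card_univ, hn, nsmul_eq_mul] at e3 e4
  linarith

theorem master_sub (α : ℝ) (a0 : 0 < α) (a1 : α < 1) (n k l m r : ℕ) (hm : 0 < m) (hr : 0 < r)
    (hrn : (r : ℝ) ^ 2 ≤ n) (hl : 3 * (l : ℝ) ^ 3 ≤ n) (z : ℂ) (hz0 : 0 < ‖z‖) (L δ : ℝ)
    (hL1 : 1 ≤ L) (hL2 : 1 ≤ L * ‖z‖)
    (hδ : ∀ c ≤ m, ∀ B : Fin c → Fin c → Bool, δ * ‖z‖ ^ c ≤ ‖(Mz B z).det‖)
    (t1 t2 : ℝ) (ht1 : ‖z‖ ^ (l + 1) ≤ t1) (ht2 : 0 ≤ t2)
    (ht : ((k * (r * 2 * m ^ m) : ℕ) : ℝ) * ((2 * L) ^ m * L ^ k) * t2 < δ) :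
    1 - Ex (α / n) (fun B : Fin n → Fin n → Bool => ind (Sm B z t1 ∧ ¬ Sm B z t2)) ≤
      2 * (n * α ^ k + (1 - α)⁻¹ / m + n * (α⁻¹ / (α⁻¹ * Real.exp (α - 1)) ^ r) +
        n * (3 * (r : ℝ) ^ 4 / (n : ℝ) ^ 2)) +
      ((((l : ℝ) + 1) ^ 2 + 2 * k * ((l : ℝ) + 1) ^ 2) / n + 3 * (l : ℝ) ^ 3 / (n * α ^ l)) := by
  have hr0 : (0 : ℝ) < r := by exact_mod_cast hr
  have hn0 : (0 : ℝ) < n := lt_of_lt_of_le (by positivity) hrn
  have hn1 : 0 < n := by exact_mod_cast hn0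
  have h0 : 0 ≤ α / n := by positivity
  have h1 := p_le a1.le hn1
  have hpt : ∀ B : Fin n → Fin n → Bool, 1 - ind (Sm B z t1 ∧ ¬ Sm B z t2) ≤
      ind (¬ Nice k m r B) + ind (¬ Nice k m r (fun i j => B j i)) +
      ind (¬ ∃ y : Fin (l + 1) → Fin n, IsP B y ∧ ¬ Bad k B y) := by
    intro B
    have a0 := ind_nonneg (Sm B z t1 ∧ ¬ Sm B z t2)
    have a1 := ind_nonneg (¬ Nice k m r B)
    have a2 := ind_nonneg (¬ Nice k m r (fun i j => B j i))
    have a3 := ind_nonneg (¬ ∃ y : Fin (l + 1) → Fin n, IsP B y ∧ ¬ Bad k B y)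
    by_cases b1 : ¬ Nice k m r B
    · rw [ind_pos b1]; linarith
    by_cases b2 : ¬ Nice k m r (fun i j => B j i)
    · rw [ind_pos b2]; linarith
    by_cases b3 : ¬ ∃ y : Fin (l + 1) → Fin n, IsP B y ∧ ¬ Bad k B y
    · rw [ind_pos b3]; linarith
    obtain ⟨y, hy, hb⟩ := not_not.1 b3
    obtain ⟨d1, d2, d3⟩ := not_not.1 b1
    obtain ⟨f1, f2, f3⟩ := not_not.1 b2
    have c1 : Sm B z t1 := (det_up d1 hy hb z).mono (by positivity) ht1
    have c2 : ¬ Sm B z t2 := by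
      refine schur B z _ t2 (by positivity) ht2
        (fun i => adj_row d1 d2 hm i (d3 i).1 (d3 i).2 z hz0 L hL1 hL2)
        (fun i => adj_row f1 f2 hm i (f3 i).1 (f3 i).2 z hz0 L hL1 hL2) ?_
      obtain ⟨B', hB'⟩ := det_core d1 z
      have g1 := mul_le_mul_of_nonneg_right (hδ _ d2 B')
        (by positivity : 0 ≤ ‖z‖ ^ (Fintype.card (Fin n) - (Cy k B).card))
      rw [← hB', mul_assoc, ← pow_add, Nat.add_sub_cancel' (card_le_univ _)] at g1
      have g2 := mul_lt_mul_of_pos_right ht (pow_pos hz0 (Fintype.card (Fin n)))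
      refine lt_of_lt_of_le (lt_of_eq_of_lt (by ring) g2) g1
    rw [ind_pos ⟨c1, c2⟩]
    linarith
  have h2 := Ex_mono h0 h1 hpt
  rw [Ex_sub, Ex_const, Ex_add, Ex_add, Ex_flip _ (fun B => ind (¬ Nice k m r B))] at h2
  have h3 := not_nice (V := Fin n) α a0 a1 n (by simp) k m r hm hr hrn
  have h5 := good_path' (V := Fin n) α a0 a1.le n (by simp) hn1 k l hl
  linarith

theorem core_sub (α : ℝ) (a0 : 0 < α) (a1 : α < 1) (n m : ℕ) (hm : 0 < m) (z : ℂ) (hz0 : 0 < ‖z‖)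
    (γ g ε e δ w A E : ℝ) (hg : α = Real.exp (-g)) (hg0 : 0 < g) (hγ0 : 0 ≤ γ)
    (hγ1 : 1 ≤ Real.exp (γ * g) * ‖z‖) (hγ2 : ‖z‖ = Real.exp (-(γ * g)) ∨ γ = 0)
    (he0 : 0 < e) (he1 : e ≤ 1 / 2) (he2 : e * γ + e ≤ ε)
    (hδ : ∀ c ≤ m, ∀ B : Fin c → Fin c → Bool, δ * ‖z‖ ^ c ≤ ‖(Mz B z).det‖)
    (hn : (n : ℝ) = Real.exp w) (hw : 1 ≤ w) (hA : A = 2 / g + 1) (hE : E = w ^ 8 * Real.exp (-(e * w)))
    (h1 : 2 ≤ w * Real.log (α⁻¹ * Real.exp (α - 1))) (h2 : ‖z‖ ≤ Real.exp (ε * w))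
    (h3 : 4 * E ≤ 1) (h4 : 3 * A ^ 3 * E ≤ 1)
    (h5 : 4 * A * (m : ℝ) ^ m * (2 * Real.exp (γ * g)) ^ m * Real.exp (γ * g) * E < δ) :
    1 - Ex (α / n) (fun B : Fin n → Fin n → Bool =>
      ind (Sm B z (Real.exp ((-γ + ε) * w)) ∧ ¬ Sm B z (Real.exp ((-γ - ε) * w)))) ≤
      2 * ((1 - α)⁻¹ / m) + (98 + 2 * α⁻¹ + A ^ 2 + 5 * A ^ 3) * E := by
  classical
  have hw0 : 0 < w := by linarith
  have hn0 : (0 : ℝ) < n := by rw [hn]; positivity
  have hA1 : 1 ≤ A := by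
    have : 0 < 2 / g := by positivity
    linarith
  have hEj : ∀ j, j ≤ 8 → ∀ x, e * w ≤ x → w ^ j * Real.exp (-x) ≤ E := by
    intro j hj x hx
    rw [hE]
    exact mul_le_mul (pow_le_pow_right₀ hw hj) (Real.exp_le_exp.2 (by linarith))
      (by positivity) (by positivity)
  have hew : e * w ≤ w := by nlinarith
  have hinv : Real.exp (-w) = (n : ℝ)⁻¹ := by rw [hn, Real.exp_neg]
  have hEn : ∀ j, j ≤ 8 → w ^ j / n ≤ E := by
    intro j hj
    rw [div_eq_mul_inv, ← hinv]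
    exact hEj j hj w hew
  set k := ⌈(1 + e) * w / g⌉₊ with hk
  have hk1 : (1 + e) * w / g ≤ k := Nat.le_ceil _
  have hk2 : (k : ℝ) ≤ (1 + e) * w / g + 1 := (Nat.ceil_lt_add_one (by positivity)).le
  have hwg : (1 + e) * w / g ≤ 2 / g * w := by
    rw [div_mul_eq_mul_div]
    exact div_le_div_of_nonneg_right (by nlinarith) hg0.le
  have hk3 : (k : ℝ) ≤ A * w := by
    rw [hA]
    linarith
  set r := ⌈w ^ 2⌉₊ with hr
  have hr1 : w ^ 2 ≤ r := Nat.le_ceil _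
  have hw2 : 1 ≤ w ^ 2 := one_le_pow₀ hw
  have hr2 : (r : ℝ) ≤ 2 * w ^ 2 := by
    have := Nat.ceil_lt_add_one (a := w ^ 2) (by positivity)
    linarith
  have hr0 : 0 < r := by
    have : (0 : ℝ) < r := by linarith
    exact_mod_cast this
  obtain ⟨l, hl1, hl2⟩ : ∃ l : ℕ, (l : ℝ) ≤ (1 - e) * w / g ∧
      ‖z‖ ^ (l + 1) ≤ Real.exp ((-γ + ε) * w) := by
    have hp : 0 ≤ (1 - e) * w / g := div_nonneg (mul_nonneg (by linarith) hw0.le) hg0.le
    rcases hγ2 with h | h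
    · refine ⟨⌊(1 - e) * w / g⌋₊, Nat.floor_le hp, ?_⟩
      rw [h, ← Real.exp_nat_mul]
      apply Real.exp_le_exp.2
      have b1 := (Nat.lt_floor_add_one ((1 - e) * w / g)).le
      have b2 := mul_le_mul_of_nonneg_right b1 (mul_nonneg hγ0 hg0.le)
      have b3 : (1 - e) * w / g * (γ * g) = (1 - e) * w * γ := by field_simp
      have b4 := mul_le_mul_of_nonneg_right he2 hw0.le
      push_cast
      nlinarith
    · exact ⟨0, by simpa using hp, by simpa [h] using h2⟩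
  have hl0 : (0 : ℝ) ≤ l := Nat.cast_nonneg _
  have hl3 : (l : ℝ) + 1 ≤ A * w := by
    have : (1 - e) * w / g ≤ (1 + e) * w / g :=
      div_le_div_of_nonneg_right (by nlinarith) hg0.le
    rw [hA]
    linarith
  have hl4 : (l : ℝ) ^ 3 ≤ A ^ 3 * w ^ 3 := by
    rw [← mul_pow]
    exact pow_le_pow_left₀ hl0 (by linarith) 3
  have hl5 : ((l : ℝ) + 1) ^ 2 ≤ A ^ 2 * w ^ 2 := by
    rw [← mul_pow]
    exact pow_le_pow_left₀ (by linarith) hl3 2
  have key := master_sub α a0 a1 n k l m r hm hr0 ?_ ?_ z hz0 (Real.exp (γ * g)) δ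
    (Real.one_le_exp (by positivity)) hγ1 hδ _ (Real.exp ((-γ - ε) * w)) hl2 (Real.exp_pos _).le ?_
  · refine key.trans ?_
    have e1 : n * α ^ k ≤ E := by
      rw [hn, hg, ← Real.exp_nat_mul, ← Real.exp_add]
      have b1 := hEj 0 (by norm_num) (-(w + k * -g)) (by
        rw [div_le_iff₀ hg0] at hk1
        linarith)
      simpa using b1
    have e2 : n * (α⁻¹ / (α⁻¹ * Real.exp (α - 1)) ^ r) ≤ α⁻¹ * E := by
      have hθ : 0 < α⁻¹ * Real.exp (α - 1) := by positivity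
      have hlog : 0 ≤ Real.log (α⁻¹ * Real.exp (α - 1)) := by
        by_contra h
        nlinarith
      rw [mul_div_left_comm, ← Real.exp_log hθ, ← Real.exp_nat_mul, hn, ← Real.exp_sub]
      refine mul_le_mul_of_nonneg_left ?_ (by positivity)
      have b1 := hEj 0 (by norm_num) (-(w - r * Real.log (α⁻¹ * Real.exp (α - 1)))) (by
        have b2 := mul_le_mul_of_nonneg_right hr1 hlog
        have b3 := mul_le_mul_of_nonneg_left h1 hw0.le
        nlinarith)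
      simpa using b1
    have e3 : n * (3 * (r : ℝ) ^ 4 / (n : ℝ) ^ 2) ≤ 48 * E := by
      have b1 := hEn 8 le_rfl
      have b2 : (r : ℝ) ^ 4 ≤ (2 * w ^ 2) ^ 4 := pow_le_pow_left₀ (by positivity) hr2 4
      have b3 : n * (3 * (r : ℝ) ^ 4 / (n : ℝ) ^ 2) = 3 * (r : ℝ) ^ 4 / n := by field_simp
      have b4 : 3 * (r : ℝ) ^ 4 / n ≤ 48 * w ^ 8 / n :=
        div_le_div_of_nonneg_right (by nlinarith) hn0.le
      rw [mul_div_assoc 48] at b4
      linarith
    have e4 : (((l : ℝ) + 1) ^ 2 + 2 * k * ((l : ℝ) + 1) ^ 2) / n ≤ (A ^ 2 + 2 * A ^ 3) * E := by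
      have b1 := mul_le_mul_of_nonneg_left (hEn 2 (by norm_num)) (by positivity : 0 ≤ A ^ 2)
      have b2 := mul_le_mul_of_nonneg_left (hEn 3 (by norm_num)) (by positivity : 0 ≤ 2 * A ^ 3)
      have b3 := mul_le_mul hk3 hl5 (by positivity) (by positivity)
      have b4 : (((l : ℝ) + 1) ^ 2 + 2 * k * ((l : ℝ) + 1) ^ 2) / n ≤
          (A ^ 2 * w ^ 2 + 2 * A ^ 3 * w ^ 3) / n :=
        div_le_div_of_nonneg_right (by nlinarith) hn0.le
      rw [add_div (A ^ 2 * w ^ 2), mul_div_assoc, mul_div_assoc] at b4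
      linarith
    have e5 : 3 * (l : ℝ) ^ 3 / (n * α ^ l) ≤ 3 * A ^ 3 * E := by
      rw [hn, hg, ← Real.exp_nat_mul, ← Real.exp_add, div_eq_mul_inv, ← Real.exp_neg]
      have b1 := hEj 3 (by norm_num) (w + l * -g) (by
        rw [le_div_iff₀ hg0] at hl1
        linarith)
      have b2 := mul_le_mul_of_nonneg_left b1 (by positivity : 0 ≤ 3 * A ^ 3)
      have b3 := mul_le_mul_of_nonneg_right hl4 (Real.exp_pos (-(w + l * -g))).le
      nlinarith
    linarith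
  · have b1 := hEn 4 (by norm_num)
    rw [div_le_iff₀ hn0] at b1
    have b2 : (r : ℝ) ^ 2 ≤ (2 * w ^ 2) ^ 2 := pow_le_pow_left₀ (by positivity) hr2 2
    have b3 := mul_le_mul_of_nonneg_right h3 hn0.le
    nlinarith
  · have b1 := hEn 3 (by norm_num)
    rw [div_le_iff₀ hn0] at b1
    have b2 := mul_le_mul_of_nonneg_left b1 (by positivity : 0 ≤ 3 * A ^ 3)
    have b3 := mul_le_mul_of_nonneg_right h4 hn0.le
    nlinarith
  · refine lt_of_le_of_lt ?_ h5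
    have b1 : Real.exp (γ * g) ^ k * Real.exp ((-γ - ε) * w) ≤
        Real.exp (γ * g) * Real.exp (-(e * w)) := by
      rw [← Real.exp_nat_mul, ← Real.exp_add, ← Real.exp_add]
      apply Real.exp_le_exp.2
      have b2 := mul_le_mul_of_nonneg_right hk2 (mul_nonneg hγ0 hg0.le)
      have b3 : ((1 + e) * w / g + 1) * (γ * g) = (1 + e) * w * γ + γ * g := by field_simp
      have b4 := mul_le_mul_of_nonneg_right he2 hw0.le
      nlinarith
    have b2 := hEj 3 (by norm_num) (e * w) le_rfl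
    push_cast
    calc (k : ℝ) * (r * 2 * (m : ℝ) ^ m) * ((2 * Real.exp (γ * g)) ^ m * Real.exp (γ * g) ^ k) *
          Real.exp ((-γ - ε) * w)
        = k * r * (2 * (m : ℝ) ^ m * (2 * Real.exp (γ * g)) ^ m) *
          (Real.exp (γ * g) ^ k * Real.exp ((-γ - ε) * w)) := by ring
      _ ≤ (A * w) * (2 * w ^ 2) * (2 * (m : ℝ) ^ m * (2 * Real.exp (γ * g)) ^ m) *
          (Real.exp (γ * g) * Real.exp (-(e * w))) := by gcongr
      _ = 4 * A * (m : ℝ) ^ m * (2 * Real.exp (γ * g)) ^ m * Real.exp (γ * g) *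
          (w ^ 3 * Real.exp (-(e * w))) := by ring
      _ ≤ _ := by gcongr

theorem subcritical (α : ℝ) (a0 : 0 < α) (a1 : α < 1) : ∀ᵐ z : ℂ, ∀ ε : ℝ, 0 < ε →
    Tendsto (fun n : ℕ => Ex (α / n) (fun B : Fin n → Fin n → Bool =>
      ind (Sm B z ((n : ℝ) ^ (-max 0 (Real.log ‖z‖ / Real.log α) + ε)) ∧
        ¬ Sm B z ((n : ℝ) ^ (-max 0 (Real.log ‖z‖ / Real.log α) - ε))))) atTop (𝓝 1) := by
  filter_upwards [ae_delta, Measure.ae_ne volume (0 : ℂ)] with z hz hz0 ε hε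
  have ha : 0 < ‖z‖ := norm_pos_iff.2 hz0
  set γ := max 0 (Real.log ‖z‖ / Real.log α) with hγ
  have hγ0 : 0 ≤ γ := le_max_left _ _
  have hlα : Real.log α < 0 := Real.log_neg a0 a1
  set g := -Real.log α with hg
  have hg0 : 0 < g := by linarith
  have hcanc : Real.log ‖z‖ / Real.log α * g = -Real.log ‖z‖ := by
    rw [hg]
    field_simp [hlα.ne]
  have hγ1 : 1 ≤ Real.exp (γ * g) * ‖z‖ := by
    have h1 := mul_le_mul_of_nonneg_right (le_max_right 0 (Real.log ‖z‖ / Real.log α)) hg0.le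
    rw [hcanc] at h1
    rw [← Real.exp_log ha, ← Real.exp_add]
    exact Real.one_le_exp (by linarith)
  have hγ2 : ‖z‖ = Real.exp (-(γ * g)) ∨ γ = 0 := by
    rcases max_choice 0 (Real.log ‖z‖ / Real.log α) with h | h
    · exact Or.inr h
    · left
      rw [hγ, h, hcanc, neg_neg, Real.exp_log ha]
  set e := min (1 / 2) (ε / (γ + 1)) with he
  have he0 : 0 < e := lt_min (by norm_num) (by positivity)
  have he2 : e * γ + e ≤ ε := by
    have h1 : e ≤ ε / (γ + 1) := min_le_right _ _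
    rw [le_div_iff₀ (by positivity)] at h1
    linarith
  have hθ : 0 < Real.log (α⁻¹ * Real.exp (α - 1)) := by
    apply Real.log_pos
    rw [← div_eq_inv_mul, lt_div_iff₀ a0]
    linarith [Real.add_one_lt_exp (x := α - 1) (by linarith)]
  have hw : Tendsto (fun n : ℕ => Real.log n) atTop atTop :=
    Real.tendsto_log_atTop.comp tendsto_natCast_atTop_atTop
  have hE : ∀ C : ℝ, Tendsto (fun n : ℕ => C * (Real.log n ^ 8 * Real.exp (-(e * Real.log n))))
      atTop (𝓝 0) := by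
    intro C
    have h1 := ((Real.tendsto_pow_mul_exp_neg_atTop_nhds_zero 8).comp
      (hw.const_mul_atTop he0)).const_mul (C / e ^ 8)
    rw [mul_zero] at h1
    refine h1.congr fun n => ?_
    simp only [Function.comp_apply]
    field_simp
  refine tendsto_order.2 ⟨fun b hb => ?_, fun b hb => ?_⟩
  · obtain ⟨m, hm⟩ := exists_nat_gt (4 * (1 - α)⁻¹ / (1 - b))
    have hα' : 0 < (1 - α)⁻¹ := inv_pos.2 (by linarith)
    have hm0 : (0 : ℝ) < m := lt_trans (div_pos (by positivity) (by linarith)) hm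
    have hm1 : 2 * ((1 - α)⁻¹ / m) < (1 - b) / 2 := by
      rw [div_lt_iff₀ (by linarith)] at hm
      rw [← mul_div_assoc, div_lt_div_iff₀ hm0 (by norm_num)]
      linarith
    obtain ⟨δ, hδ0, hδ⟩ := hz m
    filter_upwards [hw.eventually_ge_atTop 1, eventually_ge_atTop 1,
      (hw.atTop_mul_const hθ).eventually_ge_atTop 2,
      (hw.const_mul_atTop hε).eventually_ge_atTop ‖z‖,
      (hE 4).eventually (eventually_le_nhds one_pos),
      (hE (3 * (2 / g + 1) ^ 3)).eventually (eventually_le_nhds one_pos),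
      (hE (4 * (2 / g + 1) * (m : ℝ) ^ m * (2 * Real.exp (γ * g)) ^ m *
        Real.exp (γ * g))).eventually (eventually_lt_nhds hδ0),
      (hE (98 + 2 * α⁻¹ + (2 / g + 1) ^ 2 + 5 * (2 / g + 1) ^ 3)).eventually
        (eventually_lt_nhds (by linarith : 0 < (1 - b) / 2))] with n c1 c2 c3 c4 c5 c6 c7 c8
    have hn0 : (0 : ℝ) < n := by exact_mod_cast c2
    have := core_sub α a0 a1 n m (by exact_mod_cast hm0) z ha γ g ε e δ (Real.log n) _ _
      (by rw [hg, neg_neg, Real.exp_log a0]) hg0 hγ0 hγ1 hγ2 he0 (min_le_left _ _) he2 hδ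
      (Real.exp_log hn0).symm c1 rfl rfl c3 (by linarith [Real.add_one_le_exp (ε * Real.log n)])
      c5 c6 c7
    rw [Real.rpow_def_of_pos hn0, Real.rpow_def_of_pos hn0, mul_comm (Real.log n),
      mul_comm (Real.log n)]
    linarith
  · filter_upwards [eventually_ge_atTop 1] with n hn
    exact lt_of_le_of_lt ((Ex_mono (by positivity) (p_le a1.le hn) fun B => ind_le_one _).trans
      (Ex_one _).le) hb

end Pool.Agent.Fa2423
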