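import Pool.Agent.P.MP_fa2423_pr.StepProb
import Pool.Agent.P.MP_fa2423_pr.Sub

set_option autoImplicit false
set_option linter.unusedSectionVars false

namespace Pool.Agent.Fa2423

open Finset MeasureTheory Filter Topology Matrix
open scoped ENNReal

theorem ae_gen (Ω : ℕ → Type) [∀ n, Fintype (Ω n)] (μ : ∀ n, Ω n → ℝ) (h0 : ∀ n ω, 0 ≤ μ n ω)
    (s : ∀ n, Ω n → Finset ℂ) (r c : ℕ → ℝ) (hr : ∀ n, 0 ≤ r n) (hc : Summable c)
    (hs : ∀ n, ∑ ω, μ n ω * ((s n ω).card * (4 * r n ^ 2)) ≤ c n) :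
    ∀ᵐ z : ℂ, Tendsto (fun n : ℕ => ∑ ω, μ n ω * ind (∃ a ∈ s n ω, ‖z - a‖ < r n)) atTop (𝓝 0) := by
  classical
  let f : ℕ → ℂ → ℝ≥0∞ := fun n z => ∑ ω, ENNReal.ofReal (μ n ω) *
    ∑ a ∈ s n ω, (Metric.ball a (r n)).indicator 1 z
  have hind : ∀ (n : ℕ) (a : ℂ), Measurable fun z : ℂ =>
      (Metric.ball a (r n)).indicator (1 : ℂ → ℝ≥0∞) z := fun n a =>
    measurable_one.indicator measurableSet_ball
  have hmeas : ∀ n, Measurable (f n) := fun n =>
    Finset.measurable_sum _ fun B _ => (Finset.measurable_sum _ fun a _ => hind n a).const_mul _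
  have hint : ∀ n, ∫⁻ z, f n z ≤ ENNReal.ofReal (c n) := by
    intro n
    have e1 : ∫⁻ z, f n z = ∑ ω, ENNReal.ofReal (μ n ω) *
        ∑ a ∈ s n ω, volume (Metric.ball a (r n)) := by
      rw [lintegral_finsetSum _ fun B _ =>
        (Finset.measurable_sum _ fun a _ => hind n a).const_mul _]
      refine sum_congr rfl fun B _ => ?_
      rw [lintegral_const_mul _ (Finset.measurable_sum _ fun a _ => hind n a),
        lintegral_finsetSum _ fun a _ => hind n a]
      congr 1
      refine sum_congr rfl fun a _ => ?_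
      exact lintegral_indicator_one measurableSet_ball
    have e3 : ∀ a : ℂ, volume (Metric.ball a (r n)) ≤ ENNReal.ofReal (4 * r n ^ 2) := by
      intro a
      rw [Complex.volume_ball, ENNReal.ofReal_mul (by norm_num), mul_comm,
        ENNReal.ofReal_pow (hr n)]
      gcongr
      rw [← ENNReal.ofReal_coe_nnreal]
      exact ENNReal.ofReal_le_ofReal (by simpa using Real.pi_le_four)
    rw [e1]
    refine le_trans ?_ (ENNReal.ofReal_le_ofReal (hs n))
    rw [ENNReal.ofReal_sum_of_nonneg fun ω _ => mul_nonneg (h0 n ω) (by positivity)]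
    refine sum_le_sum fun ω _ => ?_
    rw [ENNReal.ofReal_mul (h0 n ω), ENNReal.ofReal_mul (Nat.cast_nonneg _), ENNReal.ofReal_natCast,
      ← nsmul_eq_mul, ← sum_const]
    exact mul_le_mul_right (sum_le_sum fun a _ => e3 a) _
  have hsum : ∫⁻ z, ∑' n, f n z ≠ ⊤ := by
    rw [lintegral_tsum fun n => (hmeas n).aemeasurable]
    exact ne_top_of_le_ne_top hc.tsum_ofReal_lt_top.ne (ENNReal.tsum_le_tsum hint)
  filter_upwards [ae_lt_top (Measurable.tsum hmeas) hsum] with z hz
  have ht := (ENNReal.tendsto_toReal ENNReal.zero_ne_top).comp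
    (ENNReal.tendsto_atTop_zero_of_tsum_ne_top hz.ne)
  refine squeeze_zero (fun n => sum_nonneg fun ω _ => mul_nonneg (h0 n ω) (ind_nonneg _))
    (fun n => ?_) ht
  have hne : f n z ≠ ⊤ := ENNReal.ne_top_of_tsum_ne_top hz.ne n
  rw [Function.comp_apply, ← ENNReal.ofReal_le_iff_le_toReal hne,
    ENNReal.ofReal_sum_of_nonneg fun ω _ => mul_nonneg (h0 n ω) (ind_nonneg _)]
  refine sum_le_sum fun ω _ => ?_
  rw [ENNReal.ofReal_mul (h0 n ω)]
  refine mul_le_mul_right ?_ _
  by_cases h : ∃ a ∈ s n ω, ‖z - a‖ < r n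
  · rw [ind_pos h]
    obtain ⟨a, ha, ha'⟩ := h
    refine le_trans ?_ (single_le_sum (f := fun a : ℂ =>
      (Metric.ball a (r n)).indicator (1 : ℂ → ℝ≥0∞) z) (fun _ _ => zero_le) ha)
    rw [Set.indicator_of_mem (by rw [Metric.mem_ball, dist_eq_norm]; exact ha')]
    simp
  · rw [ind_neg h]
    simp

variable {V : Type} [Fintype V] [DecidableEq V]

/-- eigenvalues of the adjacency matrix -/
noncomputable def rts (B : V → V → Bool) : Finset ℂ := (Am B).charpoly.roots.toFinset

theorem card_rts (B : V → V → Bool) : ((rts B).card : ℝ) ≤ Fintype.card V := by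
  have : (rts B).card ≤ Fintype.card V :=
    (Multiset.toFinset_card_le _).trans ((Polynomial.card_roots' _).trans (by simp))
  exact_mod_cast this

theorem det_ge (B : V → V → Bool) (z : ℂ) {r : ℝ} (hr0 : 0 ≤ r) (hr : ¬ ∃ a ∈ rts B, ‖z - a‖ < r) :
    r ^ Fintype.card V ≤ ‖(Mz B z).det‖ := by
  have h1 := (Am B).eval_charpoly z
  have h2 : Matrix.scalar V z - Am B = -Mz B z := by
    unfold Mz Am
    rw [neg_sub, Matrix.smul_one_eq_diagonal, Matrix.scalar_apply]
  rw [h2, Matrix.det_neg, (IsAlgClosed.splits _).eval_eq_prod_roots_of_monic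
    (Am B).charpoly_monic] at h1
  have h3 := congrArg norm h1
  simp only [norm_mul, norm_pow, norm_neg, norm_one, one_pow, one_mul] at h3
  have h4 : ∀ s : Multiset ℂ, (∀ a ∈ s, r ≤ ‖z - a‖) →
      r ^ s.card ≤ ‖(s.map fun a => z - a).prod‖ := by
    intro s
    induction s using Multiset.induction_on with
    | empty => simp
    | cons a s ih =>
      intro h
      rw [Multiset.map_cons, Multiset.prod_cons, norm_mul, Multiset.card_cons, pow_succ']
      exact mul_le_mul (h a (Multiset.mem_cons_self _ _))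
        (ih fun b hb => h b (Multiset.mem_cons_of_mem hb)) (by positivity) (norm_nonneg _)
  have h5 := h4 (Am B).charpoly.roots fun a ha =>
    not_lt.1 fun h => hr ⟨a, Multiset.mem_toFinset.2 ha, h⟩
  rwa [IsAlgClosed.card_roots_eq_natDegree, Matrix.charpoly_natDegree_eq_dim, h3] at h5

/-- number of edges -/
def eds (B : V → V → Bool) : ℕ := ∑ i, ∑ j, if B i j then 1 else 0

theorem pow_eds (x : ℝ) (B : V → V → Bool) : x ^ eds B = ∏ i, ∏ j, if B i j then x else 1 := by
  simp only [eds, ← prod_pow_eq_pow_sum, pow_ite, pow_one, pow_zero]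

theorem count_eds (c : ℕ) : ∑ B : Fin c → Fin c → Bool, ind (eds B ≤ 2 * c) ≤
    3 * ((c : ℝ) + 1) ^ (4 * c) := by
  have h1 : ∀ B : Fin c → Fin c → Bool, ind (eds B ≤ 2 * c) ≤
      (1 / ((c : ℝ) + 1) ^ 2) ^ eds B * ((c : ℝ) + 1) ^ (4 * c) := fun B =>
    ind_le (by positivity) fun h => by
      rw [one_div, inv_pow, ← div_eq_inv_mul, le_div_iff₀ (by positivity), one_mul, ← pow_mul]
      exact pow_le_pow_right₀ (by simp) (by omega)
  refine (sum_le_sum fun B _ => h1 B).trans ?_
  rw [← sum_mul]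
  refine mul_le_mul_of_nonneg_right ?_ (by positivity)
  simp only [pow_eds]
  rw [sum_conf fun _ _ t => if t then 1 / ((c : ℝ) + 1) ^ 2 else 1]
  simp only [if_true, Bool.false_eq_true, if_false, prod_const, card_univ, Fintype.card_fin,
    ← pow_mul]
  refine (pow_le_pow_left₀ (by positivity) (Real.add_one_le_exp _) _).trans ?_
  rw [← Real.exp_nat_mul]
  refine le_trans (Real.exp_le_exp.2 ?_) Real.exp_one_lt_three.le
  rw [mul_one_div, div_le_one (by positivity)]
  push_cast
  nlinarith [Nat.cast_nonneg (α := ℝ) c]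

theorem ae_small : ∀ᵐ z : ℂ, ∃ δ : ℝ, 0 < δ ∧ ∀ (U : Type) [Fintype U] [DecidableEq U]
    (B : U → U → Bool), eds B ≤ 2 * Fintype.card U →
      δ * (1 / ((Fintype.card U : ℝ) + 1)) ^ (3 * Fintype.card U ^ 2) ≤ ‖(Mz B z).det‖ := by
  have h := ae_gen (fun c => Fin c → Fin c → Bool) (fun c B => ind (eds B ≤ 2 * c))
    (fun _ _ => ind_nonneg _) (fun _ B => rts B) (fun c => (1 / ((c : ℝ) + 1)) ^ (3 * c))
    (fun c => 12 * ((c : ℝ) ^ 1 * (1 / 2) ^ c)) (fun _ => by positivity)
    ((summable_pow_mul_geometric_of_norm_lt_one (R := ℝ) 1 (by norm_num)).mul_left 12) fun c => by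
      refine (sum_le_sum (g := fun B : Fin c → Fin c → Bool => ind (eds B ≤ 2 * c) *
        ((c : ℝ) * (4 * ((1 / ((c : ℝ) + 1)) ^ (3 * c)) ^ 2))) fun B _ => mul_le_mul_of_nonneg_left
          (mul_le_mul_of_nonneg_right (by simpa using card_rts B) (by positivity))
          (ind_nonneg _)).trans ?_
      rw [← sum_mul]
      refine (mul_le_mul_of_nonneg_right (count_eds c) (by positivity)).trans ?_
      rcases Nat.eq_zero_or_pos c with rfl | hc
      · simp
      have c1 : (1 : ℝ) ≤ c := by exact_mod_cast hc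
      have h1 : (1 / ((c : ℝ) + 1)) ^ (2 * c) ≤ (1 / 2) ^ c :=
        (pow_le_pow_left₀ (by positivity) (one_div_le_one_div_of_le two_pos (by linarith)) _).trans
          (pow_le_pow_of_le_one (by norm_num) (by norm_num) (by omega))
      have h2 : ((c : ℝ) + 1) ^ (4 * c) * (1 / ((c : ℝ) + 1)) ^ (4 * c) = 1 := by
        rw [← mul_pow, mul_one_div_cancel (by positivity), one_pow]
      calc 3 * ((c : ℝ) + 1) ^ (4 * c) * (c * (4 * ((1 / ((c : ℝ) + 1)) ^ (3 * c)) ^ 2)) =
            ((c : ℝ) + 1) ^ (4 * c) * (1 / ((c : ℝ) + 1)) ^ (4 * c) *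
              (12 * (c ^ 1 * (1 / ((c : ℝ) + 1)) ^ (2 * c))) := by
            generalize 1 / ((c : ℝ) + 1) = y
            ring
        _ ≤ _ := by rw [h2, one_mul]; gcongr
  filter_upwards [h, ae_delta, Measure.ae_ne volume (0 : ℂ)] with z hz hz' hz0
  obtain ⟨m, hm⟩ := eventually_atTop.1 (hz.eventually (eventually_lt_nhds one_pos))
  obtain ⟨δ, hδ, hδ'⟩ := hz' m
  have z0 : 0 < min 1 ‖z‖ := lt_min one_pos (norm_pos_iff.2 hz0)
  refine ⟨min 1 (δ * min 1 ‖z‖ ^ m), lt_min one_pos (by positivity), fun U _ _ B hB => ?_⟩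
  have e1 : (Mz B z).det = (Mz (fun i j => B ((Fintype.equivFin U).symm i)
      ((Fintype.equivFin U).symm j)) z).det := by
    rw [← Matrix.det_submatrix_equiv_self (Fintype.equivFin U).symm]
    refine congrArg Matrix.det ?_
    ext i j
    simp [Mz_apply]
  have e2 : eds B = eds (fun i j => B ((Fintype.equivFin U).symm i)
      ((Fintype.equivFin U).symm j)) := by
    unfold eds
    rw [← (Fintype.equivFin U).symm.sum_comp]
    exact sum_congr rfl fun i _ => ((Fintype.equivFin U).symm.sum_comp _).symm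
  rw [e1]
  rw [e2] at hB
  generalize (fun i j => B ((Fintype.equivFin U).symm i) ((Fintype.equivFin U).symm j)) = B' at hB ⊢
  rcases le_total (Fintype.card U) m with hc | hc
  · refine le_trans ?_ (hδ' _ hc B')
    refine (mul_le_of_le_one_right (by positivity) (pow_le_one₀ (by positivity)
      ((div_le_one (by positivity)).2 (by simp)))).trans
      ((min_le_right _ _).trans (mul_le_mul_of_nonneg_left ?_ hδ.le))
    exact (pow_le_pow_of_le_one z0.le (min_le_left _ _) hc).trans
      (pow_le_pow_left₀ z0.le (min_le_right _ _) _)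
  · have h1 := det_ge B' z (r := (1 / ((Fintype.card U : ℝ) + 1)) ^ (3 * Fintype.card U))
      (by positivity) fun h => not_le.2 (hm _ hc) (le_trans (by rw [ind_pos h, ind_pos hB, one_mul])
        (single_le_sum (f := fun B => ind (eds B ≤ 2 * Fintype.card U) * ind (∃ a ∈ rts B,
          ‖z - a‖ < (1 / ((Fintype.card U : ℝ) + 1)) ^ (3 * Fintype.card U)))
        (fun _ _ => mul_nonneg (ind_nonneg _) (ind_nonneg _)) (mem_univ B')))
    rw [← pow_mul, Fintype.card_fin, mul_assoc, ← sq] at h1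
    exact (mul_le_of_le_one_left (by positivity) (min_le_left _ _)).trans h1

theorem inv_bound (B : V → V → Bool) (z : ℂ) (y : V → ℂ) (ξ : ℝ)
    (h : ∀ i, ‖(Mz B z *ᵥ y) i‖ ≤ ξ) (i : V) : ‖(Mz B z).det‖ * ‖y i‖ ≤
      Fintype.card V * ((Fintype.card V).factorial * (1 + ‖z‖) ^ Fintype.card V * ξ) := by
  have h2 : (Mz B z).det * y i = ∑ j, (Mz B z).adjugate i j * (Mz B z *ᵥ y) j := by
    have : (Mz B z).adjugate *ᵥ (Mz B z *ᵥ y) = (Mz B z).det • y := by
      rw [mulVec_mulVec, adjugate_mul, smul_mulVec, one_mulVec]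
    exact (congrFun this i).symm
  rw [← norm_mul, h2, ← nsmul_eq_mul, ← card_univ, ← sum_const]
  refine (norm_sum_le _ _).trans (sum_le_sum fun j _ => ?_)
  rw [norm_mul]
  refine mul_le_mul ?_ (h j) (norm_nonneg _) (by positivity)
  rw [adjugate_apply, ← nsmul_eq_mul]
  refine Matrix.det_le (abv := IsAbsoluteValue.toAbsoluteValue (norm : ℂ → ℝ)) fun a b => ?_
  show ‖(Mz B z).updateRow j (Pi.single i 1) a b‖ ≤ _
  rw [updateRow_apply, Pi.single_apply]
  split_ifs
  · simp
  · rw [norm_zero]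
    positivity
  · exact Mz_norm B z a b

theorem IW_mulVec (B : V → V → Bool) (z : ℂ) (W : Finset V) (w : V → ℂ) (i : V) :
    (IW B z W *ᵥ w) i = if i ∈ W then (∑ j ∈ W, if B i j then w j else 0) - z * w i else w i := by
  simp only [mulVec, dotProduct, IW, of_apply, Mz_apply]
  split_ifs with h
  · simp only [h, true_and]
    have : ∀ j, (if j ∈ W then (if B i j then (1 : ℂ) else 0) - if i = j then z else 0
        else if i = j then 1 else 0) * w j =
        (if j ∈ W then (if B i j then w j else 0) else 0) - if i = j then z * w j else 0 := by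
      intro j
      by_cases h1 : i = j
      · subst h1
        simp [h, sub_mul]
      · by_cases h2 : j ∈ W <;> simp [h1, h2]
    simp only [this, sum_sub_distrib, sum_ite_mem, univ_inter, sum_ite_eq, mem_univ, if_true]
  · simp [h]

theorem small_inv (B : V → V → Bool) (z : ℂ) (W : Finset V) (δ K : ℝ) (s0 : ℕ) (hδ : 0 < δ)
    (hz : ∀ (U : Type) [Fintype U] [DecidableEq U] (B : U → U → Bool), eds B ≤ 2 * Fintype.card U →
      δ * (1 / ((Fintype.card U : ℝ) + 1)) ^ (3 * Fintype.card U ^ 2) ≤ ‖(Mz B z).det‖)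
    (hsp : ∀ T : Finset V, T.card ≤ s0 →
      (∑ i ∈ T, ∑ j ∈ T, if B i j then 1 else 0) ≤ 2 * T.card) (hK1 : 1 ≤ K)
    (hK : s0 * (s0.factorial * (1 + ‖z‖) ^ s0) ≤ K * (δ * (1 / ((s0 : ℝ) + 1)) ^ (3 * s0 ^ 2)))
    (w : V → ℂ) (ξ : ℝ) (hξ : 0 ≤ ξ) (h : ∀ i, ‖(IW B z W *ᵥ w) i‖ ≤ ξ) : ‖w‖ ≤ 2 * K * ξ ∨
      s0 ≤ (W.filter fun j => ‖w‖ / (2 * Fintype.card V * K) ≤ ‖w j‖).card := by
  rcases isEmpty_or_nonempty V with hV | hV
  · left
    rw [Subsingleton.elim w 0, norm_zero]
    positivity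
  refine or_iff_not_imp_right.2 fun hs => ?_
  have hn : (1 : ℝ) ≤ Fintype.card V := by exact_mod_cast Fintype.card_pos
  set l := ‖w‖ / (2 * Fintype.card V * K) with hl
  have l0 : 0 ≤ l := by positivity
  have l1 : K * (Fintype.card V * l) = ‖w‖ / 2 := by
    rw [hl]
    field_simp
  have l2 : l ≤ ‖w‖ / 2 := by
    rw [← l1]
    exact (le_mul_of_one_le_left l0 hn).trans (le_mul_of_one_le_left (by positivity) hK1)
  set T := W.filter fun j => l ≤ ‖w j‖ with hT
  have hKξ : ξ ≤ K * ξ := le_mul_of_one_le_left hξ hK1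
  have key : ∀ i, ‖w i‖ ≤ K * ξ + ‖w‖ / 2 := by
    intro i
    by_cases hi : i ∈ T
    · have a1 := inv_bound (fun a b : T => B a b) z (fun a => w a) (ξ + Fintype.card V * l)
        (fun a => by
          have b1 := h a
          rw [IW_mulVec, if_pos (mem_filter.1 a.2).1, ← sum_filter_add_sum_filter_not W
            (fun j => l ≤ ‖w j‖), ← hT] at b1
          rw [Mz_mulVec, sum_coe_sort T (fun j => if B a j then w j else 0)]
          have b2 : ‖∑ j ∈ W.filter fun j => ¬ l ≤ ‖w j‖, if B a j then w j else 0‖ ≤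
              Fintype.card V * l := by
            refine (norm_sum_le _ _).trans ((sum_le_card_nsmul _ _ l fun j hj => ?_).trans ?_)
            · split_ifs
              · exact (not_le.1 (mem_filter.1 hj).2).le
              · simpa using l0
            · rw [nsmul_eq_mul]
              exact mul_le_mul_of_nonneg_right (by exact_mod_cast card_le_univ _) l0
          refine le_trans (le_of_eq ?_) ((norm_sub_le _ _).trans (add_le_add b1 b2))
          congr 1
          ring) ⟨i, hi⟩
      have a3 : T.card ≤ s0 := (not_le.1 hs).le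
      have a2 := mul_le_mul_of_nonneg_right (hz T (fun a b : T => B a b) (by
        rw [Fintype.card_coe, eds]
        refine le_trans (le_of_eq ?_) (hsp T a3)
        rw [← sum_coe_sort T]
        exact sum_congr rfl fun a _ => sum_coe_sort T fun j => if B a j then 1 else 0))
        (norm_nonneg (w i))
      rw [Fintype.card_coe] at a1 a2
      have a4 : (T.card : ℝ) * (T.card.factorial * (1 + ‖z‖) ^ T.card * (ξ + Fintype.card V * l)) ≤
          s0 * (s0.factorial * (1 + ‖z‖) ^ s0 * (ξ + Fintype.card V * l)) := by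
        have := norm_nonneg z
        gcongr
        linarith
      have a5 : δ * (1 / ((s0 : ℝ) + 1)) ^ (3 * s0 ^ 2) * ‖w i‖ ≤
          δ * (1 / ((T.card : ℝ) + 1)) ^ (3 * T.card ^ 2) * ‖w i‖ := by
        refine mul_le_mul_of_nonneg_right (mul_le_mul_of_nonneg_left ?_ hδ.le) (norm_nonneg _)
        refine (pow_le_pow_of_le_one (by positivity) ((div_le_one (by positivity)).2 (by simp))
          (Nat.mul_le_mul_left 3 (Nat.pow_le_pow_left a3 2))).trans ?_
        gcongr
      have a6 := mul_le_mul_of_nonneg_right hK (by positivity : 0 ≤ ξ + Fintype.card V * l)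
      rw [← l1]
      refine le_of_mul_le_mul_left ?_ (by positivity : 0 < δ * (1 / ((s0 : ℝ) + 1)) ^ (3 * s0 ^ 2))
      linarith
    · by_cases hW : i ∈ W
      · have := not_le.1 fun h => hi (mem_filter.2 ⟨hW, h⟩)
        linarith
      · have := h i
        rw [IW_mulVec, if_neg hW] at this
        linarith [norm_nonneg w]
  have := (pi_norm_le_iff_of_nonneg (by positivity)).2 key
  linarith

end Pool.Agent.Fa2423
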