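import Pool.Agent.P.MP_fa2423_pr.DetUp

set_option autoImplicit false
set_option linter.unusedSectionVars false

namespace Pool.Agent.Fa2423

open Finset Function

variable {V : Type} [Fintype V] [DecidableEq V]

theorem period_le {B : V → V → Bool} {k : ℕ} (hk : ¬ ∃ x : Fin (k + 1) → V, IsP B x)
    (τ : V → V) (s : V)
    (h : ∀ t, t + 1 < minimalPeriod τ s → B (τ^[t] s) (τ^[t + 1] s) = true) :
    minimalPeriod τ s ≤ k := by
  by_contra hd
  refine hk ⟨_, isP_of_nat k (fun t => τ^[t] s) (fun a b ha hb hab => ?_) fun t ht => h t (by omega)⟩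
  exact iterate_injOn_Iio_minimalPeriod (f := τ) (x := s) (by simp only [Set.mem_Iio]; omega)
    (by simp only [Set.mem_Iio]; omega) hab

theorem cyc_mem {B : V → V → Bool} {k : ℕ} (hk : ¬ ∃ x : Fin (k + 1) → V, IsP B x)
    (τ : V → V) (hτ : Injective τ) (s : V) (h : ∀ t, B (τ^[t] s) (τ^[t + 1] s) = true) :
    s ∈ Cy k B := by
  have hd := minimalPeriod_pos_of_mem_periodicPts (hτ.mem_periodicPts s)
  have hle := period_le hk τ s fun t _ => h t
  obtain ⟨d, hd'⟩ : ∃ d, minimalPeriod τ s = d + 1 := ⟨minimalPeriod τ s - 1, by omega⟩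
  refine mem_Cy.2 ⟨d, by omega, _, isP_of_nat d (fun t => τ^[t] s) (fun a b ha hb hab => ?_)
    fun t _ => h t, rfl, ?_⟩
  · exact iterate_injOn_Iio_minimalPeriod (f := τ) (x := s) (by simp only [Set.mem_Iio]; omega)
      (by simp only [Set.mem_Iio]; omega) hab
  · have h1 := h d
    rw [← hd', iterate_minimalPeriod] at h1
    exact h1

theorem orbit_struct {B : V → V → Bool} {k : ℕ} (hk : ¬ ∃ x : Fin (k + 1) → V, IsP B x)
    (τ : V → V) (hτ : Injective τ) (j : V) (h : ∀ s, s ≠ j → τ s ≠ s → B s (τ s) = true) :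
    ∃ O : Finset V, O.card ≤ k ∧ j ∈ O ∧ ∀ s, τ s ≠ s → s ∈ Cy k B ∨ s ∈ O := by
  have hd := minimalPeriod_pos_of_mem_periodicPts (hτ.mem_periodicPts (τ j))
  have hinj := iterate_injOn_Iio_minimalPeriod (f := τ) (x := τ j)
  have hle : minimalPeriod τ (τ j) ≤ k := by
    refine period_le hk τ (τ j) fun t ht => ?_
    rw [iterate_succ_apply']
    apply h
    · intro h1
      have h2 : τ^[t + 1] (τ j) = τ^[0] (τ j) := by rw [iterate_succ_apply', h1]; rfl
      have := hinj (by simp only [Set.mem_Iio]; omega) (by simp only [Set.mem_Iio]; omega) h2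
      omega
    · intro h1
      have h2 : τ^[t + 1] (τ j) = τ^[t] (τ j) := by rw [iterate_succ_apply', h1]
      have := hinj (by simp only [Set.mem_Iio]; omega) (by simp only [Set.mem_Iio]; omega) h2
      omega
  have hO : ∀ s t, τ^[t] s = j →
      s ∈ (range (minimalPeriod τ (τ j))).image fun a => τ^[a] (τ j) := by
    intro s t hst
    have hP := minimalPeriod_pos_of_mem_periodicPts (hτ.mem_periodicPts s)
    have h1 : τ^[minimalPeriod τ s * (t + 1)] s = s :=
      (isPeriodicPt_minimalPeriod τ s).mul_const (t + 1)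
    have h2 : t + 1 ≤ minimalPeriod τ s * (t + 1) := Nat.le_mul_of_pos_left _ hP
    obtain ⟨c, hc⟩ := Nat.exists_eq_add_of_le' h2
    rw [hc, iterate_add_apply, iterate_succ_apply', hst] at h1
    refine mem_image.2 ⟨c % minimalPeriod τ (τ j), mem_range.2 (Nat.mod_lt _ hd), ?_⟩
    rw [iterate_mod_minimalPeriod_eq, h1]
  refine ⟨_, card_image_le.trans (by rw [card_range]; exact hle), hO j 0 rfl, fun s hs => ?_⟩
  by_cases h1 : ∃ t, τ^[t] s = j
  · obtain ⟨t, ht⟩ := h1
    exact Or.inr (hO s t ht)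
  · push Not at h1
    refine Or.inl (cyc_mem hk τ hτ s fun t => ?_)
    rw [iterate_succ_apply']
    refine h _ (h1 t) fun h2 => hs ?_
    rw [← iterate_succ_apply' τ, iterate_succ_apply] at h2
    exact hτ.iterate t h2

theorem card_perm_supp (q : ℕ) (hV : 0 < Fintype.card V) :
    ((univ : Finset (Equiv.Perm V)).filter fun σ => σ.support.card ≤ q).card ≤
      (q + 1) * (Fintype.card V ^ 2) ^ q := by
  have h1 : ((univ : Finset (Equiv.Perm V)).filter fun σ => σ.support.card ≤ q).card ≤
      ((range (q + 1)).biUnion fun c => powersetCard c (univ : Finset (V × V))).card := by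
    refine card_le_card_of_injOn (fun σ => σ.support.image fun s => (s, σ s)) ?_ ?_
    · intro σ hσ
      simp only [coe_filter, mem_univ, true_and, Set.mem_ofPred_eq] at hσ
      rw [mem_coe]
      refine mem_biUnion.2 ⟨σ.support.card, mem_range.2 (by omega),
        mem_powersetCard.2 ⟨subset_univ _, ?_⟩⟩
      exact card_image_of_injective _ fun a b h => (Prod.ext_iff.1 h).1
    · intro σ _ σ' _ h
      have key : ∀ a b : Equiv.Perm V, (a.support.image fun s => (s, a s)) =
          (b.support.image fun s => (s, b s)) → ∀ s, a s ≠ s → a s = b s := by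
        intro a b hab s hs
        have : (s, a s) ∈ a.support.image fun s => (s, a s) :=
          mem_image_of_mem _ (Equiv.Perm.mem_support.2 hs)
        rw [hab] at this
        obtain ⟨s', -, h'⟩ := mem_image.1 this
        obtain ⟨h1, h2⟩ := Prod.ext_iff.1 h'
        simp only at h1 h2
        rw [← h2, h1]
      ext s
      by_cases h1 : σ s = s
      · by_cases h2 : σ' s = s
        · rw [h1, h2]
        · exact (key σ' σ h.symm s h2).symm
      · exact key σ σ' h s h1
  refine h1.trans (card_biUnion_le.trans ?_)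
  have h2 : ∀ c ∈ range (q + 1), (powersetCard c (univ : Finset (V × V))).card ≤
      (Fintype.card V ^ 2) ^ q := by
    intro c hc
    rw [card_powersetCard, card_univ, Fintype.card_prod, ← sq]
    exact (Nat.choose_le_pow _ _).trans
      (Nat.pow_le_pow_right (by positivity) (by have := mem_range.1 hc; omega))
  refine (sum_le_sum h2).trans (le_of_eq ?_)
  simp

theorem Mz_apply (B : V → V → Bool) (z : ℂ) (i j : V) :
    Mz B z i j = (if B i j then 1 else 0) - if i = j then z else 0 := by
  unfold Mz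
  simp [Matrix.one_apply]

theorem adj_bound {B : V → V → Bool} {k m : ℕ} (hk : ¬ ∃ x : Fin (k + 1) → V, IsP B x)
    (hm : (Cy k B).card ≤ m) (z : ℂ) (hz0 : 0 < ‖z‖) (hz1 : ‖z‖ ≤ 1) (i j : V) :
    ‖(Mz B z).adjugate i j‖ ≤ ((m + k + 1 : ℕ) : ℝ) * ((Fintype.card V : ℝ) ^ 2) ^ (m + k) *
      ((2 / ‖z‖) ^ (m + k) * ‖z‖ ^ Fintype.card V) := by
  have hV : 0 < Fintype.card V := Fintype.card_pos_iff.2 ⟨i⟩
  rw [Matrix.adjugate_apply, ← Matrix.det_transpose, Matrix.det_apply]
  refine (norm_sum_le _ _).trans ?_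
  have h2 : (1 : ℝ) ≤ 2 / ‖z‖ := by rw [le_div_iff₀ hz0]; linarith
  have hterm : ∀ σ : Equiv.Perm V, ‖Equiv.Perm.sign σ •
      ∏ s, ((Mz B z).updateRow j (Pi.single i 1)).transpose (σ s) s‖ ≤
      if σ.support.card ≤ m + k then (2 / ‖z‖) ^ (m + k) * ‖z‖ ^ Fintype.card V else 0 := by
    intro σ
    have hs : ‖Equiv.Perm.sign σ • ∏ s, ((Mz B z).updateRow j (Pi.single i 1)).transpose (σ s) s‖
        = ∏ s, ‖((Mz B z).updateRow j (Pi.single i 1)) s (σ s)‖ := by
      rw [← norm_prod]
      rcases Int.units_eq_one_or (Equiv.Perm.sign σ) with h | h <;> simp [h]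
    rw [hs]
    by_cases he : ∀ s, s ≠ j → σ s ≠ s → B s (σ s) = true
    · obtain ⟨O, hO1, hO2, hO3⟩ := orbit_struct hk σ σ.injective j he
      have hQ : (Cy k B ∪ O).card ≤ m + k := (card_union_le _ _).trans (by omega)
      have hsupp : σ.support.card ≤ m + k := by
        refine le_trans (card_le_card fun s hs => ?_) hQ
        exact mem_union.2 (hO3 s (Equiv.Perm.mem_support.1 hs))
      rw [if_pos hsupp]
      have h3 : ∀ s, ‖((Mz B z).updateRow j (Pi.single i 1)) s (σ s)‖ ≤
          (if s ∈ Cy k B ∪ O then 2 / ‖z‖ else 1) * ‖z‖ := by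
        intro s
        split_ifs with hsQ
        · rw [div_mul_cancel₀ _ hz0.ne']
          by_cases hsj : s = j
          · rw [hsj, Matrix.updateRow_self, Pi.single_apply]
            split_ifs <;> simp
          · rw [Matrix.updateRow_ne hsj, Mz_apply]
            refine (norm_sub_le _ _).trans ?_
            split_ifs <;> simp <;> linarith
        · rw [mem_union, not_or] at hsQ
          have hsj : s ≠ j := by
            rintro rfl
            exact hsQ.2 hO2
          have hfix : σ s = s := by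
            by_contra h
            rcases hO3 s h with h | h
            · exact hsQ.1 h
            · exact hsQ.2 h
          have hloop : ¬ B s s = true := by
            intro h
            refine hsQ.1 (cyc_mem hk σ σ.injective s fun t => ?_)
            rw [iterate_fixed hfix, iterate_fixed hfix]
            exact h
          rw [Matrix.updateRow_ne hsj, Mz_apply, hfix]
          simp [hloop]
      refine (prod_le_prod (fun s _ => norm_nonneg _) fun s _ => h3 s).trans ?_
      rw [prod_mul_distrib, prod_const, card_univ, prod_ite_mem, univ_inter, prod_const]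
      exact mul_le_mul_of_nonneg_right (pow_le_pow_right₀ h2 hQ) (by positivity)
    · push Not at he
      obtain ⟨s, h1, h3, h4⟩ := he
      rw [prod_eq_zero (mem_univ s)]
      · split_ifs
        · positivity
        · exact le_refl _
      · rw [Matrix.updateRow_ne h1, Mz_apply, if_neg h4, if_neg (Ne.symm h3)]
        simp
  refine (sum_le_sum fun σ _ => hterm σ).trans ?_
  rw [← sum_filter, sum_const, nsmul_eq_mul]
  refine mul_le_mul_of_nonneg_right ?_ (by positivity)
  exact_mod_cast card_perm_supp (V := V) (m + k) hV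

/-- adjacency matrix -/
noncomputable def Am (B : V → V → Bool) : Matrix V V ℂ :=
  Matrix.of (fun i j => if B i j then (1 : ℂ) else 0)

open Polynomial in
theorem det_bound {B : V → V → Bool} {k m : ℕ} (hk : ¬ ∃ x : Fin (k + 1) → V, IsP B x)
    (hm : (Cy k B).card ≤ m) (z : ℂ) (hz1 : ‖z‖ ≤ 1) (r : ℝ) (hr0 : 0 ≤ r) (hr1 : r ≤ 1)
    (hr : ∀ a ∈ (Am B).charpoly.roots, r ≤ ‖z - a‖) :
    ‖z‖ ^ Fintype.card V * r ^ m ≤ ‖(Mz B z).det‖ := by
  have hdvd : (X : ℂ[X]) ^ (Cy k B)ᶜ.card ∣ (Am B).charpoly := by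
    rw [Matrix.charpoly, ← Matrix.det_transpose, Matrix.det_apply]
    refine dvd_sum fun σ _ => ?_
    have : (X : ℂ[X]) ^ (Cy k B)ᶜ.card ∣ ∏ s, (Am B).charmatrix.transpose (σ s) s := by
      by_cases he : ∀ s, σ s ≠ s → B s (σ s) = true
      · refine dvd_trans ?_ (prod_dvd_prod_of_subset (Cy k B)ᶜ univ _ (subset_univ _))
        rw [← prod_const]
        refine dvd_of_eq (prod_congr rfl fun s hs => ?_)
        rw [mem_compl] at hs
        have hfix : σ s = s := by
          by_contra h
          refine hs (cyc_mem hk σ σ.injective s fun t => ?_)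
          rw [iterate_succ_apply']
          refine he _ fun h2 => h ?_
          rw [← iterate_succ_apply' σ, iterate_succ_apply] at h2
          exact σ.injective.iterate t h2
        have hloop : ¬ B s s = true := by
          intro h
          refine hs (cyc_mem hk σ σ.injective s fun t => ?_)
          rw [iterate_fixed hfix, iterate_fixed hfix]
          exact h
        rw [hfix, Matrix.transpose_apply, Matrix.charmatrix_apply_eq]
        simp [Am, hloop]
      · push Not at he
        obtain ⟨s, h1, h2⟩ := he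
        rw [prod_eq_zero (mem_univ s)]
        · exact dvd_zero _
        · rw [Matrix.transpose_apply, Matrix.charmatrix_apply_ne _ _ _ (Ne.symm h1)]
          simp [Am, h2]
    rcases Int.units_eq_one_or (Equiv.Perm.sign σ) with h | h <;> simp [h] <;> simpa using this
  obtain ⟨g, hg⟩ := hdvd
  have hmon : g.Monic := (monic_X_pow _).of_mul_monic_left (hg ▸ (Am B).charpoly_monic)
  have hdeg : g.natDegree ≤ m := by
    have h1 := (Am B).charpoly_natDegree_eq_dim
    rw [hg, (monic_X_pow _).natDegree_mul hmon, natDegree_X_pow, card_compl] at h1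
    have := card_le_univ (Cy k B)
    omega
  have hdet : ‖(Mz B z).det‖ = ‖z‖ ^ (Cy k B)ᶜ.card * ‖g.eval z‖ := by
    have h1 := (Am B).eval_charpoly z
    have h2 : Matrix.scalar V z - Am B = -Mz B z := by
      unfold Mz Am
      rw [neg_sub, Matrix.smul_one_eq_diagonal, Matrix.scalar_apply]
    rw [h2, Matrix.det_neg, hg, eval_mul, eval_pow, eval_X] at h1
    have h3 := congrArg norm h1
    simp only [norm_mul, norm_pow, norm_neg, norm_one, one_pow, one_mul] at h3
    exact h3.symm
  have hev : r ^ m ≤ ‖g.eval z‖ := by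
    rw [(IsAlgClosed.splits g).eval_eq_prod_roots_of_monic hmon]
    have h1 : ∀ s : Multiset ℂ, (∀ a ∈ s, r ≤ ‖z - a‖) →
        r ^ s.card ≤ ‖(s.map fun a => z - a).prod‖ := by
      intro s
      induction s using Multiset.induction_on with
      | empty => simp
      | cons a s ih =>
        intro h
        rw [Multiset.map_cons, Multiset.prod_cons, norm_mul, Multiset.card_cons, pow_succ']
        exact mul_le_mul (h a (Multiset.mem_cons_self _ _))
          (ih fun b hb => h b (Multiset.mem_cons_of_mem hb)) (by positivity) (norm_nonneg _)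
    refine le_trans ?_ (h1 g.roots fun a ha => hr a ?_)
    · rw [IsAlgClosed.card_roots_eq_natDegree]
      exact pow_le_pow_of_le_one hr0 hr1 hdeg
    · exact Multiset.mem_of_le (roots.le_of_dvd (Am B).charpoly_monic.ne_zero
        (Dvd.intro_left _ hg.symm)) ha
  rw [hdet]
  exact mul_le_mul (pow_le_pow_of_le_one (norm_nonneg _) hz1 (card_le_univ _)) hev (by positivity)
    (by positivity)

theorem det_low {B : V → V → Bool} {k m : ℕ} (hk : ¬ ∃ x : Fin (k + 1) → V, IsP B x)
    (hm : (Cy k B).card ≤ m) (z : ℂ) (hz0 : 0 < ‖z‖) (hz1 : ‖z‖ ≤ 1) (r : ℝ) (hr0 : 0 ≤ r)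
    (hr1 : r ≤ 1) (hr : ∀ a ∈ (Am B).charpoly.roots, r ≤ ‖z - a‖) (t : ℝ) (ht0 : 0 ≤ t)
    (ht : (Fintype.card V : ℝ) ^ 2 * (((m + k + 1 : ℕ) : ℝ) * ((Fintype.card V : ℝ) ^ 2) ^ (m + k) *
      (2 / ‖z‖) ^ (m + k)) * t < r ^ m) : ¬ Sm B z t := by
  rintro ⟨v, hv, hv'⟩
  set n : ℝ := (Fintype.card V : ℝ) with hn
  set K : ℝ := ((m + k + 1 : ℕ) : ℝ) * (n ^ 2) ^ (m + k) *
      ((2 / ‖z‖) ^ (m + k) * ‖z‖ ^ Fintype.card V) with hK
  have hn0 : 0 ≤ n := Nat.cast_nonneg _
  have hK0 : 0 ≤ K := by positivity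
  have hu : ∀ j, ‖(Matrix.mulVec (Mz B z) v) j‖ ≤ t := by
    intro j
    refine (pow_le_pow_iff_left₀ (norm_nonneg _) ht0 two_ne_zero).1 ?_
    exact (single_le_sum (f := fun i => ‖(Matrix.mulVec (Mz B z) v) i‖ ^ 2)
      (fun i _ => by positivity) (mem_univ j)).trans hv'
  have h1 : ∀ i, ‖(Mz B z).det‖ * ‖v i‖ ≤ n * (K * t) := by
    intro i
    have h2 : (Mz B z).det * v i = ∑ j, (Mz B z).adjugate i j * (Matrix.mulVec (Mz B z) v) j := by
      have : Matrix.mulVec (Mz B z).adjugate (Matrix.mulVec (Mz B z) v) = (Mz B z).det • v := by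
        rw [Matrix.mulVec_mulVec, Matrix.adjugate_mul, Matrix.smul_mulVec, Matrix.one_mulVec]
      exact (congrFun this i).symm
    rw [← norm_mul, h2]
    refine (norm_sum_le _ _).trans ?_
    have h3 : ∀ j, ‖(Mz B z).adjugate i j * (Matrix.mulVec (Mz B z) v) j‖ ≤ K * t := by
      intro j
      rw [norm_mul]
      exact mul_le_mul (adj_bound hk hm z hz0 hz1 i j) (hu j) (norm_nonneg _) hK0
    refine (sum_le_sum fun j _ => h3 j).trans (le_of_eq ?_)
    rw [sum_const, card_univ, nsmul_eq_mul]
  have h4 : ‖(Mz B z).det‖ ≤ n * (n * (K * t)) := by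
    have h5 : ∀ i, ‖v i‖ ^ 2 ≤ ‖v i‖ := by
      intro i
      have h6 : ‖v i‖ ^ 2 ≤ 1 := by
        rw [← hv]
        exact single_le_sum (f := fun i => ‖v i‖ ^ 2) (fun i _ => by positivity) (mem_univ i)
      have h7 : ‖v i‖ ≤ 1 := by nlinarith [norm_nonneg (v i)]
      nlinarith [norm_nonneg (v i)]
    calc ‖(Mz B z).det‖ = ∑ i, ‖(Mz B z).det‖ * ‖v i‖ ^ 2 := by rw [← mul_sum, hv, mul_one]
      _ ≤ ∑ _i : V, n * (K * t) := sum_le_sum fun i _ =>
          (mul_le_mul_of_nonneg_left (h5 i) (norm_nonneg _)).trans (h1 i)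
      _ = _ := by rw [sum_const, card_univ, nsmul_eq_mul]
  have h6 := det_bound hk hm z hz1 r hr0 hr1 hr
  have h7 := mul_lt_mul_of_pos_left ht (pow_pos hz0 (Fintype.card V))
  have h8 : n * (n * (K * t)) = ‖z‖ ^ Fintype.card V * (n ^ 2 * (((m + k + 1 : ℕ) : ℝ) *
      (n ^ 2) ^ (m + k) * (2 / ‖z‖) ^ (m + k)) * t) := by
    rw [hK]
    ring
  linarith

end Pool.Agent.Fa2423
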