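import Pool.Agent.P.MP_fa2423_pr.Paths

set_option autoImplicit false
set_option linter.unusedSectionVars false

namespace Pool.Agent.Fa2423

open Finset

section
variable (T : ℕ) (S : ℕ → ℝ) (r : ℕ → ℝ → ℝ → ℝ) (bad : ℕ → Prop) (L w : ℝ)
  (hL : 0 ≤ L) (hw : 0 ≤ w)
  (g1 : ∀ t < T, ¬ bad t → ∀ X y, 0 ≤ X → L ≤ y → r (t + 1) X y ≤ r t X y + L ∧
    (S t ≤ Real.exp (-(X + y)) → r (t + 1) X y ≤ r t X y + L - y))
  (g2 : ∀ t < T, ∀ X y, 0 ≤ X → L ≤ y → r (t + 1) X y ≤ r t X y + y)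
  (g3 : ∀ X y, 0 ≤ X → L ≤ y → S T ≤ Real.exp (-(X + y)) → y - 1 ≤ r T X y)
  (hb : ∀ m, 1 ≤ m → m ≤ T → ∑ t ∈ Ico (T - m) T, ind (bad t) ≤ 1 / 8 * m)
include hL g1 g2 g3 hb

theorem round1 (m i : ℕ) (hm : 1 ≤ m) (hmT : m ≤ T) (hi1 : T ≤ i + m) (hi2 : i + m / 2 ≤ T)
    (X y a : ℝ) (hX : 0 ≤ X) (ha : 0 ≤ a) (hy : 4 * (a + 1) / m + 4 * L + 1 ≤ y)
    (hr : r i X y ≤ a) : ∃ t, T ≤ t + m / 2 ∧ t ≤ T ∧ Real.exp (-(X + y)) < S t := by
  by_contra hcon
  push Not at hcon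
  have hm0 : (0 : ℝ) < m := by exact_mod_cast hm
  have h0 : 0 ≤ 4 * (a + 1) / m := by positivity
  have hyL : L ≤ y := by linarith
  have hy0 : 0 ≤ y := by linarith
  have tel : ∀ k, i + k ≤ T → r (i + k) X y ≤ a + ∑ t ∈ Ico i (i + k),
      (L + 2 * y * ind (bad t) - if T - m / 2 ≤ t then y else 0) := by
    intro k
    induction k with
    | zero => intro _; simpa using hr
    | succ k ih =>
      intro hk
      have h2 := ih (by omega)
      rw [← add_assoc, sum_Ico_succ_top (by omega)]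
      by_cases hbad : bad (i + k)
      · have h3 := g2 (i + k) (by omega) X y hX hyL
        rw [ind_pos hbad]
        split_ifs <;> linarith
      · obtain ⟨h3, h4⟩ := g1 (i + k) (by omega) hbad X y hX hyL
        rw [ind_neg hbad]
        split_ifs with h5
        · have := h4 (hcon _ (by omega) (by omega))
          linarith
        · linarith
  have h2 := tel (T - i) (by omega)
  rw [(by omega : i + (T - i) = T), sum_sub_distrib, sum_add_distrib, ← mul_sum, ← sum_filter,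
    sum_const, sum_const, nsmul_eq_mul, nsmul_eq_mul, Nat.card_Ico] at h2
  have h3 := g3 X y hX hyL (hcon T (by omega) le_rfl)
  have h4 : ((Ico i T).filter fun t => T - m / 2 ≤ t) = Ico (T - m / 2) T := by
    ext t
    simp only [mem_filter, mem_Ico]
    omega
  rw [h4, Nat.card_Ico, (by omega : T - (T - m / 2) = m / 2)] at h2
  have h5 : ∑ t ∈ Ico i T, ind (bad t) ≤ 1 / 8 * m :=
    (sum_le_sum_of_subset_of_nonneg (Ico_subset_Ico (by omega) le_rfl)
      fun _ _ _ => ind_nonneg _).trans (hb m hm hmT)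
  have h6 : ((T - i : ℕ) : ℝ) ≤ m := by exact_mod_cast (by omega : T - i ≤ m)
  have h7 : (m : ℝ) ≤ 2 * ((m / 2 : ℕ) + 1) := by exact_mod_cast (by omega : m ≤ 2 * (m / 2 + 1))
  have h8 := mul_le_mul_of_nonneg_left h5 hy0
  have h9 := mul_le_mul_of_nonneg_right h6 hL
  have h10 := mul_le_mul_of_nonneg_right h7 hy0
  have h11 := mul_le_mul_of_nonneg_right hy hm0.le
  have h12 : (4 * (a + 1) / m + 4 * L + 1) * m = 4 * (a + 1) + 4 * (m * L) + m := by field_simp
  linarith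

include hw in
theorem rounds_aux (g4 : ∀ t ≤ T, ∀ X y, 0 ≤ X → L ≤ y → Real.exp (-X) < S t → r t (X + w) y ≤ 1) :
    ∀ J m : ℕ, m < 2 ^ J → m ≤ T → ∀ X, 0 ≤ X → (∃ i, T ≤ i + m ∧ i ≤ T ∧ Real.exp (-X) < S i) →
      Real.exp (-(X + J * (w + 9 + 4 * L))) < S T := by
  intro J
  induction J with
  | zero =>
    rintro m hm - X - ⟨i, h1, h2, h3⟩
    have : i = T := by omega
    simpa [this] using h3
  | succ J ih =>
    rintro m hm hmT X hX ⟨i, h1, h2, h3⟩
    have h4 : ∃ t, T ≤ t + m / 2 ∧ t ≤ T ∧ Real.exp (-(X + w + (9 + 4 * L))) < S t := by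
      rcases le_or_gt T (i + m / 2) with h | h
      · exact ⟨i, h, h2, lt_of_le_of_lt (Real.exp_le_exp.2 (by linarith)) h3⟩
      · have hm1 : 1 ≤ m := by omega
        have hm0 : (1 : ℝ) ≤ m := by exact_mod_cast hm1
        have h5 : 4 * ((1 : ℝ) + 1) / m ≤ 8 := by
          rw [div_le_iff₀ (by linarith)]
          linarith
        exact round1 T S r bad L hL g1 g2 g3 hb m i hm1 hmT h1 h.le (X + w) (9 + 4 * L) 1
          (by linarith) zero_le_one (by linarith) (g4 i h2 X _ hX (by linarith) h3)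
    refine lt_of_le_of_lt (Real.exp_le_exp.2 ?_)
      (ih (m / 2) (by omega) (by omega) _ (by positivity) h4)
    push_cast
    linarith

include hw in
theorem rounds (g4 : ∀ t ≤ T, ∀ X y, 0 ≤ X → L ≤ y → Real.exp (-X) < S t → r t (X + w) y ≤ 1)
    (a : ℝ) (ha : 0 ≤ a) (g5 : ∀ y, r 0 0 y ≤ a) (hT : 1 ≤ T) (J : ℕ) (hJ : T < 2 ^ J) :
    Real.exp (-(4 * (a + 1) / T + 4 * L + 1 + J * (w + 9 + 4 * L))) < S T := by
  have h := round1 T S r bad L hL g1 g2 g3 hb T 0 hT le_rfl (by omega) (by omega) 0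
    (4 * (a + 1) / T + 4 * L + 1) a le_rfl ha le_rfl (g5 _)
  rw [zero_add] at h
  exact rounds_aux T S r bad L w hL hw g1 g2 g3 hb g4 J (T / 2) (by omega) (by omega) _
    (by positivity) h

end

end Pool.Agent.Fa2423
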