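import Pool.Agent.P.MP_fa2423_pr.Step
import Pool.Agent.P.MP_fa2423_pr.Rounds
import Pool.Agent.P.MP_fa2423_pr.DetLow

set_option autoImplicit false
set_option linter.unusedSectionVars false
set_option linter.unnecessarySeqFocus false

namespace Pool.Agent.Fa2423

open Finset Matrix

variable {V : Type} [Fintype V] [DecidableEq V]

/-- the shifted matrix on `W`, the identity elsewhere -/
noncomputable def IW (B : V → V → Bool) (z : ℂ) (W : Finset V) : Matrix V V ℂ :=
  Matrix.of fun i j => if i ∈ W ∧ j ∈ W then Mz B z i j else if i = j then 1 else 0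

/-- reversed edges -/
def flp (B : V → V → Bool) : V → V → Bool := fun i j => B j i

/-- row of `v` restricted to `W` -/
noncomputable def rowv (B : V → V → Bool) (W : Finset V) (v : V) : V → ℂ :=
  fun j => if j ∈ W ∧ B v j = true then 1 else 0

theorem IW_univ (B : V → V → Bool) (z : ℂ) : IW B z univ = Mz B z := by
  ext i j
  simp [IW]

theorem IW_flp (B : V → V → Bool) (z : ℂ) (W : Finset V) : IW (flp B) z W = (IW B z W)ᵀ := by
  ext i j
  simp only [IW, of_apply, transpose_apply, Mz_apply, flp, and_comm, eq_comm]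

theorem Mz_norm (B : V → V → Bool) (z : ℂ) (i j : V) : ‖Mz B z i j‖ ≤ 1 + ‖z‖ := by
  rw [Mz_apply]
  refine (norm_sub_le _ _).trans ?_
  split_ifs <;> simp <;> positivity

theorem IW_norm (B : V → V → Bool) (z : ℂ) (W : Finset V) (i j : V) : ‖IW B z W i j‖ ≤ 1 + ‖z‖ := by
  simp only [IW, of_apply]
  split_ifs
  · exact Mz_norm B z i j
  · simp
  · rw [norm_zero]
    positivity

theorem n2_le (x : V → ℂ) {Z : ℝ} (h : ∀ j, ‖x j‖ ≤ Z) : n2 x ≤ Fintype.card V * Z ^ 2 := by
  refine (sum_le_sum fun j _ => pow_le_pow_left₀ (norm_nonneg _) (h j) 2).trans (le_of_eq ?_)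
  rw [sum_const, card_univ, nsmul_eq_mul]

theorem IW_step (B : V → V → Bool) (z : ℂ) (W : Finset V) (v : V) (hv : v ∉ W) :
    ∃ X : Matrix V V ℂ, (∀ j, X v j = 0) ∧ (∀ i, X i v = 0) ∧
      X.updateRow v (Pi.single v 1) = IW B z W ∧
      (Xᵀ.updateRow v (rowv (flp B) W v))ᵀ.updateRow v (rowv B W v + Pi.single v (Mz B z v v)) =
        IW B z (insert v W) := by
  refine ⟨(IW B z W).updateRow v 0, fun j => by simp, fun i => ?_, ?_, ?_⟩
  · by_cases h : i = v <;> simp [h, IW, hv, updateRow_apply]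
  · ext i j
    by_cases h : i = v <;> simp [h, IW, hv, updateRow_apply, Pi.single_apply, eq_comm]
  · ext i j
    by_cases h : i = v
    · subst h
      by_cases h' : j = i
      · subst h'
        simp [IW, rowv, hv]
      · by_cases h2 : j ∈ W <;> simp [IW, rowv, Mz_apply, h', h2, Ne.symm h']
    · by_cases h' : j = v
      · subst h'
        by_cases h1 : i ∈ W <;> simp [IW, updateRow_apply, rowv, flp, Mz_apply, h, h1]
      · simp [IW, updateRow_apply, h, h']

theorem log_ratio {A A' C C' k : ℝ} (h1 : 0 < A) (h2 : 0 < A') (h3 : 0 < C) (h4 : 0 < C')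
    (h : A' * C ≤ Real.exp k * (A * C')) :
    Real.log A' - Real.log C' ≤ Real.log A - Real.log C + k := by
  have := Real.log_le_log (by positivity) h
  rw [Real.log_mul h2.ne' h3.ne', Real.log_mul (by positivity) (by positivity),
    Real.log_mul h1.ne' h4.ne', Real.log_exp] at this
  linarith

theorem chain [Nonempty V] (B : V → V → Bool) (z : ℂ) (T : ℕ) (v : ℕ → V) (W : ℕ → Finset V)
    (hW : ∀ t < T, v t ∉ W t ∧ W (t + 1) = insert (v t) (W t)) (hWT : W T = univ)
    (τ b L w a : ℝ) (bad : ℕ → Prop)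
    (hbad : ∀ t < T, ¬ bad t → GS (IW B z (W t)) (rowv (flp B) (W t) (v t)) (rowv B (W t) (v t))
      (Mz B z (v t) (v t)) τ)
    (hτ : 0 < τ) (hτ1 : τ ≤ 1) (hb : Fintype.card V * (1 + ‖z‖) ^ 2 ≤ b) (hL0 : 0 ≤ L)
    (hL : 32 * b ^ 2 ≤ Real.exp L * τ ^ 6) (hw0 : 0 ≤ w)
    (hw : Fintype.card V ≤ Real.exp w) (ha0 : 0 ≤ a)
    (ha : (Fintype.card V * b + 1) ^ Fintype.card V ≤ Real.exp a * ‖(IW B z (W 0)).det‖ ^ 2)
    (hc : ∀ m, 1 ≤ m → m ≤ T → ∑ t ∈ Ico (T - m) T, ind (bad t) ≤ 1 / 8 * m)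
    (hT : 1 ≤ T) (J : ℕ) (hJ : T < 2 ^ J) :
    Real.exp (-(4 * (a + 1) / T + 4 * L + 1 + J * (w + 9 + 4 * L))) < sv (Mz B z) := by
  have hn : (1 : ℝ) ≤ Fintype.card V := by exact_mod_cast Fintype.card_pos
  have hz := norm_nonneg z
  have hb1 : 1 ≤ b := le_trans (by nlinarith) hb
  have t6 : τ ^ 6 ≤ τ ^ 4 := pow_le_pow_of_le_one hτ.le hτ1 (by norm_num)
  have hζ : ∀ X y, 0 ≤ X → L ≤ y → Real.exp (-(X + y)) ≤ τ ^ 4 := by
    intro X y hX hy
    have h1 : Real.exp (-(X + y)) * Real.exp L ≤ 1 := by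
      rw [← Real.exp_add]
      exact Real.exp_le_one_iff.2 (by linarith)
    have h2 := mul_le_mul_of_nonneg_left hL (Real.exp_pos (-(X + y))).le
    have h3 := mul_le_mul_of_nonneg_right h1 (pow_pos hτ 6).le
    have h4 := mul_le_mul_of_nonneg_left (by nlinarith : 1 ≤ 32 * b ^ 2) (Real.exp_pos (-(X + y))).le
    nlinarith
  have hup : ∀ t < T, ∀ X, 0 ≤ X → Dl (IW B z (W (t + 1))) (Real.exp (-X)) *
      max (sv (IW B z (W t))) (Real.exp (-X)) ≤ 4 * b ^ 2 * Dl (IW B z (W t)) (Real.exp (-X)) := by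
    intro t ht X hX
    obtain ⟨Y, y1, y2, y3, y4⟩ := IW_step B z (W t) (v t) (hW t ht).1
    rw [(hW t ht).2, ← y4, ← y3]
    refine step_up Y (v t) y1 y2 _ (by simp [rowv, (hW t ht).1]) _ (Real.exp_pos _)
      (Real.exp_le_one_iff.2 (by linarith)) hb1 ((n2_le _ fun j => ?_).trans hb)
      ((n2_le _ fun j => ?_).trans hb)
    · unfold rowv
      split_ifs <;> simp <;> positivity
    · have := IW_norm B z (insert (v t) (W t)) (v t) j
      rwa [← y4, updateRow_self] at this
  rw [← IW_univ, ← hWT]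
  refine rounds T (fun t => sv (IW B z (W t))) (fun t X y =>
    Real.log (Dl (IW B z (W t)) (Real.exp (-X))) - Real.log (Dl (IW B z (W t)) (Real.exp (-(X + y)))))
    bad L w hL0 hw0 ?_ ?_ ?_ hc ?_ a ha0 ?_ hT J hJ
  · intro t ht hg X y hX hy
    have h1 := hup t ht X hX
    have h2 : τ ^ 6 * Dl (IW B z (W t)) (Real.exp (-(X + y))) ≤
        8 * max (sv (IW B z (W t))) (Real.exp (-(X + y))) *
          Dl (IW B z (W (t + 1))) (Real.exp (-(X + y))) := by
      obtain ⟨Y, y1, y2, y3, y4⟩ := IW_step B z (W t) (v t) (hW t ht).1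
      have h3 := hbad t ht hg
      rw [← y3] at h3
      rw [(hW t ht).2, ← y4, ← y3]
      exact step_good Y (v t) y1 y2 _ (by simp [rowv, (hW t ht).1]) _ (by simp [rowv, (hW t ht).1])
        _ (Real.exp_pos _) hτ hτ1 (hζ X y hX hy) h3
    have p1 := Dl_pos (IW B z (W t)) (Real.exp_pos (-X))
    have p2 := Dl_pos (IW B z (W (t + 1))) (Real.exp_pos (-X))
    have p3 := Dl_pos (IW B z (W t)) (Real.exp_pos (-(X + y)))
    have p4 := Dl_pos (IW B z (W (t + 1))) (Real.exp_pos (-(X + y)))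
    set A := Dl (IW B z (W t)) (Real.exp (-X))
    set A' := Dl (IW B z (W (t + 1))) (Real.exp (-X))
    set C := Dl (IW B z (W t)) (Real.exp (-(X + y)))
    set C' := Dl (IW B z (W (t + 1))) (Real.exp (-(X + y)))
    set S := sv (IW B z (W t))
    have m1 : 0 < max S (Real.exp (-X)) := lt_max_of_lt_right (Real.exp_pos _)
    have m2 : 0 < max S (Real.exp (-(X + y))) := lt_max_of_lt_right (Real.exp_pos _)
    have h3 : A' * C * max S (Real.exp (-X)) ≤
        Real.exp L * (A * C') * max S (Real.exp (-(X + y))) := by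
      have h4 := mul_le_mul h1 h2 (by positivity) (by positivity)
      have h5 := mul_le_mul_of_nonneg_right hL
        (by positivity : 0 ≤ A * C' * max S (Real.exp (-(X + y))))
      refine le_of_mul_le_mul_right ?_ (pow_pos hτ 6)
      linarith
    constructor
    · refine log_ratio p1 p2 p3 p4 (le_of_mul_le_mul_right (h3.trans ?_) m1)
      exact mul_le_mul_of_nonneg_left (max_le_max le_rfl (Real.exp_le_exp.2 (by linarith)))
        (by positivity)
    · intro hS
      rw [max_eq_right hS] at h3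
      rw [add_sub_assoc]
      refine log_ratio p1 p2 p3 p4 (le_of_mul_le_mul_right ?_ (Real.exp_pos (-X)))
      refine (mul_le_mul_of_nonneg_left (le_max_right S _) (by positivity)).trans
        (h3.trans (le_of_eq ?_))
      rw [mul_right_comm, mul_right_comm (Real.exp (L - y)), ← Real.exp_add, ← Real.exp_add]
      congr 2
      ring
  · intro t ht X y hX hy
    refine log_ratio (Dl_pos _ (Real.exp_pos _)) (Dl_pos _ (Real.exp_pos _))
      (Dl_pos _ (Real.exp_pos _)) (Dl_pos _ (Real.exp_pos _))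
      (le_of_mul_le_mul_right ?_ (Real.exp_pos (-(X + y))))
    obtain ⟨Y, y1, y2, y3, y4⟩ := IW_step B z (W t) (v t) (hW t ht).1
    rw [(hW t ht).2, ← y4, ← y3]
    refine (step_all Y (v t) y1 y2 _ (by simp [rowv, (hW t ht).1]) _ (Real.exp_pos _)
      (Real.exp_le_exp.2 (by linarith))).trans (le_of_eq ?_)
    rw [mul_right_comm, ← Real.exp_add]
    congr 2
    ring
  · intro X y hX hy hS
    have h1 := Dl_small (IW B z (W T)) (f := Real.exp (-X)) (Real.exp_pos _)
      (Real.exp_le_exp.2 (by linarith)) hS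
    have p1 := Dl_pos (IW B z (W T)) (Real.exp_pos (-X))
    have h2 := log_ratio (k := 1 - y) p1
      (Dl_pos (IW B z (W T)) (Real.exp_pos (-(X + y)))) one_pos one_pos (by
        refine le_of_mul_le_mul_left ?_ (Real.exp_pos (-X))
        have h3 : Real.exp (-X) * Real.exp (1 - y) = Real.exp 1 * Real.exp (-(X + y)) := by
          rw [← Real.exp_add, ← Real.exp_add]
          congr 1
          ring
        have h4 := mul_le_mul_of_nonneg_right (Real.add_one_le_exp 1)
          (mul_pos (Real.exp_pos (-(X + y))) p1).le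
        rw [mul_one, mul_one, ← mul_assoc, h3]
        linarith)
    linarith
  · intro t _ X y hX hy hS
    have h1 := Dl_large (IW B z (W t)) (Real.exp_pos (-(X + w + y))).le (Real.exp_pos (-(X + w))).le
      (le_trans (by
        refine (mul_le_mul_of_nonneg_right hw (Real.exp_pos _).le).trans (le_of_eq ?_)
        rw [← Real.exp_add]
        congr 1
        ring) hS.le)
    have h2 := log_ratio (k := 1) one_pos (Dl_pos (IW B z (W t)) (Real.exp_pos (-(X + w)))) one_pos
      (Dl_pos (IW B z (W t)) (Real.exp_pos (-(X + w + y)))) (by simpa using h1)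
    simpa using h2
  · intro y
    have h1 := Dl_le (IW B z (W 0)) (Fintype.card V * b) fun u => by
      have h2 : ∀ i, ‖(IW B z (W 0) *ᵥ u) i‖ ^ 2 ≤ b * n2 u := fun i =>
        (cs (IW B z (W 0) i) u).trans (mul_le_mul_of_nonneg_right
          ((n2_le _ (IW_norm B z (W 0) i)).trans hb) (n2_nonneg _))
      refine (sum_le_sum fun i _ => h2 i).trans (le_of_eq ?_)
      rw [sum_const, card_univ, nsmul_eq_mul, mul_assoc]
    have h2 := Dl_mono (IW B z (W 0)) le_rfl (Real.exp_pos (-(0 + y))).le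
    rw [Dl_zero] at h2
    have h3 := log_ratio (k := a) one_pos (Dl_pos (IW B z (W 0)) one_pos) one_pos
      (Dl_pos (IW B z (W 0)) (Real.exp_pos (-(0 + y)))) (by
        rw [mul_one, one_mul]
        exact h1.trans (ha.trans (mul_le_mul_of_nonneg_left h2 (Real.exp_pos _).le)))
    simpa using h3

end Pool.Agent.Fa2423
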