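import Pool.Agent.P.MP_fa2423_pr.Ae

set_option autoImplicit false
set_option linter.unusedSectionVars false

namespace Pool.Agent.Fa2423

open Finset MeasureTheory Filter Topology

theorem master (n k l M m : ℕ) (hM4 : 4 ≤ M) (hMn : M ≤ n)
    (hk : 3 * (M : ℝ) ^ 2 / n ≤ (k + 1 : ℕ)) (hl : 3 * (l : ℝ) ^ 3 ≤ n) (hm : 0 < m)
    (z : ℂ) (hz0 : 0 < ‖z‖) (hz1 : ‖z‖ ≤ 1) (t1 t2 : ℝ) (ht1 : ‖z‖ ^ (l + 1) ≤ t1) (ht2 : 0 ≤ t2)
    (ht : (n : ℝ) ^ 2 * (((m + k + 1 : ℕ) : ℝ) * ((n : ℝ) ^ 2) ^ (m + k) *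
      (2 / ‖z‖) ^ (m + k)) * t2 < (1 / (n : ℝ) ^ 2) ^ m) :
    1 - Ex (1 / (n : ℝ)) (fun B : Fin n → Fin n → Bool => ind (Sm B z t1 ∧ ¬ Sm B z t2)) ≤
      (n * Real.exp (-(M : ℝ) ^ 3 / (64 * (n : ℝ) ^ 2)) + n * Real.exp (-(M : ℝ) ^ 3 / (n : ℝ) ^ 2)) +
      (k : ℝ) / m + (((l : ℝ) + 1) ^ 2 + 2 * k * ((l : ℝ) + 1) ^ 2 + 3 * (l : ℝ) ^ 3) / n +
      Ex (1 / (n : ℝ)) (fun B : Fin n → Fin n → Bool =>
        ind (∃ a ∈ (Am B).charpoly.roots, ‖z - a‖ < 1 / (n : ℝ) ^ 2)) := by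
  have hn1 : 0 < n := by omega
  have hn0 : (0 : ℝ) < n := by exact_mod_cast hn1
  have hn2 : (1 : ℝ) ≤ n := by exact_mod_cast hn1
  have h0 : (0 : ℝ) ≤ 1 / n := by positivity
  have h1 : (1 : ℝ) / n ≤ 1 := by rw [div_le_one hn0]; linarith
  have hpt : ∀ B : Fin n → Fin n → Bool, 1 - ind (Sm B z t1 ∧ ¬ Sm B z t2) ≤
      ind (∃ y : Fin (k + 1) → Fin n, IsP B y) + ind (m < (Cy k B).card) +
      ind (¬ ∃ y : Fin (l + 1) → Fin n, IsP B y ∧ ¬ Bad k B y) +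
      ind (∃ a ∈ (Am B).charpoly.roots, ‖z - a‖ < 1 / (n : ℝ) ^ 2) := by
    intro B
    have a0 := ind_nonneg (Sm B z t1 ∧ ¬ Sm B z t2)
    have a1 := ind_nonneg (∃ y : Fin (k + 1) → Fin n, IsP B y)
    have a2 := ind_nonneg (m < (Cy k B).card)
    have a3 := ind_nonneg (¬ ∃ y : Fin (l + 1) → Fin n, IsP B y ∧ ¬ Bad k B y)
    have a4 := ind_nonneg (∃ a ∈ (Am B).charpoly.roots, ‖z - a‖ < 1 / (n : ℝ) ^ 2)
    by_cases b1 : ∃ y : Fin (k + 1) → Fin n, IsP B y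
    · rw [ind_pos b1]; linarith
    by_cases b2 : m < (Cy k B).card
    · rw [ind_pos b2]; linarith
    by_cases b3 : ¬ ∃ y : Fin (l + 1) → Fin n, IsP B y ∧ ¬ Bad k B y
    · rw [ind_pos b3]; linarith
    by_cases b4 : ∃ a ∈ (Am B).charpoly.roots, ‖z - a‖ < 1 / (n : ℝ) ^ 2
    · rw [ind_pos b4]; linarith
    obtain ⟨y, hy, hb⟩ := not_not.1 b3
    push Not at b4
    have c1 : Sm B z t1 := (det_up b1 hy hb z).mono (by positivity) ht1
    have c2 : ¬ Sm B z t2 := det_low b1 (not_lt.1 b2) z hz0 hz1 (1 / (n : ℝ) ^ 2) (by positivity)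
      (by rw [div_le_one (by positivity)]; nlinarith) b4 t2 ht2 (by simpa using ht)
    rw [ind_pos ⟨c1, c2⟩]
    linarith
  have h2 := Ex_mono h0 h1 hpt
  rw [Ex_sub, Ex_const, Ex_add, Ex_add, Ex_add] at h2
  have h3 := long_path (V := Fin n) n (by simp) k M hM4 hMn hk
  have h4 := Ex_Cy (V := Fin n) n (by simp) hn1 k m hm
  have h5 := good_path (V := Fin n) n (by simp) hn1 k l hl
  linarith

theorem core (n : ℕ) (u w : ℝ) (hu : u ^ 3 = n) (hw : 121 ≤ w) (huw : w ^ 3 ≤ u)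
    (hn : (n : ℝ) ≤ Real.exp w) (z : ℂ) (hz0 : 0 < ‖z‖) (hz1 : ‖z‖ ≤ Real.exp (-(1 / w)))
    (hz2 : 2 / ‖z‖ ≤ Real.exp w) (T1 T2 : ℝ) (hT1 : T1 ≤ u / w ^ 3) (hT2 : u * w ^ 5 ≤ T2) :
    1 - Ex (1 / (n : ℝ)) (fun B : Fin n → Fin n → Bool =>
        ind (Sm B z (Real.exp (-T1)) ∧ ¬ Sm B z (Real.exp (-T2)))) ≤
      12 / w + Ex (1 / (n : ℝ)) (fun B : Fin n → Fin n → Bool =>
        ind (∃ a ∈ (Am B).charpoly.roots, ‖z - a‖ < 1 / (n : ℝ) ^ 2)) := by
  have hw0 : 0 < w := by linarith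
  have hw1 : 1 ≤ w := by linarith
  have hw2 : 121 * w ≤ w ^ 2 := by nlinarith
  have hw3 : 121 * w ^ 2 ≤ w ^ 3 := by nlinarith
  have hu1 : 2 * w ≤ u := by nlinarith
  have hu0 : 0 < u := by linarith
  have hu2 : 1 ≤ u := by linarith
  have hn0 : (0 : ℝ) < n := by rw [← hu]; positivity
  have hn1 : (1 : ℝ) ≤ n := by rw [← hu]; exact one_le_pow₀ hu2
  set M := ⌈u ^ 2 * w⌉₊ with hM
  have hM1 : u ^ 2 * w ≤ M := Nat.le_ceil _
  have huw4 : 4 ≤ u ^ 2 * w := by nlinarith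
  have hM2 : (M : ℝ) ≤ 2 * (u ^ 2 * w) := by
    have := Nat.ceil_lt_add_one (a := u ^ 2 * w) (by positivity)
    linarith
  have hM4 : 4 ≤ M := by exact_mod_cast huw4.trans hM1
  have hMn : M ≤ n := by
    have : (M : ℝ) ≤ n := by
      rw [← hu]
      nlinarith [mul_le_mul_of_nonneg_left hu1 (sq_nonneg u)]
    exact_mod_cast this
  set k := ⌈3 * (M : ℝ) ^ 2 / n⌉₊ with hk
  have hk1 : 3 * (M : ℝ) ^ 2 / n ≤ k := Nat.le_ceil _
  have hk2 : (k : ℝ) ≤ 13 * (u * w ^ 2) := by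
    have h1 := Nat.ceil_lt_add_one (a := 3 * (M : ℝ) ^ 2 / n) (by positivity)
    have h2 : 3 * (M : ℝ) ^ 2 / n ≤ 12 * (u * w ^ 2) := by
      rw [div_le_iff₀ hn0, ← hu]
      have := pow_le_pow_left₀ (Nat.cast_nonneg M) hM2 2
      nlinarith
    have h3 : 1 ≤ u * w ^ 2 := by nlinarith
    linarith
  set l := ⌊u / w ^ 2⌋₊ with hl
  have hl1 : (l : ℝ) ≤ u / w ^ 2 := Nat.floor_le (by positivity)
  have hl2 : u / w ^ 2 < l + 1 := Nat.lt_floor_add_one _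
  have hl3 : 1 ≤ u / w ^ 2 := by rw [le_div_iff₀ (by positivity)]; nlinarith
  have hl0 : (0 : ℝ) ≤ l := Nat.cast_nonneg _
  have hl4 : 3 * (l : ℝ) ^ 3 ≤ n / w := by
    have h1 := pow_le_pow_left₀ hl0 hl1 3
    have h2 : 3 * (u / w ^ 2) ^ 3 ≤ n / w := by
      rw [← hu, div_pow, ← mul_div_assoc, div_le_div_iff₀ (by positivity) hw0]
      have h3 : 3 * w ≤ (w ^ 2) ^ 3 := by
        have : w ^ 2 ≤ (w ^ 2) ^ 3 := le_self_pow₀ (by nlinarith) (by norm_num)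
        linarith
      have := mul_le_mul_of_nonneg_left h3 (by positivity : 0 ≤ u ^ 3)
      linarith
    linarith
  have hl5 : 3 * (l : ℝ) ^ 3 ≤ n := hl4.trans (div_le_self hn0.le hw1)
  set m := ⌈k * w⌉₊ + 1 with hm
  have hm1 : k * w ≤ m := by
    have := Nat.le_ceil (k * w)
    rw [hm]
    push_cast
    linarith
  have hm2 : (m : ℝ) ≤ k * w + 2 := by
    have := Nat.ceil_lt_add_one (a := k * w) (by positivity)
    rw [hm]
    push_cast
    linarith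
  have hm0 : 0 < m := by omega
  have hm3 : (1 : ℝ) ≤ m := by exact_mod_cast hm0
  have hq : (m : ℝ) + k ≤ 15 * (u * w ^ 3) := by
    have h1 := mul_le_mul_of_nonneg_right hk2 hw0.le
    have h2 := mul_le_mul_of_nonneg_left hw3 hu0.le
    have h3 : 1 ≤ u * w ^ 2 := by nlinarith
    nlinarith
  have hz3 : ‖z‖ ≤ 1 := hz1.trans (Real.exp_le_one_iff.2 (by simp only [Left.neg_nonpos_iff]; positivity))
  have key := master n k l M m hM4 hMn (by push_cast; linarith) hl5 hm0 z hz0 hz3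
    (Real.exp (-T1)) (Real.exp (-T2)) ?_ (Real.exp_pos _).le ?_
  · refine key.trans ?_
    have e1 : ∀ x : ℝ, w ^ 3 / 64 ≤ x → n * Real.exp (-x) ≤ 1 / w := by
      intro x hx
      have h1 : n * Real.exp (-x) ≤ Real.exp w * Real.exp (-x) :=
        mul_le_mul_of_nonneg_right hn (Real.exp_pos _).le
      rw [← Real.exp_add] at h1
      have h2 : Real.exp (w + -x) ≤ Real.exp (-w) := Real.exp_le_exp.2 (by nlinarith)
      have h3 : Real.exp (-w) ≤ 1 / w := by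
        rw [Real.exp_neg, one_div]
        exact inv_anti₀ hw0 (by linarith [Real.add_one_le_exp w])
      linarith
    have e2 : w ^ 3 ≤ (M : ℝ) ^ 3 / (n : ℝ) ^ 2 := by
      rw [le_div_iff₀ (by positivity), ← hu]
      have := pow_le_pow_left₀ (by positivity) hM1 3
      nlinarith
    have e3 := e1 ((M : ℝ) ^ 3 / (64 * (n : ℝ) ^ 2)) (by
      rw [mul_comm, ← div_div]
      linarith)
    have e4 := e1 ((M : ℝ) ^ 3 / (n : ℝ) ^ 2) (by
      have : 0 ≤ w ^ 3 := by positivity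
      linarith)
    rw [← neg_div] at e3 e4
    have e5 : (k : ℝ) / m ≤ 1 / w := by
      rw [div_le_div_iff₀ (by positivity) hw0]
      linarith
    have e6 : (((l : ℝ) + 1) ^ 2 + 2 * k * ((l : ℝ) + 1) ^ 2 + 3 * (l : ℝ) ^ 3) / n ≤ 9 / w := by
      rw [div_le_iff₀ hn0]
      have h1 : ((l : ℝ) + 1) ^ 2 ≤ (2 * (u / w ^ 2)) ^ 2 :=
        pow_le_pow_left₀ (by positivity) (by linarith) 2
      have h2 : 1 + 2 * (k : ℝ) ≤ 27 * (u * w ^ 2) := by
        have h3 : 1 ≤ u * w ^ 2 := by nlinarith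
        linarith
      have h3 := mul_le_mul h2 h1 (by positivity) (by positivity)
      have h4 : 27 * (u * w ^ 2) * (2 * (u / w ^ 2)) ^ 2 = 108 / w * (n / w) := by
        rw [← hu]
        field_simp
        norm_num
      have h5 : 108 / w ≤ 1 := by rw [div_le_one hw0]; linarith
      have h6 := mul_le_mul_of_nonneg_right h5 (by positivity : 0 ≤ n / w)
      have h7 : 9 / w * n = 9 * (n / w) := by ring
      have h8 : 0 ≤ n / w := by positivity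
      nlinarith
    have e7 : 12 / w = 1 / w + 1 / w + 1 / w + 9 / w := by ring
    linarith
  · refine (pow_le_pow_left₀ (norm_nonneg _) hz1 _).trans ?_
    rw [← Real.exp_nat_mul]
    apply Real.exp_le_exp.2
    push_cast
    have h1 := mul_le_mul_of_nonneg_right hl2.le (by positivity : 0 ≤ 1 / w)
    have h2 : u / w ^ 2 * (1 / w) = u / w ^ 3 := by field_simp
    linarith
  · set E := Real.exp w with hE
    have hE1 : 1 ≤ E := hn1.trans hn
    set q := m + k with hq'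
    have hq1 : 1 ≤ q := by omega
    have a1 : ((q + 1 : ℕ) : ℝ) ≤ E ^ q := by
      rw [hE, ← Real.exp_nat_mul]
      have := Real.add_one_le_exp (q * w)
      have h2 : (q : ℝ) * 1 ≤ q * w := mul_le_mul_of_nonneg_left hw1 (Nat.cast_nonneg _)
      push_cast
      linarith
    have a2 : (n : ℝ) ^ 2 ≤ E ^ 2 := pow_le_pow_left₀ hn0.le hn 2
    have a3 : (n : ℝ) ^ 2 ≤ (E ^ 2) ^ q := a2.trans (le_self_pow₀ (one_le_pow₀ hE1) (by omega))
    have a4 : ((n : ℝ) ^ 2) ^ q ≤ (E ^ 2) ^ q := pow_le_pow_left₀ (by positivity) a2 q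
    have a5 : (2 / ‖z‖) ^ q ≤ E ^ q := pow_le_pow_left₀ (by positivity) hz2 q
    have a6 : ((n : ℝ) ^ 2) ^ m ≤ (E ^ 2) ^ q :=
      (pow_le_pow_right₀ (one_le_pow₀ hn1) (by omega)).trans a4
    rw [one_div, inv_pow, ← one_div, lt_div_iff₀ (by positivity)]
    calc (n : ℝ) ^ 2 * (((q + 1 : ℕ) : ℝ) * ((n : ℝ) ^ 2) ^ q * (2 / ‖z‖) ^ q) * Real.exp (-T2) *
          ((n : ℝ) ^ 2) ^ m
        ≤ (E ^ 2) ^ q * (E ^ q * (E ^ 2) ^ q * E ^ q) * Real.exp (-T2) * (E ^ 2) ^ q := by gcongr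
      _ = E ^ (8 * q) * Real.exp (-T2) := by ring
      _ < 1 := by
        rw [hE, ← Real.exp_nat_mul, ← Real.exp_add, Real.exp_lt_one_iff, hq']
        push_cast
        have b1 := mul_le_mul_of_nonneg_right hq hw0.le
        have b2 : 121 * (u * w ^ 4) ≤ u * w ^ 5 := by
          have := mul_le_mul_of_nonneg_left hw (by positivity : 0 ≤ u * w ^ 4)
          nlinarith
        have b3 : 0 < u * w ^ 4 := by positivity
        nlinarith

theorem critical : ∀ᵐ z : ℂ, ‖z‖ < 1 →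
    Tendsto (fun n : ℕ => Ex (1 / (n : ℝ)) (fun B : Fin n → Fin n → Bool =>
      ind (Sm B z (Real.exp (-((n : ℝ) ^ (1 / 3 : ℝ) / Real.log n ^ 3))) ∧
        ¬ Sm B z (Real.exp (-((n : ℝ) ^ (1 / 3 : ℝ) * Real.log n ^ 5)))))) atTop (𝓝 1) := by
  have h0 : ∀ n : ℕ, (0 : ℝ) ≤ 1 / n := fun n => by positivity
  have h1 : ∀ n : ℕ, (1 : ℝ) / n ≤ 1 := fun n => by
    rcases Nat.eq_zero_or_pos n with h | h
    · simp [h]
    · rw [div_le_one (by exact_mod_cast h)]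
      exact_mod_cast h
  filter_upwards [ae_far (fun n => 1 / (n : ℝ)) h0 h1, Measure.ae_ne volume (0 : ℂ)]
    with z hz hz0 hz1
  have ha : 0 < ‖z‖ := norm_pos_iff.2 hz0
  have hw : Tendsto (fun n : ℕ => Real.log n) atTop atTop :=
    Real.tendsto_log_atTop.comp tendsto_natCast_atTop_atTop
  have hlog := tendsto_natCast_atTop_atTop.eventually
    ((isLittleO_log_rpow_atTop (by norm_num : (0 : ℝ) < 1 / 9)).bound one_pos)
  have hb : 0 < -Real.log ‖z‖ := neg_pos.2 (Real.log_neg ha hz1)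
  have hlim : Tendsto (fun n : ℕ => 1 - (12 / Real.log n + Ex (1 / (n : ℝ))
      (fun B : Fin n → Fin n → Bool =>
        ind (∃ a ∈ (Am B).charpoly.roots, ‖z - a‖ < 1 / (n : ℝ) ^ 2)))) atTop (𝓝 1) := by
    have := ((hw.const_div_atTop 12).add hz).const_sub 1
    simpa using this
  refine tendsto_of_tendsto_of_tendsto_of_le_of_le' hlim tendsto_const_nhds ?_
    (Eventually.of_forall fun n => ?_)
  · filter_upwards [hlog, hw.eventually_ge_atTop 121, hw.eventually_ge_atTop (2 / ‖z‖),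
      hw.eventually_ge_atTop (1 / -Real.log ‖z‖), eventually_ge_atTop 1] with n c1 c2 c3 c4 c5
    have hn1 : (1 : ℝ) ≤ n := by exact_mod_cast c5
    have hn0 : (0 : ℝ) < n := by linarith
    have hw0 : 0 < Real.log n := by linarith
    have := core n ((n : ℝ) ^ (1 / 3 : ℝ)) (Real.log n) ?_ c2 ?_ (Real.exp_log hn0).ge z ha ?_ ?_
      _ _ le_rfl le_rfl
    · linarith
    · rw [← Real.rpow_natCast, ← Real.rpow_mul hn0.le]
      norm_num
    · rw [Real.norm_eq_abs, Real.norm_eq_abs, one_mul, abs_of_pos hw0,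
        abs_of_pos (Real.rpow_pos_of_pos hn0 _)] at c1
      refine (pow_le_pow_left₀ hw0.le c1 3).trans (le_of_eq ?_)
      rw [← Real.rpow_natCast, ← Real.rpow_mul hn0.le]
      norm_num
    · rw [← Real.log_le_iff_le_exp ha, le_neg]
      rw [div_le_iff₀ hb] at c4
      rw [div_le_iff₀ hw0]
      linarith
    · linarith [Real.add_one_le_exp (Real.log n)]
  · exact (Ex_mono (h0 n) (h1 n) fun B => ind_le_one _).trans (Ex_one _).le

end Pool.Agent.Fa2423
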