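import Pool.Agent.P.MP_fa2423_pr.Main

set_option autoImplicit false
set_option linter.unusedSectionVars false

namespace Pool.Agent.Fa2423

open Finset MeasureTheory Filter Topology

/-- vertex `j` of block `t` -/
def io (n b t : ℕ) (j : Fin (b + 1)) : Fin (n + 1) := Fin.ofNat (n + 1) ((b + 1) * t + j)

/-- vertices outside the blocks -/
def VV (n b T : ℕ) : Finset (Fin (n + 1)) := univ.filter fun a => ¬ a.val < (b + 1) * T

theorem io_lt {b T t : ℕ} (ht : t < T) (j : Fin (b + 1)) : (b + 1) * t + j < (b + 1) * T :=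
  lt_of_lt_of_le (Nat.add_lt_add_left j.2 _) (Nat.mul_le_mul_left (b + 1) ht)

theorem io_val {n b T t : ℕ} (hT : (b + 1) * T ≤ n + 1) (ht : t < T) (j : Fin (b + 1)) :
    (io n b t j).val = (b + 1) * t + j := Nat.mod_eq_of_lt ((io_lt ht j).trans_le hT)

theorem io_inj {n b T : ℕ} (hT : (b + 1) * T ≤ n + 1) : ∀ s < T, ∀ t < T, ∀ j k,
    io n b s j = io n b t k → s = t ∧ j = k := by
  intro s hs t ht j k h
  have h1 := congrArg Fin.val h
  rw [io_val hT hs, io_val hT ht] at h1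
  have h2 := congrArg (· / (b + 1)) h1
  simp only [Nat.mul_add_div b.succ_pos, Nat.div_eq_of_lt j.2, Nat.div_eq_of_lt k.2, add_zero] at h2
  subst h2
  exact ⟨rfl, Fin.ext (by omega)⟩

theorem io_not {n b T : ℕ} (hT : (b + 1) * T ≤ n + 1) : ∀ t < T, ∀ j, io n b t j ∉ VV n b T :=
  fun _ ht j h => (mem_filter.1 h).2 (by rw [io_val hT ht]; exact io_lt ht j)

theorem card_VV (n b T : ℕ) : (VV n b T)ᶜ.card ≤ (b + 1) * T := by
  simp only [VV, compl_filter, not_not, Fin.card_filter_val_lt]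
  exact min_le_right _ _

/-- weight of the event that `z` is close to an eigenvalue of the starting matrix -/
noncomputable def NR (p K : ℝ) (D b T n : ℕ) (z : ℂ) : ℝ :=
  ∑ χ : Fin T → Fin (b + 1), Ex p (fun B => Ph (io n b) (acc (VV n b T) p K D) χ B *
    ind (∃ a ∈ rts (msk (WW T (fun s => io n b s (ch χ s)) 0) B),
      ‖z - a‖ < 1 / (Fintype.card (Fin (n + 1)) : ℝ) ^ 2))

theorem ae_NR (p : ℕ → ℝ) (p0 : ∀ n, 0 ≤ p n) (K : ℝ) (K1 : 1 ≤ K) (hp : ∀ᶠ n in atTop, K * p n < 1)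
    (D b : ℕ) (T : ℕ → ℕ) :
    ∀ᵐ z : ℂ, Tendsto (fun n => NR (p n) K D b (T n) n z) atTop (𝓝 0) := by
  have h0 : ∀ n, ∀ ω : (Fin (T n) → Fin (b + 1)) × (Fin (n + 1) → Fin (n + 1) → Bool),
      0 ≤ if K * p n < 1 then wt (p n) ω.2 * Ph (io n b) (acc (VV n b (T n)) (p n) K D) ω.1 ω.2
        else 0 := by
    intro n ω
    split_ifs with h
    · exact mul_nonneg (wt_nonneg (p0 n) ((le_mul_of_one_le_left (p0 n) K1).trans h.le) _)
        (Ph_nonneg _ _ (acc_nonneg _ (p0 n) K1 h D) (acc_le _ (p0 n) K1 h D) _ _)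
    · exact le_rfl
  have hs : Summable fun n : ℕ => 4 * (1 / ((n + 1 : ℕ) : ℝ) ^ 3) :=
    ((summable_nat_add_iff (f := fun n : ℕ => 1 / (n : ℝ) ^ 3) 1).2
      (Real.summable_one_div_nat_pow.2 (by norm_num))).mul_left 4
  have h := ae_gen (fun n => (Fin (T n) → Fin (b + 1)) × (Fin (n + 1) → Fin (n + 1) → Bool)) _ h0
    (fun n ω => rts (msk (WW (T n) (fun s => io n b s (ch ω.1 s)) 0) ω.2))
    (fun n => 1 / (Fintype.card (Fin (n + 1)) : ℝ) ^ 2) _ (fun _ => by positivity) hs fun n => by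
      refine (sum_le_sum fun ω _ => mul_le_mul_of_nonneg_left (mul_le_mul_of_nonneg_right
        (card_rts (V := Fin (n + 1)) _) (by positivity)) (h0 n ω)).trans ?_
      rw [← sum_mul, Fintype.card_fin]
      refine (mul_le_of_le_one_left (by positivity) ?_).trans (le_of_eq (by field_simp))
      split_ifs
      · rw [Fintype.sum_prod_type_right]
        simp only [← mul_sum, sum_Ph, mul_one]
        exact (wtP_sum _).le
      · simp
  filter_upwards [h] with z hz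
  refine hz.congr' ?_
  filter_upwards [hp] with n hn
  simp only [hn, if_true, Fintype.sum_prod_type, NR, Ex, mul_assoc]

theorem poly_exp (C c : ℝ) (hc : 0 < c) (k : ℕ) :
    ∀ᶠ l : ℕ in atTop, C * (l : ℝ) ^ k ≤ Real.exp (c * l) := by
  have h1 := ((Real.tendsto_pow_mul_exp_neg_atTop_nhds_zero k).comp
    (tendsto_natCast_atTop_atTop.const_mul_atTop hc)).const_mul (C / c ^ k)
  rw [mul_zero] at h1
  filter_upwards [h1.eventually (eventually_le_nhds one_pos)] with l hl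
  simp only [Function.comp_apply] at hl
  rw [Real.exp_neg, ← mul_assoc, ← div_eq_mul_inv, div_le_one (Real.exp_pos _)] at hl
  refine le_trans (le_of_eq ?_) hl
  rw [mul_pow]
  field_simp

theorem log_ge {a : ℝ} {k : ℕ} (hk : 1 ≤ k) (h : 2 ^ k ≤ 2 * a) : 1 / 2 * k - 1 / 2 ≤ Real.log a := by
  have h0 : 0 < a := by linarith [(by positivity : (0 : ℝ) < 2 ^ k)]
  have h4 := Real.log_le_log (by positivity) h
  have h5 : (1 : ℝ) ≤ k := by exact_mod_cast hk
  rw [Real.log_pow, Real.log_mul (by norm_num) h0.ne'] at h4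
  nlinarith [Real.log_two_gt_d9]

theorem not_nc (α : ℝ) (a0 : 0 < α) (c : ℝ) (c0 : 0 < c) (hc : 1 + Real.log α - α = -(4 * c))
    (N : ℕ) (N1 : 2 * α ≤ N) (N2 : 6 ≤ N) (N3 : 2 * α * (α + 3) ≤ c * N) (n l h : ℕ) (h2 : 2 ≤ h)
    (hl : h ≤ l) (n1 : n < 2 ^ l) (n2 : 2 ^ l ≤ 2 * n) (l5 : -Real.log α ≤ l) (l6 : 16 * α ≤ l)
    (l7 : 8 / c ≤ h) (l8 : α * (l : ℝ) ^ 6 ≤ Real.exp (1 / 8 * l)) (l9 : 8 ≤ l) (V0 : Finset (Fin n))
    (hV : V0ᶜ.card ≤ n / N) :
    Ex (α / n) (fun B => ind (¬ Nc B V0 l h (2 * (n / N)))) ≤ 14 * Real.exp (-(l / 4)) := by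
  have hl' : (l : ℝ) ≤ 2 * n := by exact_mod_cast (Nat.lt_two_pow_self).le.trans n2
  have L8 : (8 : ℝ) ≤ l := by exact_mod_cast l9
  have H2 : (2 : ℝ) ≤ h := by exact_mod_cast h2
  have HL : (h : ℝ) ≤ l := by exact_mod_cast hl
  have m0 : (0 : ℝ) < n := by linarith
  have N0 : (6 : ℝ) ≤ N := by exact_mod_cast N2
  have hd : ((n / N : ℕ) : ℝ) ≤ n / N := Nat.cast_div_le
  have n3 : (n : ℝ) + 1 ≤ Real.exp l := le_trans (by exact_mod_cast n1) (two_pow_le l)
  have p0 : 0 ≤ α / n := by positivity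
  have p1 : α / n ≤ 1 := (div_le_one m0).2 (by linarith)
  rw [div_le_iff₀ c0] at l7
  have g1 := not_good (V := Fin n) α (2 / N) c l a0 n (Fintype.card_fin _) V0
    (l * h) (l * h ^ 2) (2 * (n / N)) (by nlinarith) (Nat.succ_le_of_lt (by positivity))
    (by rw [Nat.cast_mul, div_mul_eq_mul_div, mul_div_assoc]; push_cast; linarith)
    (by
      refine le_trans (by exact_mod_cast hV) (hd.trans ?_)
      rw [div_mul_eq_mul_div]
      exact div_le_div_of_nonneg_right (by linarith) (by linarith))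
    (by rw [div_mul_eq_mul_div, div_le_one (by linarith)]; exact N1)
    (by rw [← mul_div_assoc, div_le_one (by linarith)]; linarith) (by linarith) n3 l5 (by linarith)
    c0.le (by
      have h1 : 2 / N * (α * (α + 3)) ≤ c := by
        rw [div_mul_eq_mul_div, div_le_iff₀ (by linarith)]
        linarith
      have h2 : 0 ≤ 3 * (2 / (N : ℝ) * α * (2 / N * α)) := by positivity
      linarith)
    (by
      have h1 := mul_le_mul_of_nonneg_right l7 (by linarith : (0 : ℝ) ≤ l)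
      push_cast
      linarith)
    (by
      have h1 := mul_le_mul_of_nonneg_right l7 (by positivity : (0 : ℝ) ≤ l * h)
      have h3 := mul_le_mul_of_nonneg_left H2 (by linarith : (0 : ℝ) ≤ l)
      push_cast
      linarith)
  have g2 := big_deg (V := Fin n) p0 p1 l
  have e1 : Real.exp (1 / 2 * l - 1 / 2) ≤ n := by
    rw [← Real.le_log_iff_exp_le m0]
    exact log_ge (by omega) (by exact_mod_cast n2)
  have e2 : Fintype.card (Fin n) * (1 / (n * Real.exp (-(1 / 8 * l))) ^ 2) ≤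
      2 * Real.exp (-(l / 4)) := by
    have b1 : Real.exp (1 / 2) ≤ 2 := by
      rw [← Real.le_log_iff_exp_le (by norm_num)]
      linarith [Real.log_two_gt_d9]
    have b2 : 1 = Real.exp (1 / 2) * Real.exp (1 / 2 * l - 1 / 2) *
        (Real.exp (-(l / 4)) * Real.exp (-(1 / 8 * l)) ^ 2) := by
      rw [← Real.exp_nat_mul, ← Real.exp_add, ← Real.exp_add, ← Real.exp_add, eq_comm,
        Real.exp_eq_one_iff]
      push_cast
      ring
    have b3 := mul_le_mul_of_nonneg_right (mul_le_mul b1 e1 (by positivity) (by norm_num))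
      (by positivity : 0 ≤ Real.exp (-(l / 4)) * Real.exp (-(1 / 8 * l)) ^ 2)
    have b4 := mul_le_mul_of_nonneg_left (b2.le.trans b3) m0.le
    rw [Fintype.card_fin, mul_one_div, div_le_iff₀ (by positivity)]
    linarith
  have e3 : 2 * Real.exp (-((l : ℝ) / 4)) ≤ 1 := by
    rw [Real.exp_neg, ← div_eq_mul_inv, div_le_one (Real.exp_pos _)]
    linarith [Real.add_one_le_exp ((l : ℝ) / 4)]
  have g3 := not_sparse (V := Fin n) p0 p1 (l * h ^ 2) (n * Real.exp (-(1 / 8 * l))) (by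
      rw [Real.exp_neg, ← div_eq_mul_inv, le_div_iff₀ (Real.exp_pos _), one_mul]
      exact le_trans (Real.exp_le_exp.2 (by linarith)) e1)
    (by
      rw [← mul_assoc (α / n), div_mul_cancel₀ _ m0.ne', Real.exp_neg, ← mul_assoc, ← div_eq_mul_inv,
        div_le_one (Real.exp_pos _), mul_comm]
      refine le_trans (mul_le_mul_of_nonneg_left ?_ a0.le) l8
      push_cast
      calc ((l : ℝ) * h ^ 2) ^ 2 ≤ (l * l ^ 2) ^ 2 := by gcongr
        _ = _ := by ring) (e2.trans e3)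
  have g4 : Fintype.card (Fin n) * Real.exp (8 * (Fintype.card (Fin n) * (α / n)) - 2 * l) ≤
      Real.exp (-(l / 4)) := by
    rw [Fintype.card_fin, mul_div_cancel₀ _ m0.ne']
    refine (mul_le_mul_of_nonneg_right (by linarith : (n : ℝ) ≤ Real.exp l) (by positivity)).trans ?_
    rw [← Real.exp_add]
    exact Real.exp_le_exp.2 (by linarith)
  have g5 : Real.exp (-(l : ℝ)) ≤ Real.exp (-(l / 4)) := Real.exp_le_exp.2 (by linarith)
  refine le_trans (Ex_mono p0 p1 fun B => ?_) (((Ex_add _ _ _).trans_le (add_le_add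
    ((Ex_add _ _ _).trans_le (add_le_add g1 g2)) g3)).trans (by linarith))
  refine ind_le (add_nonneg (add_nonneg (ind_nonneg _) (ind_nonneg _)) (ind_nonneg _)) fun hB => ?_
  rcases not_and_or.1 hB with b | b
  · exact le_add_of_le_of_nonneg (le_add_of_le_of_nonneg (ind_pos b).ge (ind_nonneg _))
      (ind_nonneg _)
  rcases not_and_or.1 b with b | b
  · exact le_add_of_le_of_nonneg (le_add_of_nonneg_of_le (ind_nonneg _) (ind_pos b).ge)
      (ind_nonneg _)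
  · exact le_add_of_nonneg_of_le (add_nonneg (ind_nonneg _) (ind_nonneg _)) (ind_pos b).ge

theorem sup_fin (α : ℝ) (a0 : 0 < α) (c : ℝ) (c0 : 0 < c) (hc : 1 + Real.log α - α = -(4 * c))
    (z : ℂ) (δz : ℝ) (hδz : 0 < δz)
    (hz : ∀ (U : Type) [Fintype U] [DecidableEq U] (B : U → U → Bool), eds B ≤ 2 * Fintype.card U →
      δz * (1 / ((Fintype.card U : ℝ) + 1)) ^ (3 * Fintype.card U ^ 2) ≤ ‖(Mz B z).det‖)
    (N : ℕ) (N1 : 2 * α ≤ N) (N2 : 6 ≤ N)
    (N3 : 2 * α * (α + 3) ≤ c * N) (K e : ℝ) (K1 : 1 ≤ K) (e0 : 0 < e)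
    (K2 : 16 * N ≤ e ^ 2 * (K * α)) (D b : ℕ) (D0 : 0 < D) (D1 : 4 * (K * α) ≤ D) (Λ ε : ℝ)
    (ε0 : 0 < ε) (hΛ : 32 ≤ Λ) (hΛ' : Real.exp Λ * (10 * e + (1 - 1 / K ^ D / 2) ^ b) ≤ 1)
    (n l h : ℕ) (h2 : 2 ≤ h) (hl : h ≤ l) (h3 : l < 2 ^ h) (h4 : 2 ^ h ≤ 2 * l)
    (n1 : n + 1 < 2 ^ l) (n2 : 2 ^ l ≤ 2 * (n + 1)) (z1 : 1 + ‖z‖ ≤ h) (z2 : 1 / ‖z‖ ≤ h)
    (z0 : 0 < ‖z‖) (z3 : 1 / δz ≤ h) (l3 : 2 * (N * (b + 1)) ≤ l) (l4 : K * α / e ≤ h)
    (l5 : -Real.log α ≤ l) (l6 : 16 * (K * α) ≤ l) (l7 : 8 / c ≤ h)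
    (l8 : 4 * (K * α) / e * (l : ℝ) ^ 3 ≤ Real.exp (1 / 4 * l))
    (l9 : α * (l : ℝ) ^ 6 ≤ Real.exp (1 / 8 * l))
    (l10 : 1587 * 4 ^ (3 + ε) * Real.exp (ε / 2) * (h : ℝ) ^ 5 ≤ Real.exp (ε / 2 * h)) :
    Ex (α / (n + 1 : ℕ)) (fun B : Fin (n + 1) → Fin (n + 1) → Bool =>
      ind (Sm B z (Real.exp (-Real.log (n + 1 : ℕ) ^ (3 + ε))))) ≤ 28 * Real.exp (-(l / 4)) +
      NR (α / (n + 1 : ℕ)) K D b ((n + 1) / (N * (b + 1))) n z + Real.exp (-(Λ / 2)) := by
  have hl0 : l ≤ 2 * (n + 1) := (Nat.lt_two_pow_self).le.trans n2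
  set T := (n + 1) / (N * (b + 1)) with hT
  have T1 : (b + 1) * T ≤ (n + 1) / N := by
    rw [hT, ← Nat.div_div_eq_div_mul]
    exact Nat.mul_div_le _ _
  have T2 : 2 * ((n + 1) / N) ≤ n + 1 :=
    (Nat.mul_le_mul_right _ (by omega)).trans (Nat.mul_div_le (n + 1) N)
  have T3 : (b + 1) * T ≤ n + 1 := by omega
  have hdiv : ∀ M : ℕ, 0 < M → M ≤ n + 1 → n + 1 ≤ 2 * M * ((n + 1) / M) := by
    intro M M0 M1
    have h1 := Nat.lt_mul_div_succ (n + 1) M0
    have h2 := Nat.mul_le_mul_left M (Nat.div_pos M1 M0)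
    rw [Nat.mul_add] at h1
    rw [Nat.mul_assoc]
    omega
  have T4 : n + 1 ≤ l * T :=
    (hdiv _ (by positivity) (by omega)).trans (Nat.mul_le_mul_right _ l3)
  have T6 : N ≤ N * (b + 1) := Nat.le_mul_of_pos_right _ b.succ_pos
  have T5 := hdiv N (by omega) (by omega)
  have Kα : α ≤ K * α := le_mul_of_one_le_left a0.le K1
  have g := not_nc α a0 c c0 hc N N1 N2 N3 (n + 1) l h h2 hl n1 n2 l5 (by linarith) l7 l9
    (by omega) (VV n b T) ((card_VV n b T).trans T1)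
  set m : ℝ := ((n + 1 : ℕ) : ℝ) with hm
  have m0 : 0 < m := by positivity
  have hl' : (l : ℝ) ≤ 2 * m := by rw [hm]; exact_mod_cast hl0
  have L12 : (12 : ℝ) ≤ l := by exact_mod_cast (by omega : 12 ≤ l)
  have H1 : (1 : ℝ) ≤ h := by exact_mod_cast (by omega : 1 ≤ h)
  have HL : (h : ℝ) ≤ l := by exact_mod_cast hl
  have LE := Real.add_one_le_exp (h : ℝ)
  have N0 : (6 : ℝ) ≤ N := by exact_mod_cast N2
  have lm : 1 / 2 * l - 1 / 2 ≤ Real.log m := log_ge (by omega) (by rw [hm]; exact_mod_cast n2)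
  have q0 : m * (K * (α / m)) = K * α := by field_simp
  refine (master_sup (V := Fin (n + 1)) z l h h2 hl h3 (by simpa using n1) (by linarith) ?_ δz hδz ?_
    hz (VV n b T) ((n + 1) / N) (2 * ((n + 1) / N)) (by have := card_VV n b T; omega)
    (by simpa using T2) T b (io n b) (io_inj T3) (io_not T3) (by simpa using T4)
    (by rw [Fintype.card_fin]; exact Nat.div_le_self _ _) (by positivity) K1 ?_ e0 ?_ ?_ ?_ D D0 ?_ Λ _
    hΛ hΛ' ?_).trans (by unfold NR; linarith)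
  · rw [div_le_iff₀ z0] at z2
    exact z2.trans (mul_le_mul_of_nonneg_right (by linarith) z0.le)
  · rw [div_le_iff₀ hδz] at z3
    exact z3.trans (mul_le_mul_of_nonneg_right (by linarith) hδz.le)
  · rw [← mul_div_assoc, div_le_iff₀ m0]
    linarith
  · have h1 : m ≤ 2 * N * ((n + 1) / N : ℕ) := by rw [hm]; exact_mod_cast T5
    have h2 := mul_le_mul_of_nonneg_right h1 (by positivity : 0 ≤ e ^ 2 * (K * (α / m)))
    refine le_of_mul_le_mul_left ?_ (by linarith : (0 : ℝ) < 2 * N)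
    rw [mul_left_comm m, q0] at h2
    linarith
  · rw [Fintype.card_fin, ← hm, q0, div_le_iff₀ (by linarith)]
    rw [div_le_iff₀ e0] at l4
    linarith
  · have h1 : 4 * (K * α) / e * (l : ℝ) ^ 3 ≤ m := l8.trans (by
      rw [← Real.le_log_iff_exp_le m0]
      linarith)
    have h2 : (1 : ℝ) ≤ l ^ 3 := one_le_pow₀ (by linarith)
    have h5 : (l : ℝ) * h ^ 2 ≤ l * l ^ 2 := by gcongr
    have h6 := mul_le_mul_of_nonneg_left (by linarith : (l : ℝ) * h ^ 2 + 1 ≤ 4 * l ^ 3)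
      (by positivity : 0 ≤ K * α)
    rw [div_mul_eq_mul_div, div_le_iff₀ e0] at h1
    rw [← mul_div_assoc, div_mul_eq_mul_div, div_le_iff₀ m0]
    linarith
  · rwa [Fintype.card_fin, ← hm, q0]
  · have l0 : (0 : ℝ) < l := by linarith
    have h1 : ((l : ℝ) / 4) ^ (3 + ε) ≤ Real.log m ^ (3 + ε) :=
      Real.rpow_le_rpow (by positivity) (by linarith) (by positivity)
    have h5 : Real.exp (ε / 2 * h) ≤ (l : ℝ) ^ ε * Real.exp (ε / 2) := by
      have := mul_le_mul_of_nonneg_right (log_ge (a := l) (k := h) (by omega)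
        (by exact_mod_cast h4)) ε0.le
      rw [Real.rpow_def_of_pos l0, ← Real.exp_add]
      exact Real.exp_le_exp.2 (by linarith)
    have h6 : 1587 * 4 ^ (3 + ε) * (h : ℝ) ^ 5 ≤ (l : ℝ) ^ ε :=
      le_of_mul_le_mul_right (by linarith) (Real.exp_pos (ε / 2))
    have h7 := mul_le_mul_of_nonneg_left h6 (pow_pos l0 3).le
    rw [Real.div_rpow l0.le (by norm_num), Real.rpow_add l0, Real.rpow_ofNat,
      div_le_iff₀ (by positivity)] at h1
    have h8 : 1587 * (l * ((l : ℝ) ^ 2 * h ^ 5)) ≤ Real.log m ^ (3 + ε) :=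
      le_of_mul_le_mul_right (by linarith) (by positivity : (0 : ℝ) < 4 ^ (3 + ε))
    linarith [(by positivity : 0 ≤ l * ((l : ℝ) ^ 2 * h ^ 5))]

theorem offcritical (α : ℝ) (a0 : 0 < α) (a1 : α ≠ 1) : ∀ᵐ z : ℂ, ∀ ε : ℝ, 0 < ε →
    Tendsto (fun n : ℕ => Ex (α / n) (fun B : Fin n → Fin n → Bool =>
      ind (Sm B z (Real.exp (-Real.log n ^ (3 + ε)))))) atTop (𝓝 0) := by
  have hp : Tendsto (fun n : ℕ => α / (n + 1 : ℕ)) atTop (𝓝 0) :=
    (tendsto_add_atTop_iff_nat (f := fun n : ℕ => α / n) 1).2 (tendsto_const_div_atTop_nhds_zero_nat α)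
  have hNR : ∀ᵐ z : ℂ, ∀ K D b N : ℕ, Tendsto (fun n : ℕ => NR (α / (n + 1 : ℕ)) (K + 1) D b
      ((n + 1) / (N * (b + 1))) n z) atTop (𝓝 0) := by
    simp only [ae_all_iff]
    intro K D b N
    refine ae_NR _ (fun n => by positivity) _ (by linarith [Nat.cast_nonneg (α := ℝ) K]) ?_ D b _
    have := hp.const_mul ((K : ℝ) + 1)
    rw [mul_zero] at this
    exact this.eventually (eventually_lt_nhds one_pos)
  filter_upwards [hNR, ae_small, Measure.ae_ne volume (0 : ℂ)] with z hz ⟨δz, hδz, hz'⟩ hz0 ε hε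
  have z0 : 0 < ‖z‖ := norm_pos_iff.2 hz0
  rw [← tendsto_add_atTop_iff_nat 1]
  refine tendsto_order.2 ⟨fun x hx => ?_, fun σ hσ => ?_⟩
  · filter_upwards [hp.eventually (eventually_le_nhds one_pos)] with n hn
    exact hx.trans_le (Ex_nonneg (by positivity) hn fun _ => ind_nonneg _)
  have c0 : 0 < (α - 1 - Real.log α) / 4 := by linarith [Real.log_lt_sub_one_of_pos a0 a1]
  set c := (α - 1 - Real.log α) / 4 with hc
  obtain ⟨N, hN⟩ := exists_nat_ge (2 * α + 6 + 2 * α * (α + 3) / c)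
  have N0 : 0 ≤ 2 * α * (α + 3) / c := by positivity
  set Λ := 32 + 6 / σ with hΛ
  set e := Real.exp (-Λ) / 20 with he
  have e0 : 0 < e := by positivity
  obtain ⟨K, hK⟩ := exists_nat_ge (16 * N / (e ^ 2 * α))
  obtain ⟨D, hD⟩ := exists_nat_gt (4 * ((K + 1) * α))
  have K1 : (1 : ℝ) ≤ K + 1 := by linarith [Nat.cast_nonneg (α := ℝ) K]
  have β0 : 0 < 1 / ((K : ℝ) + 1) ^ D / 2 := by positivity
  obtain ⟨b, hb⟩ := exists_pow_lt_of_lt_one (by positivity : 0 < Real.exp (-Λ) / 2)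
    (by linarith : 1 - 1 / ((K : ℝ) + 1) ^ D / 2 < 1)
  have hlog : Tendsto (fun n : ℕ => Nat.log 2 n + 1) atTop atTop :=
    tendsto_atTop.2 fun k => (eventually_ge_atTop (2 ^ k)).mono fun n hn =>
      (Nat.le_log_of_pow_le one_lt_two hn).trans (Nat.le_succ _)
  have hl := hlog.comp (tendsto_add_atTop_nat 1)
  have hh := hlog.comp hl
  have hl' := tendsto_natCast_atTop_atTop (R := ℝ).comp hl
  have hh' := tendsto_natCast_atTop_atTop (R := ℝ).comp hh
  have hpow : ∀ k : ℕ, 2 ^ (Nat.log 2 (k + 1) + 1) ≤ 2 * (k + 1) := fun k => by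
    rw [pow_succ']
    exact Nat.mul_le_mul_left 2 (Nat.pow_log_le_self 2 k.succ_ne_zero)
  filter_upwards [hh.eventually_ge_atTop 2, hh'.eventually_ge_atTop (1 + ‖z‖),
    hh'.eventually_ge_atTop (1 / ‖z‖), hh'.eventually_ge_atTop (1 / δz),
    hl.eventually_ge_atTop (2 * (N * (b + 1))), hh'.eventually_ge_atTop ((K + 1) * α / e),
    hl'.eventually_ge_atTop (-Real.log α), hl'.eventually_ge_atTop (16 * ((K + 1) * α)),
    hh'.eventually_ge_atTop (8 / c), hl.eventually (poly_exp _ (1 / 4) (by norm_num) 3),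
    hl.eventually (poly_exp _ (1 / 8) (by norm_num) 6),
    hh.eventually (poly_exp _ _ (half_pos hε) 5), hl'.eventually_ge_atTop (4 * (84 / σ)),
    (hz K D b N).eventually (eventually_lt_nhds (by positivity : 0 < σ / 3))]
    with n c1 c2 c3 c4 c5 c6 c7 c8 c9 c10 c11 c12 c13 c14
  have := sup_fin α a0 c c0 (by rw [hc]; ring) z δz hδz hz' N (by linarith)
    (by exact_mod_cast (by linarith : (6 : ℝ) ≤ N))
    (by rw [mul_comm c, ← div_le_iff₀ c0]; linarith) (K + 1) e K1 e0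
    (by rw [div_le_iff₀ (by positivity)] at hK; nlinarith [mul_pos (pow_pos e0 2) a0]) D b
    (Nat.cast_pos.1 (lt_trans (by positivity) hD)) hD.le Λ ε hε
    (le_add_of_nonneg_right (by positivity))
    (by
      have h1 : Real.exp Λ * Real.exp (-Λ) = 1 := by rw [← Real.exp_add]; simp
      have h2 := mul_le_mul_of_nonneg_left hb.le (Real.exp_pos Λ).le
      rw [he]
      linarith)
    n _ _ c1 (Nat.log_lt_self 2 (Nat.succ_ne_zero _)) (Nat.lt_pow_succ_log_self one_lt_two _)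
    (hpow _) (Nat.lt_pow_succ_log_self one_lt_two _) (hpow _) c2 c3 z0 c4 c5 c6 c7 c8 c9 c10 c11 c12
  have h1 : ∀ x : ℝ, 0 < x → ∀ y, 1 / x ≤ y → Real.exp (-y) ≤ x := by
    intro x hx y hy
    rw [Real.exp_neg, inv_le_comm₀ (Real.exp_pos _) hx, ← one_div]
    linarith [Real.add_one_le_exp y]
  simp only [Function.comp_apply] at c13 this
  have h2 := h1 (σ / 84) (by positivity) ((Nat.log 2 (n + 1) + 1 : ℕ) / 4) (by
    rw [one_div_div]
    linarith)
  have h3 := h1 (σ / 3) (by positivity) (Λ / 2) (by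
    rw [one_div_div, hΛ, (by ring : 6 / σ = 2 * (3 / σ))]
    linarith)
  linarith

end Pool.Agent.Fa2423
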