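import Pool.Agent.P.MP_fa2423_pr.Crit
import Pool.Agent.P.MP_fa2423_pr.Sup

set_option autoImplicit false
set_option linter.unusedSectionVars false
set_option linter.unnecessarySeqFocus false

namespace Pool.Agent.Fa2423

open Finset Function MeasureTheory Filter Topology

variable {V : Type} [Fintype V] [DecidableEq V]

theorem adj_bound' {B : V → V → Bool} {k m : ℕ} (hk : ¬ ∃ x : Fin (k + 1) → V, IsP B x)
    (hm : (Cy k B).card ≤ m) (z : ℂ) (hz0 : 0 < ‖z‖) (i j : V) :
    ‖(Mz B z).adjugate i j‖ ≤ ((m + k + 1 : ℕ) : ℝ) * ((Fintype.card V : ℝ) ^ 2) ^ (m + k) *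
      (((1 + ‖z‖) / ‖z‖) ^ (m + k) * ‖z‖ ^ Fintype.card V) := by
  have hV : 0 < Fintype.card V := Fintype.card_pos_iff.2 ⟨i⟩
  rw [Matrix.adjugate_apply, ← Matrix.det_transpose, Matrix.det_apply]
  refine (norm_sum_le _ _).trans ?_
  have h2 : (1 : ℝ) ≤ (1 + ‖z‖) / ‖z‖ := by rw [le_div_iff₀ hz0]; linarith
  have hterm : ∀ σ : Equiv.Perm V, ‖Equiv.Perm.sign σ •
      ∏ s, ((Mz B z).updateRow j (Pi.single i 1)).transpose (σ s) s‖ ≤
      if σ.support.card ≤ m + k then ((1 + ‖z‖) / ‖z‖) ^ (m + k) * ‖z‖ ^ Fintype.card V else 0 := by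
    intro σ
    have hs : ‖Equiv.Perm.sign σ • ∏ s, ((Mz B z).updateRow j (Pi.single i 1)).transpose (σ s) s‖
        = ∏ s, ‖((Mz B z).updateRow j (Pi.single i 1)) s (σ s)‖ := by
      rw [← norm_prod]
      rcases Int.units_eq_one_or (Equiv.Perm.sign σ) with h | h <;> simp [h]
    rw [hs]
    by_cases he : ∀ s, s ≠ j → σ s ≠ s → B s (σ s) = true
    · obtain ⟨O, hO1, hO2, hO3⟩ := orbit_struct hk σ σ.injective j he
      have hQ : (Cy k B ∪ O).card ≤ m + k := (card_union_le _ _).trans (by omega)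
      have hsupp : σ.support.card ≤ m + k := by
        refine le_trans (card_le_card fun s hs => ?_) hQ
        exact mem_union.2 (hO3 s (Equiv.Perm.mem_support.1 hs))
      rw [if_pos hsupp]
      have h3 : ∀ s, ‖((Mz B z).updateRow j (Pi.single i 1)) s (σ s)‖ ≤
          (if s ∈ Cy k B ∪ O then (1 + ‖z‖) / ‖z‖ else 1) * ‖z‖ := by
        intro s
        split_ifs with hsQ
        · rw [div_mul_cancel₀ _ hz0.ne']
          by_cases hsj : s = j
          · rw [hsj, Matrix.updateRow_self, Pi.single_apply]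
            split_ifs <;> simp <;> positivity
          · rw [Matrix.updateRow_ne hsj]
            exact Mz_norm B z _ _
        · rw [mem_union, not_or] at hsQ
          have hsj : s ≠ j := by
            rintro rfl
            exact hsQ.2 hO2
          have hfix : σ s = s := by
            by_contra h
            rcases hO3 s h with h | h
            · exact hsQ.1 h
            · exact hsQ.2 h
          have hloop : ¬ B s s = true := by
            intro h
            refine hsQ.1 (cyc_mem hk σ σ.injective s fun t => ?_)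
            rw [iterate_fixed hfix, iterate_fixed hfix]
            exact h
          rw [Matrix.updateRow_ne hsj, Mz_apply, hfix]
          simp [hloop]
      refine (prod_le_prod (fun s _ => norm_nonneg _) fun s _ => h3 s).trans ?_
      rw [prod_mul_distrib, prod_const, card_univ, prod_ite_mem, univ_inter, prod_const]
      exact mul_le_mul_of_nonneg_right (pow_le_pow_right₀ h2 hQ) (by positivity)
    · push Not at he
      obtain ⟨s, h1, h3, h4⟩ := he
      rw [prod_eq_zero (mem_univ s)]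
      · split_ifs
        · positivity
        · exact le_refl _
      · rw [Matrix.updateRow_ne h1, Mz_apply, if_neg h4, if_neg (Ne.symm h3)]
        simp
  refine (sum_le_sum fun σ _ => hterm σ).trans ?_
  rw [← sum_filter, sum_const, nsmul_eq_mul]
  refine mul_le_mul_of_nonneg_right ?_ (by positivity)
  exact_mod_cast card_perm_supp (V := V) (m + k) hV

open Polynomial in
theorem det_bound' {B : V → V → Bool} {k m : ℕ} (hk : ¬ ∃ x : Fin (k + 1) → V, IsP B x)
    (hm : (Cy k B).card ≤ m) (z : ℂ) (r : ℝ) (hr0 : 0 ≤ r) (hr1 : r ≤ 1)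
    (hr : ∀ a ∈ (Am B).charpoly.roots, r ≤ ‖z - a‖) :
    ‖z‖ ^ Fintype.card V * r ^ m ≤ ‖(Mz B z).det‖ * (1 + ‖z‖) ^ m := by
  have hdvd : (X : ℂ[X]) ^ (Cy k B)ᶜ.card ∣ (Am B).charpoly := by
    rw [Matrix.charpoly, ← Matrix.det_transpose, Matrix.det_apply]
    refine dvd_sum fun σ _ => ?_
    have : (X : ℂ[X]) ^ (Cy k B)ᶜ.card ∣ ∏ s, (Am B).charmatrix.transpose (σ s) s := by
      by_cases he : ∀ s, σ s ≠ s → B s (σ s) = true
      · refine dvd_trans ?_ (prod_dvd_prod_of_subset (Cy k B)ᶜ univ _ (subset_univ _))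
        rw [← prod_const]
        refine dvd_of_eq (prod_congr rfl fun s hs => ?_)
        rw [mem_compl] at hs
        have hfix : σ s = s := by
          by_contra h
          refine hs (cyc_mem hk σ σ.injective s fun t => ?_)
          rw [iterate_succ_apply']
          refine he _ fun h2 => h ?_
          rw [← iterate_succ_apply' σ, iterate_succ_apply] at h2
          exact σ.injective.iterate t h2
        have hloop : ¬ B s s = true := by
          intro h
          refine hs (cyc_mem hk σ σ.injective s fun t => ?_)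
          rw [iterate_fixed hfix, iterate_fixed hfix]
          exact h
        rw [hfix, Matrix.transpose_apply, Matrix.charmatrix_apply_eq]
        simp [Am, hloop]
      · push Not at he
        obtain ⟨s, h1, h2⟩ := he
        rw [prod_eq_zero (mem_univ s)]
        · exact dvd_zero _
        · rw [Matrix.transpose_apply, Matrix.charmatrix_apply_ne _ _ _ (Ne.symm h1)]
          simp [Am, h2]
    rcases Int.units_eq_one_or (Equiv.Perm.sign σ) with h | h <;> simp [h] <;> simpa using this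
  obtain ⟨g, hg⟩ := hdvd
  have hmon : g.Monic := (monic_X_pow _).of_mul_monic_left (hg ▸ (Am B).charpoly_monic)
  have hdeg : g.natDegree ≤ m := by
    have h1 := (Am B).charpoly_natDegree_eq_dim
    rw [hg, (monic_X_pow _).natDegree_mul hmon, natDegree_X_pow, card_compl] at h1
    have := card_le_univ (Cy k B)
    omega
  have hdet : ‖(Mz B z).det‖ = ‖z‖ ^ (Cy k B)ᶜ.card * ‖g.eval z‖ := by
    have h1 := (Am B).eval_charpoly z
    have h2 : Matrix.scalar V z - Am B = -Mz B z := by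
      unfold Mz Am
      rw [neg_sub, Matrix.smul_one_eq_diagonal, Matrix.scalar_apply]
    rw [h2, Matrix.det_neg, hg, eval_mul, eval_pow, eval_X] at h1
    have h3 := congrArg norm h1
    simp only [norm_mul, norm_pow, norm_neg, norm_one, one_pow, one_mul] at h3
    exact h3.symm
  have hev : r ^ m ≤ ‖g.eval z‖ := by
    rw [(IsAlgClosed.splits g).eval_eq_prod_roots_of_monic hmon]
    have h1 : ∀ s : Multiset ℂ, (∀ a ∈ s, r ≤ ‖z - a‖) →
        r ^ s.card ≤ ‖(s.map fun a => z - a).prod‖ := by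
      intro s
      induction s using Multiset.induction_on with
      | empty => simp
      | cons a s ih =>
        intro h
        rw [Multiset.map_cons, Multiset.prod_cons, norm_mul, Multiset.card_cons, pow_succ']
        exact mul_le_mul (h a (Multiset.mem_cons_self _ _))
          (ih fun b hb => h b (Multiset.mem_cons_of_mem hb)) (by positivity) (norm_nonneg _)
    refine le_trans ?_ (h1 g.roots fun a ha => hr a ?_)
    · rw [IsAlgClosed.card_roots_eq_natDegree]
      exact pow_le_pow_of_le_one hr0 hr1 hdeg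
    · exact Multiset.mem_of_le (roots.le_of_dvd (Am B).charpoly_monic.ne_zero
        (Dvd.intro_left _ hg.symm)) ha
  have hz := norm_nonneg z
  rw [hdet, ← card_add_card_compl (Cy k B), pow_add, mul_assoc, mul_comm]
  exact mul_le_mul (mul_le_mul_of_nonneg_left hev (by positivity))
    ((pow_le_pow_left₀ hz (by linarith) _).trans (pow_le_pow_right₀ (by linarith) hm))
    (by positivity) (by positivity)

theorem det_low' {B : V → V → Bool} {k m : ℕ} (hk : ¬ ∃ x : Fin (k + 1) → V, IsP B x)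
    (hm : (Cy k B).card ≤ m) (z : ℂ) (hz0 : 0 < ‖z‖) (r : ℝ) (hr0 : 0 ≤ r)
    (hr1 : r ≤ 1) (hr : ∀ a ∈ (Am B).charpoly.roots, r ≤ ‖z - a‖) (t : ℝ) (ht0 : 0 ≤ t)
    (ht : (Fintype.card V : ℝ) ^ 2 * (((m + k + 1 : ℕ) : ℝ) * ((Fintype.card V : ℝ) ^ 2) ^ (m + k) *
      ((1 + ‖z‖) / ‖z‖) ^ (m + k)) * t * (1 + ‖z‖) ^ m < r ^ m) : ¬ Sm B z t := by
  rintro ⟨v, hv, hv'⟩
  set n : ℝ := (Fintype.card V : ℝ) with hn
  set K : ℝ := ((m + k + 1 : ℕ) : ℝ) * (n ^ 2) ^ (m + k) *
      (((1 + ‖z‖) / ‖z‖) ^ (m + k) * ‖z‖ ^ Fintype.card V) with hK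
  have hn0 : 0 ≤ n := Nat.cast_nonneg _
  have hK0 : 0 ≤ K := by positivity
  have hu : ∀ j, ‖(Matrix.mulVec (Mz B z) v) j‖ ≤ t := by
    intro j
    refine (pow_le_pow_iff_left₀ (norm_nonneg _) ht0 two_ne_zero).1 ?_
    exact (single_le_sum (f := fun i => ‖(Matrix.mulVec (Mz B z) v) i‖ ^ 2)
      (fun i _ => by positivity) (mem_univ j)).trans hv'
  have h1 : ∀ i, ‖(Mz B z).det‖ * ‖v i‖ ≤ n * (K * t) := by
    intro i
    have h2 : (Mz B z).det * v i = ∑ j, (Mz B z).adjugate i j * (Matrix.mulVec (Mz B z) v) j := by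
      have : Matrix.mulVec (Mz B z).adjugate (Matrix.mulVec (Mz B z) v) = (Mz B z).det • v := by
        rw [Matrix.mulVec_mulVec, Matrix.adjugate_mul, Matrix.smul_mulVec, Matrix.one_mulVec]
      exact (congrFun this i).symm
    rw [← norm_mul, h2]
    refine (norm_sum_le _ _).trans ?_
    have h3 : ∀ j, ‖(Mz B z).adjugate i j * (Matrix.mulVec (Mz B z) v) j‖ ≤ K * t := by
      intro j
      rw [norm_mul]
      exact mul_le_mul (adj_bound' hk hm z hz0 i j) (hu j) (norm_nonneg _) hK0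
    refine (sum_le_sum fun j _ => h3 j).trans (le_of_eq ?_)
    rw [sum_const, card_univ, nsmul_eq_mul]
  have h4 : ‖(Mz B z).det‖ ≤ n * (n * (K * t)) := by
    have h5 : ∀ i, ‖v i‖ ^ 2 ≤ ‖v i‖ := by
      intro i
      have h6 : ‖v i‖ ^ 2 ≤ 1 := by
        rw [← hv]
        exact single_le_sum (f := fun i => ‖v i‖ ^ 2) (fun i _ => by positivity) (mem_univ i)
      have h7 : ‖v i‖ ≤ 1 := by nlinarith [norm_nonneg (v i)]
      nlinarith [norm_nonneg (v i)]
    calc ‖(Mz B z).det‖ = ∑ i, ‖(Mz B z).det‖ * ‖v i‖ ^ 2 := by rw [← mul_sum, hv, mul_one]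
      _ ≤ ∑ _i : V, n * (K * t) := sum_le_sum fun i _ =>
          (mul_le_mul_of_nonneg_left (h5 i) (norm_nonneg _)).trans (h1 i)
      _ = _ := by rw [sum_const, card_univ, nsmul_eq_mul]
  have h6 := det_bound' hk hm z r hr0 hr1 hr
  have h7 := mul_lt_mul_of_pos_left ht (pow_pos hz0 (Fintype.card V))
  have h8 : n * (n * (K * t)) = ‖z‖ ^ Fintype.card V * (n ^ 2 * (((m + k + 1 : ℕ) : ℝ) *
      (n ^ 2) ^ (m + k) * ((1 + ‖z‖) / ‖z‖) ^ (m + k)) * t) := by
    rw [hK]
    ring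
  have h9 := mul_le_mul_of_nonneg_right (h4.trans h8.le) (by positivity : 0 ≤ (1 + ‖z‖) ^ m)
  linarith

theorem core' (n : ℕ) (u w : ℝ) (hu : u ^ 3 = n) (hw : 140 ≤ w) (huw : w ^ 3 ≤ u)
    (hn : (n : ℝ) ≤ Real.exp w) (z : ℂ) (hz0 : 0 < ‖z‖) (hz1 : 1 + ‖z‖ ≤ Real.exp w)
    (hz2 : (1 + ‖z‖) / ‖z‖ ≤ Real.exp w) (y : ℝ) (hy : 253 ≤ y) (T2 : ℝ)
    (hT2 : u * (w ^ 3 * y ^ 2) ≤ T2) :
    Ex (1 / (n : ℝ)) (fun B : Fin n → Fin n → Bool => ind (Sm B z (Real.exp (-T2)))) ≤
      2 / w + 1 / y + Ex (1 / (n : ℝ)) (fun B : Fin n → Fin n → Bool =>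
        ind (∃ a ∈ (Am B).charpoly.roots, ‖z - a‖ < 1 / (n : ℝ) ^ 2)) := by
  have hw0 : 0 < w := by linarith
  have hw1 : 1 ≤ w := by linarith
  have hw2 : 121 * w ≤ w ^ 2 := by nlinarith
  have hw3 : 121 * w ^ 2 ≤ w ^ 3 := by nlinarith
  have hu1 : 2 * w ≤ u := by nlinarith
  have hu0 : 0 < u := by linarith
  have hu2 : 1 ≤ u := by linarith
  have hn0 : (0 : ℝ) < n := by rw [← hu]; positivity
  have hn1 : (1 : ℝ) ≤ n := by rw [← hu]; exact one_le_pow₀ hu2
  set M := ⌈u ^ 2 * w⌉₊ with hM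
  have hM1 : u ^ 2 * w ≤ M := Nat.le_ceil _
  have huw4 : 4 ≤ u ^ 2 * w := by nlinarith
  have hM2 : (M : ℝ) ≤ 2 * (u ^ 2 * w) := by
    have := Nat.ceil_lt_add_one (a := u ^ 2 * w) (by positivity)
    linarith
  have hM4 : 4 ≤ M := by exact_mod_cast huw4.trans hM1
  have hMn : M ≤ n := by
    have : (M : ℝ) ≤ n := by
      rw [← hu]
      nlinarith [mul_le_mul_of_nonneg_left hu1 (sq_nonneg u)]
    exact_mod_cast this
  set k := ⌈3 * (M : ℝ) ^ 2 / n⌉₊ with hk
  have hk1 : 3 * (M : ℝ) ^ 2 / n ≤ k := Nat.le_ceil _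
  have hk2 : (k : ℝ) ≤ 13 * (u * w ^ 2) := by
    have h1 := Nat.ceil_lt_add_one (a := 3 * (M : ℝ) ^ 2 / n) (by positivity)
    have h2 : 3 * (M : ℝ) ^ 2 / n ≤ 12 * (u * w ^ 2) := by
      rw [div_le_iff₀ hn0, ← hu]
      have := pow_le_pow_left₀ (Nat.cast_nonneg M) hM2 2
      nlinarith
    have h3 : 1 ≤ u * w ^ 2 := by nlinarith
    linarith
  have hy0 : 0 < y := by linarith
  set m := ⌈k * y⌉₊ + 1 with hm
  have hm1 : k * y ≤ m := by
    have := Nat.le_ceil (k * y)
    rw [hm]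
    push_cast
    linarith
  have hm2 : (m : ℝ) ≤ k * y + 2 := by
    have := Nat.ceil_lt_add_one (a := k * y) (by positivity)
    rw [hm]
    push_cast
    linarith
  have hm0 : 0 < m := by omega
  have hm3 : (1 : ℝ) ≤ m := by exact_mod_cast hm0
  have hq : (m : ℝ) + k ≤ 28 * (u * w ^ 2 * y) := by
    have h1 := mul_le_mul_of_nonneg_right hk2 hy0.le
    have h3 : 1 ≤ u * w ^ 2 := by nlinarith
    have h2 := mul_le_mul_of_nonneg_left (by linarith : 1 ≤ y) (by positivity : 0 ≤ u * w ^ 2)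
    linarith
  have h1 : (1 : ℝ) / n ≤ 1 := by rw [div_le_one hn0]; linarith
  refine (Ex_mono (by positivity) h1 (G := fun B => ind (∃ y : Fin (k + 1) → Fin n, IsP B y) +
    ind (m < (Cy k B).card) + ind (∃ a ∈ (Am B).charpoly.roots, ‖z - a‖ < 1 / (n : ℝ) ^ 2))
    fun B => ind_le (add_nonneg (add_nonneg (ind_nonneg _) (ind_nonneg _)) (ind_nonneg _))
      fun hS => ?_).trans ?_
  rotate_left
  · have h3 := long_path (V := Fin n) n (by simp) k M hM4 hMn (by push_cast; linarith)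
    have h4 := Ex_Cy (V := Fin n) n (by simp) (by omega) k m hm0
    rw [Ex_add, Ex_add]
    have e1 : ∀ x : ℝ, w ^ 3 / 64 ≤ x → n * Real.exp (-x) ≤ 1 / w := by
      intro x hx
      have h1 : n * Real.exp (-x) ≤ Real.exp w * Real.exp (-x) :=
        mul_le_mul_of_nonneg_right hn (Real.exp_pos _).le
      rw [← Real.exp_add] at h1
      have h2 : Real.exp (w + -x) ≤ Real.exp (-w) := Real.exp_le_exp.2 (by nlinarith)
      have h3 : Real.exp (-w) ≤ 1 / w := by
        rw [Real.exp_neg, one_div]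
        exact inv_anti₀ hw0 (by linarith [Real.add_one_le_exp w])
      linarith
    have e2 : w ^ 3 ≤ (M : ℝ) ^ 3 / (n : ℝ) ^ 2 := by
      rw [le_div_iff₀ (by positivity), ← hu]
      have := pow_le_pow_left₀ (by positivity) hM1 3
      nlinarith
    have e3 := e1 ((M : ℝ) ^ 3 / (64 * (n : ℝ) ^ 2)) (by
      rw [mul_comm, ← div_div]
      linarith)
    have e4 := e1 ((M : ℝ) ^ 3 / (n : ℝ) ^ 2) (by
      have : 0 ≤ w ^ 3 := by positivity
      linarith)
    rw [← neg_div] at e3 e4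
    have e5 : (k : ℝ) / m ≤ 1 / y := by
      rw [div_le_div_iff₀ (by positivity) hy0]
      linarith
    have e7 : 2 / w = 1 / w + 1 / w := by ring
    linarith
  have a1 := ind_nonneg (∃ y : Fin (k + 1) → Fin n, IsP B y)
  have a2 := ind_nonneg (m < (Cy k B).card)
  have a4 := ind_nonneg (∃ a ∈ (Am B).charpoly.roots, ‖z - a‖ < 1 / (n : ℝ) ^ 2)
  by_cases b1 : ∃ y : Fin (k + 1) → Fin n, IsP B y
  · rw [ind_pos b1]; linarith
  by_cases b2 : m < (Cy k B).card
  · rw [ind_pos b2]; linarith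
  by_cases b4 : ∃ a ∈ (Am B).charpoly.roots, ‖z - a‖ < 1 / (n : ℝ) ^ 2
  · rw [ind_pos b4]; linarith
  push Not at b4
  clear a1 a2 a4
  refine absurd hS (det_low' b1 (not_lt.1 b2) z hz0 (1 / (n : ℝ) ^ 2) (by positivity)
    (by rw [div_le_one (by positivity)]; nlinarith) b4 _ (Real.exp_pos _).le ?_)
  · rw [Fintype.card_fin]
    set E := Real.exp w with hE
    have hE1 : 1 ≤ E := hn1.trans hn
    set q := m + k with hq'
    have hq1 : 1 ≤ q := by omega
    have a1 : ((q + 1 : ℕ) : ℝ) ≤ E ^ q := by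
      rw [hE, ← Real.exp_nat_mul]
      have := Real.add_one_le_exp (q * w)
      have h2 : (q : ℝ) * 1 ≤ q * w := mul_le_mul_of_nonneg_left hw1 (Nat.cast_nonneg _)
      push_cast
      linarith
    have a2 : (n : ℝ) ^ 2 ≤ E ^ 2 := pow_le_pow_left₀ hn0.le hn 2
    have a3 : (n : ℝ) ^ 2 ≤ (E ^ 2) ^ q := a2.trans (le_self_pow₀ (one_le_pow₀ hE1) (by omega))
    have a4 : ((n : ℝ) ^ 2) ^ q ≤ (E ^ 2) ^ q := pow_le_pow_left₀ (by positivity) a2 q
    have a5 : ((1 + ‖z‖) / ‖z‖) ^ q ≤ E ^ q := pow_le_pow_left₀ (by positivity) hz2 q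
    have a6 : ((n : ℝ) ^ 2) ^ m ≤ (E ^ 2) ^ q :=
      (pow_le_pow_right₀ (one_le_pow₀ hn1) (by omega)).trans a4
    rw [one_div, inv_pow, ← one_div, lt_div_iff₀ (by positivity)]
    have a7 : (1 + ‖z‖) ^ m ≤ E ^ q :=
      (pow_le_pow_left₀ (by positivity) hz1 _).trans (pow_le_pow_right₀ hE1 (by omega))
    calc (n : ℝ) ^ 2 * (((q + 1 : ℕ) : ℝ) * ((n : ℝ) ^ 2) ^ q * ((1 + ‖z‖) / ‖z‖) ^ q) *
          Real.exp (-T2) * (1 + ‖z‖) ^ m * ((n : ℝ) ^ 2) ^ m
        ≤ (E ^ 2) ^ q * (E ^ q * (E ^ 2) ^ q * E ^ q) * Real.exp (-T2) * E ^ q * (E ^ 2) ^ q := by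
          gcongr
      _ = E ^ (9 * q) * Real.exp (-T2) := by ring
      _ < 1 := by
        rw [hE, ← Real.exp_nat_mul, ← Real.exp_add, Real.exp_lt_one_iff, hq']
        push_cast
        have b1 := mul_le_mul_of_nonneg_right hq hw0.le
        have b2 := mul_le_mul_of_nonneg_left hy (by positivity : 0 ≤ u * w ^ 3 * y)
        have b3 : 0 < u * w ^ 3 * y := by positivity
        linarith

theorem critical_all : ∀ᵐ z : ℂ, ∀ ε : ℝ, 0 < ε →
    Tendsto (fun n : ℕ => Ex (1 / (n : ℝ)) (fun B : Fin n → Fin n → Bool =>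
      ind (Sm B z (Real.exp (-((n : ℝ) ^ (1 / 3 : ℝ) * Real.log n ^ (3 + ε))))))) atTop (𝓝 0) := by
  have h0 : ∀ n : ℕ, (0 : ℝ) ≤ 1 / n := fun n => by positivity
  have h1 : ∀ n : ℕ, (1 : ℝ) / n ≤ 1 := fun n => by
    rcases Nat.eq_zero_or_pos n with h | h
    · simp [h]
    · rw [div_le_one (by exact_mod_cast h)]
      exact_mod_cast h
  filter_upwards [ae_far (fun n => 1 / (n : ℝ)) h0 h1, Measure.ae_ne volume (0 : ℂ)]
    with z hz hz0 ε hε
  have ha : 0 < ‖z‖ := norm_pos_iff.2 hz0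
  have hw : Tendsto (fun n : ℕ => Real.log n) atTop atTop :=
    Real.tendsto_log_atTop.comp tendsto_natCast_atTop_atTop
  have hy := (tendsto_rpow_atTop (half_pos hε)).comp hw
  have hlim := ((hw.const_div_atTop 2).add (hy.const_div_atTop 1)).add hz
  rw [add_zero, add_zero] at hlim
  refine squeeze_zero' (Eventually.of_forall fun n => Ex_nonneg (h0 n) (h1 n) fun B => ind_nonneg _)
    ?_ hlim
  filter_upwards [tendsto_natCast_atTop_atTop.eventually
    ((isLittleO_log_rpow_atTop (by norm_num : (0 : ℝ) < 1 / 9)).bound one_pos),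
    hy.eventually_ge_atTop 253, hw.eventually_ge_atTop 140,
    hw.eventually_ge_atTop ((1 + ‖z‖) / ‖z‖), hw.eventually_ge_atTop (1 + ‖z‖),
    eventually_ge_atTop 1] with n c0 c1 c2 c3 c4 c5
  have hn0 : (0 : ℝ) < n := by exact_mod_cast c5
  have hw0 : 0 < Real.log n := by linarith
  refine core' n ((n : ℝ) ^ (1 / 3 : ℝ)) (Real.log n) ?_ c2 ?_
    (Real.exp_log hn0).ge z ha (by linarith [Real.add_one_le_exp (Real.log n)])
    (by linarith [Real.add_one_le_exp (Real.log n)]) _ c1 _ (le_of_eq ?_)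
  · rw [← Real.rpow_natCast, ← Real.rpow_mul hn0.le]
    norm_num
  · rw [Real.norm_eq_abs, Real.norm_eq_abs, one_mul, abs_of_pos hw0,
      abs_of_pos (Real.rpow_pos_of_pos hn0 _)] at c0
    refine (pow_le_pow_left₀ hw0.le c0 3).trans (le_of_eq ?_)
    rw [← Real.rpow_natCast, ← Real.rpow_mul hn0.le]
    norm_num
  · rw [Function.comp_apply, Real.rpow_add hw0, Real.rpow_ofNat, sq, ← Real.rpow_add hw0, add_halves]

theorem sharp (α : ℝ) (a0 : 0 < α) : ∀ᵐ z : ℂ, ∀ ε : ℝ, 0 < ε →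
    Tendsto (fun n : ℕ => Ex (α / n) (fun B : Fin n → Fin n → Bool => ind (Sm B z (Real.exp
      (-((n : ℝ) ^ (if α = 1 then (1 / 3 : ℝ) else 0) * Real.log n ^ (3 + ε))))))) atTop (𝓝 0) := by
  split_ifs with h
  · rw [h]
    exact critical_all
  · simpa only [Real.rpow_zero, one_mul] using offcritical α a0 h

end Pool.Agent.Fa2423
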