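import Pool.Agent.P.MP_fa2423_pr.Good

set_option autoImplicit false
set_option linter.unusedSectionVars false

namespace Pool.Agent.Fa2423

open Finset

variable {V : Type} [Fintype V] [DecidableEq V]

/-- the shifted adjacency matrix -/
noncomputable def Mz (B : V → V → Bool) (z : ℂ) : Matrix V V ℂ :=
  Matrix.of (fun i j => if B i j then (1 : ℂ) else 0) - z • (1 : Matrix V V ℂ)

/-- least singular value at most `t` -/
def Sm (B : V → V → Bool) (z : ℂ) (t : ℝ) : Prop :=
  ∃ v : V → ℂ, (∑ i, ‖v i‖ ^ 2 = 1) ∧ ∑ i, ‖(Matrix.mulVec (Mz B z) v) i‖ ^ 2 ≤ t ^ 2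

theorem Sm.mono {B : V → V → Bool} {z : ℂ} {t t' : ℝ} (h : Sm B z t) (h0 : 0 ≤ t) (h1 : t ≤ t') :
    Sm B z t' := by
  obtain ⟨v, hv, hv'⟩ := h
  exact ⟨v, hv, hv'.trans (pow_le_pow_left₀ h0 h1 2)⟩

theorem sm_of (B : V → V → Bool) (z : ℂ) (t : ℝ) (w : V → ℂ) (hw : 0 < ∑ i, ‖w i‖ ^ 2)
    (h : ∑ i, ‖(Matrix.mulVec (Mz B z) w) i‖ ^ 2 ≤ t ^ 2 * ∑ i, ‖w i‖ ^ 2) : Sm B z t := by
  set s : ℝ := ∑ i, ‖w i‖ ^ 2 with hs
  have hc : ‖((Real.sqrt s : ℝ) : ℂ)⁻¹‖ ^ 2 = s⁻¹ := by
    rw [norm_inv, Complex.norm_real, Real.norm_eq_abs, inv_pow, sq_abs, Real.sq_sqrt hw.le]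
  refine ⟨((Real.sqrt s : ℝ) : ℂ)⁻¹ • w, ?_, ?_⟩
  · simp only [Pi.smul_apply, smul_eq_mul, norm_mul, mul_pow, hc]
    rw [← mul_sum, ← hs, inv_mul_cancel₀ hw.ne']
  · rw [Matrix.mulVec_smul]
    simp only [Pi.smul_apply, smul_eq_mul, norm_mul, mul_pow, hc]
    rw [← mul_sum, ← div_eq_inv_mul, div_le_iff₀ hw]
    exact h

theorem Mz_mulVec (B : V → V → Bool) (z : ℂ) (w : V → ℂ) (i : V) :
    (Matrix.mulVec (Mz B z) w) i = (∑ j, if B i j then w j else 0) - z * w i := by
  unfold Mz
  rw [Matrix.sub_mulVec, Matrix.smul_mulVec, Matrix.one_mulVec]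
  simp [Matrix.mulVec, dotProduct]

theorem exists_closed {B : V → V → Bool} {k l : ℕ} (hk : ¬ ∃ x : Fin (k + 1) → V, IsP B x)
    {y : Fin (l + 1) → V} (hb : ¬ Bad k B y) :
    ∃ D : V → Prop, (∀ t, D (y t)) ∧ (∀ i j, D i → B i j = true → D j) ∧
      ∀ i t, D i → B i (y t) = true → (i, y t) ∈ PE y := by
  refine ⟨fun i => ∃ (m : ℕ) (f : ℕ → V), (∀ a b, a ≤ m → b ≤ m → f a = f b → a = b) ∧
    (∀ t, t < m → B (f t) (f (t + 1)) = true) ∧ f 0 ∈ univ.image y ∧
    (∀ t, 0 < t → t ≤ m → f t ∉ univ.image y) ∧ f m = i, ?_, ?_, ?_⟩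
  · intro t
    exact ⟨0, fun _ => y t, fun a b ha hb _ => by omega, fun t ht => by omega,
      mem_image_of_mem _ (mem_univ _), fun t h1 h2 => by omega, rfl⟩
  · rintro i j ⟨m, f, h1, h2, h3, h4, h5⟩ hij
    by_cases hj : j ∈ univ.image y
    · exact ⟨0, fun _ => j, fun a b ha hb _ => by omega, fun t ht => by omega,
        hj, fun t h1 h2 => by omega, rfl⟩
    by_cases hj' : ∃ r, r ≤ m ∧ f r = j
    · obtain ⟨r, hr, hr'⟩ := hj'
      exact ⟨r, f, fun a b ha hb => h1 a b (by omega) (by omega), fun t ht => h2 t (by omega),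
        h3, fun t ht ht' => h4 t ht (by omega), hr'⟩
    · push Not at hj'
      refine ⟨m + 1, fun t => if t ≤ m then f t else j, ?_, ?_, ?_, ?_, ?_⟩
      · intro a b ha hb hab
        by_cases h6 : a ≤ m <;> by_cases h7 : b ≤ m <;> simp only [h6, h7, if_true, if_false] at hab
        · exact h1 a b h6 h7 hab
        · exact absurd hab (hj' a h6)
        · exact absurd hab.symm (hj' b h7)
        · omega
      · intro t ht
        by_cases h6 : t + 1 ≤ m
        · simp only [h6, (by omega : t ≤ m), if_true]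
          exact h2 t (by omega)
        · have : t = m := by omega
          subst this
          simp only [h6, le_refl, if_true, if_false, h5, hij]
      · simpa using h3
      · intro t ht ht'
        by_cases h6 : t ≤ m
        · simp only [h6, if_true]
          exact h4 t ht h6
        · simp only [h6, if_false]
          exact hj
      · simp
  · rintro i t ⟨m, f, h1, h2, h3, h4, h5⟩ hit
    by_contra hne
    have hm : m < k := by
      by_contra hm
      exact hk ⟨_, isP_of_nat k f (fun a b ha hb => h1 a b (by omega) (by omega))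
        fun t ht => h2 t (by omega)⟩
    have hP := isP_of_nat m f h1 h2
    refine hb ⟨m, hm, (fun s : Fin (m + 1) => f s, t), mem_Rt.2 ⟨hP.1, h3, ?_⟩, ?_⟩
    · rw [disjoint_right]
      intro e he he'
      rcases mem_insert.1 he with he | he
      · apply hne
        rw [he] at he'
        simpa [h5] using he'
      · obtain ⟨s, rfl⟩ := mem_PE.1 he
        obtain ⟨s', hs'⟩ := mem_PE.1 he'
        refine h4 (s.val + 1) (by omega) (by omega) ?_
        have : y s'.succ = f (s.val + 1) := (Prod.ext_iff.1 hs').2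
        rw [← this]
        exact mem_image_of_mem _ (mem_univ _)
    · intro e he
      rcases mem_insert.1 he with he | he
      · rw [he]
        simpa [h5] using hit
      · exact hP.2 e he

theorem det_up {B : V → V → Bool} {k l : ℕ} (hk : ¬ ∃ x : Fin (k + 1) → V, IsP B x)
    {y : Fin (l + 1) → V} (hy : IsP B y) (hb : ¬ Bad k B y) (z : ℂ) : Sm B z (‖z‖ ^ (l + 1)) := by
  classical
  obtain ⟨D, h1, h2, h3⟩ := exists_closed hk hb
  let g : V → ℂ := fun i => ∑ t : Fin (l + 1), if y t = i then z ^ (t : ℕ) else 0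
  have hloc : ∀ w w' : V → ℂ, (∀ i, D i → w i = w' i) → ∀ i, D i →
      (Matrix.mulVec (Mz B z) w) i = (Matrix.mulVec (Mz B z) w') i := by
    intro w w' h i hi
    rw [Mz_mulVec, Mz_mulVec, h i hi]
    congr 1
    refine sum_congr rfl fun j _ => ?_
    split_ifs with hij
    · exact h j (h2 i j hi hij)
    · rfl
  have hg : ∀ i, D i → (Matrix.mulVec (Mz B z) g) i =
      if y (Fin.last l) = i then -z ^ (l + 1) else 0 := by
    intro i hi
    rw [Mz_mulVec]
    have e1 : (∑ j, if B i j then g j else 0) =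
        ∑ t : Fin (l + 1), if B i (y t) then z ^ (t : ℕ) else 0 := by
      have : ∀ j, (if B i j then g j else 0) =
          ∑ t : Fin (l + 1), if y t = j then (if B i (y t) then z ^ (t : ℕ) else 0) else 0 := by
        intro j
        by_cases hij : B i j = true
        · simp only [hij, if_true, g]
          refine sum_congr rfl fun t _ => ?_
          split_ifs with a b
          · rfl
          · rw [a] at b
            exact absurd hij b
          · rfl
        · simp only [hij]
          symm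
          refine sum_eq_zero fun t _ => ?_
          split_ifs with a b
          · rw [a] at b
            exact absurd b hij
          · rfl
          · rfl
      simp only [this]
      rw [sum_comm]
      simp
    have e2 : ¬ B i (y 0) = true := by
      intro h
      obtain ⟨s, hs⟩ := mem_PE.1 (h3 i 0 hi h)
      exact Fin.succ_ne_zero s (hy.1 (Prod.ext_iff.1 hs).2)
    have e3 : ∀ s : Fin l, B i (y s.succ) = true ↔ y s.castSucc = i := by
      intro s
      constructor
      · intro h
        obtain ⟨s', hs⟩ := mem_PE.1 (h3 i _ hi h)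
        have : s' = s := Fin.succ_injective _ (hy.1 (Prod.ext_iff.1 hs).2)
        subst this
        exact (Prod.ext_iff.1 hs).1
      · rintro rfl
        exact hy.edge s
    rw [e1, Fin.sum_univ_succ]
    simp only [g]
    rw [Fin.sum_univ_castSucc, mul_add, mul_sum]
    simp only [e2, e3, Fin.val_succ, Fin.val_castSucc, Fin.val_last]
    have e4 : ∀ s : Fin l, (if y s.castSucc = i then z ^ ((s : ℕ) + 1) else 0) =
        z * if y s.castSucc = i then z ^ (s : ℕ) else 0 := by
      intro s
      split_ifs <;> ring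
    simp only [e4]
    split_ifs <;> first | contradiction | ring
  let N : Matrix V V ℂ := fun i => if D i then Pi.single i 1 else Mz B z i
  have hN1 : ∀ w i, D i → (Matrix.mulVec N w) i = w i := by
    intro w i hi
    simp [N, Matrix.mulVec, hi]
  have hN2 : ∀ w i, ¬ D i → (Matrix.mulVec N w) i = (Matrix.mulVec (Mz B z) w) i := by
    intro w i hi
    simp [N, Matrix.mulVec, hi]
  by_cases hinj : Function.Injective (Matrix.toLin' N)
  · obtain ⟨w, hw⟩ := LinearMap.injective_iff_surjective.1 hinj g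
    rw [Matrix.toLin'_apply] at hw
    have hwg : ∀ i, D i → w i = g i := fun i hi => by rw [← hN1 w i hi, hw]
    have hM : ∀ i, (Matrix.mulVec (Mz B z) w) i =
        if y (Fin.last l) = i then -z ^ (l + 1) else 0 := by
      intro i
      by_cases hi : D i
      · rw [hloc w g hwg i hi, hg i hi]
      · rw [← hN2 w i hi, hw, if_neg]
        · refine sum_eq_zero fun t _ => if_neg ?_
          rintro rfl
          exact hi (h1 t)
        · rintro rfl
          exact hi (h1 _)
    have hw0 : w (y 0) = 1 := by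
      rw [hwg _ (h1 0)]
      simp only [g, hy.1.eq_iff]
      simp
    have hs : 1 ≤ ∑ i, ‖w i‖ ^ 2 := by
      have := single_le_sum (f := fun i => ‖w i‖ ^ 2) (fun i _ => by positivity) (mem_univ (y 0))
      simpa [hw0] using this
    refine sm_of B z _ w (by linarith) ?_
    have : ∑ i, ‖(Matrix.mulVec (Mz B z) w) i‖ ^ 2 = (‖z‖ ^ (l + 1)) ^ 2 := by
      rw [sum_eq_single (y (Fin.last l))]
      · rw [hM, if_pos rfl, norm_neg, norm_pow]
      · intro i _ hi
        rw [hM, if_neg (Ne.symm hi)]
        simp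
      · simp
    rw [this]
    exact le_mul_of_one_le_right (by positivity) hs
  · rw [injective_iff_map_eq_zero] at hinj
    push Not at hinj
    obtain ⟨w, hw, hw0⟩ := hinj
    rw [Matrix.toLin'_apply] at hw
    have hM : ∀ i, (Matrix.mulVec (Mz B z) w) i = 0 := by
      intro i
      by_cases hi : D i
      · rw [hloc w 0 (fun j hj => by rw [← hN1 w j hj, hw]) i hi]
        simp
      · rw [← hN2 w i hi, hw]
        rfl
    obtain ⟨i, hi⟩ := Function.ne_iff.1 hw0
    have hs : 0 < ∑ i, ‖w i‖ ^ 2 :=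
      lt_of_lt_of_le (pow_pos (norm_pos_iff.2 hi) 2)
        (single_le_sum (f := fun i => ‖w i‖ ^ 2) (fun i _ => by positivity) (mem_univ i))
    refine sm_of B z _ w hs ?_
    simp only [hM, norm_zero]
    simp only [ne_eq, OfNat.ofNat_ne_zero, not_false_eq_true, zero_pow, sum_const_zero]
    positivity

end Pool.Agent.Fa2423
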