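import Pool.Agent.P.MP_fa2423_pr.Paths

set_option autoImplicit false
set_option linter.unusedSectionVars false

namespace Pool.Agent.Fa2423

open Finset

variable {V : Type} [Fintype V] [DecidableEq V]

/-- product weight with entry-dependent probabilities -/
noncomputable def wtP (P : V → V → ℝ) (B : V → V → Bool) : ℝ :=
  ∏ i, ∏ j, if B i j then P i j else 1 - P i j

/-- expectation with entry-dependent probabilities -/
noncomputable def ExP (P : V → V → ℝ) (F : (V → V → Bool) → ℝ) : ℝ := ∑ B, wtP P B * F B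

theorem Ex_eq (p : ℝ) (F : (V → V → Bool) → ℝ) : Ex p F = ExP (fun _ _ => p) F := rfl

theorem sum_conf (φ : V → V → Bool → ℝ) :
    ∑ B : V → V → Bool, ∏ i, ∏ j, φ i j (B i j) = ∏ i, ∏ j, (φ i j true + φ i j false) := by
  have h2 : ∀ i : V, (∏ j, (φ i j true + φ i j false)) = ∑ r : V → Bool, ∏ j, φ i j (r j) := by
    intro i
    rw [← Fintype.piFinset_univ, ← prod_univ_sum]
    simp
  simp only [h2]
  rw [prod_univ_sum, Fintype.piFinset_univ]

theorem ExP_prod (P : V → V → ℝ) (φ : V → V → Bool → ℝ) :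
    ExP P (fun B => ∏ i, ∏ j, φ i j (B i j)) =
      ∏ i, ∏ j, (P i j * φ i j true + (1 - P i j) * φ i j false) := by
  unfold ExP wtP
  simp only [← prod_mul_distrib]
  exact sum_conf fun i j t => (if t then P i j else 1 - P i j) * φ i j t

theorem wtP_sum (P : V → V → ℝ) : ∑ B, wtP P B = 1 := by
  have := ExP_prod P (fun _ _ _ => 1)
  simpa [ExP] using this

theorem ExP_const (P : V → V → ℝ) (c : ℝ) : ExP P (fun _ => c) = c := by
  unfold ExP
  rw [← sum_mul, wtP_sum, one_mul]

theorem ExP_add (P : V → V → ℝ) (F G : (V → V → Bool) → ℝ) :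
    ExP P (fun B => F B + G B) = ExP P F + ExP P G := by
  unfold ExP
  simp only [mul_add, sum_add_distrib]

theorem ExP_sub (P : V → V → ℝ) (F G : (V → V → Bool) → ℝ) :
    ExP P (fun B => F B - G B) = ExP P F - ExP P G := by
  unfold ExP
  simp only [mul_sub, sum_sub_distrib]

theorem ExP_mul (P : V → V → ℝ) (c : ℝ) (F : (V → V → Bool) → ℝ) :
    ExP P (fun B => c * F B) = c * ExP P F := by
  unfold ExP
  rw [mul_sum]
  exact sum_congr rfl fun B _ => by ring

theorem ExP_mul' (P : V → V → ℝ) (c : ℝ) (F : (V → V → Bool) → ℝ) :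
    ExP P (fun B => F B * c) = ExP P F * c := by
  simp only [mul_comm _ c, ExP_mul]

theorem ExP_sum {ι : Type} (P : V → V → ℝ) (s : Finset ι) (F : ι → (V → V → Bool) → ℝ) :
    ExP P (fun B => ∑ i ∈ s, F i B) = ∑ i ∈ s, ExP P (F i) := by
  unfold ExP
  simp only [mul_sum]
  rw [sum_comm]

theorem ExP_comm (P : V → V → ℝ) (F : (V → V → Bool) → (V → V → Bool) → ℝ) :
    ExP P (fun B' => ExP P (fun B => F B' B)) = ExP P (fun B => ExP P (fun B' => F B' B)) := by
  unfold ExP
  simp only [mul_sum]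
  rw [sum_comm]
  exact sum_congr rfl fun _ _ => sum_congr rfl fun _ _ => by ring

theorem wtP_mix (P : V → V → ℝ) (T B' B : V → V → Bool) :
    wtP P (mix T B' B) * wtP P (mix T B B') = wtP P B' * wtP P B := by
  unfold wtP mix
  simp only [← prod_mul_distrib]
  refine prod_congr rfl fun i _ => prod_congr rfl fun j _ => ?_
  by_cases h : T i j = true
  · simp only [h, if_true]
  · simp only [h]
    simp [mul_comm]

theorem ExP_mix (P : V → V → ℝ) (T : V → V → Bool) (F : (V → V → Bool) → ℝ) :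
    ExP P F = ExP P (fun B => ExP P (fun B' => F (mix T B' B))) := by
  rw [← ExP_comm]
  let e : ((V → V → Bool) × (V → V → Bool)) ≃ ((V → V → Bool) × (V → V → Bool)) :=
    { toFun := fun x => (mix T x.1 x.2, mix T x.2 x.1)
      invFun := fun x => (mix T x.1 x.2, mix T x.2 x.1)
      left_inv := fun x => by simp only [mix_mix]
      right_inv := fun x => by simp only [mix_mix] }
  have h1 : ExP P F = ∑ x : (V → V → Bool) × (V → V → Bool), wtP P x.1 * wtP P x.2 * F x.1 := by
    rw [Fintype.sum_prod_type]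
    refine sum_congr rfl fun B _ => ?_
    dsimp only
    rw [← sum_mul, ← mul_sum, wtP_sum, mul_one]
  rw [h1, ← e.sum_comp, Fintype.sum_prod_type]
  unfold ExP
  refine sum_congr rfl fun B' _ => ?_
  rw [mul_sum]
  refine sum_congr rfl fun B _ => ?_
  show wtP P (mix T B' B) * wtP P (mix T B B') * F (mix T B' B) = _
  rw [wtP_mix]
  ring

theorem ExP_entry (P : V → V → ℝ) (a b : V) (g : Bool → ℝ) :
    ExP P (fun B => g (B a b)) = P a b * g true + (1 - P a b) * g false := by
  have h := ExP_prod P (fun i j t => if j = b then (if i = a then g t else 1) else 1)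
  have h2 : ∀ i j, P i j * (if j = b then (if i = a then g true else 1) else 1) +
      (1 - P i j) * (if j = b then (if i = a then g false else 1) else 1) =
      if j = b then (if i = a then P i j * g true + (1 - P i j) * g false else 1) else 1 := by
    intro i j
    split_ifs <;> ring
  simpa only [h2, prod_ite_eq', mem_univ, if_true] using h

/-- set one entry -/
def setE (B : V → V → Bool) (e : V × V) (t : Bool) : V → V → Bool :=
  fun i j => if (i, j) = e then t else B i j

theorem setE_self (B : V → V → Bool) (e : V × V) (t : Bool) : setE B e t e.1 e.2 = t := by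
  simp [setE]

theorem setE_ne (B : V → V → Bool) {e e' : V × V} (h : e' ≠ e) (t : Bool) :
    setE B e t e'.1 e'.2 = B e'.1 e'.2 := by
  simp [setE, h]

theorem ExP_set (P : V → V → ℝ) (e : V × V) (F : (V → V → Bool) → ℝ) :
    ExP P F = ExP P (fun B => P e.1 e.2 * F (setE B e true) + (1 - P e.1 e.2) * F (setE B e false)) := by
  rw [ExP_mix P (fun i j => decide ((i, j) = e))]
  congr 1
  funext B
  rw [← ExP_entry P e.1 e.2 (fun t => F (setE B e t))]
  congr 1
  funext B'
  congr 1
  funext i j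
  by_cases h : (i, j) = e
  · subst h
    simp [mix, setE]
  · simp [mix, setE, h]

section
variable {P : V → V → ℝ} (h0 : ∀ i j, 0 ≤ P i j) (h1 : ∀ i j, P i j ≤ 1)
include h0 h1

theorem ExP_mono {F G : (V → V → Bool) → ℝ} (h : ∀ B, F B ≤ G B) : ExP P F ≤ ExP P G := by
  refine sum_le_sum fun B _ => mul_le_mul_of_nonneg_left (h B) ?_
  refine prod_nonneg fun i _ => prod_nonneg fun j _ => ?_
  split_ifs
  · exact h0 i j
  · linarith [h1 i j]

theorem ExP_nonneg {F : (V → V → Bool) → ℝ} (h : ∀ B, 0 ≤ F B) : 0 ≤ ExP P F := by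
  have := ExP_mono h0 h1 (F := fun _ => 0) (G := F) h
  rwa [ExP_const] at this

theorem ExP_le {F : (V → V → Bool) → ℝ} {c : ℝ} (h : ∀ B, F B ≤ c) : ExP P F ≤ c := by
  have := ExP_mono h0 h1 (F := F) (G := fun _ => c) h
  rwa [ExP_const] at this

theorem peel {ι : Type} [LinearOrder ι] (S : ι → V → V → Bool) (F : (V → V → Bool) → ℝ)
    (G : ι → (V → V → Bool) → ℝ) (c : ι → ℝ) (hF0 : ∀ B, 0 ≤ F B) (hG0 : ∀ t B, 0 ≤ G t B)
    (U : Finset ι) (hF : ∀ t ∈ U, ∀ B' B, F (mix (S t) B' B) = F B)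
    (hG : ∀ s ∈ U, ∀ t ∈ U, s < t → ∀ B' B, G s (mix (S t) B' B) = G s B)
    (hc : ∀ t ∈ U, ∀ B, ExP P (fun B' => G t (mix (S t) B' B)) ≤ c t) :
    ExP P (fun B => F B * ∏ t ∈ U, G t B) ≤ ExP P F * ∏ t ∈ U, c t := by
  induction U using Finset.induction_on_max with
  | empty => simp
  | insert a s ha ih =>
    have has : a ∉ s := fun h => lt_irrefl _ (ha a h)
    have h2 := ih (fun t ht => hF t (mem_insert_of_mem ht))
      (fun u hu t ht => hG u (mem_insert_of_mem hu) t (mem_insert_of_mem ht))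
      fun t ht => hc t (mem_insert_of_mem ht)
    have ca := hc a (mem_insert_self _ _)
    have c0 : 0 ≤ c a := (ExP_nonneg h0 h1 fun _ => hG0 _ _).trans (ca fun _ _ => true)
    simp only [prod_insert has]
    rw [ExP_mix P (S a), mul_left_comm]
    refine le_trans ?_ (mul_le_mul_of_nonneg_left h2 c0)
    rw [← ExP_mul]
    refine ExP_mono h0 h1 fun B => ?_
    have h3 : ∀ B', F (mix (S a) B' B) * (G a (mix (S a) B' B) * ∏ t ∈ s, G t (mix (S a) B' B)) =
        G a (mix (S a) B' B) * (F B * ∏ t ∈ s, G t B) := by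
      intro B'
      rw [hF a (mem_insert_self _ _), prod_congr rfl fun t ht =>
        hG t (mem_insert_of_mem ht) a (mem_insert_self _ _) (ha t ht) B' B]
      ring
    simp only [h3, ExP_mul']
    exact mul_le_mul_of_nonneg_right (ca B) (mul_nonneg (hF0 B) (prod_nonneg fun t _ => hG0 t B))

theorem peel' {ι : Type} (S : ι → V → V → Bool) (G : ι → (V → V → Bool) → ℝ) (c : ι → ℝ)
    (hG0 : ∀ t B, 0 ≤ G t B) (U : Finset ι)
    (hG : ∀ s ∈ U, ∀ t ∈ U, s ≠ t → ∀ B' B, G s (mix (S t) B' B) = G s B)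
    (hG' : ∀ t ∈ U, ∀ B' B, G t (mix (S t) B' B) = G t B') (hc : ∀ t ∈ U, ExP P (G t) ≤ c t) :
    ExP P (fun B => ∏ t ∈ U, G t B) ≤ ∏ t ∈ U, c t := by
  obtain ⟨o, -⟩ := exists_wellFoundedLT (α := ι)
  have := peel h0 h1 S (fun _ => 1) G c (fun _ => zero_le_one) hG0 U (fun _ _ _ _ => rfl)
    (fun s hs t ht h => hG s hs t ht h.ne) fun t ht B => by
      simp only [hG' t ht]
      exact hc t ht
  simpa only [one_mul, ExP_const] using this

theorem LO (E : Finset (V × V)) (q : ℝ) (q0 : 0 ≤ q) (q1 : q ≤ 1) (hq : ∀ e ∈ E, P e.1 e.2 = q)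
    (X : (V → V → Bool) → ℝ) (τ : ℝ) (hτ : 0 < τ)
    (hX : ∀ e ∈ E, ∀ B, X (setE B e false) + 2 * τ ≤ X (setE B e true)) (ε : ℝ) (hε : 0 < ε)
    (h : 1 ≤ ε ^ 2 * (E.card * (q * (1 - q)))) : ExP P (fun B => ind (|X B| < τ)) ≤ ε := by
  set bq : V × V → (V → V → Bool) → ℝ := fun e B => (if B e.1 e.2 then 1 else 0) - q with hbq
  have hv : 0 ≤ q * (1 - q) := mul_nonneg q0 (by linarith)
  have a1 : ∀ e ∈ E, q * (1 - q) * ExP P (fun B => ind (|X B| < τ)) ≤
      ExP P (fun B => (ind (τ ≤ X B) + q * ind (|X B| < τ)) * bq e B) := by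
    intro e he
    rw [ExP_set P e, ExP_set P e (fun B => (ind (τ ≤ X B) + q * ind (|X B| < τ)) * bq e B),
      ← ExP_mul]
    refine ExP_mono h0 h1 fun B => ?_
    simp only [hbq, setE_self, hq e he, if_true, Bool.false_eq_true, if_false]
    have h2 := hX e he B
    have h3 : ind (|X (setE B e false)| < τ) + ind (τ ≤ X (setE B e false)) ≤
        ind (τ ≤ X (setE B e true)) := by
      by_cases c1 : |X (setE B e false)| < τ
      · have := abs_lt.1 c1
        rw [ind_pos c1, ind_neg (P := τ ≤ X (setE B e false)) (by linarith),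
          ind_pos (P := τ ≤ X (setE B e true)) (by linarith), add_zero]
      · rw [ind_neg c1, zero_add]
        exact ind_le (ind_nonneg _) fun c2 => (ind_pos (by linarith)).ge
    have h4 := mul_le_mul_of_nonneg_left h3 hv
    linarith
  have a2 : ExP P (fun B => (∑ e ∈ E, bq e B) ^ 2) = E.card * (q * (1 - q)) := by
    simp only [sq, sum_mul_sum, ExP_sum]
    rw [← nsmul_eq_mul, ← sum_const]
    refine sum_congr rfl fun e he => ?_
    rw [sum_eq_single e]
    · rw [ExP_entry P e.1 e.2 fun t => ((if t then 1 else 0) - q) * ((if t then 1 else 0) - q),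
        hq e he]
      simp only [if_true, Bool.false_eq_true, if_false]
      ring
    · intro e' _ hne
      rw [ExP_set P e, ← ExP_const P 0]
      congr 1
      funext B
      simp only [hbq, setE_self, setE_ne B hne, hq e he, if_true, Bool.false_eq_true, if_false]
      ring
    · intro h
      exact absurd he h
  have a3 := sum_le_sum a1
  rw [sum_const, nsmul_eq_mul, ← ExP_sum] at a3
  have a4 : ExP P (fun B => ∑ e ∈ E, (ind (τ ≤ X B) + q * ind (|X B| < τ)) * bq e B) ≤
      ExP P (fun B => ε / 2 * (∑ e ∈ E, bq e B) ^ 2 + 1 / (2 * ε)) := by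
    refine ExP_mono h0 h1 fun B => ?_
    rw [← mul_sum]
    set Z := ∑ e ∈ E, bq e B
    have h2 : ind (τ ≤ X B) + q * ind (|X B| < τ) ≤ 1 := by
      by_cases c1 : |X B| < τ
      · have := abs_lt.1 c1
        rw [ind_pos c1, ind_neg (P := τ ≤ X B) (by linarith)]
        linarith
      · rw [ind_neg c1]
        linarith [ind_le_one (τ ≤ X B)]
    have h3 : 0 ≤ ind (τ ≤ X B) + q * ind (|X B| < τ) :=
      add_nonneg (ind_nonneg _) (mul_nonneg q0 (ind_nonneg _))
    have h4 : |Z| ≤ ε / 2 * Z ^ 2 + 1 / (2 * ε) := by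
      have : ε / 2 * Z ^ 2 + 1 / (2 * ε) - |Z| = (ε * |Z| - 1) ^ 2 / (2 * ε) := by
        rw [← sq_abs Z]
        field_simp
        ring
      have h5 : 0 ≤ (ε * |Z| - 1) ^ 2 / (2 * ε) := by positivity
      linarith
    have h5 := mul_le_mul_of_nonneg_left (le_abs_self Z) h3
    have h6 := mul_le_mul_of_nonneg_right h2 (abs_nonneg Z)
    linarith
  rw [ExP_add, ExP_mul, ExP_const, a2] at a4
  set σ : ℝ := E.card * (q * (1 - q)) with hσ
  have hσ0 : 0 < σ := by
    by_contra hh
    nlinarith [sq_nonneg ε]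
  have a5 : 1 / (2 * ε) ≤ ε / 2 * σ := by
    rw [div_le_iff₀ (by positivity)]
    nlinarith
  refine le_of_mul_le_mul_left ?_ hσ0
  rw [← mul_assoc] at a3
  linarith

theorem LOC (e : V → V × V) (he : Function.Injective e) (T : Finset V) (q : ℝ) (q0 : 0 ≤ q)
    (q1 : q ≤ 1) (a : ℂ) (x : V → ℂ) (τ : ℝ) (hτ : 0 < τ)
    (hT : ∀ j ∈ T, P (e j).1 (e j).2 = q ∧ 4 * τ ≤ ‖x j‖) (ε : ℝ) (hε : 0 < ε)
    (h : 4 ≤ ε ^ 2 * (T.card * (q * (1 - q)))) :
    ExP P (fun B => ind (‖a + ∑ j, if B (e j).1 (e j).2 then x j else 0‖ < τ)) ≤ ε := by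
  classical
  have key : ∀ ω : ℂ, ‖ω‖ = 1 → T.card ≤ 4 * (T.filter fun j => 2 * τ ≤ (ω * x j).re).card →
      ExP P (fun B => ind (‖a + ∑ j, if B (e j).1 (e j).2 then x j else 0‖ < τ)) ≤ ε := by
    intro ω hω hc
    refine le_trans (ExP_mono h0 h1 fun B => ind_le (ind_nonneg _) fun hB => (ind_pos ?_).ge)
      (LO h0 h1 ((T.filter fun j => 2 * τ ≤ (ω * x j).re).image e) q q0 q1 ?_
        (fun B => (ω * (a + ∑ j, if B (e j).1 (e j).2 then x j else 0)).re) τ hτ ?_ ε hε ?_)
    · refine lt_of_le_of_lt (Complex.abs_re_le_norm _) ?_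
      rwa [norm_mul, hω, one_mul]
    · intro e' he'
      obtain ⟨j, hj, rfl⟩ := mem_image.1 he'
      exact (hT j (mem_filter.1 hj).1).1
    · intro e' he' B
      obtain ⟨j, hj, rfl⟩ := mem_image.1 he'
      have h2 : (∑ k, if setE B (e j) true (e k).1 (e k).2 then x k else 0) =
          (∑ k, if setE B (e j) false (e k).1 (e k).2 then x k else 0) + x j := by
        rw [← add_sum_erase _ _ (mem_univ j), ← add_sum_erase _
          (fun k => if setE B (e j) false (e k).1 (e k).2 then x k else 0) (mem_univ j),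
          setE_self, setE_self, if_pos rfl, if_neg Bool.false_ne_true, zero_add, add_comm]
        congr 1
        refine sum_congr rfl fun k hk => ?_
        rw [setE_ne B (he.ne (mem_erase.1 hk).1), setE_ne B (he.ne (mem_erase.1 hk).1)]
      have h3 := (mem_filter.1 hj).2
      simp only [h2]
      rw [← add_assoc, mul_add ω _ (x j), Complex.add_re]
      linarith
    · rw [card_image_of_injective _ he]
      have h2 : (T.card : ℝ) ≤ 4 * (T.filter fun j => 2 * τ ≤ (ω * x j).re).card := by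
        exact_mod_cast hc
      have h3 := mul_le_mul_of_nonneg_left h2
        (mul_nonneg (sq_nonneg ε) (mul_nonneg q0 (by linarith : 0 ≤ 1 - q)))
      linarith
  have hsub : T ⊆ (T.filter fun j => 2 * τ ≤ (1 * x j).re) ∪ (T.filter fun j => 2 * τ ≤ (-1 * x j).re)
      ∪ (T.filter fun j => 2 * τ ≤ (Complex.I * x j).re) ∪
      (T.filter fun j => 2 * τ ≤ (-Complex.I * x j).re) := by
    intro j hj
    have h2 := (hT j hj).2.trans (Complex.norm_le_abs_re_add_abs_im (x j))
    simp only [mem_union, mem_filter, hj, true_and, one_mul, neg_mul, Complex.neg_re,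
      Complex.mul_re, Complex.I_re, Complex.I_im, zero_mul, zero_sub, neg_neg]
    by_contra h3
    push Not at h3
    obtain ⟨⟨⟨b1, b2⟩, b3⟩, b4⟩ := h3
    have b5 : |(x j).re| < 2 * τ := abs_lt.2 ⟨by linarith, b1⟩
    have b6 : |(x j).im| < 2 * τ := abs_lt.2 ⟨by linarith, b4⟩
    linarith
  have hc := (card_le_card hsub).trans ((card_union_le _ _).trans (Nat.add_le_add_right
    ((card_union_le _ _).trans (Nat.add_le_add_right (card_union_le _ _) _)) _))
  by_contra hcon
  have k1 := mt (key 1 (by simp)) hcon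
  have k2 := mt (key (-1) (by simp)) hcon
  have k3 := mt (key Complex.I (by simp)) hcon
  have k4 := mt (key (-Complex.I) (by simp)) hcon
  omega

end

end Pool.Agent.Fa2423
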