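import Pool.Agent.P.MP_fa2423_pr.Prob

set_option autoImplicit false
set_option linter.unusedSectionVars false

namespace Pool.Agent.Fa2423

open Finset

variable {V : Type} [Fintype V] [DecidableEq V]

open Classical in
/-- vertices of `U` reachable from `S` inside `U` -/
noncomputable def Ds (U S : Finset V) (B : V → V → Bool) : Finset V :=
  U.filter fun v => ∃ s ∈ S, Relation.ReflTransGen (fun a b => b ∈ U ∧ B a b = true) s v

theorem mem_Ds {U S : Finset V} {B : V → V → Bool} {v : V} : v ∈ Ds U S B ↔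
    v ∈ U ∧ ∃ s ∈ S, Relation.ReflTransGen (fun a b => b ∈ U ∧ B a b = true) s v := by
  classical
  unfold Ds
  simp only [mem_filter]

theorem Ds_sub (U S : Finset V) (B : V → V → Bool) : Ds U S B ⊆ U :=
  fun _ hv => (mem_Ds.1 hv).1

theorem sub_Ds {U S : Finset V} (h : S ⊆ U) (B : V → V → Bool) : S ⊆ Ds U S B :=
  fun s hs => mem_Ds.2 ⟨h hs, s, hs, Relation.ReflTransGen.refl⟩

theorem Ds_closed {U S : Finset V} {B : V → V → Bool} {a b : V} (ha : a ∈ Ds U S B) (hb : b ∈ U)
    (hab : B a b = true) : b ∈ Ds U S B := by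
  rw [mem_Ds] at *
  obtain ⟨_, s, hs, h⟩ := ha
  exact ⟨hb, s, hs, h.tail ⟨hb, hab⟩⟩

theorem Ds_least {U S X : Finset V} {B : V → V → Bool} (h1 : S ⊆ X)
    (h2 : ∀ a ∈ X, ∀ b ∈ U, B a b = true → b ∈ X) : Ds U S B ⊆ X := by
  intro v hv
  rw [mem_Ds] at hv
  obtain ⟨hvU, s, hs, h⟩ := hv
  clear hvU
  induction h with
  | refl => exact h1 hs
  | tail _ hbc ih => exact h2 _ ih _ hbc.1 hbc.2

theorem Ds_congr {U S : Finset V} (hS : S ⊆ U) {B B' : V → V → Bool}
    (h : ∀ a ∈ U, ∀ b ∈ U, b ∉ S → B a b = B' a b) : Ds U S B = Ds U S B' := by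
  apply Subset.antisymm
  · refine Ds_least (sub_Ds hS _) fun a ha b hb hab => ?_
    by_cases hbS : b ∈ S
    · exact sub_Ds hS _ hbS
    · exact Ds_closed ha hb (by rw [← h a (Ds_sub _ _ _ ha) b hb hbS]; exact hab)
  · refine Ds_least (sub_Ds hS _) fun a ha b hb hab => ?_
    by_cases hbS : b ∈ S
    · exact sub_Ds hS _ hbS
    · exact Ds_closed ha hb (by rw [h a (Ds_sub _ _ _ ha) b hb hbS]; exact hab)

theorem step_sub {U S : Finset V} (hS : S ⊆ U) (s : V) (B : V → V → Bool) (hs : s ∈ S) :
    S.erase s ∪ (U \ S).filter (fun j => B s j = true) ⊆ U.erase s := by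
  intro v hv
  rw [mem_union] at hv
  rcases hv with hv | hv
  · rw [mem_erase] at *
    exact ⟨hv.1, hS hv.2⟩
  · rw [mem_filter, mem_sdiff] at hv
    rw [mem_erase]
    refine ⟨?_, hv.1.1⟩
    rintro rfl
    exact hv.1.2 hs

theorem Ds_step {U S : Finset V} (hS : S ⊆ U) {s : V} (hs : s ∈ S) (B : V → V → Bool) :
    Ds U S B = insert s (Ds (U.erase s) (S.erase s ∪ (U \ S).filter (fun j => B s j = true)) B) := by
  have hsub := sub_Ds (step_sub hS s B hs) B
  apply Subset.antisymm
  · refine Ds_least (fun v hv => ?_) fun a ha b hb hab => ?_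
    · by_cases hvs : v = s
      · rw [hvs]
        exact mem_insert_self _ _
      · exact mem_insert_of_mem (hsub (mem_union_left _ (mem_erase.2 ⟨hvs, hv⟩)))
    · by_cases hbs : b = s
      · rw [hbs]
        exact mem_insert_self _ _
      · refine mem_insert_of_mem ?_
        rcases mem_insert.1 ha with ha | ha
        · subst ha
          by_cases hbS : b ∈ S
          · exact hsub (mem_union_left _ (mem_erase.2 ⟨hbs, hbS⟩))
          · exact hsub (mem_union_right _ (mem_filter.2 ⟨mem_sdiff.2 ⟨hb, hbS⟩, hab⟩))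
        · exact Ds_closed ha (mem_erase.2 ⟨hbs, hb⟩) hab
  · intro v hv
    rcases mem_insert.1 hv with hv | hv
    · rw [hv]
      exact sub_Ds hS _ hs
    · refine Ds_least (X := Ds U S B) (fun x hx => ?_) (fun a ha b hb hab => ?_) hv
      · rcases mem_union.1 hx with hx | hx
        · exact sub_Ds hS _ (mem_erase.1 hx).2
        · rw [mem_filter, mem_sdiff] at hx
          exact Ds_closed (sub_Ds hS _ hs) hx.1.1 hx.2
      · exact Ds_closed ha (mem_erase.1 hb).2 hab

theorem explore {p : ℝ} (h0 : 0 ≤ p) (h1 : p ≤ 1) (n : ℕ) (F : ℕ → ℝ) (Ψ : ℕ → ℕ → ℕ → ℝ)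
    (hF : ∀ t b, t + b = n → F t ≤ Ψ t 0 b)
    (hstep : ∀ (t a : ℕ) (s : V) (T : Finset V), t + (a + 1) + T.card = n →
      Ex p (fun B => Ψ (t + 1) (a + (T.filter fun j => B s j = true).card)
        (T.card - (T.filter fun j => B s j = true).card)) ≤ Ψ t (a + 1) T.card) :
    ∀ (N : ℕ) (U S : Finset V) (t : ℕ), U.card = N → S ⊆ U → t + U.card = n →
      Ex p (fun B => F (t + (Ds U S B).card)) ≤ Ψ t S.card (U.card - S.card) := by
  intro N
  induction N with
  | zero =>
    intro U S t hU hS hn
    have hU0 : U = ∅ := card_eq_zero.1 hU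
    subst hU0
    have hS0 : S = ∅ := subset_empty.1 hS
    subst hS0
    have : ∀ B : V → V → Bool, Ds (∅ : Finset V) ∅ B = ∅ := fun B => subset_empty.1 (Ds_sub _ _ _)
    simp only [this, card_empty, add_zero, Ex_const]
    exact hF t 0 (by simpa using hn)
  | succ N ih =>
    intro U S t hU hS hn
    rcases S.eq_empty_or_nonempty with hS0 | ⟨s, hs⟩
    · subst hS0
      have : ∀ B : V → V → Bool, Ds U ∅ B = ∅ := fun B =>
        subset_empty.1 (Ds_least (Subset.refl _) (by simp))
      simp only [this, card_empty, add_zero, Ex_const, Nat.sub_zero]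
      exact hF t _ hn
    · have hsU : s ∈ U := hS hs
      have hcard : ∀ B : V → V → Bool, (Ds U S B).card =
          (Ds (U.erase s) (S.erase s ∪ (U \ S).filter (fun j => B s j = true)) B).card + 1 := by
        intro B
        rw [Ds_step hS hs B, card_insert_of_notMem]
        intro h
        exact (mem_erase.1 (Ds_sub _ _ _ h)).1 rfl
      have hUe : (U.erase s).card = N := by rw [card_erase_of_mem hsU]; omega
      obtain ⟨a, ha⟩ : ∃ a, S.card = a + 1 := ⟨S.card - 1, by have := card_pos.2 ⟨s, hs⟩; omega⟩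
      have hT : (U \ S).card = U.card - S.card := card_sdiff_of_subset hS
      have hle : S.card ≤ U.card := card_le_card hS
      simp only [hcard]
      rw [Ex_mix p (fun i _ => decide (i = s))]
      have hst := hstep t a s (U \ S) (by omega)
      rw [ha, ← ha, ← hT, ha]
      refine le_trans (Ex_mono h0 h1 fun B' => ?_) hst
      have e1 : ∀ B : V → V → Bool,
          (U \ S).filter (fun j => mix (fun i _ => decide (i = s)) B' B s j = true) =
          (U \ S).filter (fun j => B' s j = true) := by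
        intro B
        simp [mix]
      have e2 : ∀ B : V → V → Bool,
          Ds (U.erase s) (S.erase s ∪ (U \ S).filter (fun j => B' s j = true))
            (mix (fun i _ => decide (i = s)) B' B) =
          Ds (U.erase s) (S.erase s ∪ (U \ S).filter (fun j => B' s j = true)) B := by
        intro B
        refine Ds_congr (step_sub hS s B' hs) fun x hx y _ _ => ?_
        simp [mix, (mem_erase.1 hx).1]
      simp only [e1, e2]
      have := ih (U.erase s) (S.erase s ∪ (U \ S).filter (fun j => B' s j = true)) (t + 1) hUe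
        (step_sub hS s B' hs) (by omega)
      have hc : (S.erase s ∪ (U \ S).filter (fun j => B' s j = true)).card =
          a + ((U \ S).filter (fun j => B' s j = true)).card := by
        rw [card_union_of_disjoint, card_erase_of_mem hs]
        · omega
        · rw [disjoint_left]
          intro x hx hx'
          exact (mem_sdiff.1 (mem_filter.1 hx').1).2 (mem_erase.1 hx).2
      rw [hc] at this
      have hb : (U.erase s).card - (a + ((U \ S).filter (fun j => B' s j = true)).card) =
          (U \ S).card - ((U \ S).filter (fun j => B' s j = true)).card := by omega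
      rw [hb] at this
      refine le_trans (le_of_eq ?_) this
      congr 1
      funext B
      congr 1
      omega

theorem bonf {p : ℝ} (h0 : 0 ≤ p) (h1 : p ≤ 1) : ∀ r : ℕ, (r : ℝ) * p ≤ 1 →
    1 - (1 - p) ^ r ≤ r * p - r * (r - 1) * p ^ 2 / 3 := by
  intro r
  induction r with
  | zero => simp
  | succ r ih =>
    intro h
    push_cast at h ⊢
    have hr : (0 : ℝ) ≤ r := Nat.cast_nonneg r
    have h2 := ih (by nlinarith)
    have h3 : (1 - p) * (1 - (1 - p) ^ r) ≤ (1 - p) * (r * p - r * (r - 1) * p ^ 2 / 3) :=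
      mul_le_mul_of_nonneg_left h2 (by linarith)
    have h4 : 0 ≤ (r : ℝ) * p ^ 2 * (1 - (r - 1) * p) :=
      mul_nonneg (by positivity) (by nlinarith)
    rw [pow_succ]
    nlinarith

/-- upper tail of the descendant set of one vertex at criticality -/
theorem tail_up (n : ℕ) (hn : Fintype.card V = n) (u : V) (r : ℕ) (hr4 : 4 ≤ r) (hrn : r ≤ n) :
    Ex (1 / (n : ℝ)) (fun B => if r < (Ds univ {u} B).card then (1 : ℝ) else 0) ≤
      Real.exp (-(r : ℝ) ^ 3 / (64 * (n : ℝ) ^ 2)) := by
  have hn0 : (0 : ℝ) < n := by exact_mod_cast (by omega : 0 < n)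
  have hr0 : (4 : ℝ) ≤ r := by exact_mod_cast hr4
  have hrn' : (r : ℝ) ≤ n := by exact_mod_cast hrn
  set p : ℝ := 1 / n with hp
  have h0 : 0 ≤ p := by positivity
  have h1 : p ≤ 1 := by rw [hp, div_le_one hn0]; linarith
  set ε : ℝ := r / (8 * n) with hε
  have hε0 : 0 ≤ ε := by positivity
  have hε1 : ε ≤ 1 := by rw [hε, div_le_one (by positivity)]; linarith
  set l : ℝ := Real.exp ε with hl
  have hl1 : 1 ≤ l := Real.one_le_exp hε0
  have hl0 : 0 < l := by linarith
  let g : ℕ → ℝ := fun m => l - (l - 1) * (1 - p) ^ m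
  have hg1 : ∀ m, 1 ≤ g m := by
    intro m
    have : (1 - p) ^ m ≤ 1 := pow_le_one₀ (by linarith) (by linarith)
    show 1 ≤ l - (l - 1) * (1 - p) ^ m
    nlinarith
  have key := explore (V := V) h0 h1 n (fun t => if r < t then (1 : ℝ) else 0)
    (fun t a b => if t ≤ r then l ^ (t + a) * g (r - t) ^ b / l ^ (r + 1) else 1) ?_ ?_
    n univ {u} 0 (by simpa using hn) (subset_univ _) (by simpa using hn)
  · simp only [zero_add, card_singleton, card_univ, hn, zero_le, if_true, Nat.sub_zero] at key
    refine key.trans ?_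
    have hb := bonf h0 h1 r (by rw [hp, mul_one_div, div_le_one hn0]; exact hrn')
    have hq : 0 ≤ 1 - (1 - p) ^ r := by
      have : (1 - p) ^ r ≤ 1 := pow_le_one₀ (by linarith) (by linarith)
      linarith
    have hl2 : l - 1 ≤ ε + ε ^ 2 := by
      have := Real.abs_exp_sub_one_sub_id_le (x := ε) (by rw [abs_of_nonneg hε0]; exact hε1)
      have := (abs_le.1 this).2
      linarith
    have hg2 : g r ≤ Real.exp ((ε + ε ^ 2) * (1 - (1 - p) ^ r)) := by
      have := Real.add_one_le_exp ((ε + ε ^ 2) * (1 - (1 - p) ^ r))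
      have h3 : (l - 1) * (1 - (1 - p) ^ r) ≤ (ε + ε ^ 2) * (1 - (1 - p) ^ r) :=
        mul_le_mul_of_nonneg_right hl2 hq
      show l - (l - 1) * (1 - p) ^ r ≤ _
      nlinarith
    have hg3 : g r ^ (n - 1) ≤ Real.exp (n * ((ε + ε ^ 2) * (1 - (1 - p) ^ r))) := by
      calc g r ^ (n - 1) ≤ g r ^ n := pow_le_pow_right₀ (hg1 r) (Nat.sub_le _ _)
        _ ≤ Real.exp ((ε + ε ^ 2) * (1 - (1 - p) ^ r)) ^ n :=
          pow_le_pow_left₀ (by linarith [hg1 r]) hg2 n
        _ = _ := by rw [← Real.exp_nat_mul]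
    have hlr : l ^ 1 * g r ^ (n - 1) / l ^ (r + 1) = g r ^ (n - 1) * Real.exp (-(r * ε)) := by
      rw [Real.exp_neg, Real.exp_nat_mul, ← hl]
      field_simp
      ring
    rw [hlr]
    refine (mul_le_mul_of_nonneg_right hg3 (Real.exp_pos _).le).trans ?_
    rw [← Real.exp_add]
    apply Real.exp_le_exp.2
    have h5 : n * (1 - (1 - p) ^ r) ≤ r - r ^ 2 / (4 * n) := by
      have h6 : (n : ℝ) * (r * p - r * (r - 1) * p ^ 2 / 3) = r - r * (r - 1) / (3 * n) := by
        rw [hp]
        field_simp
      have h7 : (r : ℝ) ^ 2 / (4 * n) ≤ r * (r - 1) / (3 * n) := by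
        rw [div_le_div_iff₀ (by positivity) (by positivity)]
        have : (0 : ℝ) ≤ r * n * (r - 4) := mul_nonneg (by positivity) (by linarith)
        nlinarith
      have h8 := mul_le_mul_of_nonneg_left hb hn0.le
      linarith
    have h9 : (n : ℝ) * ((ε + ε ^ 2) * (1 - (1 - p) ^ r)) ≤ (ε + ε ^ 2) * (r - r ^ 2 / (4 * n)) := by
      have := mul_le_mul_of_nonneg_left h5 (by positivity : 0 ≤ ε + ε ^ 2)
      linarith
    have h10 : ε ^ 2 * r - ε * (r ^ 2 / (4 * n)) = -(r : ℝ) ^ 3 / (64 * (n : ℝ) ^ 2) := by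
      rw [hε]
      field_simp
      ring
    have h11 : 0 ≤ ε ^ 2 * (r ^ 2 / (4 * n)) := by positivity
    nlinarith
  · intro t b _
    by_cases ht : t ≤ r
    · simp only [ht, if_true, not_lt.2 ht, if_false]
      have := hg1 (r - t)
      positivity
    · simp only [ht, if_false, not_le.1 ht, if_true, le_refl]
  · intro t a s T _
    by_cases ht : t + 1 ≤ r
    · have ht' : t ≤ r := by omega
      simp only [ht, ht', if_true]
      have e : ∀ j b : ℕ, l ^ (t + 1 + (a + j)) * g (r - (t + 1)) ^ b / l ^ (r + 1) =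
          (l ^ (t + (a + 1)) / l ^ (r + 1)) * (l ^ j * g (r - (t + 1)) ^ b) := by
        intro j b
        ring
      simp only [e]
      rw [Ex_mul, Ex_row]
      have e2 : p * l + (1 - p) * g (r - (t + 1)) = g (r - t) := by
        have : r - t = r - (t + 1) + 1 := by omega
        rw [this]
        show p * l + (1 - p) * (l - (l - 1) * (1 - p) ^ _) = l - (l - 1) * (1 - p) ^ _
        ring
      rw [e2]
      exact le_of_eq (by ring)
    · simp only [ht, if_false, Ex_const]
      split_ifs with ht'
      · have htr : t = r := by omega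
        subst htr
        rw [le_div_iff₀ (by positivity), one_mul]
        have h3 : l ^ (t + 1) ≤ l ^ (t + (a + 1)) := pow_le_pow_right₀ hl1 (by omega)
        have h4 : 1 ≤ g (t - t) ^ T.card := one_le_pow₀ (hg1 _)
        have h5 : 0 ≤ l ^ (t + (a + 1)) := by positivity
        nlinarith
      · exact le_refl _

/-- lower tail of the descendant set of a large set at criticality -/
theorem tail_low (n : ℕ) (hn : Fintype.card V = n) (hn1 : 0 < n) (S : Finset V) (M : ℕ)
    (hS : 3 * (M : ℝ) ^ 2 / n ≤ S.card) (hMn : M ≤ n) :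
    Ex (1 / (n : ℝ)) (fun B => if (Ds univ S B).card ≤ M then (1 : ℝ) else 0) ≤
      Real.exp (-(M : ℝ) ^ 3 / (n : ℝ) ^ 2) := by
  have hn0 : (0 : ℝ) < n := by exact_mod_cast hn1
  have hn2 : (1 : ℝ) ≤ n := by exact_mod_cast hn1
  have hMn' : (M : ℝ) ≤ n := by exact_mod_cast hMn
  set p : ℝ := 1 / n with hp
  have h0 : 0 ≤ p := by positivity
  have h1 : p ≤ 1 := by rw [hp, div_le_one hn0]; linarith
  set ε : ℝ := M / n with hε
  have hε0 : 0 ≤ ε := by positivity
  have hε1 : ε ≤ 1 := by rw [hε, div_le_one (by positivity)]; linarith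
  have key := explore (V := V) h0 h1 n (fun t => if t ≤ M then (1 : ℝ) else 0)
    (fun t a _ => if t + a ≤ M then Real.exp (-ε) ^ a * Real.exp (2 * ε ^ 2) ^ (M - t) else 0) ?_ ?_
    n univ S 0 (by simpa using hn) (subset_univ _) (by simpa using hn)
  · simp only [zero_add, Nat.sub_zero] at key
    refine key.trans ?_
    split_ifs
    · rw [← Real.exp_nat_mul, ← Real.exp_nat_mul, ← Real.exp_add]
      apply Real.exp_le_exp.2
      have h3 : 3 * (M : ℝ) ^ 2 / n * ε ≤ S.card * ε := mul_le_mul_of_nonneg_right hS hε0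
      have h4 : -(3 * (M : ℝ) ^ 2 / n * ε) + M * (2 * ε ^ 2) = -(M : ℝ) ^ 3 / (n : ℝ) ^ 2 := by
        rw [hε]
        field_simp
        ring
      linarith
    · positivity
  · intro t b _
    simp only [add_zero, pow_zero, one_mul]
    split_ifs
    · exact one_le_pow₀ (Real.one_le_exp (by positivity))
    · exact le_refl _
  · intro t a s T hT
    by_cases ht : t + (a + 1) ≤ M
    · simp only [ht, if_true]
      have e : ∀ B : V → V → Bool,
          (if t + 1 + (a + (T.filter fun j => B s j = true).card) ≤ M then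
            Real.exp (-ε) ^ (a + (T.filter fun j => B s j = true).card) *
              Real.exp (2 * ε ^ 2) ^ (M - (t + 1)) else 0) ≤
          (Real.exp (-ε) ^ a * Real.exp (2 * ε ^ 2) ^ (M - (t + 1))) *
            (Real.exp (-ε) ^ (T.filter fun j => B s j = true).card *
              1 ^ (T.card - (T.filter fun j => B s j = true).card)) := by
        intro B
        split_ifs
        · exact le_of_eq (by ring)
        · positivity
      refine (Ex_mono h0 h1 e).trans ?_
      rw [Ex_mul, Ex_row]
      have hM : M - t = M - (t + 1) + 1 := by omega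
      rw [hM]
      have h3 : Real.exp (-ε) ≤ 1 - ε + ε ^ 2 := by
        have := Real.abs_exp_sub_one_sub_id_le (x := -ε)
          (by rw [abs_neg, abs_of_nonneg hε0]; exact hε1)
        have := (abs_le.1 this).2
        nlinarith
      have h4 : p * Real.exp (-ε) + (1 - p) * 1 ≤ Real.exp (-(p * (ε - ε ^ 2))) := by
        have := Real.add_one_le_exp (-(p * (ε - ε ^ 2)))
        have h5 := mul_le_mul_of_nonneg_left h3 h0
        nlinarith
      have h5 : (p * Real.exp (-ε) + (1 - p) * 1) ^ T.card ≤
          Real.exp (-ε) * Real.exp (2 * ε ^ 2) := by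
        have h6 : 0 ≤ p * Real.exp (-ε) + (1 - p) * 1 := by
          have := Real.exp_pos (-ε)
          nlinarith
        refine (pow_le_pow_left₀ h6 h4 _).trans ?_
        rw [← Real.exp_nat_mul, ← Real.exp_add]
        apply Real.exp_le_exp.2
        have h7 : (n : ℝ) - M ≤ T.card := by
          have : n ≤ T.card + M := by omega
          have : (n : ℝ) ≤ T.card + M := by exact_mod_cast this
          linarith
        have h8 : 1 - ε ≤ T.card * p := by
          rw [hε, hp, mul_one_div, le_div_iff₀ hn0]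
          field_simp
          linarith
        have h9 : 0 ≤ ε - ε ^ 2 := by nlinarith
        have h10 := mul_le_mul_of_nonneg_right h8 h9
        have h11 : 0 ≤ ε ^ 3 := by positivity
        nlinarith
      have h6 : 0 ≤ Real.exp (-ε) ^ a * Real.exp (2 * ε ^ 2) ^ (M - (t + 1)) := by positivity
      refine (mul_le_mul_of_nonneg_left h5 h6).trans (le_of_eq (by ring))
    · have e : ∀ j : ℕ, ¬ (t + 1 + (a + j) ≤ M) := fun j => by omega
      simp only [ht, e, if_false, Ex_const, le_refl]

end Pool.Agent.Fa2423
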