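import Pool.Agent.P.MP_fa2423_pr.Paths

set_option autoImplicit false
set_option linter.unusedSectionVars false

namespace Pool.Agent.Fa2423

open Finset

variable {V : Type} [Fintype V] [DecidableEq V]

/-- transfer sums -/
noncomputable def tr (W : V → V → ℝ) : ℕ → V → ℝ
  | 0, _ => 1
  | k + 1, v => ∑ u, W v u * tr W k u

theorem sum_walk (W : V → V → ℝ) : ∀ (k : ℕ) (φ : V → ℝ),
    ∑ y : Fin (k + 1) → V, φ (y 0) * ∏ t : Fin k, W (y t.castSucc) (y t.succ) =
      ∑ v, φ v * tr W k v := by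
  intro k
  induction k with
  | zero =>
    intro φ
    simp only [univ_eq_empty, prod_empty, tr]
    exact Fintype.sum_equiv (Equiv.funUnique (Fin 1) V) _ _ fun y => rfl
  | succ k ih =>
    intro φ
    rw [← (Fin.consEquiv fun _ : Fin (k + 2) => V).sum_comp, Fintype.sum_prod_type]
    refine sum_congr rfl fun v _ => ?_
    have := ih (W v)
    simp only [tr]
    rw [← this, mul_sum]
    refine sum_congr rfl fun y _ => ?_
    rw [Fin.prod_univ_succ]
    rfl

theorem tr_bound (n : ℕ) (hn : Fintype.card V = n) (hn1 : 0 < n) (l : ℕ) (hl : 3 * (l : ℝ) ^ 3 ≤ n)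
    (E : Finset (V × V)) (hE : E.card ≤ l) (hE1 : ∀ a b b', (a, b) ∈ E → (a, b') ∈ E → b = b') :
    ∀ k, k ≤ l → (∀ v, 0 ≤ tr (fun a b => 1 / (n : ℝ) + if (a, b) ∈ E then 1 else 0) k v ∧
      tr (fun a b => 1 / (n : ℝ) + if (a, b) ∈ E then 1 else 0) k v ≤ 1 + 2 * k) ∧
      ∑ v, tr (fun a b => 1 / (n : ℝ) + if (a, b) ∈ E then 1 else 0) k v ≤
        n + k * (l * (1 + 2 * l)) := by
  have hn0 : (0 : ℝ) < n := by exact_mod_cast hn1
  set W : V → V → ℝ := fun a b => 1 / (n : ℝ) + if (a, b) ∈ E then 1 else 0 with hW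
  intro k
  induction k with
  | zero =>
    intro _
    simp [tr, hn]
  | succ k ih =>
    intro hk
    obtain ⟨i1, i2⟩ := ih (by omega)
    have hk' : (k : ℝ) + 1 ≤ l := by exact_mod_cast hk
    have hk0 : (0 : ℝ) ≤ k := Nat.cast_nonneg k
    have hl1 : (1 : ℝ) ≤ l := by linarith
    have e : ∀ v, tr W (k + 1) v = 1 / (n : ℝ) * ∑ u, tr W k u +
        ∑ u, if (v, u) ∈ E then tr W k u else 0 := by
      intro v
      simp only [tr]
      rw [mul_sum, ← sum_add_distrib]
      refine sum_congr rfl fun u _ => ?_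
      simp only [hW]
      split_ifs <;> ring
    have e2 : ∀ v, (∑ u, if (v, u) ∈ E then tr W k u else 0) ≤
        (1 + 2 * k) * ∑ u, if (v, u) ∈ E then (1 : ℝ) else 0 := by
      intro v
      rw [mul_sum]
      refine sum_le_sum fun u _ => ?_
      split_ifs
      · linarith [(i1 u).2]
      · simp
    have e3 : ∀ v, (∑ u, if (v, u) ∈ E then (1 : ℝ) else 0) ≤ 1 := by
      intro v
      rw [← sum_filter, sum_const, nsmul_eq_mul, mul_one]
      have : (univ.filter fun u => (v, u) ∈ E).card ≤ 1 :=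
        card_le_one.2 fun a ha b hb => hE1 v a b (mem_filter.1 ha).2 (mem_filter.1 hb).2
      exact_mod_cast this
    have e4 : (∑ v, ∑ u, if (v, u) ∈ E then (1 : ℝ) else 0) ≤ l := by
      rw [← Fintype.sum_prod_type' (f := fun v u => if (v, u) ∈ E then (1 : ℝ) else 0)]
      simp only [Prod.mk.eta]
      rw [sum_ite_mem, univ_inter, sum_const, nsmul_eq_mul, mul_one]
      exact_mod_cast hE
    have e5 : 1 / (n : ℝ) * ∑ u, tr W k u ≤ 2 := by
      rw [one_div, ← div_eq_inv_mul, div_le_iff₀ hn0]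
      have : (k : ℝ) * (l * (1 + 2 * l)) ≤ l * (l * (3 * l)) :=
        mul_le_mul (by linarith) (mul_le_mul_of_nonneg_left (by linarith) (by linarith))
          (by positivity) (by linarith)
      nlinarith
    refine ⟨fun v => ⟨?_, ?_⟩, ?_⟩
    · rw [e]
      refine add_nonneg (mul_nonneg (by positivity) (sum_nonneg fun u _ => (i1 u).1))
        (sum_nonneg fun u _ => ?_)
      split_ifs
      · exact (i1 u).1
      · exact le_refl _
    · rw [e]
      have := mul_le_mul_of_nonneg_left (e3 v) (by positivity : (0 : ℝ) ≤ 1 + 2 * k)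
      have := e2 v
      push_cast
      linarith
    · simp only [e]
      rw [sum_add_distrib, sum_const, card_univ, hn, nsmul_eq_mul, ← mul_assoc,
        mul_one_div_cancel hn0.ne', one_mul]
      have h3 := sum_le_sum fun v (_ : v ∈ (univ : Finset V)) => e2 v
      rw [← mul_sum] at h3
      have h4 := mul_le_mul_of_nonneg_left e4 (by positivity : (0 : ℝ) ≤ 1 + 2 * k)
      have h5 : (1 + 2 * (k : ℝ)) * l ≤ l * (1 + 2 * l) := by nlinarith
      push_cast
      linarith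

theorem second_moment (n : ℕ) (hn : Fintype.card V = n) (hn1 : 0 < n) (l : ℕ)
    (hl : 3 * (l : ℝ) ^ 3 ≤ n) (y : Fin (l + 1) → V) (hy : Function.Injective y) :
    ∑ y' ∈ Inj V l, (1 / (n : ℝ)) ^ (PE y ∪ PE y').card ≤ (1 / (n : ℝ)) ^ l * (n + 3 * (l : ℝ) ^ 3) := by
  have hn0 : (0 : ℝ) < n := by exact_mod_cast hn1
  have h0 : (0 : ℝ) ≤ 1 / n := by positivity
  have hb := (tr_bound n hn hn1 l hl (PE y) (card_PE hy).le ?_ l le_rfl).2
  · have hw := sum_walk (fun a b => 1 / (n : ℝ) + if (a, b) ∈ PE y then 1 else 0) l (fun _ => 1)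
    simp only [one_mul] at hw
    rw [← hw] at hb
    have h3 : (l : ℝ) * (l * (1 + 2 * l)) ≤ 3 * (l : ℝ) ^ 3 := by
      rcases Nat.eq_zero_or_pos l with h | h
      · simp [h]
      · have : (1 : ℝ) ≤ l := by exact_mod_cast h
        nlinarith [mul_nonneg (sq_nonneg (l : ℝ)) (by linarith : (0 : ℝ) ≤ l - 1)]
    have h4 : ∀ y' ∈ Inj V l, (1 / (n : ℝ)) ^ (PE y ∪ PE y').card ≤ (1 / (n : ℝ)) ^ l *
        ∏ t : Fin l, (1 / (n : ℝ) + if (y' t.castSucc, y' t.succ) ∈ PE y then 1 else 0) := by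
      intro y' hy'
      rw [mem_Inj] at hy'
      have h5 : (PE y ∪ PE y').card = l + (PE y' \ PE y).card := by
        have := card_sdiff_add_card (PE y') (PE y)
        rw [union_comm, card_PE hy] at this
        omega
      rw [h5, pow_add]
      refine mul_le_mul_of_nonneg_left ?_ (by positivity)
      have h6 : (1 / (n : ℝ)) ^ (PE y' \ PE y).card =
          ∏ e ∈ PE y', if e ∈ PE y then 1 else 1 / (n : ℝ) := by
        rw [prod_ite, prod_const_one, one_mul, prod_const, sdiff_eq_filter]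
      rw [h6]
      conv_lhs => rw [PE]
      rw [prod_image fun a _ b _ h => PE_inj hy' h]
      refine prod_le_prod (fun t _ => ?_) fun t _ => ?_
      · split_ifs <;> positivity
      · split_ifs <;> linarith
    refine (sum_le_sum h4).trans ?_
    rw [← mul_sum]
    refine mul_le_mul_of_nonneg_left ?_ (by positivity)
    refine (sum_le_sum_of_subset_of_nonneg (subset_univ _) fun y' _ _ => ?_).trans (by linarith)
    refine prod_nonneg fun t _ => ?_
    split_ifs <;> positivity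
  · intro a b b' h1 h2
    obtain ⟨t, ht⟩ := mem_PE.1 h1
    obtain ⟨t', ht'⟩ := mem_PE.1 h2
    have h3 : t.castSucc = t'.castSucc := hy ((Prod.ext_iff.1 ht).1.trans (Prod.ext_iff.1 ht').1.symm)
    have h4 : t = t' := Fin.castSucc_injective _ h3
    subst h4
    exact (Prod.ext_iff.1 ht).2.symm.trans (Prod.ext_iff.1 ht').2

open Classical in
/-- return routes with `m + 1` edges -/
noncomputable def Rt {l : ℕ} (y : Fin (l + 1) → V) (m : ℕ) :
    Finset ((Fin (m + 1) → V) × Fin (l + 1)) :=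
  univ.filter fun c => Function.Injective c.1 ∧ c.1 0 ∈ univ.image y ∧
    Disjoint (PE y) (insert (c.1 (Fin.last m), y c.2) (PE c.1))

theorem mem_Rt {l : ℕ} {y : Fin (l + 1) → V} {m : ℕ} {c : (Fin (m + 1) → V) × Fin (l + 1)} :
    c ∈ Rt y m ↔ Function.Injective c.1 ∧ c.1 0 ∈ univ.image y ∧
    Disjoint (PE y) (insert (c.1 (Fin.last m), y c.2) (PE c.1)) := by
  classical
  unfold Rt
  simp only [mem_filter, mem_univ, true_and]

theorem card_Rt {l : ℕ} (y : Fin (l + 1) → V) (m : ℕ) :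
    ((Rt y m).card : ℝ) ≤ ((l : ℝ) + 1) ^ 2 * (Fintype.card V : ℝ) ^ m := by
  have h : (Rt y m).card ≤ (univ : Finset (Fin (l + 1) × (Fin m → V) × Fin (l + 1))).card := by
    refine le_trans (card_le_card (t := univ.image fun d : Fin (l + 1) × (Fin m → V) × Fin (l + 1) =>
      ((Fin.cons (y d.1) d.2.1 : Fin (m + 1) → V), d.2.2)) ?_) card_image_le
    intro c hc
    obtain ⟨a, -, ha⟩ := mem_image.1 (mem_Rt.1 hc).2.1
    refine mem_image.2 ⟨(a, Fin.tail c.1, c.2), mem_univ _, ?_⟩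
    simp only [ha, Fin.cons_self_tail]
  rw [card_univ, Fintype.card_prod, Fintype.card_prod, Fintype.card_fun, Fintype.card_fin,
    Fintype.card_fin] at h
  have h' : ((Rt y m).card : ℝ) ≤ (((l + 1) * (Fintype.card V ^ m * (l + 1)) : ℕ) : ℝ) := by
    exact_mod_cast h
  push_cast at h'
  linarith

/-- a path with a short return route -/
def Bad (k : ℕ) (B : V → V → Bool) {l : ℕ} (y : Fin (l + 1) → V) : Prop :=
  ∃ m < k, ∃ c ∈ Rt y m, Has B (insert (c.1 (Fin.last m), y c.2) (PE c.1))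

theorem good_path (n : ℕ) (hn : Fintype.card V = n) (hn1 : 0 < n) (k l : ℕ)
    (hl : 3 * (l : ℝ) ^ 3 ≤ n) :
    Ex (1 / (n : ℝ)) (fun B => ind (¬ ∃ y : Fin (l + 1) → V, IsP B y ∧ ¬ Bad k B y)) ≤
      (((l : ℝ) + 1) ^ 2 + 2 * k * ((l : ℝ) + 1) ^ 2 + 3 * (l : ℝ) ^ 3) / n := by
  have hn0 : (0 : ℝ) < n := by exact_mod_cast hn1
  have hn2 : (1 : ℝ) ≤ n := by exact_mod_cast hn1
  have h0 : (0 : ℝ) ≤ 1 / n := by positivity
  have h1 : (1 : ℝ) / n ≤ 1 := by rw [div_le_one hn0]; linarith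
  set X : (V → V → Bool) → ℝ := fun B => ∑ y ∈ Inj V l, ind (Has B (PE y)) with hX
  set Z : (V → V → Bool) → ℝ := fun B => ∑ y ∈ Inj V l, ∑ m ∈ range k, ∑ c ∈ Rt y m,
    ind (Has B (PE y ∪ insert (c.1 (Fin.last m), y c.2) (PE c.1))) with hZ
  have hpt : ∀ B : V → V → Bool, ind (¬ ∃ y : Fin (l + 1) → V, IsP B y ∧ ¬ Bad k B y) ≤
      1 - (2 / n) * X B + (2 / n) * Z B + (1 / (n : ℝ) ^ 2) * (X B * X B) := by
    intro B
    have hZ0 : 0 ≤ Z B :=
      sum_nonneg fun _ _ => sum_nonneg fun _ _ => sum_nonneg fun _ _ => ind_nonneg _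
    have a1 : 0 ≤ (2 / n) * Z B := by positivity
    refine ind_le ?_ fun hB => ?_
    · have : 1 - (2 / n) * X B + (1 / (n : ℝ) ^ 2) * (X B * X B) = (1 - X B / n) ^ 2 := by
        field_simp
        ring
      have := sq_nonneg (1 - X B / n)
      linarith
    · have hXZ : X B ≤ Z B := by
        refine sum_le_sum fun y hy => ind_le
          (sum_nonneg fun _ _ => sum_nonneg fun _ _ => ind_nonneg _) fun hh => ?_
        have hbad : Bad k B y := by
          by_contra hb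
          exact hB ⟨y, ⟨mem_Inj.1 hy, hh⟩, hb⟩
        obtain ⟨m, hm, c, hc, hc'⟩ := hbad
        refine le_trans ?_ (single_le_sum (f := fun m => ∑ c ∈ Rt y m,
          ind (Has B (PE y ∪ insert (c.1 (Fin.last m), y c.2) (PE c.1))))
          (fun _ _ => sum_nonneg fun _ _ => ind_nonneg _) (mem_range.2 hm))
        refine le_trans ?_ (single_le_sum (f := fun c : (Fin (m + 1) → V) × Fin (l + 1) =>
          ind (Has B (PE y ∪ insert (c.1 (Fin.last m), y c.2) (PE c.1))))
          (fun _ _ => ind_nonneg _) hc)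
        rw [ind_pos (has_union.2 ⟨hh, hc'⟩)]
      have a2 := mul_le_mul_of_nonneg_left hXZ (by positivity : (0 : ℝ) ≤ 2 / n)
      have a3 : 0 ≤ (1 / (n : ℝ) ^ 2) * (X B * X B) :=
        mul_nonneg (by positivity) (mul_self_nonneg _)
      linarith
  refine (Ex_mono h0 h1 hpt).trans ?_
  rw [Ex_add, Ex_add, Ex_sub, Ex_const, Ex_mul, Ex_mul, Ex_mul]
  set μ : ℝ := (Inj V l).card * (1 / (n : ℝ)) ^ l with hμ
  have eX : Ex (1 / (n : ℝ)) X = μ := by
    rw [hX, Ex_sum, sum_congr rfl fun y hy => by rw [Ex_ind_has, card_PE (mem_Inj.1 hy)],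
      sum_const, nsmul_eq_mul]
  have eZ : Ex (1 / (n : ℝ)) Z ≤ μ * (k * ((l : ℝ) + 1) ^ 2 / n) := by
    rw [hZ, Ex_sum]
    have : ∀ y ∈ Inj V l, Ex (1 / (n : ℝ)) (fun B => ∑ m ∈ range k, ∑ c ∈ Rt y m,
        ind (Has B (PE y ∪ insert (c.1 (Fin.last m), y c.2) (PE c.1)))) ≤
        (1 / (n : ℝ)) ^ l * (k * ((l : ℝ) + 1) ^ 2 / n) := by
      intro y hy
      rw [Ex_sum]
      have h2 : ∀ m ∈ range k, Ex (1 / (n : ℝ)) (fun B => ∑ c ∈ Rt y m,
          ind (Has B (PE y ∪ insert (c.1 (Fin.last m), y c.2) (PE c.1)))) ≤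
          (1 / (n : ℝ)) ^ l * (((l : ℝ) + 1) ^ 2 / n) := by
        intro m _
        rw [Ex_sum, sum_congr rfl fun c hc => by
          rw [Ex_ind_has, card_union_of_disjoint (mem_Rt.1 hc).2.2, card_PE (mem_Inj.1 hy),
            card_insert_PE (mem_Rt.1 hc).1], sum_const, nsmul_eq_mul]
        have h3 := card_Rt y m
        rw [hn] at h3
        refine (mul_le_mul_of_nonneg_right h3 (by positivity)).trans (le_of_eq ?_)
        rw [pow_add, pow_succ (1 / (n : ℝ)) m, one_div, inv_pow, inv_pow]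
        field_simp
      refine (sum_le_sum h2).trans (le_of_eq ?_)
      rw [sum_const, card_range, nsmul_eq_mul]
      ring
    refine (sum_le_sum this).trans (le_of_eq ?_)
    rw [sum_const, nsmul_eq_mul, hμ]
    ring
  have eXX : Ex (1 / (n : ℝ)) (fun B => X B * X B) ≤ μ * (n + 3 * (l : ℝ) ^ 3) := by
    have : ∀ B, X B * X B = ∑ y ∈ Inj V l, ∑ y' ∈ Inj V l, ind (Has B (PE y ∪ PE y')) := by
      intro B
      rw [hX, sum_mul_sum]
      refine sum_congr rfl fun y _ => sum_congr rfl fun y' _ => ?_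
      rw [has_union, ind_and]
    simp only [this]
    rw [Ex_sum]
    have h2 : ∀ y ∈ Inj V l, Ex (1 / (n : ℝ)) (fun B => ∑ y' ∈ Inj V l, ind (Has B (PE y ∪ PE y')))
        ≤ (1 / (n : ℝ)) ^ l * (n + 3 * (l : ℝ) ^ 3) := by
      intro y hy
      rw [Ex_sum]
      simp only [Ex_ind_has]
      exact second_moment n hn hn1 l hl y (mem_Inj.1 hy)
    refine (sum_le_sum h2).trans (le_of_eq ?_)
    rw [sum_const, nsmul_eq_mul, hμ]
    ring
  have hμ1 : μ / n ≤ 1 := by
    have := card_Inj_le (V := V) l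
    rw [hn] at this
    rw [div_le_one hn0, hμ]
    refine (mul_le_mul_of_nonneg_right this (by positivity)).trans (le_of_eq ?_)
    rw [pow_succ, one_div, inv_pow]
    field_simp
  have hμ2 : 1 - ((l : ℝ) + 1) ^ 2 / n ≤ μ / n := by
    have := desc_ge n hn1 (l + 1)
    rw [← hn, ← card_Inj, hn] at this
    push_cast at this
    rw [le_div_iff₀ hn0, hμ]
    refine le_trans (le_of_eq ?_) (mul_le_mul_of_nonneg_right this (by positivity))
    rw [pow_succ (n : ℝ) l, one_div, inv_pow]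
    field_simp
  rw [eX]
  have b1 := mul_le_mul_of_nonneg_left eZ (by positivity : (0 : ℝ) ≤ 2 / n)
  have b2 := mul_le_mul_of_nonneg_left eXX (by positivity : (0 : ℝ) ≤ 1 / (n : ℝ) ^ 2)
  have b3 : 2 / n * (μ * (k * ((l : ℝ) + 1) ^ 2 / n)) = μ / n * (2 * k * ((l : ℝ) + 1) ^ 2 / n) := by
    ring
  have b4 : 1 / (n : ℝ) ^ 2 * (μ * (n + 3 * (l : ℝ) ^ 3)) = μ / n + μ / n * (3 * (l : ℝ) ^ 3 / n) := by
    field_simp
  have b5 := mul_le_mul_of_nonneg_right hμ1
    (by positivity : (0 : ℝ) ≤ 2 * k * ((l : ℝ) + 1) ^ 2 / n)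
  have b6 := mul_le_mul_of_nonneg_right hμ1 (by positivity : (0 : ℝ) ≤ 3 * (l : ℝ) ^ 3 / n)
  have b7 : 2 / n * μ = 2 * (μ / n) := by ring
  rw [add_div, add_div]
  linarith

end Pool.Agent.Fa2423
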