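import Mathlib

set_option autoImplicit false
set_option linter.unusedSectionVars false

namespace Pool.Agent.Fa2423

open Finset Matrix

variable {V : Type} [Fintype V] [DecidableEq V]

/-- squared Euclidean norm -/
noncomputable def n2 (v : V → ℂ) : ℝ := ∑ i, ‖v i‖ ^ 2

theorem n2_nonneg (v : V → ℂ) : 0 ≤ n2 v := sum_nonneg fun _ _ => by positivity

theorem le_n2 (v : V → ℂ) (i : V) : ‖v i‖ ^ 2 ≤ n2 v :=
  single_le_sum (f := fun i => ‖v i‖ ^ 2) (fun _ _ => by positivity) (mem_univ i)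

theorem n2_eq (v : V → ℂ) : (n2 v : ℂ) = star v ⬝ᵥ v := by
  unfold n2 dotProduct
  push_cast
  refine sum_congr rfl fun i _ => ?_
  rw [Pi.star_apply, Complex.star_def, Complex.conj_mul']

theorem n2_star (v : V → ℂ) : n2 (star v) = n2 v := by
  unfold n2
  simp

theorem n2_eq_zero {v : V → ℂ} (h : n2 v = 0) : v = 0 := by
  funext i
  have := le_n2 v i
  rw [h] at this
  exact norm_eq_zero.1 (pow_eq_zero_iff two_ne_zero |>.1 (le_antisymm this (by positivity)))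

theorem cs (a b : V → ℂ) : ‖a ⬝ᵥ b‖ ^ 2 ≤ n2 a * n2 b := by
  have h1 : ‖a ⬝ᵥ b‖ ≤ ∑ i, ‖a i‖ * ‖b i‖ :=
    (norm_sum_le _ _).trans (le_of_eq (sum_congr rfl fun i _ => norm_mul _ _))
  exact (pow_le_pow_left₀ (norm_nonneg _) h1 2).trans (sum_mul_sq_le_sq_mul_sq _ _ _)

theorem gram_form (X : Matrix V V ℂ) (g y : V → ℂ) :
    star ((Xᴴ * X) *ᵥ g) ⬝ᵥ y = star (X *ᵥ g) ⬝ᵥ (X *ᵥ y) := by
  rw [← mulVec_mulVec, star_mulVec, conjTranspose_conjTranspose, dotProduct_mulVec]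

/-- regularised Gram determinant -/
noncomputable def Dl (X : Matrix V V ℂ) (e : ℝ) : ℝ := ‖(Xᴴ * X + (e : ℂ) • (1 : Matrix V V ℂ)).det‖

theorem Dl_eval (X : Matrix V V ℂ) (e : ℝ) : Dl X e = ‖(Xᴴ * X).charpoly.eval (-(e : ℂ))‖ := by
  have h : Matrix.scalar V (-(e : ℂ)) - Xᴴ * X = -(Xᴴ * X + (e : ℂ) • (1 : Matrix V V ℂ)) := by
    rw [Matrix.smul_one_eq_diagonal, Matrix.scalar_apply, neg_add, ← Matrix.diagonal_neg]
    abel
  rw [Matrix.eval_charpoly, h, Matrix.det_neg, norm_mul, norm_pow, norm_neg, norm_one, one_pow,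
    one_mul, Dl]

theorem Dl_transpose (X : Matrix V V ℂ) (e : ℝ) : Dl Xᵀ e = Dl X e := by
  rw [Dl_eval, Dl_eval, Matrix.charpoly_mul_comm Xᴴ X, ← Matrix.charpoly_transpose (X * Xᴴ),
    Matrix.transpose_mul]
  rfl

theorem eigen (X : Matrix V V ℂ) : ∃ l : V → ℝ, (∀ e : ℝ, 0 ≤ e → Dl X e = ∏ i, (l i + e)) ∧
    (∀ i, ∃ v, n2 v = 1 ∧ n2 (X *ᵥ v) = l i) ∧
    ∀ c : ℝ, (∀ i, c ≤ l i) → ∀ y, c * n2 y ≤ n2 (X *ᵥ y) := by
  have hH : (Xᴴ * X).IsHermitian := Matrix.isHermitian_conjTranspose_mul_self X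
  have h2 : ∀ i, ∃ v, n2 v = 1 ∧ n2 (X *ᵥ v) = hH.eigenvalues i := by
    intro i
    have h1 : n2 (⇑(hH.eigenvectorBasis i) : V → ℂ) = 1 := by
      have := hH.eigenvectorBasis.orthonormal.1 i
      rw [EuclideanSpace.norm_eq, Real.sqrt_eq_one] at this
      exact this
    refine ⟨⇑(hH.eigenvectorBasis i), h1, ?_⟩
    have h3 := gram_form X ⇑(hH.eigenvectorBasis i) ⇑(hH.eigenvectorBasis i)
    rw [hH.mulVec_eigenvectorBasis, ← n2_eq, star_smul, smul_dotProduct, ← n2_eq, h1] at h3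
    simp only [star_trivial, Complex.ofReal_one, Complex.real_smul, mul_one] at h3
    exact_mod_cast h3.symm
  refine ⟨hH.eigenvalues, fun e he => ?_, h2, fun c hc y => ?_⟩
  · rw [Dl_eval, hH.charpoly_eq, Polynomial.eval_prod, norm_prod]
    refine prod_congr rfl fun i _ => ?_
    obtain ⟨v, -, hv⟩ := h2 i
    have h0 : 0 ≤ hH.eigenvalues i := hv ▸ n2_nonneg _
    have : Polynomial.eval (-(e : ℂ)) (Polynomial.X - Polynomial.C (RCLike.ofReal (hH.eigenvalues i) : ℂ)) =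
        -(((hH.eigenvalues i + e : ℝ)) : ℂ) := by
      simp only [Polynomial.eval_sub, Polynomial.eval_X, Polynomial.eval_C]
      push_cast
      simp only [Complex.coe_algebraMap]
      ring
    rw [this, norm_neg, Complex.norm_real, Real.norm_eq_abs, abs_of_nonneg (by linarith)]
  · set U : Matrix V V ℂ := hH.eigenvectorUnitary.1 with hU
    have hUU : U * Uᴴ = 1 := (Matrix.mem_unitaryGroup_iff).1 hH.eigenvectorUnitary.2
    have hsp : Xᴴ * X = U * diagonal (RCLike.ofReal ∘ hH.eigenvalues) * Uᴴ := by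
      conv_lhs => rw [hH.spectral_theorem, Unitary.conjStarAlgAut_apply]
      rfl
    have h3 : n2 (Uᴴ *ᵥ y) = n2 y := by
      have := gram_form Uᴴ y y
      rw [conjTranspose_conjTranspose, hUU, one_mulVec, ← n2_eq, ← n2_eq] at this
      exact_mod_cast this.symm
    have h4 : n2 (X *ᵥ y) = ∑ i, hH.eigenvalues i * ‖(Uᴴ *ᵥ y) i‖ ^ 2 := by
      have h5 := gram_form X y y
      rw [← n2_eq, hsp, ← mulVec_mulVec, ← mulVec_mulVec, star_mulVec, ← dotProduct_mulVec] at h5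
      have h6 : star (diagonal (RCLike.ofReal ∘ hH.eigenvalues) *ᵥ Uᴴ *ᵥ y) ⬝ᵥ Uᴴ *ᵥ y =
          ((∑ i, hH.eigenvalues i * ‖(Uᴴ *ᵥ y) i‖ ^ 2 : ℝ) : ℂ) := by
        unfold dotProduct
        push_cast
        refine sum_congr rfl fun i _ => ?_
        rw [Pi.star_apply, mulVec_diagonal, star_mul', ← Complex.conj_mul', Function.comp_apply]
        simp only [Complex.coe_algebraMap, RCLike.star_def, Complex.conj_ofReal]
        ring
      rw [h6] at h5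
      exact_mod_cast h5.symm
    rw [h4, ← h3, n2, mul_sum]
    exact sum_le_sum fun i _ => mul_le_mul_of_nonneg_right (hc i) (by positivity)

/-- square of the least singular value -/
noncomputable def sv (X : Matrix V V ℂ) : ℝ := sInf {s | ∃ v, n2 v = 1 ∧ n2 (X *ᵥ v) = s}

theorem eigen' [Nonempty V] (X : Matrix V V ℂ) : ∃ l : V → ℝ,
    (∀ e : ℝ, 0 ≤ e → Dl X e = ∏ i, (l i + e)) ∧ (∀ i, ∃ v, n2 v = 1 ∧ n2 (X *ᵥ v) = l i) ∧
    (∀ i, sv X ≤ l i) ∧ (∃ i, l i = sv X) ∧ ∀ y, sv X * n2 y ≤ n2 (X *ᵥ y) := by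
  obtain ⟨l, h1, h2, h3⟩ := eigen X
  obtain ⟨i, -, hi⟩ := exists_min_image univ l univ_nonempty
  have h4 := h3 (l i) fun j => hi j (mem_univ j)
  have h5 : sv X = l i := by
    refine IsLeast.csInf_eq ⟨h2 i, ?_⟩
    rintro s ⟨v, hv, rfl⟩
    simpa [hv] using h4 v
  rw [h5]
  exact ⟨l, h1, h2, fun j => hi j (mem_univ j), ⟨i, rfl⟩, h4⟩

theorem sv_le [Nonempty V] (X : Matrix V V ℂ) (y : V → ℂ) : sv X * n2 y ≤ n2 (X *ᵥ y) := by
  obtain ⟨l, -, -, -, -, h⟩ := eigen' X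
  exact h y

theorem sv_ex [Nonempty V] (X : Matrix V V ℂ) : ∃ v, n2 v = 1 ∧ n2 (X *ᵥ v) = sv X := by
  obtain ⟨l, -, h, -, ⟨i, hi⟩, -⟩ := eigen' X
  exact hi ▸ h i

theorem sv_nonneg [Nonempty V] (X : Matrix V V ℂ) : 0 ≤ sv X := by
  obtain ⟨v, -, hv⟩ := sv_ex X
  exact hv ▸ n2_nonneg _

theorem solve [Nonempty V] (X : Matrix V V ℂ) (h : 0 < sv X) (y : V → ℂ) : ∃ u, X *ᵥ u = y := by
  have hinj : Function.Injective (Matrix.toLin' X) := by
    rw [injective_iff_map_eq_zero]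
    intro u hu
    rw [Matrix.toLin'_apply] at hu
    have h1 := sv_le X u
    rw [hu] at h1
    have h2 : n2 (0 : V → ℂ) = 0 := by simp [n2]
    refine n2_eq_zero (le_antisymm ?_ (n2_nonneg _))
    by_contra h3
    have := mul_pos h (not_le.1 h3)
    linarith
  exact LinearMap.injective_iff_surjective.1 hinj y

theorem sv_le_transpose [Nonempty V] (X : Matrix V V ℂ) : sv X ≤ sv Xᵀ := by
  rcases (sv_nonneg X).eq_or_lt with h | h
  · rw [← h]
    exact sv_nonneg _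
  · obtain ⟨y, hy, hy'⟩ := sv_ex Xᵀ
    obtain ⟨u, hu⟩ := solve X h (star y)
    have h1 : (Xᵀ *ᵥ y) ⬝ᵥ u = 1 := by
      rw [mulVec_transpose, ← dotProduct_mulVec, hu, dotProduct_comm, ← n2_eq, hy]
      simp
    have h2 := cs (Xᵀ *ᵥ y) u
    rw [h1, hy'] at h2
    have h3 := sv_le X u
    rw [hu, n2_star, hy] at h3
    have h4 := mul_le_mul_of_nonneg_left h2 h.le
    have h5 := mul_le_mul_of_nonneg_left h3 (sv_nonneg Xᵀ)
    simp only [norm_one, one_pow, mul_one] at h4 h5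
    nlinarith

theorem sv_transpose [Nonempty V] (X : Matrix V V ℂ) : sv Xᵀ = sv X :=
  le_antisymm (sv_le_transpose Xᵀ) (sv_le_transpose X)

theorem Dl_pos (X : Matrix V V ℂ) {e : ℝ} (he : 0 < e) : 0 < Dl X e := by
  obtain ⟨l, h1, h2, -⟩ := eigen X
  rw [h1 e he.le]
  refine prod_pos fun i _ => ?_
  obtain ⟨v, -, hv⟩ := h2 i
  have := n2_nonneg (X *ᵥ v)
  linarith

theorem Dl_mono (X : Matrix V V ℂ) {e f : ℝ} (he : 0 ≤ e) (hf : e ≤ f) : Dl X e ≤ Dl X f := by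
  obtain ⟨l, h1, h2, -⟩ := eigen X
  rw [h1 e he, h1 f (he.trans hf)]
  refine prod_le_prod (fun i _ => ?_) fun i _ => by linarith
  obtain ⟨v, -, hv⟩ := h2 i
  have := n2_nonneg (X *ᵥ v)
  linarith

theorem Dl_zero (X : Matrix V V ℂ) : Dl X 0 = ‖X.det‖ ^ 2 := by
  simp [Dl, sq]

theorem Dl_small [Nonempty V] (X : Matrix V V ℂ) {e f : ℝ} (he : 0 < e) (hf : e ≤ f)
    (h : sv X ≤ e) : f * Dl X e ≤ 2 * e * Dl X f := by
  obtain ⟨l, h1, -, h3, ⟨i, hi⟩, -⟩ := eigen' X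
  have h0 := sv_nonneg X
  rw [h1 e he.le, h1 f (by linarith), ← mul_prod_erase _ _ (mem_univ i),
    ← mul_prod_erase _ (fun i => l i + f) (mem_univ i), hi, ← mul_assoc, ← mul_assoc]
  refine mul_le_mul (by nlinarith) (prod_le_prod (fun j _ => by linarith [h3 j])
    fun j _ => by linarith) (prod_nonneg fun j _ => by linarith [h3 j])
    (mul_nonneg (by positivity) (by linarith))

theorem Dl_large [Nonempty V] (X : Matrix V V ℂ) {e f : ℝ} (he : 0 ≤ e) (hf : 0 ≤ f)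
    (h : (Fintype.card V : ℝ) * f ≤ sv X) : Dl X f ≤ Real.exp 1 * Dl X e := by
  obtain ⟨l, h1, -, h3, -, -⟩ := eigen' X
  have h0 := sv_nonneg X
  have hn : (0 : ℝ) < Fintype.card V := by exact_mod_cast Fintype.card_pos
  have h4 : Real.exp 1 = ∏ _i : V, Real.exp (1 / Fintype.card V) := by
    rw [prod_const, card_univ, ← Real.exp_nat_mul, mul_one_div_cancel hn.ne']
  rw [h1 e he, h1 f hf, h4, ← prod_mul_distrib]
  refine prod_le_prod (fun j _ => by linarith [h3 j]) fun j _ => ?_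
  have h5 := Real.add_one_le_exp (1 / (Fintype.card V : ℝ))
  have h6 : f ≤ 1 / (Fintype.card V : ℝ) * (l j + e) := by
    rw [one_div, ← div_eq_inv_mul, le_div_iff₀ hn]
    linarith [h3 j]
  have h7 := mul_le_mul_of_nonneg_right h5 (by linarith [h3 j] : 0 ≤ l j + e)
  linarith

theorem Dl_le (X : Matrix V V ℂ) (K : ℝ) (h : ∀ y, n2 (X *ᵥ y) ≤ K * n2 y) :
    Dl X 1 ≤ (K + 1) ^ Fintype.card V := by
  obtain ⟨l, h1, h2, -⟩ := eigen X
  rw [h1 1 zero_le_one, ← card_univ, ← prod_const]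
  refine prod_le_prod (fun i _ => ?_) fun i _ => ?_
  · obtain ⟨v, -, hv⟩ := h2 i
    have := n2_nonneg (X *ᵥ v)
    linarith
  · obtain ⟨v, hv1, hv⟩ := h2 i
    have := h v
    rw [hv1, hv] at this
    linarith

theorem rk1 (X : Matrix V V ℂ) (v : V) (hX : ∀ j, X v j = 0) (ρ : V → ℂ) {e : ℝ} (he : 0 < e) :
    ∃ q : ℝ, 0 ≤ q ∧ Dl (X.updateRow v ρ) e = Dl X e * (1 + q) ∧
      (∀ y, ‖ρ ⬝ᵥ y‖ ^ 2 ≤ q * (n2 (X *ᵥ y) + e * n2 y)) ∧
      ∀ Q, 0 ≤ Q → (∀ y, ‖ρ ⬝ᵥ y‖ ^ 2 ≤ Q * (n2 (X *ᵥ y) + e * n2 y)) → q ≤ Q := by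
  set H := Xᴴ * X + (e : ℂ) • (1 : Matrix V V ℂ) with hH
  have hdet : IsUnit H.det := isUnit_iff_ne_zero.2 (norm_pos_iff.1 (Dl_pos X he))
  set g := H⁻¹ *ᵥ star ρ with hg
  have hHg : H *ᵥ g = star ρ := by rw [hg, mulVec_mulVec, mul_nonsing_inv _ hdet, one_mulVec]
  have hform : ∀ y, ρ ⬝ᵥ y = star (X *ᵥ g) ⬝ᵥ (X *ᵥ y) + e * (star g ⬝ᵥ y) := by
    intro y
    rw [← star_star ρ, ← hHg, hH, add_mulVec, star_add, add_dotProduct, gram_form, smul_mulVec,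
      one_mulVec, star_smul, smul_dotProduct]
    simp
  have hq0 : 0 ≤ n2 (X *ᵥ g) + e * n2 g := add_nonneg (n2_nonneg _) (mul_nonneg he.le (n2_nonneg _))
  have hq : ρ ⬝ᵥ g = ((n2 (X *ᵥ g) + e * n2 g : ℝ) : ℂ) := by
    rw [hform, ← n2_eq, ← n2_eq]
    push_cast
    rfl
  refine ⟨n2 (X *ᵥ g) + e * n2 g, hq0, ?_, fun y => ?_, fun Q hQ h => ?_⟩
  · have h1 : (X.updateRow v ρ)ᴴ * X.updateRow v ρ = Xᴴ * X + vecMulVec (star ρ) ρ := by
      ext a b
      simp only [Matrix.mul_apply, conjTranspose_apply, Matrix.add_apply, vecMulVec_apply]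
      rw [← add_sum_erase _ _ (mem_univ v), ← add_sum_erase _ (fun j => star (X j a) * X j b)
        (mem_univ v), updateRow_self, hX, hX, mul_zero, zero_add, add_comm]
      congr 1
      refine sum_congr rfl fun j hj => ?_
      rw [updateRow_ne (mem_erase.1 hj).1]
    have h2 : (X.updateRow v ρ)ᴴ * X.updateRow v ρ + (e : ℂ) • (1 : Matrix V V ℂ) =
        H * (1 + replicateCol Unit g * replicateRow Unit ρ) := by
      rw [h1, mul_add, mul_one, ← Matrix.mul_assoc, ← replicateCol_mulVec, hHg, ← vecMulVec_eq, hH]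
      abel
    unfold Dl
    rw [h2, det_mul, det_one_add_replicateCol_mul_replicateRow, hq, norm_mul]
    congr 1
    rw [← Complex.ofReal_one, ← Complex.ofReal_add, Complex.norm_real, Real.norm_eq_abs,
      abs_of_nonneg (by linarith)]
  · have h1 := cs (star (X *ᵥ g)) (X *ᵥ y)
    have h2 := cs (star g) y
    rw [n2_star] at h1 h2
    have h3 : ‖ρ ⬝ᵥ y‖ ≤ ‖star (X *ᵥ g) ⬝ᵥ (X *ᵥ y)‖ + e * ‖star g ⬝ᵥ y‖ := by
      rw [hform]
      refine (norm_add_le _ _).trans (le_of_eq ?_)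
      rw [norm_mul, Complex.norm_real, Real.norm_eq_abs, abs_of_pos he]
    refine (pow_le_pow_left₀ (norm_nonneg _) h3 2).trans ?_
    set a := ‖star (X *ᵥ g) ⬝ᵥ (X *ᵥ y)‖
    set b := ‖star g ⬝ᵥ y‖
    have a0 : 0 ≤ a := norm_nonneg _
    have b0 : 0 ≤ b := norm_nonneg _
    have p1 := n2_nonneg (X *ᵥ g)
    have p2 := n2_nonneg (X *ᵥ y)
    have p3 := n2_nonneg g
    have p4 := n2_nonneg y
    have h4 : 2 * (a * b) ≤ n2 (X *ᵥ g) * n2 y + n2 g * n2 (X *ᵥ y) := by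
      refine (pow_le_pow_iff_left₀ (by positivity) (by positivity) two_ne_zero).1 ?_
      have h5 := mul_le_mul h1 h2 (by positivity) (by positivity)
      nlinarith [sq_nonneg (n2 (X *ᵥ g) * n2 y - n2 g * n2 (X *ᵥ y))]
    have h5 := mul_le_mul_of_nonneg_left h4 he.le
    have h6 := mul_le_mul_of_nonneg_left h2 (sq_nonneg e)
    nlinarith
  · have h1 := h g
    rw [hq, Complex.norm_real, Real.norm_eq_abs, sq_abs] at h1
    by_contra h2
    push Not at h2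
    nlinarith

end Pool.Agent.Fa2423
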