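import Pool.Agent.P.MP_fa2423_pr.ExP

set_option autoImplicit false
set_option linter.unusedSectionVars false

namespace Pool.Agent.Fa2423

open Finset

variable {V : Type} [Fintype V] [DecidableEq V]

/-- entries between `v` and `V0` -/
def Ev (V0 : Finset V) (v i j : V) : Prop := (i = v ∧ j ∈ V0) ∨ (j = v ∧ i ∈ V0)

instance (V0 : Finset V) (v i j : V) : Decidable (Ev V0 v i j) := by
  unfold Ev
  infer_instance

/-- row and column of `v` -/
def Sv (v : V) : V → V → Bool := fun i j => decide (i = v ∨ j = v)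

/-- tilted probabilities -/
noncomputable def Qv (V0 : Finset V) (v : V) (p K : ℝ) : V → V → ℝ :=
  fun i j => if Ev V0 v i j then K * p else p

/-- number of edges between `v` and `V0` -/
def dg (V0 : Finset V) (v : V) (B : V → V → Bool) : ℕ :=
  ∑ i, ∑ j, if Ev V0 v i j ∧ B i j = true then 1 else 0

/-- density of the tilted law -/
noncomputable def rat (V0 : Finset V) (v : V) (p K : ℝ) (B : V → V → Bool) : ℝ :=
  ∏ i, ∏ j, if Ev V0 v i j then (if B i j then K else (1 - K * p) / (1 - p)) else 1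

/-- acceptance probability -/
noncomputable def acc (V0 : Finset V) (p K : ℝ) (D : ℕ) (v : V) (B : V → V → Bool) : ℝ :=
  ind (dg V0 v B ≤ D) * rat V0 v p K B / K ^ D

theorem acc_congr (V0 : Finset V) (p K : ℝ) (D : ℕ) (v : V) (B B' : V → V → Bool)
    (h : ∀ i j, Ev V0 v i j → B i j = B' i j) : acc V0 p K D v B = acc V0 p K D v B' := by
  have h1 : dg V0 v B = dg V0 v B' := sum_congr rfl fun i _ => sum_congr rfl fun j _ => by
    by_cases he : Ev V0 v i j
    · rw [h i j he]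
    · simp [he]
  have h2 : rat V0 v p K B = rat V0 v p K B' := prod_congr rfl fun i _ => prod_congr rfl fun j _ => by
    by_cases he : Ev V0 v i j
    · rw [h i j he]
    · simp [he]
  unfold acc
  rw [h1, h2]

section
variable (V0 : Finset V) {p K : ℝ} (p0 : 0 ≤ p) (K1 : 1 ≤ K) (q1 : K * p < 1) (D : ℕ) (v : V)
include p0 K1 q1

theorem Qv_nonneg (i j : V) : 0 ≤ Qv V0 v p K i j := by
  unfold Qv
  split_ifs <;> positivity

theorem Qv_le (i j : V) : Qv V0 v p K i j ≤ K * p := by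
  unfold Qv
  split_ifs
  · exact le_rfl
  · exact le_mul_of_one_le_left p0 K1

theorem rat_nonneg (B : V → V → Bool) : 0 ≤ rat V0 v p K B := by
  have := le_mul_of_one_le_left p0 K1
  refine prod_nonneg fun i _ => prod_nonneg fun j _ => ?_
  split_ifs
  · linarith
  · exact div_nonneg (by linarith) (by linarith)
  · exact zero_le_one

theorem acc_nonneg (B : V → V → Bool) : 0 ≤ acc V0 p K D v B :=
  div_nonneg (mul_nonneg (ind_nonneg _) (rat_nonneg V0 p0 K1 q1 v B)) (by positivity)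

theorem acc_le (B : V → V → Bool) : acc V0 p K D v B ≤ 1 := by
  have h0 := le_mul_of_one_le_left p0 K1
  unfold acc
  rw [div_le_one (by positivity)]
  by_cases h : dg V0 v B ≤ D
  · rw [ind_pos h, one_mul]
    refine le_trans ?_ (pow_le_pow_right₀ K1 h)
    unfold dg rat
    simp only [← prod_pow_eq_pow_sum]
    have h1 : 0 ≤ (1 - K * p) / (1 - p) := div_nonneg (by linarith) (by linarith)
    have h2 : (1 - K * p) / (1 - p) ≤ 1 := (div_le_one (by linarith)).2 (by linarith)
    refine prod_le_prod (fun i _ => prod_nonneg fun j _ => ?_) fun i _ =>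
      prod_le_prod (fun j _ => ?_) fun j _ => ?_
    · split_ifs <;> positivity
    · split_ifs <;> positivity
    · by_cases a : Ev V0 v i j <;> by_cases b : B i j = true <;> simp [a, b, h2]
  · rw [ind_neg h, zero_mul]
    positivity

theorem tilt (F : (V → V → Bool) → ℝ) :
    Ex p (fun B => rat V0 v p K B * F B) = ExP (Qv V0 v p K) F := by
  have h0 := le_mul_of_one_le_left p0 K1
  have h1 : 1 - p ≠ 0 := by linarith
  refine sum_congr rfl fun B _ => ?_
  rw [← mul_assoc]
  congr 1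
  unfold wt rat wtP Qv
  simp only [← prod_mul_distrib]
  refine prod_congr rfl fun i _ => prod_congr rfl fun j _ => ?_
  split_ifs <;> field_simp

theorem acc_mul (F : (V → V → Bool) → ℝ) (hF : ∀ B, 0 ≤ F B) :
    Ex p (fun B => acc V0 p K D v B * F B) ≤ 1 / K ^ D * ExP (Qv V0 v p K) F := by
  have h0 := le_mul_of_one_le_left p0 K1
  rw [← tilt V0 p0 K1 q1, ← Ex_mul]
  refine Ex_mono p0 (by linarith) fun B => ?_
  have h1 := mul_le_mul_of_nonneg_right (ind_le_one (dg V0 v B ≤ D))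
    (mul_nonneg (by positivity : 0 ≤ 1 / K ^ D) (mul_nonneg (rat_nonneg V0 p0 K1 q1 v B) (hF B)))
  refine le_trans (le_of_eq ?_) (h1.trans (le_of_eq (one_mul _)))
  unfold acc
  ring

theorem acc_mean (hD0 : 0 < D) (hD : 4 * (Fintype.card V * (K * p)) ≤ D) :
    1 / K ^ D / 2 ≤ Ex p (acc V0 p K D v) := by
  have D0 : (0 : ℝ) < D := by exact_mod_cast hD0
  have h0 := Qv_nonneg V0 p0 K1 q1 v
  have h1 : ∀ i j, Qv V0 v p K i j ≤ 1 := fun i j => (Qv_le V0 p0 K1 q1 v i j).trans q1.le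
  have e1 : Ex p (acc V0 p K D v) = 1 / K ^ D * ExP (Qv V0 v p K) fun B => ind (dg V0 v B ≤ D) := by
    rw [← tilt V0 p0 K1 q1, ← Ex_mul]
    congr 1
    funext B
    unfold acc
    ring
  have e2 : ExP (Qv V0 v p K) (fun B => (dg V0 v B : ℝ)) ≤ 2 * (Fintype.card V * (K * p)) := by
    unfold dg
    push_cast
    simp only [ExP_sum]
    have : ∀ i j, ExP (Qv V0 v p K) (fun B => if Ev V0 v i j ∧ B i j = true then 1 else 0) ≤
        (if i = v then K * p else 0) + if j = v then K * p else 0 := by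
      intro i j
      rw [ExP_entry _ i j fun t => if Ev V0 v i j ∧ t = true then 1 else 0]
      have a1 := Qv_le V0 p0 K1 q1 v i j
      have a2 : 0 ≤ K * p := by positivity
      by_cases he : Ev V0 v i j
      · simp only [he, true_and, if_true, Bool.false_eq_true, if_false, mul_one, mul_zero, add_zero]
        rcases he with he | he <;> rw [if_pos he.1] <;> split_ifs <;> linarith
      · simp only [he, false_and, if_false, mul_zero, add_zero]
        split_ifs <;> linarith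
    refine (sum_le_sum fun i _ => sum_le_sum fun j _ => this i j).trans (le_of_eq ?_)
    simp only [sum_add_distrib]
    rw [sum_comm]
    simp only [sum_ite_eq', mem_univ, if_true, sum_const, card_univ, nsmul_eq_mul]
    ring
  have e3 := ExP_mono h0 h1 (F := fun B => 1 - 1 / (D : ℝ) * dg V0 v B)
    (G := fun B => ind (dg V0 v B ≤ D)) fun B => by
      by_cases h : dg V0 v B ≤ D
      · rw [ind_pos h]
        exact sub_le_self _ (by positivity)
      · have : (D : ℝ) ≤ dg V0 v B := by exact_mod_cast (not_le.1 h).le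
        rw [ind_neg h, sub_nonpos, one_div, ← div_eq_inv_mul, le_div_iff₀ D0, one_mul]
        exact this
  rw [ExP_sub, ExP_const, ExP_mul] at e3
  have e4 : 1 / (D : ℝ) * ExP (Qv V0 v p K) (fun B => (dg V0 v B : ℝ)) ≤ 1 / 2 := by
    rw [one_div, ← div_eq_inv_mul, div_le_iff₀ D0]
    linarith
  rw [e1, div_eq_mul_one_div]
  exact mul_le_mul_of_nonneg_left (by linarith) (by positivity)

end

theorem tele {b : ℕ} (x : Fin (b + 1) → ℝ) :
    ∑ j, (∏ j' ∈ Iio j, (1 - x j')) * (if j = Fin.last b then 1 else x j) = 1 := by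
  have h := prod_one_sub_ordered (Iio (Fin.last b)) x
  have h1 : (univ : Finset (Fin (b + 1))).erase (Fin.last b) = Iio (Fin.last b) := by
    ext j
    simp only [mem_erase, mem_univ, and_true, mem_Iio, Fin.lt_last_iff_ne_last]
  rw [← add_sum_erase _ _ (mem_univ (Fin.last b)), if_pos rfl, mul_one, h, h1, sub_add,
    ← sum_sub_distrib, sum_eq_zero, sub_zero]
  intro j hj
  rw [if_neg (mem_Iio.1 hj).ne, mul_comm, sub_eq_zero]
  congr 2
  ext k
  simp only [mem_filter, mem_Iio, and_iff_right_iff_imp]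
  exact fun h => h.trans (mem_Iio.1 hj)

/-- a choice of one index per block, extended to all naturals -/
def ch {T b : ℕ} (χ : Fin T → Fin (b + 1)) (t : ℕ) : Fin (b + 1) :=
  if h : t < T then χ ⟨t, h⟩ else 0

theorem sum_ch (T b : ℕ) (f : ℕ → Fin (b + 1) → ℝ) :
    ∑ χ : Fin T → Fin (b + 1), ∏ t ∈ range T, f t (ch χ t) = ∏ t ∈ range T, ∑ j, f t j := by
  simp only [prod_range]
  rw [prod_univ_sum, Fintype.piFinset_univ]
  refine sum_congr rfl fun χ _ => prod_congr rfl fun t _ => ?_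
  simp [ch]

/-- vertices present at time `t` -/
def WW (T : ℕ) (v : ℕ → V) (t : ℕ) : Finset V := univ \ (Ico t T).image v

theorem mem_WW {T : ℕ} {v : ℕ → V} {t : ℕ} {a : V} :
    a ∈ WW T v t ↔ ∀ s, t ≤ s → s < T → v s ≠ a := by
  simp [WW]

/-- weight of a choice given the configuration -/
noncomputable def Ph {T b : ℕ} (ι : ℕ → Fin (b + 1) → V) (h : V → (V → V → Bool) → ℝ)
    (χ : Fin T → Fin (b + 1)) (B : V → V → Bool) : ℝ :=
  ∏ t ∈ range T, (∏ j' ∈ Iio (ch χ t), (1 - h (ι t j') B)) *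
    (if ch χ t = Fin.last b then 1 else h (ι t (ch χ t)) B)

theorem sum_Ph (T b : ℕ) (ι : ℕ → Fin (b + 1) → V) (h : V → (V → V → Bool) → ℝ)
    (B : V → V → Bool) : ∑ χ : Fin T → Fin (b + 1), Ph ι h χ B = 1 := by
  unfold Ph
  rw [sum_ch T b fun t j => (∏ j' ∈ Iio j, (1 - h (ι t j') B)) *
    (if j = Fin.last b then 1 else h (ι t j) B)]
  exact prod_eq_one fun t _ => tele fun j => h (ι t j) B

theorem Ph_nonneg {T b : ℕ} (ι : ℕ → Fin (b + 1) → V) (h : V → (V → V → Bool) → ℝ)
    (h0 : ∀ v B, 0 ≤ h v B) (h1 : ∀ v B, h v B ≤ 1) (χ : Fin T → Fin (b + 1))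
    (B : V → V → Bool) : 0 ≤ Ph ι h χ B := by
  refine prod_nonneg fun t _ => mul_nonneg (prod_nonneg fun j _ => by linarith [h1 (ι t j) B]) ?_
  split_ifs
  · exact zero_le_one
  · exact h0 _ _

section
variable {p : ℝ} (p0 : 0 ≤ p) (p1 : p ≤ 1) (V0 : Finset V) (T b : ℕ) (ι : ℕ → Fin (b + 1) → V)
  (hι : ∀ s < T, ∀ t < T, ∀ j k, ι s j = ι t k → s = t ∧ j = k) (hι0 : ∀ t < T, ∀ j, ι t j ∉ V0)
  (h : V → (V → V → Bool) → ℝ) (h0 : ∀ v B, 0 ≤ h v B) (h1 : ∀ v B, h v B ≤ 1)
  (hc : ∀ v B B', (∀ i j, Ev V0 v i j → B i j = B' i j) → h v B = h v B')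
  {β δ1 : ℝ} (hβ : ∀ v, β ≤ Ex p (h v)) (hδ : 0 ≤ δ1)
  (bad : Finset V → V → (V → V → Bool) → Prop)
  (hb : ∀ W v B B', (∀ i ∈ insert v W, ∀ j ∈ insert v W, B i j = B' i j) → bad W v B = bad W v B')
  (hp : ∀ W v B, v ∉ W → V0 ⊆ W →
    Ex p (fun B' => h v B' * ind (bad W v (mix (Sv v) B' B))) ≤ δ1 * Ex p (h v))
include p0 p1 hι hι0 h0 h1 hc hβ hδ hb hp

theorem block (μ : ℕ → ℝ) (hμ : ∀ t, 0 ≤ μ t) :
    ∑ χ : Fin T → Fin (b + 1), Ex p (fun B => Ph ι h χ B * ∏ t ∈ range T,
      (1 + μ t * ind (bad (WW T (fun s => ι s (ch χ s)) t) (ι t (ch χ t)) B))) ≤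
      ∏ t ∈ range T, (1 + μ t * (δ1 + (1 - β) ^ b)) := by
  have hne : ∀ u v, u ≠ v → v ∉ V0 → ∀ B' B, h u (mix (Sv v) B' B) = h u B := by
    intro u v huv hv B' B
    refine hc u _ _ fun i j he => if_neg ?_
    rcases he with ⟨rfl, he⟩ | ⟨rfl, he⟩ <;> simp only [Sv, decide_eq_true_eq, not_or]
    · exact ⟨huv, fun h => hv (h ▸ he)⟩
    · exact ⟨fun h => hv (h ▸ he), huv⟩
  have heq : ∀ v B' B, h v (mix (Sv v) B' B) = h v B' := by
    intro v B' B
    refine hc v _ _ fun i j he => if_pos ?_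
    rcases he with ⟨rfl, -⟩ | ⟨rfl, -⟩ <;> simp [Sv]
  have hm0 : ∀ v, 0 ≤ Ex p (h v) := fun v => Ex_nonneg p0 p1 (h0 v)
  have hm1 : ∀ v, Ex p (h v) ≤ 1 := fun v => (Ex_mono p0 p1 (h1 v)).trans (Ex_one p).le
  have key : ∀ χ : Fin T → Fin (b + 1), Ex p (fun B => Ph ι h χ B * ∏ t ∈ range T,
      (1 + μ t * ind (bad (WW T (fun s => ι s (ch χ s)) t) (ι t (ch χ t)) B))) ≤
      ∏ t ∈ range T, (∏ j' ∈ Iio (ch χ t), (1 - Ex p (h (ι t j')))) *
        ((if ch χ t = Fin.last b then 1 else Ex p (h (ι t (ch χ t)))) * (1 + μ t * δ1) +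
          if ch χ t = Fin.last b then μ t else 0) := by
    intro χ
    have a1 := peel (P := fun _ _ : V => p) (fun _ _ => p0) (fun _ _ => p1)
      (fun t => Sv (ι t (ch χ t))) (fun B => ∏ t ∈ range T, ∏ j' ∈ Iio (ch χ t), (1 - h (ι t j') B))
      (fun t B => (if ch χ t = Fin.last b then 1 else h (ι t (ch χ t)) B) *
        (1 + μ t * ind (bad (WW T (fun s => ι s (ch χ s)) t) (ι t (ch χ t)) B)))
      (fun t => (if ch χ t = Fin.last b then 1 else Ex p (h (ι t (ch χ t)))) * (1 + μ t * δ1) +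
          if ch χ t = Fin.last b then μ t else 0)
      (fun B => prod_nonneg fun t _ => prod_nonneg fun j _ => by linarith [h1 (ι t j) B])
      (fun t B => mul_nonneg (by split_ifs; exacts [zero_le_one, h0 _ _])
        (add_nonneg zero_le_one (mul_nonneg (hμ t) (ind_nonneg _)))) (range T)
      (fun t ht B' B => prod_congr rfl fun s hs => prod_congr rfl fun j hj => by
        rw [hne _ _ (fun e => ?_) (hι0 t (mem_range.1 ht) _)]
        obtain ⟨rfl, e2⟩ := hι s (mem_range.1 hs) t (mem_range.1 ht) _ _ e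
        exact (mem_Iio.1 hj).ne e2)
      (fun s hs t ht hst B' B => by
        have e1 : ι s (ch χ s) ≠ ι t (ch χ t) := fun e =>
          hst.ne (hι s (mem_range.1 hs) t (mem_range.1 ht) _ _ e).1
        have e2 : ∀ i ∈ insert (ι s (ch χ s)) (WW T (fun s => ι s (ch χ s)) s), i ≠ ι t (ch χ t) := by
          intro i hi
          rcases mem_insert.1 hi with rfl | hi
          · exact e1
          · exact (mem_WW.1 hi t hst.le (mem_range.1 ht)).symm
        rw [hne _ _ e1 (hι0 t (mem_range.1 ht) _), hb _ _ (mix _ B' B) B fun i hi j hj =>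
          if_neg (by simp [Sv, e2 i hi, e2 j hj])])
      (fun t ht B => by
        split_ifs with hl
        · refine ExP_le (fun _ _ => p0) (fun _ _ => p1) fun B' => ?_
          have := mul_le_mul_of_nonneg_left (ind_le_one (bad (WW T (fun s => ι s (ch χ s)) t)
            (ι t (ch χ t)) (mix (Sv (ι t (ch χ t))) B' B))) (hμ t)
          have := mul_nonneg (hμ t) hδ
          linarith
        · have e1 := hp (WW T (fun s => ι s (ch χ s)) t) (ι t (ch χ t)) B
            (fun e => mem_WW.1 e t le_rfl (mem_range.1 ht) rfl)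
            fun a ha => mem_WW.2 fun s _ hs e => hι0 s hs _ (e ▸ ha)
          have e2 := mul_le_mul_of_nonneg_left e1 (hμ t)
          simp only [heq, mul_add, mul_one, mul_left_comm _ (μ t), ← Ex_eq, Ex_add, Ex_mul]
          linarith)
    have a2 := peel' (P := fun _ _ : V => p) (fun _ _ => p0) (fun _ _ => p1)
      (fun x : (_ : ℕ) × Fin (b + 1) => Sv (ι x.1 x.2)) (fun x B => 1 - h (ι x.1 x.2) B)
      (fun x => 1 - Ex p (h (ι x.1 x.2))) (fun x B => by linarith [h1 (ι x.1 x.2) B])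
      ((range T).sigma fun t => Iio (ch χ t))
      (fun x hx y hy hxy B' B => by
        have e1 := mem_range.1 (mem_sigma.1 hx).1
        have e2 := mem_range.1 (mem_sigma.1 hy).1
        rw [hne _ _ (fun e => hxy ?_) (hι0 _ e2 _)]
        exact Sigma.ext (hι _ e1 _ e2 _ _ e).1 (heq_of_eq (hι _ e1 _ e2 _ _ e).2))
      (fun x _ B' B => by rw [heq]) fun x _ => by rw [ExP_sub, ExP_const, ← Ex_eq]
    simp only [prod_sigma] at a2
    rw [prod_mul_distrib]
    refine le_trans (le_of_eq ?_) (a1.trans (mul_le_mul_of_nonneg_right a2 (prod_nonneg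
      fun t _ => add_nonneg (mul_nonneg (by split_ifs; exacts [zero_le_one, hm0 _])
        (add_nonneg zero_le_one (mul_nonneg (hμ t) hδ))) (by split_ifs; exacts [hμ t, le_rfl]))))
    simp only [Ex_eq, Ph, prod_mul_distrib, mul_assoc]
  refine (sum_le_sum fun χ _ => key χ).trans ?_
  rw [sum_ch T b fun t j => (∏ j' ∈ Iio j, (1 - Ex p (h (ι t j')))) *
    ((if j = Fin.last b then 1 else Ex p (h (ι t j))) * (1 + μ t * δ1) +
      if j = Fin.last b then μ t else 0)]
  have e : ∀ t, ∑ j, (∏ j' ∈ Iio j, (1 - Ex p (h (ι t j')))) *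
      ((if j = Fin.last b then 1 else Ex p (h (ι t j))) * (1 + μ t * δ1) +
        if j = Fin.last b then μ t else 0) =
      1 + μ t * (δ1 + ∏ j' ∈ Iio (Fin.last b), (1 - Ex p (h (ι t j')))) := by
    intro t
    simp only [mul_add _ (_ * (1 + μ t * δ1)), sum_add_distrib, ← mul_assoc, ← sum_mul]
    rw [tele fun j => Ex p (h (ι t j))]
    simp only [mul_ite, mul_zero, sum_ite_eq', mem_univ, if_true]
    ring
  simp only [e]
  refine prod_le_prod (fun t _ => add_nonneg zero_le_one (mul_nonneg (hμ t) (add_nonneg hδ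
    (prod_nonneg fun j _ => by linarith [hm1 (ι t j)])))) fun t _ => ?_
  refine add_le_add le_rfl (mul_le_mul_of_nonneg_left (add_le_add le_rfl ?_) (hμ t))
  refine (prod_le_prod (g := fun _ => 1 - β) (fun j _ => by linarith [hm1 (ι t j)])
    fun j _ => by linarith [hβ (ι t j)]).trans (le_of_eq ?_)
  simp

theorem block_tail (Λ δ : ℝ) (hδ0 : 0 ≤ δ) (hΛ0 : 0 ≤ Λ) (hΛ : 4 ≤ Λ * δ)
    (hΛ' : Real.exp Λ * (δ1 + (1 - β) ^ b) ≤ 1) (β1 : β ≤ 1) :
    ∑ χ : Fin T → Fin (b + 1), Ex p (fun B => Ph ι h χ B * ind (¬ ∀ m, 1 ≤ m → m ≤ T →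
      ∑ t ∈ Ico (T - m) T, ind (bad (WW T (fun s => ι s (ch χ s)) t) (ι t (ch χ t)) B) ≤ δ * m)) ≤
      Real.exp (-(Λ / 2)) := by
  have e0 : 0 ≤ Real.exp Λ - 1 := sub_nonneg.2 (Real.one_le_exp hΛ0)
  have hμ : ∀ m t, 0 ≤ if T - m ≤ t then Real.exp Λ - 1 else 0 := fun m t => by
    split_ifs
    exacts [e0, le_rfl]
  have hI : ∀ m, (range T).filter (fun t => T - m ≤ t) = Ico (T - m) T := by
    intro m
    ext t
    simp only [mem_filter, mem_range, mem_Ico, and_comm]
  have a1 : ∀ (χ : Fin T → Fin (b + 1)) (B : V → V → Bool), Ph ι h χ B * ind (¬ ∀ m, 1 ≤ m → m ≤ T →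
      ∑ t ∈ Ico (T - m) T, ind (bad (WW T (fun s => ι s (ch χ s)) t) (ι t (ch χ t)) B) ≤ δ * m) ≤
      ∑ m ∈ Ico 1 (T + 1), Real.exp (-(Λ * (δ * m + 1) / 2)) * (Ph ι h χ B * ∏ t ∈ range T,
        (1 + (if T - m ≤ t then Real.exp Λ - 1 else 0) *
          ind (bad (WW T (fun s => ι s (ch χ s)) t) (ι t (ch χ t)) B))) := by
    intro χ B
    generalize hbd : (fun t => bad (WW T (fun s => ι s (ch χ s)) t) (ι t (ch χ t)) B) = bd
    simp only [congrFun hbd, mul_left_comm _ (Ph ι h χ B), ← mul_sum]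
    refine mul_le_mul_of_nonneg_left ?_ (Ph_nonneg ι h h0 h1 χ B)
    have b0 : ∀ m ∈ Ico 1 (T + 1), 0 ≤ Real.exp (-(Λ * (δ * m + 1) / 2)) * ∏ t ∈ range T,
        (1 + (if T - m ≤ t then Real.exp Λ - 1 else 0) * ind (bd t)) := fun m _ =>
      mul_nonneg (Real.exp_pos _).le (prod_nonneg fun t _ =>
        add_nonneg zero_le_one (mul_nonneg (hμ m t) (ind_nonneg _)))
    refine ind_le (sum_nonneg b0) fun hB => ?_
    push Not at hB
    obtain ⟨m, m1, m2, m3⟩ := hB
    refine le_trans ?_ (single_le_sum b0 (mem_Ico.2 ⟨m1, by omega⟩))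
    have b1 : ∀ t, 1 + (if T - m ≤ t then Real.exp Λ - 1 else 0) * ind (bd t) =
        if T - m ≤ t then Real.exp (Λ * ind (bd t)) else 1 := by
      intro t
      by_cases hd : bd t
      · rw [ind_pos hd]
        split_ifs <;> simp
      · rw [ind_neg hd]
        simp
    have b2 : 1 ≤ ∑ t ∈ Ico (T - m) T, ind (bd t) := by
      by_contra b3
      rw [sum_eq_zero fun t ht => ind_neg fun hd => b3 ((ind_pos hd).ge.trans
        (single_le_sum (f := fun t => ind (bd t)) (fun _ _ => ind_nonneg _) ht))] at m3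
      exact not_le.2 m3 (by positivity)
    simp only [b1]
    rw [← prod_filter, hI, ← Real.exp_sum, ← mul_sum, ← Real.exp_add]
    refine Real.one_le_exp ?_
    have := mul_le_mul_of_nonneg_left (add_le_add m3.le b2) hΛ0
    linarith
  refine (sum_le_sum fun χ _ => Ex_mono p0 p1 (a1 χ)).trans ?_
  simp only [Ex_sum, Ex_mul]
  rw [sum_comm]
  simp only [← mul_sum]
  have a2 : ∀ m ∈ Ico 1 (T + 1), Real.exp (-(Λ * (δ * m + 1) / 2)) * ∑ χ : Fin T → Fin (b + 1),
      Ex p (fun B => Ph ι h χ B * ∏ t ∈ range T, (1 + (if T - m ≤ t then Real.exp Λ - 1 else 0) *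
        ind (bad (WW T (fun s => ι s (ch χ s)) t) (ι t (ch χ t)) B))) ≤
      Real.exp (-(Λ / 2)) * (1 / 2) ^ m := by
    intro m hm
    have b0 : 0 ≤ δ1 + (1 - β) ^ b := add_nonneg hδ (pow_nonneg (by linarith) _)
    have b1 := block p0 p1 V0 T b ι hι hι0 h h0 h1 hc hβ hδ bad hb hp _ (hμ m)
    have b2 : ∏ t ∈ range T, (1 + (if T - m ≤ t then Real.exp Λ - 1 else 0) * (δ1 + (1 - β) ^ b)) ≤
        2 ^ m := by
      refine (prod_le_prod (g := fun t => if T - m ≤ t then 2 else 1) (fun t _ => add_nonneg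
        zero_le_one (mul_nonneg (hμ m t) b0)) fun t _ => ?_).trans ?_
      · split_ifs
        · nlinarith
        · simp
      · rw [← prod_filter, hI, prod_const, Nat.card_Ico]
        exact pow_le_pow_right₀ one_le_two (by omega)
    refine (mul_le_mul_of_nonneg_left (b1.trans b2) (Real.exp_pos _).le).trans ?_
    have b3 : Real.exp (-(Λ * (δ * m + 1) / 2)) ≤ Real.exp (-(Λ / 2)) * Real.exp (-2) ^ m := by
      rw [← Real.exp_nat_mul, ← Real.exp_add]
      have := mul_le_mul_of_nonneg_right hΛ (Nat.cast_nonneg m : (0 : ℝ) ≤ m)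
      exact Real.exp_le_exp.2 (by linarith)
    refine (mul_le_mul_of_nonneg_right b3 (by positivity)).trans ?_
    rw [mul_assoc, ← mul_pow]
    refine mul_le_mul_of_nonneg_left (pow_le_pow_left₀ (by positivity) ?_ _) (by positivity)
    have b4 : Real.exp (-2) * (Real.exp 1 * Real.exp 1) = 1 := by
      rw [← Real.exp_add, ← Real.exp_add]
      norm_num
    have b5 := Real.add_one_le_exp 1
    have b6 := mul_le_mul_of_nonneg_left (mul_le_mul b5 b5 (by norm_num) (by linarith))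
      (Real.exp_pos (-2)).le
    linarith
  refine (sum_le_sum a2).trans ?_
  rw [← mul_sum]
  refine mul_le_of_le_one_right (Real.exp_pos _).le ?_
  refine (geom_sum_Ico_le_of_lt_one (by norm_num) (by norm_num)).trans ?_
  norm_num

end

end Pool.Agent.Fa2423
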