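import Pool.Agent.P.MP_fa2423_pr.Spread
import Pool.Agent.P.MP_fa2423_pr.Tilt

set_option autoImplicit false
set_option linter.unusedSectionVars false

namespace Pool.Agent.Fa2423

open Finset Matrix

variable {V : Type} [Fintype V] [DecidableEq V]

/-- keep only the edges inside `W` -/
def msk (W : Finset V) (B : V → V → Bool) : V → V → Bool :=
  fun i j => B i j && decide (i ∈ W ∧ j ∈ W)

theorem det_msk (B : V → V → Bool) (z : ℂ) (W : Finset V) :
    ‖(Mz (msk W B) z).det‖ ≤ ‖(IW B z W).det‖ * (1 + ‖z‖) ^ Fintype.card V := by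
  have h : Mz (msk W B) z = IW B z W * diagonal fun j => if j ∈ W then 1 else -z := by
    ext i j
    rw [mul_diagonal]
    by_cases h1 : i ∈ W <;> by_cases h2 : j ∈ W <;> by_cases h3 : i = j <;>
      simp_all [IW, Mz_apply, msk]
  rw [h, det_mul, det_diagonal, norm_mul, norm_prod, ← card_univ, ← prod_const]
  refine mul_le_mul_of_nonneg_left (prod_le_prod (fun _ _ => norm_nonneg _) fun j _ => ?_)
    (norm_nonneg _)
  split_ifs <;> simp

/-- spreading with the final parameters -/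
def Sp (I : Matrix V V ℂ) (W V0 : Finset V) (l h m0 : ℕ) : Prop :=
  Spr I W V0 h (l * h ^ 2) m0 (Real.exp (-(3 * h)) ^ (l * h * l + 1))
    (Real.exp (15 * ((l : ℝ) ^ 2 * h ^ 5)))

/-- a bad step -/
def Bd (z : ℂ) (V0 : Finset V) (l h m0 : ℕ) (W : Finset V) (v : V) (B : V → V → Bool) : Prop :=
  Sp (IW B z W) W V0 l h m0 ∧ Sp (IW B z W)ᵀ W V0 l h m0 ∧ ¬ GS (IW B z W) (rowv (flp B) W v)
    (rowv B W v) (Mz B z v v) (Real.exp (-(30 * ((l : ℝ) ^ 2 * h ^ 5))))

/-- the typical graph -/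
def Nc (B : V → V → Bool) (V0 : Finset V) (l h m1 : ℕ) : Prop :=
  Gd B V0 (l * h) (l * h ^ 2) m1 ∧ (∀ j, od B j ≤ l) ∧ ∀ T : Finset V, T.card ≤ l * h ^ 2 →
    (∑ i ∈ T, ∑ j ∈ T, if B i j then 1 else 0) ≤ 2 * T.card

theorem IW_congr {B B' : V → V → Bool} (z : ℂ) {W : Finset V}
    (h : ∀ i ∈ W, ∀ j ∈ W, B i j = B' i j) : IW B z W = IW B' z W := by
  ext i j
  simp only [IW, of_apply, Mz_apply]
  split_ifs with h1 <;> first | rfl | simp_all

theorem rowv_congr {B B' : V → V → Bool} {W : Finset V} {v : V}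
    (h : ∀ j ∈ W, B v j = B' v j) : rowv B W v = rowv B' W v := by
  funext j
  by_cases hj : j ∈ W
  · simp only [rowv, h j hj]
  · simp [rowv, hj]

theorem Bd_congr (z : ℂ) (V0 : Finset V) (l h0 m0 : ℕ) (W : Finset V) (v : V) (B B' : V → V → Bool)
    (h : ∀ i ∈ insert v W, ∀ j ∈ insert v W, B i j = B' i j) :
    Bd z V0 l h0 m0 W v B = Bd z V0 l h0 m0 W v B' := by
  unfold Bd
  rw [IW_congr z fun i hi j hj => h i (mem_insert_of_mem hi) j (mem_insert_of_mem hj),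
    rowv_congr (B := flp B) (B' := flp B') fun j hj =>
      h j (mem_insert_of_mem hj) v (mem_insert_self _ _),
    rowv_congr (B := B) (B' := B') fun j hj => h v (mem_insert_self _ _) j (mem_insert_of_mem hj),
    Mz_apply, Mz_apply, h v (mem_insert_self _ _) v (mem_insert_self _ _)]

theorem avg_le {ι : Type} [Fintype ι] (a : ι → ℝ) (h0 : ∀ i, 0 ≤ a i) (h1 : ∑ i, a i = 1)
    {x y : ℝ} {u w : ι → ℝ} (h : ∀ i, x ≤ y + (u i + w i)) :
    x ≤ y + ∑ i, a i * u i + ∑ i, a i * w i := by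
  have := sum_le_sum fun i (_ : i ∈ univ) => mul_le_mul_of_nonneg_left (h i) (h0 i)
  simp only [mul_add, sum_add_distrib, ← sum_mul, h1, one_mul] at this
  linarith

theorem two_pow_le (k : ℕ) : (2 : ℝ) ^ k ≤ Real.exp k := by
  rw [← mul_one (k : ℝ), Real.exp_nat_mul]
  exact pow_le_pow_left₀ (by norm_num) (by linarith [Real.add_one_le_exp 1]) _

theorem mono2 {x y : ℝ} (hx : 1 ≤ x) (hy : 1 ≤ y) (a b : ℕ) (ha : a ≤ 2) (hb : b ≤ 5) :
    x ^ a * y ^ b ≤ x ^ 2 * y ^ 5 :=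
  mul_le_mul (pow_le_pow_right₀ hx ha) (pow_le_pow_right₀ hy hb) (by positivity) (by positivity)

section
variable [Nonempty V] (z : ℂ) (l h : ℕ) (h2 : 2 ≤ h) (hl : h ≤ l) (hl' : l < 2 ^ h)
  (hn : Fintype.card V < 2 ^ l) (z1 : 1 + ‖z‖ ≤ Real.exp h) (z2 : 1 ≤ Real.exp h * ‖z‖)
include h2 hl hl' hn z1 z2

theorem bd_prob (V0 : Finset V) (m0 : ℕ) {p K ε : ℝ} (p0 : 0 ≤ p) (K1 : 1 ≤ K) (q1 : K * p ≤ 1 / 2)
    (hε : 0 < ε) (hm : 8 ≤ ε ^ 2 * (m0 * (K * p))) (e1 : Fintype.card V * (K * p) / h ≤ ε)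
    (e2 : K * p * (l * h ^ 2 + 1) ≤ ε) (W : Finset V) (v : V) (B : V → V → Bool) (hv : v ∉ W)
    (hW : V0 ⊆ W) :
    ExP (Qv V0 v p K) (fun B' => ind (Bd z V0 l h m0 W v (mix (Sv v) B' B))) ≤ 5 * ε := by
  have q2 : K * p < 1 := by linarith
  have h0 := Qv_nonneg V0 p0 K1 q2 v
  have hq := Qv_le V0 p0 K1 q2 v
  have hne : ∀ i ∈ W, i ≠ v := fun i hi h => hv (h ▸ hi)
  have m1 : ∀ B', IW (mix (Sv v) B' B) z W = IW B z W := fun B' =>
    IW_congr z fun i hi j hj => by simp [mix, Sv, hne i hi, hne j hj]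
  have m2 : ∀ B', rowv (flp (mix (Sv v) B' B)) W v = rowv (flp B') W v := fun B' =>
    rowv_congr fun j _ => by simp [mix, Sv, flp]
  have m3 : ∀ B', rowv (mix (Sv v) B' B) W v = rowv B' W v := fun B' =>
    rowv_congr fun j _ => by simp [mix, Sv]
  have m4 : ∀ B', Mz (mix (Sv v) B' B) z v v = Mz B' z v v := fun B' => by
    simp [Mz_apply, mix, Sv]
  simp only [Bd, m1, m2, m3, m4]
  by_cases s1 : Sp (IW B z W) W V0 l h m0
  swap
  · simp only [s1, false_and, ind_neg not_false, ExP_const]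
    positivity
  by_cases s2 : Sp (IW B z W)ᵀ W V0 l h m0
  swap
  · simp only [s2, false_and, and_false, ind_neg not_false, ExP_const]
    positivity
  simp only [s1, s2, true_and]
  have l1 : (1 : ℝ) ≤ l := by exact_mod_cast (by omega : 1 ≤ l)
  have h1 : (1 : ℝ) ≤ h := by exact_mod_cast (by omega : 1 ≤ h)
  have n1 : (Fintype.card V : ℝ) ≤ Real.exp l := le_trans (by exact_mod_cast hn.le) (two_pow_le l)
  have a3 : 24 * (Fintype.card V : ℝ) ^ 2 * Real.exp (15 * ((l : ℝ) ^ 2 * h ^ 5)) *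
      Real.exp (-(30 * ((l : ℝ) ^ 2 * h ^ 5))) * Real.exp h ≤
      Real.exp (-(3 * h)) ^ (l * h * l + 1) := by
    have b2 : (2 : ℝ) ^ 5 ≤ Real.exp l ^ 5 :=
      pow_le_pow_left₀ (by positivity) (by linarith [Real.add_one_le_exp l]) 5
    have b3 : 24 * (Fintype.card V : ℝ) ^ 2 ≤ Real.exp l ^ 5 * Real.exp l ^ 2 :=
      mul_le_mul (by linarith) (pow_le_pow_left₀ (by positivity) n1 2) (by positivity)
        (by positivity)
    refine (mul_le_mul_of_nonneg_right (mul_le_mul_of_nonneg_right (mul_le_mul_of_nonneg_right b3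
      (by positivity)) (by positivity)) (by positivity)).trans ?_
    simp only [← Real.exp_nat_mul, ← Real.exp_add]
    push_cast
    have c1 := mono2 l1 h1 1 0 (by norm_num) (by norm_num)
    have c2 := mono2 l1 h1 0 1 (by norm_num) (by norm_num)
    have c3 := mono2 l1 h1 2 2 (by norm_num) (by norm_num)
    exact Real.exp_le_exp.2 (by linarith)
  have a4 : 0 ≤ 24 * (Fintype.card V : ℝ) ^ 2 * Real.exp (15 * ((l : ℝ) ^ 2 * h ^ 5)) *
      Real.exp (-(30 * ((l : ℝ) ^ 2 * h ^ 5))) := by positivity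
  have := step_prob h0 hq q2.le hW (Real.one_le_exp (by positivity))
    (pow_le_one₀ (by positivity) (Real.exp_le_one_iff.2 (by linarith))) (Real.exp_pos _)
    ((le_mul_of_one_le_right a4 (Real.one_le_exp (by positivity))).trans a3) hε (by
      have := mul_le_mul_of_nonneg_left q1 (by positivity : 0 ≤ ε ^ 2 * (m0 * (K * p)))
      linarith) s1 s2 v hv (fun j hj => by simp [Qv, Ev, hj]) z (by
      have := mul_le_mul_of_nonneg_right a3 (norm_nonneg z)
      have := mul_le_mul_of_nonneg_left z2 a4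
      linarith) (by omega)
  push_cast at this
  linarith

theorem spr_all (δ : ℝ) (hδ : 0 < δ) (z3 : 1 ≤ Real.exp h * δ)
    (hz : ∀ (U : Type) [Fintype U] [DecidableEq U] (B : U → U → Bool), eds B ≤ 2 * Fintype.card U →
      δ * (1 / ((Fintype.card U : ℝ) + 1)) ^ (3 * Fintype.card U ^ 2) ≤ ‖(Mz B z).det‖)
    (V0 : Finset V) (m0 m1 : ℕ) (hm : m0 + V0ᶜ.card ≤ m1) (hm1 : m1 ≤ Fintype.card V)
    (B : V → V → Bool) (hG : Nc B V0 l h m1) (W : Finset V) (hW : V0 ⊆ W) :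
    Sp (IW B z W) W V0 l h m0 := by
  have l1 : (1 : ℝ) ≤ l := by exact_mod_cast (by omega : 1 ≤ l)
  have h1 : (1 : ℝ) ≤ h := by exact_mod_cast (by omega : 1 ≤ h)
  have l0 : 0 < l := by omega
  have h0 : 0 < h := by omega
  have n1 : (l : ℝ) + 1 ≤ Real.exp h := le_trans (by exact_mod_cast hl') (two_pow_le h)
  have E1 := Real.add_one_le_exp h
  have E2 : 2 ≤ Real.exp h := by linarith
  have r1 : Real.exp (-(3 * h)) * Real.exp h ^ 3 = 1 := by
    rw [← Real.exp_nat_mul, ← Real.exp_add]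
    simp
  have r0 := Real.exp_pos (-(3 * (h : ℝ)))
  refine ⟨spr_of_good B z W V0 hW (l * h) (l * h ^ 2) m0 m1 h (l * h * l) hG.1 (by positivity)
    (le_of_eq (by ring)) (Nat.succ_le_of_lt (by positivity)) hm ?_ _ r0 l hG.2.1 ?_ ?_,
    fun w ξ hw => small_inv B z W δ _ _ hδ hz hG.2.2 (Real.one_le_exp (by positivity)) ?_ w ξ
      ((norm_nonneg _).trans (hw (Classical.arbitrary V))) hw⟩
  · have b1 := one_add_mul_le_pow (a := 1 / ((l * h : ℕ) : ℝ)) (le_trans (by norm_num)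
      (by positivity : (0 : ℝ) ≤ 1 / ((l * h : ℕ) : ℝ))) (l * h)
    rw [mul_one_div_cancel (by positivity), one_add_one_eq_two] at b1
    rw [pow_mul]
    refine lt_of_lt_of_le ?_ (pow_le_pow_left₀ (by norm_num) b1 l)
    exact_mod_cast hm1.trans_lt hn
  · refine lt_of_mul_lt_mul_right ?_ (by positivity : 0 ≤ Real.exp h ^ 3)
    rw [mul_right_comm, r1]
    have := mul_le_mul_of_nonneg_left z2 (sq_nonneg (Real.exp h))
    nlinarith
  · refine lt_of_mul_lt_mul_right ?_ (by positivity : 0 ≤ Real.exp h ^ 3)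
    rw [mul_right_comm, r1]
    have := mul_le_mul_of_nonneg_left E2 (sq_nonneg (Real.exp h))
    nlinarith
  · set x := (l : ℝ) ^ 2 * h ^ 5 with hx
    have b0 : ((l * h ^ 2 : ℕ) : ℝ) + 1 ≤ Real.exp (3 * h) := by
      have c1 : (h : ℝ) ^ 2 ≤ Real.exp h ^ 2 := pow_le_pow_left₀ (by linarith) (by linarith) 2
      have c2 := mul_le_mul n1 c1 (by positivity) (by positivity)
      have c3 : Real.exp (3 * h) = Real.exp h * Real.exp h ^ 2 := by
        rw [← pow_succ', ← Real.exp_nat_mul]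
        norm_num
      push_cast
      nlinarith
    have bp : ∀ (y c : ℝ) (k : ℕ), 0 ≤ y → y ≤ Real.exp c → ∀ d, k * c ≤ d * x →
        y ^ k ≤ Real.exp (d * x) := fun y c k y0 hy d hd =>
      (pow_le_pow_left₀ y0 hy k).trans (by rw [← Real.exp_nat_mul]; exact Real.exp_le_exp.2 hd)
    have m1 := mono2 l1 h1 1 3 (by norm_num) (by norm_num)
    have m2 := mono2 l1 h1 0 1 (by norm_num) (by norm_num)
    have m3 := mono2 l1 h1 1 2 (by norm_num) (by norm_num)
    have b1 : ((l * h ^ 2).factorial : ℝ) ≤ Real.exp (3 * x) :=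
      le_trans (by exact_mod_cast Nat.factorial_le_pow _) (bp ((l * h ^ 2 : ℕ) : ℝ) _ (l * h ^ 2)
        (by positivity) (le_trans (by simp) b0) 3 (by push_cast; linarith))
    have b2 := bp _ _ (l * h ^ 2) (by positivity) z1 1 (by push_cast; linarith)
    have b3 : 1 ≤ Real.exp (1 * x) * δ :=
      z3.trans (mul_le_mul_of_nonneg_right (Real.exp_le_exp.2 (by linarith)) hδ.le)
    have b4 : 1 ≤ Real.exp (9 * x) * (1 / (((l * h ^ 2 : ℕ) : ℝ) + 1)) ^ (3 * (l * h ^ 2) ^ 2) := by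
      rw [one_div, inv_pow, ← div_eq_mul_inv, le_div_iff₀ (by positivity), one_mul]
      exact bp _ _ _ (by positivity) b0 9 (by push_cast; linarith)
    have b5 : ((l * h ^ 2 : ℕ) : ℝ) ≤ Real.exp (1 * x) := by
      push_cast
      linarith [Real.add_one_le_exp (1 * x)]
    calc ((l * h ^ 2 : ℕ) : ℝ) * ((l * h ^ 2).factorial * (1 + ‖z‖) ^ (l * h ^ 2)) ≤
          Real.exp (1 * x) * (Real.exp (3 * x) * Real.exp (1 * x)) * (1 * 1) := by
          rw [mul_one, mul_one]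
          gcongr
      _ ≤ Real.exp (1 * x) * (Real.exp (3 * x) * Real.exp (1 * x)) * ((Real.exp (1 * x) * δ) *
          (Real.exp (9 * x) * (1 / (((l * h ^ 2 : ℕ) : ℝ) + 1)) ^ (3 * (l * h ^ 2) ^ 2))) := by gcongr
      _ = Real.exp (1 * x + 3 * x + 1 * x + 1 * x + 9 * x) *
          (δ * (1 / (((l * h ^ 2 : ℕ) : ℝ) + 1)) ^ (3 * (l * h ^ 2) ^ 2)) := by
          simp only [Real.exp_add]
          ring
      _ = _ := by congr 2; ring

theorem det_main (δz : ℝ) (hδz : 0 < δz) (z3 : 1 ≤ Real.exp h * δz)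
    (hz : ∀ (U : Type) [Fintype U] [DecidableEq U] (B : U → U → Bool), eds B ≤ 2 * Fintype.card U →
      δz * (1 / ((Fintype.card U : ℝ) + 1)) ^ (3 * Fintype.card U ^ 2) ≤ ‖(Mz B z).det‖)
    (V0 : Finset V) (m0 m1 : ℕ) (hm : m0 + V0ᶜ.card ≤ m1) (hm1 : m1 ≤ Fintype.card V)
    (B : V → V → Bool) (hG : Nc B V0 l h m1) (hG' : Nc (flp B) V0 l h m1) (T : ℕ) (v : ℕ → V)
    (hv : ∀ s < T, ∀ t < T, v s = v t → s = t) (hv0 : ∀ t < T, v t ∉ V0)
    (hT : Fintype.card V ≤ l * T) (hT' : T ≤ Fintype.card V)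
    (hr : ¬ ∃ a ∈ rts (msk (WW T v 0) B), ‖z - a‖ < 1 / (Fintype.card V : ℝ) ^ 2) (Y : ℝ)
    (hc : ∀ m, 1 ≤ m → m ≤ T →
      ∑ t ∈ Ico (T - m) T, ind (Bd z V0 l h m0 (WW T v t) (v t) B) ≤ 1 / 8 * m)
    (hY : 1587 * (l * ((l : ℝ) ^ 2 * h ^ 5)) ≤ 2 * Y) : ¬ Sm B z (Real.exp (-Y)) := by
  have l1 : (1 : ℝ) ≤ l := by exact_mod_cast (by omega : 1 ≤ l)
  have h1 : (1 : ℝ) ≤ h := by exact_mod_cast (by omega : 1 ≤ h)
  have n1 : (Fintype.card V : ℝ) + 1 ≤ Real.exp l := le_trans (by exact_mod_cast hn) (two_pow_le l)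
  have z1' : 1 + ‖z‖ ≤ Real.exp l := z1.trans (Real.exp_le_exp.2 (by exact_mod_cast hl))
  have n0 : 0 < Fintype.card V := Fintype.card_pos
  have T0 : 0 < T := Nat.pos_of_ne_zero fun h => by simp [h] at hT
  have E2 : 2 ≤ Real.exp l := by linarith [Real.add_one_le_exp l]
  have hW : ∀ t, V0 ⊆ WW T v t := fun t a ha => mem_WW.2 fun s _ hs e => hv0 s hs (e ▸ ha)
  have a1 := mono2 l1 h1 1 0 (by norm_num) (by norm_num)
  rw [pow_one, pow_zero, mul_one] at a1
  set x := (l : ℝ) ^ 2 * h ^ 5 with hx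
  set n : ℝ := (Fintype.card V : ℝ) with hn'
  have n2' : 1 ≤ n := by rw [hn']; exact_mod_cast n0
  have key := chain B z T v (WW T v) (fun t ht => ⟨fun e => mem_WW.1 e t le_rfl ht rfl, ?_⟩)
    (by simp [WW]) (Real.exp (-(30 * x))) (Real.exp l ^ 3) (191 * x) l
    (11 * n * l) (fun t => Bd z V0 l h m0 (WW T v t) (v t) B) (fun t _ hb => by
      by_contra h3
      refine hb ⟨spr_all z l h h2 hl hl' hn z1 z2 δz hδz z3 hz V0 m0 m1 hm hm1 B hG _ (hW t), ?_, h3⟩
      rw [← IW_flp]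
      exact spr_all z l h h2 hl hl' hn z1 z2 δz hδz z3 hz V0 m0 m1 hm hm1 _ hG' _ (hW t))
    (Real.exp_pos _) (Real.exp_le_one_iff.2 (by linarith)) ?_ (by linarith) ?_
    (by positivity) (by linarith) (by positivity) ?_ hc T0 l (hT'.trans_lt hn)
  · rintro ⟨u, u1, u2⟩
    have b1 := sv_le (Mz B z) u
    have b2 : n2 u = 1 := u1
    have b3 : n2 (Mz B z *ᵥ u) ≤ Real.exp (-Y) ^ 2 := u2
    rw [b2, mul_one] at b1
    rw [← Real.exp_nat_mul] at b3
    have b4 := Real.exp_lt_exp.1 (key.trans_le (b1.trans b3))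
    have T1 : (0 : ℝ) < T := by exact_mod_cast T0
    have b5 : 4 * (11 * n * l + 1) / T ≤ 48 * (l : ℝ) ^ 2 := by
      have b6 : n ≤ l * T := by rw [hn']; exact_mod_cast hT
      have b7 := mul_le_mul_of_nonneg_right b6 (by positivity : (0 : ℝ) ≤ l)
      have b8 := one_le_mul_of_one_le_of_one_le n2' l1
      rw [div_le_iff₀ T1]
      linarith
    have b6 := mul_le_mul_of_nonneg_left a1 (by positivity : (0 : ℝ) ≤ l)
    have b7 := mul_le_mul_of_nonneg_right l1 (by linarith : 0 ≤ x)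
    push_cast at b4
    linarith
  · ext a
    rw [mem_insert, mem_WW, mem_WW]
    constructor
    · intro h
      refine or_iff_not_imp_left.2 fun h2 s h3 h4 e => ?_
      rcases h3.eq_or_lt with rfl | h5
      · exact h2 e.symm
      · exact h s h5 h4 e
    · rintro (rfl | h) s h3 h4 e
      · have := hv s h4 t ht e
        omega
      · exact h s (by omega) h4 e
  · rw [pow_succ' _ 2]
    exact mul_le_mul (by linarith) (pow_le_pow_left₀ (by positivity) z1' 2) (by positivity)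
      (by positivity)
  · have b2 : (2 : ℝ) ^ 5 ≤ Real.exp l ^ 5 := pow_le_pow_left₀ (by positivity) E2 5
    refine (mul_le_mul_of_nonneg_right (by linarith : 32 ≤ Real.exp l ^ 5) (by positivity)).trans ?_
    simp only [← Real.exp_nat_mul, ← Real.exp_add]
    push_cast
    exact Real.exp_le_exp.2 (by linarith)
  · have b1 := (det_ge _ z (by positivity) hr).trans (det_msk B z (WW T v 0))
    have b2 : 1 ≤ (Real.exp l ^ 3) ^ Fintype.card V * ‖(IW B z (WW T v 0)).det‖ := by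
      have b3 := mul_le_mul_of_nonneg_left b1 (by positivity : 0 ≤ (n ^ 2) ^ Fintype.card V)
      rw [← mul_pow, mul_one_div_cancel (by positivity), one_pow, mul_left_comm, ← mul_pow,
        mul_comm] at b3
      refine b3.trans (mul_le_mul_of_nonneg_right (pow_le_pow_left₀ (by positivity) ?_ _)
        (norm_nonneg _))
      rw [pow_succ _ 2]
      exact mul_le_mul (pow_le_pow_left₀ (by positivity) (by linarith) 2) z1' (by positivity)
        (by positivity)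
    have b4 : n * Real.exp l ^ 3 + 1 ≤ Real.exp l ^ 5 := by
      have c1 := mul_le_mul_of_nonneg_right n1 (by positivity : 0 ≤ Real.exp l ^ 3)
      have c2 : 1 ≤ Real.exp l ^ 3 := one_le_pow₀ (by linarith)
      have c3 : Real.exp l ^ 4 ≤ Real.exp l ^ 5 := pow_le_pow_right₀ (by linarith) (by norm_num)
      linarith
    refine (pow_le_pow_left₀ (by positivity) b4 _).trans ((le_mul_of_one_le_right (by positivity)
      (one_le_pow₀ b2 (n := 2))).trans (le_of_eq ?_))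
    rw [mul_pow, ← mul_assoc]
    congr 1
    simp only [← Real.exp_nat_mul, ← Real.exp_add]
    push_cast
    rw [← hn']
    ring_nf

theorem master_sup (δz : ℝ) (hδz : 0 < δz) (z3 : 1 ≤ Real.exp h * δz)
    (hz : ∀ (U : Type) [Fintype U] [DecidableEq U] (B : U → U → Bool), eds B ≤ 2 * Fintype.card U →
      δz * (1 / ((Fintype.card U : ℝ) + 1)) ^ (3 * Fintype.card U ^ 2) ≤ ‖(Mz B z).det‖)
    (V0 : Finset V) (m0 m1 : ℕ)
    (hm : m0 + V0ᶜ.card ≤ m1) (hm1 : m1 ≤ Fintype.card V) (T b : ℕ) (ι : ℕ → Fin (b + 1) → V)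
    (hι : ∀ s < T, ∀ t < T, ∀ j k, ι s j = ι t k → s = t ∧ j = k) (hι0 : ∀ t < T, ∀ j, ι t j ∉ V0)
    (hT : Fintype.card V ≤ l * T) (hT' : T ≤ Fintype.card V) {p K ε : ℝ} (p0 : 0 ≤ p) (K1 : 1 ≤ K)
    (q1 : K * p ≤ 1 / 2) (hε : 0 < ε) (e0 : 8 ≤ ε ^ 2 * (m0 * (K * p)))
    (e1 : Fintype.card V * (K * p) / h ≤ ε) (e2 : K * p * (l * h ^ 2 + 1) ≤ ε) (D : ℕ) (hD0 : 0 < D)
    (hD : 4 * (Fintype.card V * (K * p)) ≤ D) (Λ Y : ℝ) (hΛ : 32 ≤ Λ)
    (hΛ' : Real.exp Λ * (10 * ε + (1 - 1 / K ^ D / 2) ^ b) ≤ 1)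
    (hY : 1587 * (l * ((l : ℝ) ^ 2 * h ^ 5)) ≤ 2 * Y) :
    Ex p (fun B : V → V → Bool => ind (Sm B z (Real.exp (-Y)))) ≤
      2 * Ex p (fun B => ind (¬ Nc B V0 l h m1)) +
      (∑ χ : Fin T → Fin (b + 1), Ex p (fun B => Ph ι (acc V0 p K D) χ B *
        ind (∃ a ∈ rts (msk (WW T (fun s => ι s (ch χ s)) 0) B),
          ‖z - a‖ < 1 / (Fintype.card V : ℝ) ^ 2))) + Real.exp (-(Λ / 2)) := by
  have q2 : K * p < 1 := by linarith
  have p1 : p ≤ 1 := (le_mul_of_one_le_left p0 K1).trans q2.le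
  have h0 := acc_nonneg V0 p0 K1 q2 D
  have h1 := acc_le V0 p0 K1 q2 D
  have hβ := fun v => acc_mean V0 p0 K1 q2 D v hD0 hD
  have tail := block_tail p0 p1 V0 T b ι hι hι0 _ h0 h1 (acc_congr V0 p K D) hβ
    (by positivity : 0 ≤ 10 * ε) (Bd z V0 l h m0) (Bd_congr z V0 l h m0) (fun W v B hv hW => by
      refine (acc_mul V0 p0 K1 q2 D v _ fun _ => ind_nonneg _).trans ?_
      have c1 := mul_le_mul_of_nonneg_left (bd_prob z l h h2 hl hl' hn z1 z2 V0 m0 p0 K1 q1 hε e0 e1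
        e2 W v B hv hW) (by positivity : 0 ≤ 1 / K ^ D)
      have c2 := mul_le_mul_of_nonneg_left (hβ v) (by positivity : 0 ≤ 10 * ε)
      linarith) Λ (1 / 8) (by norm_num) (by linarith) (by linarith) hΛ' (by
      have : 1 / K ^ D ≤ 1 := (div_le_one (by positivity)).2 (one_le_pow₀ K1)
      linarith)
  refine le_trans ?_ (add_le_add le_rfl tail)
  rw [two_mul]
  nth_rw 3 [← Ex_flip p]
  rw [← Ex_sum, ← Ex_sum, ← Ex_add, ← Ex_add, ← Ex_add]
  refine Ex_mono p0 p1 fun B => ?_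
  refine avg_le _ (fun χ => Ph_nonneg ι _ h0 h1 χ B) (sum_Ph T b ι _ B) fun χ =>
    ind_le (add_nonneg (add_nonneg (ind_nonneg _) (ind_nonneg _))
      (add_nonneg (ind_nonneg _) (ind_nonneg _))) fun hS => ?_
  by_contra hcon
  replace hcon := not_le.1 hcon
  have ne1 : ∀ {P : Prop} {x : ℝ}, x < 1 → ind P ≤ x → ¬ P := fun hx h hP => by
    rw [ind_pos hP] at h
    linarith
  refine det_main z l h h2 hl hl' hn z1 z2 δz hδz z3 hz V0 m0 m1 hm hm1 B (not_not.1 (ne1 hcon ?_))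
    (not_not.1 (ne1 hcon ?_)) T (fun s => ι s (ch χ s)) (fun s hs t ht e => (hι s hs t ht _ _ e).1)
    (fun t ht => hι0 t ht _) hT hT' (ne1 hcon ?_) Y (not_not.1 (ne1 hcon ?_)) hY hS
  · exact le_add_of_le_of_nonneg (le_add_of_nonneg_right (ind_nonneg _))
      (add_nonneg (ind_nonneg _) (ind_nonneg _))
  · exact le_add_of_le_of_nonneg (le_add_of_nonneg_left (ind_nonneg _))
      (add_nonneg (ind_nonneg _) (ind_nonneg _))
  · exact le_add_of_nonneg_of_le (add_nonneg (ind_nonneg _) (ind_nonneg _))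
      (le_add_of_nonneg_right (ind_nonneg _))
  · exact le_add_of_nonneg_of_le (add_nonneg (ind_nonneg _) (ind_nonneg _))
      (le_add_of_nonneg_left (ind_nonneg _))

end

end Pool.Agent.Fa2423
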