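import Pool.Agent.P.MP_fa2423_pr.Explore

set_option autoImplicit false
set_option linter.unusedSectionVars false

namespace Pool.Agent.Fa2423

open Finset

variable {V : Type} [Fintype V] [DecidableEq V]

open Classical in
/-- indicator of a proposition -/
noncomputable def ind (P : Prop) : ℝ := if P then 1 else 0

theorem ind_eq (P : Prop) [Decidable P] : ind P = if P then 1 else 0 := by
  unfold ind
  congr

theorem ind_pos {P : Prop} (h : P) : ind P = 1 := by simp [ind, h]

theorem ind_neg {P : Prop} (h : ¬ P) : ind P = 0 := by simp [ind, h]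

theorem ind_nonneg (P : Prop) : 0 ≤ ind P := by
  by_cases h : P
  · rw [ind_pos h]; exact zero_le_one
  · rw [ind_neg h]

theorem ind_le_one (P : Prop) : ind P ≤ 1 := by
  by_cases h : P
  · rw [ind_pos h]
  · rw [ind_neg h]; exact zero_le_one

theorem ind_le {P : Prop} {x : ℝ} (h0 : 0 ≤ x) (h1 : P → 1 ≤ x) : ind P ≤ x := by
  by_cases h : P
  · rw [ind_pos h]; exact h1 h
  · rw [ind_neg h]; exact h0

theorem ind_and (P Q : Prop) : ind (P ∧ Q) = ind P * ind Q := by
  by_cases h : P <;> by_cases h' : Q <;> simp [ind, h, h']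

theorem Ex_ind_has (p : ℝ) (T : Finset (V × V)) : Ex p (fun B => ind (Has B T)) = p ^ T.card := by
  simp only [ind_eq]
  exact Ex_has p T

theorem has_union {B : V → V → Bool} {T T' : Finset (V × V)} :
    Has B (T ∪ T') ↔ Has B T ∧ Has B T' := by
  unfold Has
  simp only [mem_union, or_imp, forall_and]

/-- edge set of a vertex sequence -/
def PE {l : ℕ} (y : Fin (l + 1) → V) : Finset (V × V) :=
  univ.image fun t : Fin l => (y t.castSucc, y t.succ)

theorem PE_inj {l : ℕ} {y : Fin (l + 1) → V} (hy : Function.Injective y) :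
    Function.Injective fun t : Fin l => (y t.castSucc, y t.succ) := by
  intro a b h
  exact Fin.succ_injective _ (hy (Prod.ext_iff.1 h).2)

theorem card_PE {l : ℕ} {y : Fin (l + 1) → V} (hy : Function.Injective y) : (PE y).card = l := by
  unfold PE
  rw [card_image_of_injective _ (PE_inj hy)]
  simp

theorem mem_PE {l : ℕ} {y : Fin (l + 1) → V} {e : V × V} :
    e ∈ PE y ↔ ∃ t : Fin l, (y t.castSucc, y t.succ) = e := by
  unfold PE
  simp

theorem card_insert_PE {l : ℕ} {y : Fin (l + 1) → V} (hy : Function.Injective y) (v : V) :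
    (insert (y (Fin.last l), v) (PE y)).card = l + 1 := by
  rw [card_insert_of_notMem, card_PE hy]
  rw [mem_PE]
  rintro ⟨t, ht⟩
  exact (Fin.castSucc_lt_last t).ne (hy (Prod.ext_iff.1 ht).1)

/-- a directed path -/
def IsP (B : V → V → Bool) {l : ℕ} (y : Fin (l + 1) → V) : Prop :=
  Function.Injective y ∧ Has B (PE y)

theorem IsP.edge {B : V → V → Bool} {l : ℕ} {y : Fin (l + 1) → V} (h : IsP B y) (t : Fin l) :
    B (y t.castSucc) (y t.succ) = true :=
  h.2 (y t.castSucc, y t.succ) (mem_PE.2 ⟨t, rfl⟩)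

theorem isP_of_nat {B : V → V → Bool} (l : ℕ) (f : ℕ → V)
    (h1 : ∀ a b, a ≤ l → b ≤ l → f a = f b → a = b)
    (h2 : ∀ t, t < l → B (f t) (f (t + 1)) = true) : IsP B (fun t : Fin (l + 1) => f t) := by
  refine ⟨fun a b h => Fin.ext (h1 a b (by omega) (by omega) h), fun e he => ?_⟩
  obtain ⟨t, rfl⟩ := mem_PE.1 he
  exact h2 t t.2

open Classical in
/-- injective sequences -/
noncomputable def Inj (V : Type) [Fintype V] [DecidableEq V] (l : ℕ) : Finset (Fin (l + 1) → V) :=
  univ.filter Function.Injective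

theorem mem_Inj {l : ℕ} {y : Fin (l + 1) → V} : y ∈ Inj V l ↔ Function.Injective y := by
  classical
  unfold Inj
  simp

theorem card_Inj_le (l : ℕ) : ((Inj V l).card : ℝ) ≤ (Fintype.card V : ℝ) ^ (l + 1) := by
  have : (Inj V l).card ≤ Fintype.card (Fin (l + 1) → V) := card_le_univ _
  rw [Fintype.card_fun, Fintype.card_fin] at this
  exact_mod_cast this

theorem card_Inj (l : ℕ) : (Inj V l).card = (Fintype.card V).descFactorial (l + 1) := by
  classical
  have h1 := Fintype.card_embedding_eq (α := Fin (l + 1)) (β := V)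
  rw [Fintype.card_fin] at h1
  rw [← h1, ← Fintype.card_congr (Equiv.subtypeInjectiveEquivEmbedding (Fin (l + 1)) V),
    Fintype.card_subtype]
  unfold Inj
  congr

theorem desc_ge (n : ℕ) (hn : 0 < n) : ∀ j : ℕ,
    (n : ℝ) ^ j * (1 - (j : ℝ) ^ 2 / n) ≤ n.descFactorial j := by
  have hn0 : (0 : ℝ) < n := by exact_mod_cast hn
  intro j
  induction j with
  | zero => simp
  | succ j ih =>
    rw [Nat.descFactorial_succ]
    by_cases hj : j ≤ n
    · push_cast [Nat.cast_sub hj]
      have hj' : (j : ℝ) ≤ n := by exact_mod_cast hj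
      have h1 := mul_le_mul_of_nonneg_left ih (by linarith : (0 : ℝ) ≤ n - j)
      refine le_trans ?_ h1
      have h2 : (n : ℝ) * (1 - ((j : ℝ) + 1) ^ 2 / n) ≤ (n - j) * (1 - (j : ℝ) ^ 2 / n) := by
        have h3 : (0 : ℝ) ≤ (j : ℝ) ^ 3 / n := by positivity
        have h4 : (n - j) * (1 - (j : ℝ) ^ 2 / n) = n - j - j ^ 2 + (j : ℝ) ^ 3 / n := by
          field_simp
          ring
        have h5 : (n : ℝ) * (1 - ((j : ℝ) + 1) ^ 2 / n) = n - ((j : ℝ) + 1) ^ 2 := by
          field_simp
        have h6 : (0 : ℝ) ≤ j := Nat.cast_nonneg j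
        nlinarith
      have h7 := mul_le_mul_of_nonneg_left h2 (by positivity : (0 : ℝ) ≤ (n : ℝ) ^ j)
      calc (n : ℝ) ^ (j + 1) * (1 - ((j : ℝ) + 1) ^ 2 / n)
          = (n : ℝ) ^ j * ((n : ℝ) * (1 - ((j : ℝ) + 1) ^ 2 / n)) := by ring
        _ ≤ _ := h7
        _ = _ := by ring
    · have hj' : (n : ℝ) ≤ j := by exact_mod_cast (by omega : n ≤ j)
      have h1 : 1 - ((j + 1 : ℕ) : ℝ) ^ 2 / n ≤ 0 := by
        rw [sub_nonpos, le_div_iff₀ hn0]
        push_cast
        nlinarith
      exact (mul_nonpos_of_nonneg_of_nonpos (by positivity) h1).trans (by positivity)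

/-- long paths are unlikely -/
theorem long_path (n : ℕ) (hn : Fintype.card V = n) (k M : ℕ) (hM4 : 4 ≤ M) (hMn : M ≤ n)
    (hk : 3 * (M : ℝ) ^ 2 / n ≤ (k + 1 : ℕ)) :
    Ex (1 / (n : ℝ)) (fun B => ind (∃ y : Fin (k + 1) → V, IsP B y)) ≤
      n * Real.exp (-(M : ℝ) ^ 3 / (64 * (n : ℝ) ^ 2)) + n * Real.exp (-(M : ℝ) ^ 3 / (n : ℝ) ^ 2) := by
  have hn1 : 0 < n := by omega
  have hn0 : (0 : ℝ) < n := by exact_mod_cast hn1
  have hn2 : (1 : ℝ) ≤ n := by exact_mod_cast hn1
  have h0 : (0 : ℝ) ≤ 1 / n := by positivity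
  have h1 : (1 : ℝ) / n ≤ 1 := by rw [div_le_one hn0]; linarith
  have hpt : ∀ B : V → V → Bool, ind (∃ y : Fin (k + 1) → V, IsP B y) ≤
      (∑ u : V, if M < (Ds univ {u} B).card then (1 : ℝ) else 0) +
      ∑ y ∈ Inj V k, ind (Has B (PE y)) *
        (if (Ds univ (univ.image y) B).card ≤ M then (1 : ℝ) else 0) := by
    intro B
    have a1 : ∀ u : V, 0 ≤ (if M < (Ds univ {u} B).card then (1 : ℝ) else 0) := fun u => by
      split_ifs <;> norm_num
    have a2 : ∀ y : Fin (k + 1) → V, 0 ≤ ind (Has B (PE y)) *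
        (if (Ds univ (univ.image y) B).card ≤ M then (1 : ℝ) else 0) := fun y =>
      mul_nonneg (ind_nonneg _) (by split_ifs <;> norm_num)
    have a3 := sum_nonneg fun u (_ : u ∈ (univ : Finset V)) => a1 u
    have a4 := sum_nonneg fun y (_ : y ∈ Inj V k) => a2 y
    refine ind_le (add_nonneg a3 a4) ?_
    rintro ⟨y, hy⟩
    by_cases hM : M < (Ds univ {y 0} B).card
    · have := single_le_sum (fun u (_ : u ∈ (univ : Finset V)) => a1 u) (mem_univ (y 0))
      simp only [hM, if_true] at this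
      linarith
    · have := single_le_sum (fun y (_ : y ∈ Inj V k) => a2 y) (mem_Inj.2 hy.1)
      have hsub : Ds univ (univ.image y) B ⊆ Ds univ {y 0} B := by
        refine Ds_least (fun v hv => ?_) fun a ha b hb hab => Ds_closed ha hb hab
        obtain ⟨t, -, rfl⟩ := mem_image.1 hv
        clear hv
        induction t using Fin.induction with
        | zero => exact sub_Ds (subset_univ _) _ (mem_singleton_self _)
        | succ t ih => exact Ds_closed ih (mem_univ _) (hy.edge t)
      have hc : (Ds univ (univ.image y) B).card ≤ M := (card_le_card hsub).trans (by omega)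
      simp only [hc, if_true, ind_pos hy.2, mul_one] at this
      linarith
  refine (Ex_mono h0 h1 hpt).trans ?_
  rw [Ex_add, Ex_sum, Ex_sum]
  refine add_le_add ?_ ?_
  · refine (sum_le_sum fun u _ => tail_up n hn u M hM4 hMn).trans ?_
    rw [sum_const, card_univ, hn, nsmul_eq_mul]
  · have hy : ∀ y ∈ Inj V k, Ex (1 / (n : ℝ)) (fun B => ind (Has B (PE y)) *
        (if (Ds univ (univ.image y) B).card ≤ M then (1 : ℝ) else 0)) ≤
        (1 / (n : ℝ)) ^ k * Real.exp (-(M : ℝ) ^ 3 / (n : ℝ) ^ 2) := by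
      intro y hy
      rw [mem_Inj] at hy
      rw [Ex_indep _ (fun _ b => decide (b ∈ univ.image y)), Ex_ind_has, card_PE hy]
      · refine mul_le_mul_of_nonneg_left (tail_low n hn hn1 _ M ?_ hMn) (by positivity)
        rw [card_image_of_injective _ hy]
        simpa using hk
      · intro B' B
        congr 1
        unfold Has
        refine propext (forall₂_congr fun e he => ?_)
        obtain ⟨t, rfl⟩ := mem_PE.1 he
        simp [mix]
      · intro B' B
        rw [Ds_congr (subset_univ _) (B' := B)]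
        intro a _ b _ hb
        unfold mix
        simp only [hb, decide_false]
        simp
    refine (sum_le_sum hy).trans ?_
    rw [sum_const, nsmul_eq_mul, ← mul_assoc]
    refine mul_le_mul_of_nonneg_right ?_ (Real.exp_pos _).le
    have := card_Inj_le (V := V) k
    rw [hn] at this
    refine (mul_le_mul_of_nonneg_right this (by positivity)).trans (le_of_eq ?_)
    rw [pow_succ, one_div, inv_pow]
    field_simp

open Classical in
/-- vertices on cycles of length at most `k` -/
noncomputable def Cy (k : ℕ) (B : V → V → Bool) : Finset V :=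
  univ.filter fun v => ∃ m < k, ∃ x : Fin (m + 1) → V, IsP B x ∧ x 0 = v ∧
    B (x (Fin.last m)) (x 0) = true

theorem mem_Cy {k : ℕ} {B : V → V → Bool} {v : V} : v ∈ Cy k B ↔
    ∃ m < k, ∃ x : Fin (m + 1) → V, IsP B x ∧ x 0 = v ∧ B (x (Fin.last m)) (x 0) = true := by
  classical
  unfold Cy
  simp only [mem_filter, mem_univ, true_and]

theorem Ex_Cy (n : ℕ) (hn : Fintype.card V = n) (hn1 : 0 < n) (k m : ℕ) (hm : 0 < m) :
    Ex (1 / (n : ℝ)) (fun B : V → V → Bool => ind (m < (Cy k B).card)) ≤ (k : ℝ) / m := by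
  classical
  have hn0 : (0 : ℝ) < n := by exact_mod_cast hn1
  have hn2 : (1 : ℝ) ≤ n := by exact_mod_cast hn1
  have hm0 : (0 : ℝ) < m := by exact_mod_cast hm
  have h0 : (0 : ℝ) ≤ 1 / n := by positivity
  have h1 : (1 : ℝ) / n ≤ 1 := by rw [div_le_one hn0]; linarith
  have hpt : ∀ B : V → V → Bool, ind (m < (Cy k B).card) ≤
      (1 / (m : ℝ)) * ∑ j ∈ range k, ∑ x ∈ Inj V j,
        ind (Has B (insert (x (Fin.last j), x 0) (PE x))) := by
    intro B
    refine ind_le (mul_nonneg (by positivity)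
      (sum_nonneg fun _ _ => sum_nonneg fun _ _ => ind_nonneg _)) fun hB => ?_
    have hsub : Cy k B ⊆ (range k).biUnion fun j => ((Inj V j).filter fun x =>
        Has B (insert (x (Fin.last j), x 0) (PE x))).image fun x => x 0 := by
      intro v hv
      obtain ⟨j, hj, x, hx, hx0, hx1⟩ := mem_Cy.1 hv
      refine mem_biUnion.2 ⟨j, mem_range.2 hj, mem_image.2 ⟨x, mem_filter.2 ⟨mem_Inj.2 hx.1, ?_⟩, hx0⟩⟩
      intro e he
      rcases mem_insert.1 he with rfl | he
      · exact hx1
      · exact hx.2 e he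
    have hc := (card_le_card hsub).trans (card_biUnion_le.trans (sum_le_sum fun j _ => card_image_le))
    have hc' : (m : ℝ) ≤ ∑ j ∈ range k, (((Inj V j).filter fun x =>
        Has B (insert (x (Fin.last j), x 0) (PE x))).card : ℝ) := by
      exact_mod_cast hB.le.trans hc
    rw [one_div, ← div_eq_inv_mul, le_div_iff₀ hm0, one_mul]
    refine hc'.trans (le_of_eq (sum_congr rfl fun j _ => ?_))
    rw [card_filter]
    push_cast
    simp only [ind_eq]
  refine (Ex_mono h0 h1 hpt).trans ?_
  rw [Ex_mul, Ex_sum, one_div (m : ℝ), ← div_eq_inv_mul]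
  refine div_le_div_of_nonneg_right ?_ hm0.le
  have : ∀ j ∈ range k, Ex (1 / (n : ℝ)) (fun B : V → V → Bool => ∑ x ∈ Inj V j,
        ind (Has B (insert (x (Fin.last j), x 0) (PE x)))) ≤ 1 := by
    intro j _
    rw [Ex_sum, sum_congr rfl fun x hx => by rw [Ex_ind_has, card_insert_PE (mem_Inj.1 hx)]]
    rw [sum_const, nsmul_eq_mul]
    have := card_Inj_le (V := V) j
    rw [hn] at this
    refine (mul_le_mul_of_nonneg_right this (by positivity)).trans (le_of_eq ?_)
    rw [one_div, inv_pow]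
    field_simp
  refine (sum_le_sum this).trans ?_
  simp

end Pool.Agent.Fa2423
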