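import Mathlib

set_option autoImplicit false
set_option linter.unusedSectionVars false

namespace Pool.Agent.Fa2423

open Finset

variable {V : Type} [Fintype V] [DecidableEq V]

/-- product weight of a configuration -/
noncomputable def wt (p : ℝ) (B : V → V → Bool) : ℝ := ∏ i, ∏ j, if B i j then p else 1 - p

/-- expectation -/
noncomputable def Ex (p : ℝ) (F : (V → V → Bool) → ℝ) : ℝ := ∑ B, wt p B * F B

theorem wt_nonneg {p : ℝ} (h0 : 0 ≤ p) (h1 : p ≤ 1) (B : V → V → Bool) : 0 ≤ wt p B := by
  unfold wt
  refine prod_nonneg fun i _ => prod_nonneg fun j _ => ?_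
  split_ifs <;> linarith

theorem Ex_prod (p : ℝ) (φ : V → V → Bool → ℝ) :
    Ex p (fun B => ∏ i, ∏ j, φ i j (B i j)) =
      ∏ i, ∏ j, (p * φ i j true + (1 - p) * φ i j false) := by
  unfold Ex wt
  have h1 : ∀ B : V → V → Bool, (∏ i, ∏ j, if B i j then p else 1 - p) * ∏ i, ∏ j, φ i j (B i j)
      = ∏ i, ∏ j, ((if B i j then p else 1 - p) * φ i j (B i j)) := by
    intro B
    rw [← prod_mul_distrib]
    refine prod_congr rfl fun i _ => ?_
    rw [← prod_mul_distrib]
  simp only [h1]
  have h2 : ∀ i : V, (∏ j, (p * φ i j true + (1 - p) * φ i j false)) =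
      ∑ r : V → Bool, ∏ j, ((if r j then p else 1 - p) * φ i j (r j)) := by
    intro i
    have := Finset.prod_univ_sum (fun _ : V => (univ : Finset Bool))
      (fun j b => (if b then p else 1 - p) * φ i j b)
    rw [Fintype.piFinset_univ] at this
    rw [← this]
    refine prod_congr rfl fun j _ => ?_
    simp
  simp only [h2]
  have := Finset.prod_univ_sum (fun _ : V => (univ : Finset (V → Bool)))
      (fun i r => ∏ j, ((if r j then p else 1 - p) * φ i j (r j)))
  rw [Fintype.piFinset_univ] at this
  rw [this]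

theorem Ex_one (p : ℝ) : Ex p (fun _ : V → V → Bool => (1 : ℝ)) = 1 := by
  have := Ex_prod (V := V) p (fun _ _ _ => 1)
  simpa using this

theorem Ex_const (p c : ℝ) : Ex p (fun _ : V → V → Bool => c) = c := by
  have := Ex_one (V := V) p
  unfold Ex at *
  simp only [mul_one] at this
  rw [← sum_mul, this, one_mul]

theorem Ex_mono {p : ℝ} (h0 : 0 ≤ p) (h1 : p ≤ 1) {F G : (V → V → Bool) → ℝ}
    (h : ∀ B, F B ≤ G B) : Ex p F ≤ Ex p G := by
  unfold Ex
  exact sum_le_sum fun B _ => mul_le_mul_of_nonneg_left (h B) (wt_nonneg h0 h1 B)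

theorem Ex_nonneg {p : ℝ} (h0 : 0 ≤ p) (h1 : p ≤ 1) {F : (V → V → Bool) → ℝ}
    (h : ∀ B, 0 ≤ F B) : 0 ≤ Ex p F := by
  have := Ex_mono h0 h1 (F := fun _ => 0) (G := F) h
  rwa [Ex_const] at this

theorem Ex_add (p : ℝ) (F G : (V → V → Bool) → ℝ) :
    Ex p (fun B => F B + G B) = Ex p F + Ex p G := by
  unfold Ex
  simp only [mul_add, sum_add_distrib]

theorem Ex_sub (p : ℝ) (F G : (V → V → Bool) → ℝ) :
    Ex p (fun B => F B - G B) = Ex p F - Ex p G := by
  unfold Ex
  simp only [mul_sub, sum_sub_distrib]

theorem Ex_mul (p c : ℝ) (F : (V → V → Bool) → ℝ) :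
    Ex p (fun B => c * F B) = c * Ex p F := by
  unfold Ex
  rw [mul_sum]
  exact sum_congr rfl fun B _ => by ring

theorem Ex_sum {ι : Type} (p : ℝ) (s : Finset ι) (F : ι → (V → V → Bool) → ℝ) :
    Ex p (fun B => ∑ i ∈ s, F i B) = ∑ i ∈ s, Ex p (F i) := by
  unfold Ex
  simp only [mul_sum]
  rw [sum_comm]

/-- take the entries in `T` from `B'`, the others from `B` -/
def mix (T : V → V → Bool) (B' B : V → V → Bool) : V → V → Bool :=
  fun i j => if T i j then B' i j else B i j

theorem mix_mix (T B' B : V → V → Bool) : mix T (mix T B' B) (mix T B B') = B' := by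
  funext i j
  unfold mix
  split_ifs <;> rfl

theorem wt_mix (p : ℝ) (T B' B : V → V → Bool) :
    wt p (mix T B' B) * wt p (mix T B B') = wt p B' * wt p B := by
  unfold wt mix
  rw [← prod_mul_distrib, ← prod_mul_distrib]
  refine prod_congr rfl fun i _ => ?_
  rw [← prod_mul_distrib, ← prod_mul_distrib]
  refine prod_congr rfl fun j _ => ?_
  by_cases h : T i j = true
  · simp only [h, if_true]
  · simp only [h]
    simp [mul_comm]

theorem Ex_mix (p : ℝ) (T : V → V → Bool) (F : (V → V → Bool) → ℝ) :
    Ex p F = Ex p (fun B' => Ex p (fun B => F (mix T B' B))) := by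
  let e : ((V → V → Bool) × (V → V → Bool)) ≃ ((V → V → Bool) × (V → V → Bool)) :=
    { toFun := fun x => (mix T x.1 x.2, mix T x.2 x.1)
      invFun := fun x => (mix T x.1 x.2, mix T x.2 x.1)
      left_inv := fun x => by simp only [mix_mix]
      right_inv := fun x => by simp only [mix_mix] }
  have h1 : Ex p F = ∑ x : (V → V → Bool) × (V → V → Bool), wt p x.1 * wt p x.2 * F x.1 := by
    rw [Fintype.sum_prod_type]
    have := Ex_one (V := V) p
    unfold Ex at *
    simp only [mul_one] at this
    refine sum_congr rfl fun B _ => ?_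
    dsimp only
    rw [← sum_mul, ← mul_sum, this, mul_one]
  rw [h1, ← e.sum_comp, Fintype.sum_prod_type]
  unfold Ex
  refine sum_congr rfl fun B' _ => ?_
  rw [mul_sum]
  refine sum_congr rfl fun B _ => ?_
  show wt p (mix T B' B) * wt p (mix T B B') * F (mix T B' B) = _
  rw [wt_mix]
  ring

theorem Ex_indep (p : ℝ) (T : V → V → Bool) (F G : (V → V → Bool) → ℝ)
    (hF : ∀ B' B, F (mix T B' B) = F B') (hG : ∀ B' B, G (mix T B' B) = G B) :
    Ex p (fun B => F B * G B) = Ex p F * Ex p G := by
  rw [Ex_mix p T]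
  simp only [hF, hG, Ex_mul]
  rw [mul_comm (Ex p F), ← Ex_mul]
  congr 1
  funext B
  ring

/-- all edges of `T` present -/
def Has (B : V → V → Bool) (T : Finset (V × V)) : Prop := ∀ e ∈ T, B e.1 e.2 = true

instance (B : V → V → Bool) (T : Finset (V × V)) : Decidable (Has B T) := by
  unfold Has
  infer_instance

theorem Ex_has (p : ℝ) (T : Finset (V × V)) :
    Ex p (fun B => if Has B T then (1 : ℝ) else 0) = p ^ T.card := by
  have h := Ex_prod (V := V) p (fun i j b => if (i, j) ∈ T then (if b then 1 else 0) else 1)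
  have h1 : ∀ B : V → V → Bool, (∏ i, ∏ j, if (i, j) ∈ T then (if B i j then (1 : ℝ) else 0) else 1)
      = if Has B T then (1 : ℝ) else 0 := by
    intro B
    split_ifs with hh
    · refine prod_eq_one fun i _ => prod_eq_one fun j _ => ?_
      split_ifs with h2 h3
      · rfl
      · exact absurd (hh _ h2) h3
      · rfl
    · unfold Has at hh
      push Not at hh
      obtain ⟨e, he, hb⟩ := hh
      refine prod_eq_zero (mem_univ e.1) (prod_eq_zero (mem_univ e.2) ?_)
      simp [he, hb]
  have h2 : ∀ i j : V, p * (if (i, j) ∈ T then (if True then (1:ℝ) else 0) else 1) +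
      (1 - p) * (if (i, j) ∈ T then (if false = true then (1:ℝ) else 0) else 1) =
      if (i, j) ∈ T then p else 1 := by
    intro i j
    by_cases he : (i, j) ∈ T <;> simp [he]
  simp only [h1] at h
  simp only [h2] at h
  rw [h, ← Fintype.prod_prod_type' (f := fun i j => if (i, j) ∈ T then p else 1)]
  simp only [Prod.mk.eta]
  rw [prod_ite_mem, univ_inter, prod_const]

theorem Ex_row (p x y : ℝ) (s : V) (T : Finset V) :
    Ex p (fun B => x ^ (T.filter fun j => B s j = true).card *
      y ^ (T.card - (T.filter fun j => B s j = true).card)) = (p * x + (1 - p) * y) ^ T.card := by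
  have h := Ex_prod (V := V) p (fun i j b => if i = s ∧ j ∈ T then (if b then x else y) else 1)
  have h1 : ∀ B : V → V → Bool, (∏ i, ∏ j, if i = s ∧ j ∈ T then (if B i j then x else y) else 1)
      = x ^ (T.filter fun j => B s j = true).card *
      y ^ (T.card - (T.filter fun j => B s j = true).card) := by
    intro B
    rw [prod_eq_single s]
    · simp only [true_and]
      rw [prod_ite_mem, univ_inter, prod_ite, prod_const, prod_const]
      congr 2
      have := Finset.card_filter_add_card_filter_not (s := T) (fun j => B s j = true)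
      omega
    · intro i _ hi
      simp [hi]
    · simp
  have h2 : ∀ i j : V, p * (if i = s ∧ j ∈ T then (if True then x else y) else 1) +
      (1 - p) * (if i = s ∧ j ∈ T then (if false = true then x else y) else 1) =
      if i = s ∧ j ∈ T then p * x + (1 - p) * y else 1 := by
    intro i j
    by_cases hj : i = s ∧ j ∈ T <;> simp [hj]
  simp only [h1] at h
  simp only [h2] at h
  rw [h, prod_eq_single s]
  · simp only [true_and]
    rw [prod_ite_mem, univ_inter, prod_const]
  · intro i _ hi
    simp [hi]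
  · simp

end Pool.Agent.Fa2423
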