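import Pool.Agent.P.MP_fa2423_pr.AeGen

set_option autoImplicit false
set_option linter.unusedSectionVars false

namespace Pool.Agent.Fa2423

open Finset Matrix

variable {V : Type} [Fintype V] [DecidableEq V]

/-- a pair of sets that could carry a localised almost null vector -/
def Loc (B : V → V → Bool) (V0 T Z : Finset V) : Prop :=
  (∀ j ∈ T \ Z, ∃ k ∈ T, B j k = true) ∧
    ∀ u ∈ V0 \ (T ∪ Z), ¬ ∃ j ∈ T \ Z, ∀ b ∈ T, B u b = decide (b = j)

/-- no such pair of moderate size -/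
def Gd (B : V → V → Bool) (V0 : Finset V) (g s0 m1 : ℕ) : Prop :=
  ¬ ∃ T Z : Finset V, (s0 ≤ T.card ∧ T.card ≤ m1 ∧ g * Z.card ≤ 2 * T.card) ∧ Loc B V0 T Z

theorem norm_sum_deg (B : V → V → Bool) (j : V) (A : Finset V) (w : V → ℂ) {x : ℝ} (hx : 0 ≤ x)
    {d : ℕ} (hd : od B j ≤ d) (h : ∀ i ∈ A, B j i = true → ‖w i‖ ≤ x) :
    ‖∑ i ∈ A, if B j i then w i else 0‖ ≤ d * x := by
  rw [← sum_filter]
  refine (norm_sum_le _ _).trans ((sum_le_card_nsmul _ _ x fun i hi =>
    h i (mem_filter.1 hi).1 (mem_filter.1 hi).2).trans ?_)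
  rw [nsmul_eq_mul]
  refine mul_le_mul_of_nonneg_right ?_ hx
  exact_mod_cast (card_le_card (filter_subset_filter _ (subset_univ A))).trans hd

theorem spr_of_good (B : V → V → Bool) (z : ℂ) (W V0 : Finset V) (hV0 : V0 ⊆ W)
    (g s0 m0 m1 D k0 : ℕ) (hG : Gd B V0 g s0 m1) (hg : 0 < g) (hD : g * D ≤ s0) (hs0 : 1 ≤ s0)
    (hm : m0 + V0ᶜ.card ≤ m1) (hk : (m1 : ℝ) < (1 + 1 / g) ^ k0) (ρ : ℝ) (ρ0 : 0 < ρ)
    (d : ℕ) (hd : ∀ j, od B j ≤ d) (ρ1 : ρ * (d + 1) < ‖z‖) (ρ2 : ρ * (d + 1 + ‖z‖) < 1)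
    (w : V → ℂ) (R : Finset V) (l : ℝ) (hl : 0 < l) (hR : R.card ≤ D)
    (hw : ∀ i ∈ W, i ∉ R → ‖(IW B z W *ᵥ w) i‖ ≤ l * ρ ^ (k0 + 1))
    (hs : s0 ≤ (W.filter fun j => l ≤ ‖w j‖).card) :
    m0 ≤ (V0.filter fun j => l * ρ ^ (k0 + 1) ≤ ‖w j‖).card := by
  by_contra hcon
  have n0 : (0 : ℝ) ≤ d := Nat.cast_nonneg _
  have z0 := norm_nonneg z
  have ρ3 : ρ ≤ 1 := by nlinarith
  have hmono : ∀ a b, a ≤ b → l * ρ ^ b ≤ l * ρ ^ a := fun a b h =>
    mul_le_mul_of_nonneg_left (pow_le_pow_of_le_one ρ0.le ρ3 h) hl.le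
  set T : ℕ → Finset V := fun k => W.filter fun j => l * ρ ^ k ≤ ‖w j‖ with hT
  have T1 : ∀ a b, a ≤ b → T a ⊆ T b := fun a b h j hj =>
    mem_filter.2 ⟨(mem_filter.1 hj).1, (hmono a b h).trans (mem_filter.1 hj).2⟩
  have T0 : s0 ≤ (T 0).card := by simpa [hT] using hs
  have T2 : (T (k0 + 1)).card ≤ m1 := by
    have : T (k0 + 1) ⊆ (V0.filter fun j => l * ρ ^ (k0 + 1) ≤ ‖w j‖) ∪ V0ᶜ := by
      intro j hj
      by_cases h : j ∈ V0
      · exact mem_union_left _ (mem_filter.2 ⟨h, (mem_filter.1 hj).2⟩)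
      · exact mem_union_right _ (mem_compl.2 h)
    have := (card_le_card this).trans (card_union_le _ _)
    omega
  obtain ⟨k, hk0, hk1⟩ : ∃ k < k0, g * (T (k + 1)).card ≤ (g + 1) * (T k).card := by
    by_contra h
    push Not at h
    have g0 : (0 : ℝ) < g := by exact_mod_cast hg
    have h1 : ∀ k ≤ k0, (1 + 1 / (g : ℝ)) ^ k ≤ (T k).card := by
      intro k
      induction k with
      | zero => intro _; rw [pow_zero]; exact_mod_cast hs0.trans T0
      | succ k ih =>
        intro hk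
        have h2 : ((g : ℝ) + 1) * (T k).card ≤ g * (T (k + 1)).card := by
          exact_mod_cast (h k (by omega)).le
        rw [pow_succ, (by field_simp : 1 + 1 / (g : ℝ) = (g + 1) / g), ← mul_div_assoc,
          div_le_iff₀ g0, (by field_simp : (g + 1) / (g : ℝ) = 1 + 1 / g)]
        nlinarith [ih (by omega)]
    have h3 : ((T k0).card : ℝ) ≤ m1 := by
      exact_mod_cast (card_le_card (T1 k0 (k0 + 1) (by omega))).trans T2
    linarith [h1 k0 le_rfl]
  have c1 := card_le_card (T1 k (k + 1) (by omega))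
  have c2 := card_le_card (T1 0 k (by omega))
  have c3 := card_le_card (T1 (k + 1) (k0 + 1) (by omega))
  have hout : ∀ i ∈ W, i ∉ T (k + 1) → ‖w i‖ ≤ l * ρ ^ (k + 1) := fun i hi hi' =>
    (not_le.1 fun h => hi' (mem_filter.2 ⟨hi, h⟩)).le
  have hin : ∀ j ∈ T (k + 1) \ (T (k + 1) \ T k ∪ R), j ∈ W ∧ j ∉ R ∧ l * ρ ^ k ≤ ‖w j‖ := by
    intro j hj
    simp only [mem_sdiff, mem_union, not_or, not_and, not_not] at hj
    exact ⟨(mem_filter.1 hj.1).1, hj.2.2, (mem_filter.1 (hj.2.1 hj.1)).2⟩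
  have p0 : 0 < l * ρ ^ k := by positivity
  have p1 : l * ρ ^ (k + 1) = ρ * (l * ρ ^ k) := by ring
  have p2 := hmono (k + 1) (k0 + 1) (by omega)
  refine hG ⟨T (k + 1), T (k + 1) \ T k ∪ R, ⟨by omega, by omega, ?_⟩, fun j hj => ?_, ?_⟩
  · have h1 := card_union_le (T (k + 1) \ T k) R
    rw [card_sdiff_of_subset (T1 k (k + 1) (by omega))] at h1
    have h2 := Nat.mul_le_mul_left g h1
    have h3 := Nat.mul_le_mul_left g hR
    rw [Nat.mul_add, Nat.mul_sub] at h2
    rw [Nat.add_mul] at hk1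
    omega
  · obtain ⟨j1, j2, j3⟩ := hin j hj
    by_contra h
    push Not at h
    have h1 := hw j j1 j2
    rw [IW_mulVec, if_pos j1] at h1
    have h2 := norm_sum_deg B j W w (x := l * ρ ^ (k + 1)) (by positivity) (hd j) fun i hi hb =>
      hout i hi fun hi' => h i hi' hb
    have h3 := norm_sub_norm_le (z * w j) (∑ i ∈ W, if B j i then w i else 0)
    rw [norm_sub_rev, norm_mul] at h3
    have h4 := mul_le_mul_of_nonneg_left j3 z0
    have h5 := mul_lt_mul_of_pos_right ρ1 p0
    rw [p1] at h2 p2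
    linarith
  · rintro u hu ⟨j, hj, h⟩
    obtain ⟨j1, j2, j3⟩ := hin j hj
    simp only [mem_sdiff, mem_union, not_or] at hu
    have h1 := hw u (hV0 hu.1) hu.2.2.2
    rw [IW_mulVec, if_pos (hV0 hu.1), ← add_sum_erase _ _ j1, h j (mem_sdiff.1 hj).1,
      if_pos (decide_eq_true rfl), add_sub_assoc] at h1
    have h2 := norm_sum_deg B u (W.erase j) w (x := l * ρ ^ (k + 1)) (by positivity) (hd u)
      fun i hi hb => hout i (mem_erase.1 hi).2 fun hi' => (mem_erase.1 hi).1
        (of_decide_eq_true ((h i hi').symm.trans hb))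
    have h3 := norm_sub_le (∑ i ∈ W.erase j, if B u i then w i else 0) (z * w u)
    have h4 := mul_le_mul_of_nonneg_left (hout u (hV0 hu.1) hu.2.1) z0
    have h5 := mul_lt_mul_of_pos_right ρ2 p0
    have h6 := norm_le_add_norm_add (w j) ((∑ i ∈ W.erase j, if B u i then w i else 0) - z * w u)
    rw [norm_mul] at h3
    rw [p1] at h2 p2 h4
    linarith

theorem ExP_pat (P : V → V → ℝ) (u : V) (T : Finset V) (σ : V → Bool) :
    ExP P (fun B => ind (∀ b ∈ T, B u b = σ b)) = ∏ b ∈ T, if σ b then P u b else 1 - P u b := by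
  have h := ExP_prod P (fun i j t => if i = u then (if j ∈ T then ind (t = σ j) else 1) else 1)
  have h1 : ∀ f : V → V → ℝ, (∏ i, ∏ j, if i = u then (if j ∈ T then f i j else 1) else 1) =
      ∏ j ∈ T, f u j := by
    intro f
    rw [prod_comm]
    simp only [prod_ite_eq', mem_univ, if_true, prod_ite_mem, univ_inter]
  have h2 : ∀ i j, P i j * (if i = u then (if j ∈ T then ind (true = σ j) else 1) else 1) +
      (1 - P i j) * (if i = u then (if j ∈ T then ind (false = σ j) else 1) else 1) =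
      if i = u then (if j ∈ T then (if σ j then P i j else 1 - P i j) else 1) else 1 := by
    intro i j
    cases σ j <;> simp only [ind_eq] <;> split_ifs <;> simp_all
  simp only [h2, h1] at h
  rw [← h]
  congr 1
  funext B
  by_cases hB : ∀ b ∈ T, B u b = σ b
  · rw [ind_pos hB, prod_eq_one fun b hb => ind_pos (hB b hb)]
  · rw [ind_neg hB]
    push Not at hB
    obtain ⟨b, hb, hb'⟩ := hB
    rw [prod_eq_zero hb (ind_neg hb')]

theorem loc_prob {p : ℝ} (h0 : 0 ≤ p) (h1 : p ≤ 1) (V0 T Z : Finset V) :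
    Ex p (fun B => ind (Loc B V0 T Z)) ≤ (T.card * p) ^ (T \ Z).card *
      (1 - (T \ Z).card * (p * (1 - p) ^ T.card)) ^ (V0 \ (T ∪ Z)).card := by
  have hd : Disjoint (T \ Z) (V0 \ (T ∪ Z)) := disjoint_left.2 fun a ha hb =>
    (mem_sdiff.1 hb).2 (mem_union_left _ (mem_sdiff.1 ha).1)
  have hA : ∀ i ∈ T \ Z, i ∈ T := fun i hi => (mem_sdiff.1 hi).1
  have hC : ∀ i ∈ V0 \ (T ∪ Z), i ∉ T := fun i hi h => (mem_sdiff.1 hi).2 (mem_union_left _ h)
  have h := peel' (P := fun _ _ : V => p) (fun _ _ => h0) (fun _ _ => h1)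
    (fun i a _ => decide (a = i)) (fun i B => if i ∈ T then ind (∃ k ∈ T, B i k = true) else
      ind (¬ ∃ j ∈ T \ Z, ∀ b ∈ T, B i b = decide (b = j)))
    (fun i => if i ∈ T then T.card * p else 1 - (T \ Z).card * (p * (1 - p) ^ T.card))
    (fun i B => by split_ifs <;> exact ind_nonneg _) (T \ Z ∪ V0 \ (T ∪ Z))
    (fun s _ t _ hst B' B => by simp only [mix, hst, decide_false, Bool.false_eq_true, if_false])
    (fun t _ B' B => by simp only [mix, decide_true, if_true]) fun i _ => by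
      split_ifs with hi
      · refine (ExP_mono (fun _ _ => h0) (fun _ _ => h1) (G := fun B => ∑ k ∈ T, ind (B i k = true))
          fun B => ind_le (sum_nonneg fun _ _ => ind_nonneg _) ?_).trans (le_of_eq ?_)
        · rintro ⟨k, hk, hk'⟩
          exact (ind_pos hk').ge.trans (single_le_sum (f := fun k => ind (B i k = true))
            (fun _ _ => ind_nonneg _) hk)
        · simp only [ExP_sum, ExP_edge, sum_const, nsmul_eq_mul]
      · refine (ExP_mono (fun _ _ => h0) (fun _ _ => h1)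
          (G := fun B => 1 - ∑ j ∈ T \ Z, ind (∀ b ∈ T, B i b = decide (b = j))) fun B => ?_).trans ?_
        · by_cases hB : ∃ j ∈ T \ Z, ∀ b ∈ T, B i b = decide (b = j)
          · rw [ind_neg (not_not.2 hB)]
            obtain ⟨j, hj, hj'⟩ := hB
            rw [sum_eq_single_of_mem j hj, ind_pos hj', sub_self]
            intro j' h2 h3
            refine ind_neg fun h4 => h3 ?_
            have h5 := hj' j' (hA _ h2)
            rw [h4 j' (hA _ h2), decide_eq_true rfl] at h5
            exact of_decide_eq_true h5.symm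
          · rw [ind_pos hB, sum_eq_zero fun j hj => ind_neg fun h => hB ⟨j, hj, h⟩, sub_zero]
        · rw [ExP_sub, ExP_const, ExP_sum, ← nsmul_eq_mul, ← sum_const]
          refine sub_le_sub_left (sum_le_sum fun j hj => ?_) _
          rw [ExP_pat, ← mul_prod_erase _ _ (hA j hj), if_pos (decide_eq_true rfl),
            prod_congr rfl fun b hb => if_neg (by simpa using (mem_erase.1 hb).1), prod_const]
          exact mul_le_mul_of_nonneg_left
            (pow_le_pow_of_le_one (by linarith) (by linarith) card_erase_le) h0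
  simp only [prod_union hd] at h
  rw [prod_congr rfl fun i hi => if_pos (hA i hi), prod_congr rfl fun i hi => if_neg (hC i hi),
    prod_const, prod_const] at h
  refine le_trans (Ex_mono h0 h1 fun B => ind_le (mul_nonneg ?_ ?_) fun hB => ?_) h
  · exact prod_nonneg fun i _ => by split_ifs <;> exact ind_nonneg _
  · exact prod_nonneg fun i _ => by split_ifs <;> exact ind_nonneg _
  · rw [prod_eq_one fun i hi => by rw [if_pos (hA i hi), ind_pos (hB.1 i hi)],
      prod_eq_one fun i hi => by rw [if_neg (hC i hi), ind_pos (hB.2 i hi)], one_mul]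

theorem sum_sets (x : ℝ) (hx : 0 ≤ x) :
    ∑ T : Finset V, x ^ T.card ≤ Real.exp (Fintype.card V * x) := by
  have h := Fintype.sum_pow_mul_eq_add_pow V x 1
  simp only [one_pow, mul_one] at h
  rw [h, Real.exp_nat_mul]
  exact pow_le_pow_left₀ (by positivity) (Real.add_one_le_exp x) _

theorem not_good (α κ c w : ℝ) (a0 : 0 < α) (n : ℕ) (hn : Fintype.card V = n) (V0 : Finset V)
    (g s0 m1 : ℕ) (hg : 2 ≤ g) (hs0 : 1 ≤ s0) (hm : (m1 : ℝ) ≤ κ * n) (hV : (V0ᶜ.card : ℝ) ≤ κ * n)
    (k1 : κ * α ≤ 1) (k2 : 3 * κ ≤ 1) (hαn : α ≤ n) (hw : (n : ℝ) + 1 ≤ Real.exp w)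
    (hw1 : -Real.log α ≤ w) (hw2 : α ≤ w) (c0 : 0 ≤ c)
    (h1 : 1 + Real.log α - α * (1 - κ * α) * (1 - 3 * κ) ≤ -(3 * c)) (h2 : 8 * w ≤ c * g)
    (h3 : 2 * w + 1 ≤ 2 * c * s0) :
    Ex (α / n) (fun B => ind (¬ Gd B V0 g s0 m1)) ≤ Real.exp (-w) := by
  have n0 : (0 : ℝ) < n := a0.trans_le hαn
  have p0 : 0 < α / n := by positivity
  have p1 : α / n ≤ 1 := (div_le_one n0).2 hαn
  have g0 : (2 : ℝ) ≤ g := by exact_mod_cast hg
  have hlog : Real.log n ≤ w := by
    rw [Real.log_le_iff_le_exp n0]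
    linarith
  have hlog0 : 0 ≤ Real.log n := Real.log_natCast_nonneg n
  have key : ∀ T Z : Finset V, Ex (α / n) (fun B => ind ((s0 ≤ T.card ∧ T.card ≤ m1 ∧
      g * Z.card ≤ 2 * T.card) ∧ Loc B V0 T Z)) ≤ ∑ s ∈ range (n + 1),
      Real.exp (-(2 * w) - s - 1) * (((s : ℝ) / n) ^ T.card * (1 / (n : ℝ)) ^ Z.card) := by
    intro T Z
    by_cases hc : s0 ≤ T.card ∧ T.card ≤ m1 ∧ g * Z.card ≤ 2 * T.card
    swap
    · simp only [hc, false_and, ind_neg not_false, Ex_const]
      positivity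
    simp only [hc, true_and]
    refine (loc_prob p0.le p1 V0 T Z).trans (le_trans ?_ (single_le_sum (f := fun s : ℕ =>
      Real.exp (-(2 * w) - s - 1) * (((s : ℝ) / n) ^ T.card * (1 / (n : ℝ)) ^ Z.card))
      (fun _ _ => by positivity) (mem_range.2 (Nat.lt_succ_of_le (hn ▸ card_le_univ T)))))
    have s1 : (s0 : ℝ) ≤ T.card := by exact_mod_cast hc.1
    have s2 : (T.card : ℝ) ≤ κ * n := le_trans (by exact_mod_cast hc.2.1) hm
    have s3 : (g : ℝ) * Z.card ≤ 2 * T.card := by exact_mod_cast hc.2.2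
    have s4 : (1 : ℝ) ≤ T.card := le_trans (by exact_mod_cast hs0) s1
    have s5 : (T.card : ℝ) ≤ (T \ Z).card + Z.card := by exact_mod_cast card_le_card_sdiff_add_card
    have s6 : ((T \ Z).card : ℝ) ≤ T.card := by exact_mod_cast card_le_card sdiff_subset
    have s7 : (n : ℝ) ≤ (V0 \ (T ∪ Z)).card + (T.card + Z.card) + V0ᶜ.card := by
      have e1 := card_add_card_compl V0
      have e2 := card_le_card_sdiff_add_card (s := V0) (t := T ∪ Z)
      have e3 := card_union_le T Z
      exact_mod_cast (by omega : n ≤ (V0 \ (T ∪ Z)).card + (T.card + Z.card) + V0ᶜ.card)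
    set s : ℝ := (T.card : ℝ) with hs
    set s' : ℝ := ((T \ Z).card : ℝ) with hs'
    set y : ℝ := (Z.card : ℝ) with hy
    have s'0 : 0 ≤ s' := Nat.cast_nonneg _
    have y0 : 0 ≤ y := Nat.cast_nonneg _
    have y1 : y ≤ s := by nlinarith
    have q1 : s * (α / n) ≤ κ * α := by
      rw [← mul_div_assoc, div_le_iff₀ n0]
      nlinarith
    have q2 : 1 - κ * α ≤ (1 - α / n) ^ T.card := by
      have := one_add_mul_le_pow (a := -(α / n)) (by linarith) T.card
      rw [← sub_eq_add_neg] at this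
      linarith
    have q3 : (1 - α / n) ^ T.card ≤ 1 := pow_le_one₀ (by linarith) (by linarith)
    have q4 : s' * (α / n * (1 - α / n) ^ T.card) ≤ 1 := by
      have := mul_le_mul s6 (mul_le_of_le_one_right p0.le q3) (by
        have : 0 ≤ 1 - α / n := by linarith
        positivity) (by linarith)
      linarith
    have q5 : α * (1 - κ * α) * (1 - 3 * κ) ≤
        (V0 \ (T ∪ Z)).card * (α / n * (1 - α / n) ^ T.card) := by
      have e1 : (1 - 3 * κ) * n ≤ (V0 \ (T ∪ Z)).card := by linarith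
      refine le_trans (le_of_eq ?_) (mul_le_mul e1 (mul_le_mul_of_nonneg_left q2 p0.le)
        (mul_nonneg p0.le (by linarith)) (Nat.cast_nonneg _))
      field_simp
    have q6 : (1 - s' * (α / n * (1 - α / n) ^ T.card)) ^ (V0 \ (T ∪ Z)).card ≤
        Real.exp (-(s' * (α * (1 - κ * α) * (1 - 3 * κ)))) := by
      refine (pow_le_pow_left₀ (by linarith) (Real.one_sub_le_exp_neg _) _).trans ?_
      rw [← Real.exp_nat_mul]
      have := mul_le_mul_of_nonneg_left q5 s'0
      exact Real.exp_le_exp.2 (by linarith)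
    refine (mul_le_mul_of_nonneg_left q6 (by positivity)).trans ?_
    have l1 : s * (α / n) = Real.exp (Real.log s + Real.log α - Real.log n) := by
      rw [Real.exp_sub, Real.exp_add, Real.exp_log a0, Real.exp_log n0, Real.exp_log (by linarith),
        mul_div_assoc]
    have l2 : s / n = Real.exp (Real.log s - Real.log n) := by
      rw [Real.exp_sub, Real.exp_log n0, Real.exp_log (by linarith)]
    have l3 : 1 / (n : ℝ) = Real.exp (-Real.log n) := by
      rw [Real.exp_neg, Real.exp_log n0, one_div]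
    have l4 : Real.log s + Real.log α - Real.log n ≤ 0 := by
      rw [← Real.exp_le_one_iff, ← l1]
      linarith
    have l5 : 0 ≤ Real.log s := Real.log_nonneg s4
    rw [l1, l2, l3, ← Real.exp_nat_mul, ← Real.exp_nat_mul, ← Real.exp_nat_mul, ← Real.exp_add,
      ← Real.exp_add, ← Real.exp_add, ← hs, ← hs', ← hy]
    refine Real.exp_le_exp.2 ?_
    set α' := α * (1 - κ * α) * (1 - 3 * κ) with hα'
    have b0 : 0 ≤ α' := mul_nonneg (mul_nonneg a0.le (by linarith)) (by linarith)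
    have κ0 : 0 ≤ κ := by
      by_contra h
      nlinarith
    have b1 : α' ≤ α := by
      rw [hα', mul_assoc]
      refine mul_le_of_le_one_right a0.le (mul_le_one₀ ?_ (by linarith) (by linarith))
      nlinarith
    have b2 := mul_le_mul_of_nonneg_right s5
      (by linarith : 0 ≤ α' - (Real.log s + Real.log α - Real.log n))
    have b3 := mul_le_mul_of_nonneg_left
      (by linarith : α' - (Real.log s + Real.log α - Real.log n) + Real.log n ≤ 4 * w) y0
    have b4 := mul_le_mul_of_nonneg_left h1 (by linarith : 0 ≤ s)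
    have b5 := mul_le_mul_of_nonneg_left h2 y0
    have b6 := mul_le_mul_of_nonneg_left s3 c0
    have b7 := mul_le_mul_of_nonneg_left s1 c0
    linarith
  refine (Ex_mono p0.le p1 (G := fun B => ∑ T : Finset V, ∑ Z : Finset V, ind ((s0 ≤ T.card ∧
    T.card ≤ m1 ∧ g * Z.card ≤ 2 * T.card) ∧ Loc B V0 T Z)) fun B => ind_le
      (sum_nonneg fun _ _ => sum_nonneg fun _ _ => ind_nonneg _) fun hB => ?_).trans ?_
  · obtain ⟨T, Z, h⟩ := not_not.1 hB
    refine le_trans ?_ (single_le_sum (f := fun T : Finset V => ∑ Z : Finset V, ind ((s0 ≤ T.card ∧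
      T.card ≤ m1 ∧ g * Z.card ≤ 2 * T.card) ∧ Loc B V0 T Z))
      (fun _ _ => sum_nonneg fun _ _ => ind_nonneg _) (mem_univ T))
    exact (ind_pos h).ge.trans (single_le_sum (f := fun Z : Finset V => ind ((s0 ≤ T.card ∧
      T.card ≤ m1 ∧ g * Z.card ≤ 2 * T.card) ∧ Loc B V0 T Z)) (fun _ _ => ind_nonneg _) (mem_univ Z))
  simp only [Ex_sum]
  refine (sum_le_sum fun T _ => sum_le_sum fun Z _ => key T Z).trans ?_
  simp only [sum_comm (s := (univ : Finset (Finset V))) (t := range (n + 1)), ← mul_sum, ← sum_mul]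
  have e1 : ∀ s ∈ range (n + 1), Real.exp (-(2 * w) - s - 1) *
      ((∑ T : Finset V, ((s : ℝ) / n) ^ T.card) * ∑ Z : Finset V, (1 / (n : ℝ)) ^ Z.card) ≤
      Real.exp (-(2 * w)) := by
    intro s _
    refine (mul_le_mul_of_nonneg_left (mul_le_mul (sum_sets _ (by positivity))
      (sum_sets _ (by positivity)) (by positivity) (by positivity)) (by positivity)).trans
      (le_of_eq ?_)
    rw [← Real.exp_add, ← Real.exp_add, hn]
    congr 1
    field_simp
    ring
  refine (sum_le_sum e1).trans ?_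
  rw [sum_const, card_range, nsmul_eq_mul]
  push_cast
  refine (mul_le_mul_of_nonneg_right hw (Real.exp_pos _).le).trans (le_of_eq ?_)
  rw [← Real.exp_add]
  congr 1
  ring

theorem big_deg {p : ℝ} (h0 : 0 ≤ p) (h1 : p ≤ 1) (d : ℕ) :
    Ex p (fun B : V → V → Bool => ind (¬ ∀ j, od B j ≤ d)) ≤
      Fintype.card V * Real.exp (8 * (Fintype.card V * p) - 2 * d) := by
  refine (Ex_mono h0 h1 (G := fun B => ∑ j, Real.exp (-(2 * d)) * (9 ^ od B j *
    1 ^ ((univ : Finset V).card - od B j))) fun B => ind_le (by positivity) fun h => ?_).trans ?_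
  · push Not at h
    obtain ⟨j, hj⟩ := h
    refine le_trans ?_ (single_le_sum (f := fun j => Real.exp (-(2 * d)) * (9 ^ od B j *
      1 ^ ((univ : Finset V).card - od B j))) (fun _ _ => by positivity) (mem_univ j))
    have e1 : Real.exp 2 ≤ 9 := by
      have := Real.exp_one_lt_three
      rw [← one_add_one_eq_two, Real.exp_add]
      nlinarith [Real.exp_pos 1]
    rw [one_pow, mul_one, Real.exp_neg, ← div_eq_inv_mul, le_div_iff₀ (Real.exp_pos _), one_mul,
      mul_comm, Real.exp_nat_mul]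
    exact (pow_le_pow_left₀ (by positivity) e1 _).trans (pow_le_pow_right₀ (by norm_num) hj.le)
  · simp only [Ex_sum, Ex_mul, od, Ex_row]
    rw [sum_const, card_univ, nsmul_eq_mul]
    refine mul_le_mul_of_nonneg_left ?_ (by positivity)
    rw [sub_eq_neg_add (8 * _), Real.exp_add, mul_left_comm, Real.exp_nat_mul]
    exact mul_le_mul_of_nonneg_left (pow_le_pow_left₀ (by linarith)
      (by linarith [Real.add_one_le_exp (8 * p)]) _) (by positivity)

theorem not_sparse {p : ℝ} (h0 : 0 ≤ p) (h1 : p ≤ 1) (s : ℕ) (x : ℝ) (hx : 1 ≤ x)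
    (hs : (s : ℝ) ^ 2 * (p * x) ≤ 1) (hn : Fintype.card V * (1 / x ^ 2) ≤ 1) :
    Ex p (fun B : V → V → Bool => ind (¬ ∀ T : Finset V, T.card ≤ s →
      (∑ i ∈ T, ∑ j ∈ T, if B i j then 1 else 0) ≤ 2 * T.card)) ≤
      6 * (Fintype.card V * (1 / x ^ 2)) := by
  have key : ∀ T : Finset V, Ex p (fun B : V → V → Bool => ind (T.card ≤ s ∧
      2 * T.card < ∑ i ∈ T, ∑ j ∈ T, if B i j then 1 else 0)) ≤
      3 * ((1 / x ^ 2) ^ T.card - if T = ∅ then 1 else 0) := by
    intro T
    split_ifs with hT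
    · simp [hT, ind_neg, Ex_const]
    by_cases hc : T.card ≤ s
    swap
    · simp only [hc, false_and, ind_neg not_false, Ex_const, sub_zero]
      positivity
    have e : ∀ f : V → V → ℝ, (∏ i, ∏ j, if i ∈ T then (if j ∈ T then f i j else 1) else 1) =
        ∏ i ∈ T, ∏ j ∈ T, f i j := by
      intro f
      simp only [prod_ite_irrel, prod_const_one, prod_ite_mem, univ_inter]
    have h := Ex_prod p fun i j t => if i ∈ T then (if j ∈ T then (if t then x else 1) else 1) else 1
    have h2 : ∀ i j, p * (if i ∈ T then (if j ∈ T then x else 1) else 1) +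
        (1 - p) * (if i ∈ T then (if j ∈ T then 1 else 1) else 1) =
        if i ∈ T then (if j ∈ T then p * x + (1 - p) else 1) else 1 := by
      intro i j
      split_ifs <;> ring
    simp only [if_true, Bool.false_eq_true, if_false, h2, e, prod_const] at h
    refine (Ex_mono h0 h1 (G := fun B => (1 / x ^ 2) ^ T.card *
      ∏ i ∈ T, ∏ j ∈ T, if B i j then x else 1) fun B => ind_le (mul_nonneg (by positivity)
        (prod_nonneg fun _ _ => prod_nonneg fun _ _ => by split_ifs <;> linarith)) fun hB => ?_).trans ?_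
    · have h3 : (∏ i ∈ T, ∏ j ∈ T, if B i j then x else 1) =
          x ^ (∑ i ∈ T, ∑ j ∈ T, if B i j then 1 else 0) := by
        simp only [← prod_pow_eq_pow_sum, pow_ite, pow_one, pow_zero]
      rw [h3, one_div, inv_pow, ← div_eq_inv_mul, le_div_iff₀ (by positivity), one_mul, ← pow_mul]
      exact pow_le_pow_right₀ hx hB.2.le
    · rw [Ex_mul, h, sub_zero, mul_comm 3, ← pow_mul]
      refine mul_le_mul_of_nonneg_left ((pow_le_pow_left₀ (by nlinarith)
        (by linarith [Real.add_one_le_exp (p * x)] : _ ≤ Real.exp (p * x)) _).trans ?_) (by positivity)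
      rw [← Real.exp_nat_mul]
      refine le_trans (Real.exp_le_exp.2 (le_trans ?_ hs)) Real.exp_one_lt_three.le
      have h3 : (T.card : ℝ) ≤ s := by exact_mod_cast hc
      push_cast
      rw [← sq]
      gcongr
  refine (Ex_mono h0 h1 (G := fun B => ∑ T : Finset V, ind (T.card ≤ s ∧
    2 * T.card < ∑ i ∈ T, ∑ j ∈ T, if B i j then 1 else 0)) fun B =>
    ind_le (sum_nonneg fun _ _ => ind_nonneg _) fun h => ?_).trans ?_
  · push Not at h
    obtain ⟨T, hT⟩ := h
    exact (ind_pos hT).ge.trans (single_le_sum (f := fun T : Finset V => ind (T.card ≤ s ∧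
      2 * T.card < ∑ i ∈ T, ∑ j ∈ T, if B i j then 1 else 0)) (fun _ _ => ind_nonneg _) (mem_univ T))
  rw [Ex_sum]
  refine (sum_le_sum fun T _ => key T).trans ?_
  rw [← mul_sum, sum_sub_distrib, sum_ite_eq', if_pos (mem_univ _)]
  have h2 := sum_sets (V := V) (1 / x ^ 2) (by positivity)
  have h3 := (abs_le.1 (Real.abs_exp_sub_one_le (x := Fintype.card V * (1 / x ^ 2))
    (by rwa [abs_of_nonneg (by positivity)]))).2
  rw [abs_of_nonneg (by positivity)] at h3
  linarith

end Pool.Agent.Fa2423
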