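import Pool.Agent.P.MP_fa2423_pr.LinA

set_option autoImplicit false
set_option linter.unusedSectionVars false

namespace Pool.Agent.Fa2423

open Finset Matrix

variable {V : Type} [Fintype V] [DecidableEq V]

theorem n2_single (v : V) : n2 (Pi.single v (1 : ℂ)) = 1 := by
  unfold n2
  rw [sum_eq_single v] <;> simp +contextual

theorem n2_mono {a b : V → ℂ} (h : ∀ i, ‖a i‖ ≤ ‖b i‖) : n2 a ≤ n2 b :=
  sum_le_sum fun i _ => pow_le_pow_left₀ (norm_nonneg _) (h i) 2

theorem n2_zero : n2 (0 : V → ℂ) = 0 := by simp [n2]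

theorem upd_mulVec (X : Matrix V V ℂ) (v : V) (ρ y : V → ℂ) (i : V) :
    (X.updateRow v ρ *ᵥ y) i = if i = v then ρ ⬝ᵥ y else (X *ᵥ y) i := by
  split_ifs with h
  · subst h
    simp [mulVec]
  · simp [mulVec, updateRow_ne h]

theorem zero_row (X : Matrix V V ℂ) (v : V) (hX : ∀ j, X v j = 0) (y : V → ℂ) :
    (X *ᵥ y) v = 0 := by
  simp [mulVec, dotProduct, hX]

theorem n2_upd (X : Matrix V V ℂ) (v : V) (hX : ∀ j, X v j = 0) (ρ y : V → ℂ) :
    n2 (X *ᵥ y) ≤ n2 (X.updateRow v ρ *ᵥ y) := by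
  refine n2_mono fun i => ?_
  rw [upd_mulVec]
  split_ifs with h
  · rw [h, zero_row X v hX]
    simp
  · exact le_rfl

theorem zero_col (X : Matrix V V ℂ) (v : V) (hc : ∀ i, X i v = 0) (y : V → ℂ) :
    X *ᵥ Function.update y v 0 = X *ᵥ y := by
  funext i
  simp only [mulVec, dotProduct]
  refine sum_congr rfl fun j _ => ?_
  by_cases h : j = v
  · rw [h, hc, zero_mul, zero_mul]
  · rw [Function.update_of_ne h]

theorem dot_upd (c : V → ℂ) (v : V) (hc : c v = 0) (y : V → ℂ) :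
    c ⬝ᵥ Function.update y v 0 = c ⬝ᵥ y := by
  refine sum_congr rfl fun j _ => ?_
  by_cases h : j = v
  · rw [h, hc, zero_mul, zero_mul]
  · rw [Function.update_of_ne h]

theorem n2_update (y : V → ℂ) (v : V) : n2 (Function.update y v 0) ≤ n2 y := by
  refine n2_mono fun j => ?_
  by_cases h : j = v
  · rw [h, Function.update_self]
    simp
  · rw [Function.update_of_ne h]

theorem upd_one (X : Matrix V V ℂ) (v : V) (hr : ∀ j, X v j = 0) (hc : ∀ i, X i v = 0)
    (y : V → ℂ) : X.updateRow v (Pi.single v 1) *ᵥ Function.update y v 0 = X *ᵥ y := by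
  funext i
  rw [upd_mulVec, zero_col X v hc]
  split_ifs with h
  · rw [h, zero_row X v hr]
    simp
  · rfl

theorem col_mulVec (X : Matrix V V ℂ) (v : V) (hc : ∀ i, X i v = 0) (c y : V → ℂ) :
    (Xᵀ.updateRow v c)ᵀ *ᵥ y = X *ᵥ y + y v • c := by
  funext i
  simp only [mulVec, dotProduct, transpose_apply, Pi.add_apply, Pi.smul_apply, smul_eq_mul]
  rw [← add_sum_erase _ _ (mem_univ v), ← add_sum_erase _ (fun j => X i j * y j) (mem_univ v),
    updateRow_self, hc, zero_mul, zero_add, add_comm, mul_comm]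
  congr 1
  refine sum_congr rfl fun j hj => ?_
  rw [updateRow_ne (mem_erase.1 hj).1, transpose_apply]

theorem upd_transpose (X : Matrix V V ℂ) (v : V) (hr : ∀ j, X v j = 0) (hc : ∀ i, X i v = 0) :
    (X.updateRow v (Pi.single v 1))ᵀ = Xᵀ.updateRow v (Pi.single v 1) := by
  ext i j
  simp only [transpose_apply, updateRow_apply, Pi.single_apply]
  by_cases h1 : i = v <;> by_cases h2 : j = v <;> simp [h1, h2, hr, hc]

/-- a good step: the new column `c`, row `r` and diagonal entry `d` see the small directions -/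
def GS (I : Matrix V V ℂ) (c r : V → ℂ) (d : ℂ) (τ : ℝ) : Prop :=
  (sv I ≤ τ ^ 4 → ∃ u y, n2 u = 1 ∧ n2 (Iᵀ *ᵥ u) = sv I ∧ n2 y = 1 ∧ n2 (I *ᵥ y) = sv I ∧
    τ ≤ ‖c ⬝ᵥ u‖ ∧ τ ≤ ‖r ⬝ᵥ y‖) ∧
  (0 < sv I → ∃ w, I *ᵥ w = c ∧ τ ^ 2 * (1 + n2 w) ≤ ‖d - r ⬝ᵥ w‖ ^ 2)

theorem step_fac (X : Matrix V V ℂ) (v : V) (hr : ∀ j, X v j = 0) (hc : ∀ i, X i v = 0)
    (c ρ : V → ℂ) (hcv : c v = 0) {e : ℝ} (he : 0 < e) :
    ∃ q1 q2 : ℝ, 0 ≤ q1 ∧ 0 ≤ q2 ∧
      Dl ((Xᵀ.updateRow v c)ᵀ.updateRow v ρ) e * (1 + e) =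
        Dl (X.updateRow v (Pi.single v 1)) e * (e * (1 + q1) * (1 + q2)) ∧
      (∀ y, ‖c ⬝ᵥ y‖ ^ 2 ≤ q1 * (n2 (Xᵀ *ᵥ y) + e * n2 y)) ∧
      (∀ Q, 0 ≤ Q → (∀ y, ‖c ⬝ᵥ y‖ ^ 2 ≤ Q * (n2 (Xᵀ *ᵥ y) + e * n2 y)) → q1 ≤ Q) ∧
      (∀ y, ‖ρ ⬝ᵥ y‖ ^ 2 ≤ q2 * (n2 (X *ᵥ y + y v • c) + e * n2 y)) ∧
      (∀ Q, 0 ≤ Q → (∀ y, ‖ρ ⬝ᵥ y‖ ^ 2 ≤ Q * (n2 (X *ᵥ y + y v • c) + e * n2 y)) → q2 ≤ Q) := by
  obtain ⟨q0, -, a1, a2, a3⟩ := rk1 X v hr (Pi.single v 1) he
  obtain ⟨q1, b0, b1, b2, b3⟩ := rk1 Xᵀ v hc c he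
  obtain ⟨q2, c0, c1, c2, c3⟩ := rk1 (Xᵀ.updateRow v c)ᵀ v (fun j => by
    rw [transpose_apply, updateRow_apply]
    split_ifs with h
    · exact hcv
    · exact hr j) ρ he
  simp only [col_mulVec X v hc] at c2 c3
  refine ⟨q1, q2, b0, c0, ?_, b2, b3, c2, c3⟩
  have h0 : q0 * e = 1 := by
    apply le_antisymm
    · rw [← le_div_iff₀ he]
      refine a3 _ (by positivity) fun y => ?_
      have h1 := le_n2 y v
      have h2 := n2_nonneg (X *ᵥ y)
      rw [single_dotProduct, one_mul, one_div, ← div_eq_inv_mul, le_div_iff₀ he]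
      nlinarith
    · have h1 := a2 (Pi.single v 1)
      have h2 : X *ᵥ Pi.single v 1 = 0 := by
        funext i
        simp [hc]
      rw [h2, n2_zero, n2_single] at h1
      simpa using h1
  rw [c1, Dl_transpose, b1, Dl_transpose, a1]
  linear_combination (-(Dl X e * (1 + q1) * (1 + q2))) * h0

section
variable [Nonempty V] (X : Matrix V V ℂ) (v : V) (hr : ∀ j, X v j = 0) (hc : ∀ i, X i v = 0)
  (c : V → ℂ) (hcv : c v = 0)
include hr hc hcv

theorem step_up (ρ : V → ℂ) {e b : ℝ} (he : 0 < e) (he1 : e ≤ 1) (hb : 1 ≤ b) (hb1 : n2 c ≤ b)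
    (hb2 : n2 ρ ≤ b) :
    Dl ((Xᵀ.updateRow v c)ᵀ.updateRow v ρ) e * max (sv (X.updateRow v (Pi.single v 1))) e ≤
      4 * b ^ 2 * Dl (X.updateRow v (Pi.single v 1)) e := by
  obtain ⟨q1, q2, a1, a2, a3, -, a4, -, a5⟩ := step_fac X v hr hc c ρ hcv he
  set I := X.updateRow v (Pi.single v 1) with hI
  set m := max (sv I) e with hm
  have hm0 : 0 < m := lt_max_of_lt_right he
  have hm1 : m ≤ 1 := by
    refine max_le ?_ he1
    have h1 := sv_le I (Pi.single v 1)
    have h2 : I *ᵥ Pi.single v 1 = Pi.single v 1 := by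
      funext i
      rw [hI, upd_mulVec]
      split_ifs with h <;> simp [h, hc]
    rwa [h2, n2_single, mul_one] at h1
  have b1 : q1 ≤ b / m := by
    refine a4 _ (by positivity) fun y => ?_
    have h1 := cs c (Function.update y v 0)
    have h2 := sv_le Iᵀ (Function.update y v 0)
    rw [sv_transpose, hI, upd_transpose X v hr hc, upd_one Xᵀ v hc hr, ← hI] at h2
    rw [dot_upd c v hcv] at h1
    have h3 := n2_update y v
    have h4 := n2_nonneg (Function.update y v 0)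
    have h5 := n2_nonneg (Xᵀ *ᵥ y)
    have h6 : m * n2 (Function.update y v 0) ≤ n2 (Xᵀ *ᵥ y) + e * n2 y := by
      rcases max_choice (sv I) e with h | h <;> rw [hm, h] <;> nlinarith
    rw [div_mul_eq_mul_div, le_div_iff₀ hm0]
    have h7 := mul_le_mul_of_nonneg_right hb1 h4
    nlinarith
  have b2 : q2 ≤ b / e := by
    refine a5 _ (by positivity) fun y => ?_
    have h1 := cs ρ y
    have h4 := n2_nonneg y
    have h5 := n2_nonneg (X *ᵥ y + y v • c)
    rw [div_mul_eq_mul_div, le_div_iff₀ he]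
    have h7 := mul_le_mul_of_nonneg_right hb2 h4
    nlinarith
  rw [le_div_iff₀ hm0] at b1
  rw [le_div_iff₀ he] at b2
  have d1 := Dl_pos I he
  have d2 := Dl_pos ((Xᵀ.updateRow v c)ᵀ.updateRow v ρ) he
  have b3 : (1 + q1) * m * ((1 + q2) * e) ≤ 2 * b * (2 * b) :=
    mul_le_mul (by nlinarith) (by nlinarith) (by positivity) (by positivity)
  have b4 := mul_le_mul_of_nonneg_left b3 d1.le
  have b5 : Dl ((Xᵀ.updateRow v c)ᵀ.updateRow v ρ) e * (1 + e) * m =
      Dl I e * ((1 + q1) * m * ((1 + q2) * e)) := by rw [a3]; ring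
  nlinarith [mul_pos (mul_pos d2 he) hm0]

theorem step_all (ρ : V → ℂ) {e f : ℝ} (he : 0 < e) (hf : e ≤ f) :
    Dl ((Xᵀ.updateRow v c)ᵀ.updateRow v ρ) f * Dl (X.updateRow v (Pi.single v 1)) e * e ≤
      f * (Dl (X.updateRow v (Pi.single v 1)) f * Dl ((Xᵀ.updateRow v c)ᵀ.updateRow v ρ) e) := by
  have hf0 := he.trans_le hf
  obtain ⟨q1, q2, a1, a2, a3, a4, -, a5, -⟩ := step_fac X v hr hc c ρ hcv he
  obtain ⟨r1, r2, b1, b2, b3, -, b4, -, b5⟩ := step_fac X v hr hc c ρ hcv hf0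
  have c1 := b4 q1 a1 fun y => (a4 y).trans (mul_le_mul_of_nonneg_left (add_le_add le_rfl
    (mul_le_mul_of_nonneg_right hf (n2_nonneg y))) a1)
  have c2 := b5 q2 a2 fun y => (a5 y).trans (mul_le_mul_of_nonneg_left (add_le_add le_rfl
    (mul_le_mul_of_nonneg_right hf (n2_nonneg y))) a2)
  have d1 := Dl_pos (X.updateRow v (Pi.single v 1)) he
  have d2 := Dl_pos (X.updateRow v (Pi.single v 1)) hf0
  have d3 := Dl_pos ((Xᵀ.updateRow v c)ᵀ.updateRow v ρ) he
  have c3 : (1 + r1) * (1 + r2) ≤ (1 + q1) * (1 + q2) :=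
    mul_le_mul (by linarith) (by linarith) (by positivity) (by positivity)
  have c4 := mul_le_mul_of_nonneg_left c3 (mul_pos (mul_pos d1 d2) (mul_pos he hf0)).le
  have c5 := mul_le_mul_of_nonneg_left hf (mul_pos (mul_pos d2 d3) hf0).le
  refine le_of_mul_le_mul_right ?_ (by linarith : 0 < 1 + f)
  have c6 := congrArg (· * (Dl (X.updateRow v (Pi.single v 1)) e * e)) b3
  have c7 := congrArg (· * (Dl (X.updateRow v (Pi.single v 1)) f * f)) a3
  linarith

theorem step_good (r : V → ℂ) (hrv : r v = 0) (d : ℂ) {e τ : ℝ} (he : 0 < e) (hτ : 0 < τ)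
    (hτ1 : τ ≤ 1) (he1 : e ≤ τ ^ 4) (h : GS (X.updateRow v (Pi.single v 1)) c r d τ) :
    τ ^ 6 * Dl (X.updateRow v (Pi.single v 1)) e ≤ 8 * max (sv (X.updateRow v (Pi.single v 1))) e *
      Dl ((Xᵀ.updateRow v c)ᵀ.updateRow v (r + Pi.single v d)) e := by
  obtain ⟨q1, q2, a1, a2, a3, a4, -, a5, -⟩ := step_fac X v hr hc c (r + Pi.single v d) hcv he
  set I := X.updateRow v (Pi.single v 1) with hI
  have hIT : Iᵀ = Xᵀ.updateRow v (Pi.single v 1) := upd_transpose X v hr hc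
  have d1 := Dl_pos I he
  have d2 := Dl_pos ((Xᵀ.updateRow v c)ᵀ.updateRow v (r + Pi.single v d)) he
  have t2 : τ ^ 2 ≤ 1 := pow_le_one₀ hτ.le hτ1
  have t4 : τ ^ 4 ≤ 1 := pow_le_one₀ hτ.le hτ1
  have key : τ ^ 6 ≤ 4 * max (sv I) e * (e * (1 + q1) * (1 + q2)) := by
    rcases le_or_gt (sv I) e with hS | hS
    · obtain ⟨u, y, u1, u2, y1, y2, u3, y3⟩ := h.1 (hS.trans he1)
      have b1 := a4 u
      have b2 := n2_upd Xᵀ v hc (Pi.single v 1) u
      rw [← hIT, u2] at b2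
      have b3 := a5 (Function.update y v 0)
      have b4 := n2_upd X v hr (Pi.single v 1) y
      rw [← hI, y2] at b4
      rw [Function.update_self, zero_smul, add_zero, zero_col X v hc, add_dotProduct,
        dot_upd r v hrv, single_dotProduct, Function.update_self, mul_zero, add_zero] at b3
      have b5 := n2_update y v
      have b6 : τ ^ 2 ≤ q1 * (2 * e) := by
        refine (pow_le_pow_left₀ hτ.le u3 2).trans (b1.trans ?_)
        exact mul_le_mul_of_nonneg_left (by nlinarith) a1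
      have b7 : τ ^ 2 ≤ q2 * (2 * e) := by
        refine (pow_le_pow_left₀ hτ.le y3 2).trans (b3.trans ?_)
        exact mul_le_mul_of_nonneg_left (by nlinarith) a2
      have b8 := mul_le_mul b6 b7 (by positivity) (by positivity)
      rw [max_eq_right hS]
      have b9 : τ ^ 6 ≤ τ ^ 2 * τ ^ 2 := by nlinarith [pow_pos hτ 4]
      nlinarith [mul_nonneg (sq_nonneg e) a1, mul_nonneg (sq_nonneg e) a2, sq_nonneg e]
    · have hS0 : 0 < sv I := he.trans hS
      obtain ⟨w, w1, w2⟩ := h.2 hS0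
      have wv : w v = 0 := by
        have := congrFun w1 v
        rwa [hI, upd_mulVec, if_pos rfl, single_dotProduct, one_mul, hcv] at this
      have w3 : X *ᵥ w = c := by
        rw [← upd_one X v hr hc w, ← wv, Function.update_eq_self, ← hI, w1]
      have w0 := n2_nonneg w
      have b1 := a5 (Pi.single v 1 - w)
      have e1 : X *ᵥ (Pi.single v 1 - w) + (Pi.single v 1 - w : V → ℂ) v • c = 0 := by
        rw [mulVec_sub, w3]
        funext i
        simp [hc, wv]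
      have e2 : (r + Pi.single v d) ⬝ᵥ (Pi.single v 1 - w) = d - r ⬝ᵥ w := by
        rw [add_dotProduct, dotProduct_sub, single_dotProduct, dotProduct_single]
        simp [hrv, wv, sub_eq_neg_add]
      have e3 : n2 (Pi.single v 1 - w) = 1 + n2 w := by
        rw [← n2_single v]
        unfold n2
        rw [← sum_add_distrib]
        refine sum_congr rfl fun j _ => ?_
        by_cases hj : j = v <;> simp [hj, wv]
      rw [e1, e2, e3, n2_zero, zero_add] at b1
      have b2 : τ ^ 2 ≤ q2 * e := by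
        have := w2.trans b1
        rw [← mul_assoc] at this
        exact le_of_mul_le_mul_right this (by linarith)
      obtain ⟨u', hu'⟩ := solve Iᵀ (by rw [sv_transpose]; exact hS0) (star w)
      have b3 : n2 w ≤ 2 * q1 := by
        have h1 := a4 u'
        have h2 : c ⬝ᵥ u' = n2 w := by
          rw [← w1, dotProduct_comm, dotProduct_mulVec, ← mulVec_transpose, hu', n2_eq]
        have h3 := n2_upd Xᵀ v hc (Pi.single v 1) u'
        rw [← hIT, hu', n2_star] at h3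
        have h4 := sv_le Iᵀ u'
        rw [sv_transpose, hu', n2_star] at h4
        have h5 := mul_le_mul_of_nonneg_right hS.le (n2_nonneg u')
        rw [h2, Complex.norm_real, Real.norm_eq_abs, sq_abs] at h1
        have h6 : n2 w ^ 2 ≤ q1 * (2 * n2 w) :=
          h1.trans (mul_le_mul_of_nonneg_left (by linarith) a1)
        by_contra h7
        push Not at h7
        nlinarith
      have b4 : τ ^ 4 ≤ sv I * (1 + n2 w) + sv I * (1 + n2 w) := by
        rcases le_or_gt (sv I) (τ ^ 4) with h1 | h1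
        · obtain ⟨u, y, u1, u2, -, -, u3, -⟩ := h.1 h1
          have h2 : c ⬝ᵥ u = (Iᵀ *ᵥ u) ⬝ᵥ w := by
            rw [← w1, dotProduct_comm, dotProduct_mulVec, ← mulVec_transpose]
          have h3 := cs (Iᵀ *ᵥ u) w
          rw [← h2, u2] at h3
          have h4 := pow_le_pow_left₀ hτ.le u3 2
          nlinarith [pow_pos hτ 2]
        · nlinarith
      rw [max_eq_left hS.le]
      have b5 : τ ^ 4 ≤ 4 * sv I * (1 + q1) := by nlinarith
      have b6 : τ ^ 2 ≤ e * (1 + q2) := by nlinarith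
      have b7 := mul_le_mul b5 b6 (by positivity) (by positivity)
      nlinarith
  have hm : 0 < max (sv I) e := lt_max_of_lt_right he
  have b1 := mul_le_mul_of_nonneg_left key d1.le
  have b2 : Dl ((Xᵀ.updateRow v c)ᵀ.updateRow v (r + Pi.single v d)) e * (1 + e) ≤
      Dl ((Xᵀ.updateRow v c)ᵀ.updateRow v (r + Pi.single v d)) e * 2 :=
    mul_le_mul_of_nonneg_left (by linarith) d2.le
  rw [a3] at b2
  have b3 := mul_le_mul_of_nonneg_left b2 hm.le
  nlinarith

end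

end Pool.Agent.Fa2423
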