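import Pool.Agent.P.MP_fa2423_pr.Chain
import Pool.Agent.P.MP_fa2423_pr.ExP

set_option autoImplicit false
set_option linter.unusedSectionVars false

namespace Pool.Agent.Fa2423

open Finset Matrix

variable {V : Type} [Fintype V] [DecidableEq V]

/-- almost null vectors of `I` are spread -/
def Spr (I : Matrix V V ℂ) (W V0 : Finset V) (D s0 m0 : ℕ) (t K : ℝ) : Prop :=
  (∀ (w : V → ℂ) (R : Finset V) (l : ℝ), 0 < l → R.card ≤ D →
    (∀ i ∈ W, i ∉ R → ‖(I *ᵥ w) i‖ ≤ l * t) → s0 ≤ (W.filter fun j => l ≤ ‖w j‖).card →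
    m0 ≤ (V0.filter fun j => l * t ≤ ‖w j‖).card) ∧
  ∀ (w : V → ℂ) (ξ : ℝ), (∀ i, ‖(I *ᵥ w) i‖ ≤ ξ) → ‖w‖ ≤ 2 * K * ξ ∨
    s0 ≤ (W.filter fun j => ‖w‖ / (2 * Fintype.card V * K) ≤ ‖w j‖).card

theorem rowv_dot (B : V → V → Bool) (W : Finset V) (v : V) (y : V → ℂ) :
    rowv B W v ⬝ᵥ y = ∑ j, if B v j then (if j ∈ W then y j else 0) else 0 := by
  refine sum_congr rfl fun j _ => ?_
  by_cases h1 : j ∈ W <;> by_cases h2 : B v j = true <;> simp [rowv, h1, h2]

theorem ExP_edge (Q : V → V → ℝ) (a b : V) : ExP Q (fun B => ind (B a b = true)) = Q a b := by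
  rw [ExP_entry Q a b fun t => ind (t = true), ind_pos rfl, ind_neg Bool.false_ne_true]
  ring

section
variable [Nonempty V] {Q : V → V → ℝ} (h0 : ∀ i j, 0 ≤ Q i j) {q : ℝ} (hq : ∀ i j, Q i j ≤ q)
  (q1 : q ≤ 1) {W V0 : Finset V} (hV0 : V0 ⊆ W) {D s0 m0 : ℕ} {t K τ ε : ℝ} (hK : 1 ≤ K)
  (ht : t ≤ 1) (hτ : 0 < τ) (c1 : 24 * (Fintype.card V : ℝ) ^ 2 * K * τ ≤ t) (hε : 0 < ε)
  (hm : 4 ≤ ε ^ 2 * (m0 * (q * (1 - q))))
include h0 hq q1 hV0 hK ht hτ c1 hε hm

theorem lo_spr {I : Matrix V V ℂ} (sp : Spr I W V0 D s0 m0 t K) (e : V → V × V)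
    (he : Function.Injective e) (hQ : ∀ j ∈ V0, Q (e j).1 (e j).2 = q) (w : V → ℂ) (R : Finset V)
    (l : ℝ) (hl : 0 < l) (hR : R.card ≤ D) (hw : ∀ i ∈ W, i ∉ R → ‖(I *ᵥ w) i‖ ≤ l * t)
    (hs : s0 ≤ (W.filter fun j => l ≤ ‖w j‖).card) (a : ℂ) (x : V → ℂ)
    (hx : ∀ j ∈ W, ‖x j‖ = ‖w j‖) (τ' : ℝ) (hτ' : 0 < τ') (h4 : 4 * τ' ≤ l * t) :
    ExP Q (fun B => ind (‖a + ∑ j, if B (e j).1 (e j).2 then x j else 0‖ < τ')) ≤ ε := by
  obtain ⟨v⟩ := ‹Nonempty V›
  have q0 : 0 ≤ q := (h0 v v).trans (hq v v)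
  have h1 : (m0 : ℝ) ≤ (V0.filter fun j => l * t ≤ ‖w j‖).card := by
    exact_mod_cast sp.1 w R l hl hR hw hs
  refine LOC h0 (fun i j => (hq i j).trans q1) e he (V0.filter fun j => l * t ≤ ‖w j‖) q q0 q1 a x τ'
    hτ' (fun j hj => ?_) ε hε (hm.trans ?_)
  · obtain ⟨j1, j2⟩ := mem_filter.1 hj
    exact ⟨hQ j j1, by rw [hx j (hV0 j1)]; linarith⟩
  · exact mul_le_mul_of_nonneg_left (mul_le_mul_of_nonneg_right h1
      (mul_nonneg q0 (by linarith))) (sq_nonneg _)

theorem lo_min {I : Matrix V V ℂ} (sp : Spr I W V0 D s0 m0 t K) (e : V → V × V)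
    (he : Function.Injective e) (hQ : ∀ j ∈ V0, Q (e j).1 (e j).2 = q) (y : V → ℂ) (y1 : n2 y = 1)
    (s : ℝ) (y2 : n2 (I *ᵥ y) = s) :
    ExP Q (fun B => ind (s ≤ τ ^ 4 ∧
      ‖∑ j, if B (e j).1 (e j).2 then (if j ∈ W then y j else 0) else 0‖ < τ)) ≤ ε := by
  by_cases hs : s ≤ τ ^ 4
  swap
  · simp only [hs, false_and, ind_neg not_false, ExP_const, hε.le]
  simp only [hs, true_and]
  set n : ℝ := (Fintype.card V : ℝ) with hn
  have hn1 : 1 ≤ n := by rw [hn]; exact_mod_cast Fintype.card_pos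
  have a1 : ∀ i, ‖(I *ᵥ y) i‖ ≤ τ ^ 2 := fun i =>
    (pow_le_pow_iff_left₀ (norm_nonneg _) (by positivity) two_ne_zero).1
      ((le_n2 _ i).trans (by rw [y2, ← pow_mul]; exact hs))
  have a2 := n2_le y (norm_le_pi_norm y)
  have y0 := norm_nonneg y
  have a3 : 1 ≤ n * ‖y‖ := by
    refine (pow_le_pow_iff_left₀ zero_le_one (by positivity) two_ne_zero).1 ?_
    rw [y1, ← hn] at a2
    nlinarith [sq_nonneg ‖y‖]
  have a4 : 1 ≤ n ^ 2 * K := one_le_mul_of_one_le_of_one_le (one_le_pow₀ hn1) hK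
  have a5 : τ ≤ 1 := by nlinarith
  have a6 : τ ^ 2 ≤ τ := by nlinarith
  have a7 : 0 < ‖y‖ := by
    by_contra h
    nlinarith
  have a8 : 12 * τ ≤ ‖y‖ / (2 * n * K) * t := by
    rw [div_mul_eq_mul_div, le_div_iff₀ (by positivity)]
    have := mul_le_mul_of_nonneg_left c1 y0
    have := mul_le_mul_of_nonneg_left a3 (by positivity : 0 ≤ 24 * n * K * τ)
    nlinarith
  rcases sp.2 y _ a1 with h | h
  · exfalso
    have b1 := mul_le_mul_of_nonneg_left h (by positivity : 0 ≤ n)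
    have b2 := mul_le_mul_of_nonneg_left a6 (by positivity : 0 ≤ n * K)
    have b3 := mul_le_mul_of_nonneg_left hn1 (by positivity : 0 ≤ n * K * τ)
    nlinarith
  · have := lo_spr h0 hq q1 hV0 hK ht hτ c1 hε hm sp e he hQ y ∅ _ (by positivity) (by simp)
      (fun i _ _ => (a1 i).trans (by linarith)) h 0 (fun j => if j ∈ W then y j else 0)
      (fun j hj => by simp [hj]) τ hτ (by linarith)
    simpa only [zero_add] using this

theorem lo_solve {I : Matrix V V ℂ} (sp : Spr I W V0 D s0 m0 t K) (v : V) (hv : v ∉ W)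
    (hQ : ∀ j ∈ V0, Q v j = q) (z : ℂ) (c2 : 24 * (Fintype.card V : ℝ) ^ 2 * K * τ ≤ t * ‖z‖)
    (w : V → ℂ) (R : Finset V) (hR : R.card ≤ D) (hw : ∀ i, ‖(I *ᵥ w) i‖ ≤ 1)
    (hw' : ∀ i, i ∉ R → (I *ᵥ w) i = 0) :
    ExP Q (fun B => ind (‖Mz B z v v - rowv B W v ⬝ᵥ w‖ ^ 2 < τ ^ 2 * (1 + n2 w))) ≤
      ε + q * (s0 + 1) := by
  have h1 : ∀ i j, Q i j ≤ 1 := fun i j => (hq i j).trans q1
  have q0 : 0 ≤ q := (h0 v v).trans (hq v v)
  set n : ℝ := (Fintype.card V : ℝ) with hn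
  have hn1 : 1 ≤ n := by rw [hn]; exact_mod_cast Fintype.card_pos
  have w0 := norm_nonneg w
  have t0 : 0 < t := lt_of_lt_of_le (by positivity) c1
  have z0 : 0 < ‖z‖ := by
    by_contra h
    have : 0 < 24 * n ^ 2 * K * τ := by positivity
    nlinarith [norm_nonneg z]
  set x : V → ℂ := fun j => if j = v then 1 else if j ∈ W then -w j else 0 with hx
  have a1 : ∀ B : V → V → Bool, Mz B z v v - rowv B W v ⬝ᵥ w =
      -z + ∑ j, if B v j then x j else 0 := by
    intro B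
    rw [rowv_dot, Mz_apply, ← add_sum_erase _ _ (mem_univ v),
      ← add_sum_erase _ (fun j => if B v j then x j else 0) (mem_univ v)]
    have : ∑ j ∈ univ.erase v, (if B v j then x j else 0) =
        -∑ j ∈ univ.erase v, if B v j then (if j ∈ W then w j else 0) else 0 := by
      rw [← sum_neg_distrib]
      refine sum_congr rfl fun j hj => ?_
      simp only [hx, (mem_erase.1 hj).1, if_false]
      split_ifs <;> simp
    rw [this]
    simp only [hx, hv, if_true, if_false, ite_self]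
    ring
  have a2 : τ ^ 2 * (1 + n2 w) ≤ (τ * (1 + n * ‖w‖)) ^ 2 := by
    rw [mul_pow]
    refine mul_le_mul_of_nonneg_left ?_ (by positivity)
    have := n2_le w (norm_le_pi_norm w)
    rw [← hn] at this
    nlinarith [mul_nonneg (by linarith : 0 ≤ n) w0, mul_nonneg (mul_nonneg (by linarith : 0 ≤ n)
      (by linarith : 0 ≤ n - 1)) (sq_nonneg ‖w‖)]
  refine le_trans (ExP_mono h0 h1 (G := fun B =>
    ind (‖-z + ∑ j, if B v j then x j else 0‖ < τ * (1 + n * ‖w‖))) fun B =>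
    ind_le (ind_nonneg _) fun hB => (ind_pos ?_).ge) ?_
  · rw [← a1]
    exact lt_of_pow_lt_pow_left₀ 2 (by positivity) (hB.trans_le a2)
  have key : ∀ l, 0 < l → s0 ≤ (W.filter fun j => l ≤ ‖w j‖).card → 4 * (τ * (1 + n * ‖w‖)) ≤ l * t →
      ExP Q (fun B => ind (‖-z + ∑ j, if B v j then x j else 0‖ < τ * (1 + n * ‖w‖))) ≤
        ε + q * (s0 + 1) := by
    intro l hl hs h4
    refine (lo_spr h0 hq q1 hV0 hK ht hτ c1 hε hm sp (fun j => (v, j))
      (fun a b h => (Prod.ext_iff.1 h).2) hQ w R l hl hR (fun i _ hi => ?_) hs (-z) x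
      (fun j hj => ?_) _ (by positivity) h4).trans (le_add_of_nonneg_right (by positivity))
    · rw [hw' i hi, norm_zero]
      positivity
    · have : j ≠ v := fun h => hv (h ▸ hj)
      simp [hx, this, hj]
  rcases lt_or_ge (2 * K) ‖w‖ with hb | hb
  · refine key _ (div_pos (by linarith) (by positivity)) ((sp.2 w 1 hw).resolve_left (by linarith)) ?_
    rw [div_mul_eq_mul_div, le_div_iff₀ (by positivity)]
    have b1 := mul_le_mul_of_nonneg_left c1 w0
    have b2 : 1 ≤ n * ‖w‖ := one_le_mul_of_one_le_of_one_le hn1 (by linarith)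
    have b3 := mul_le_mul_of_nonneg_left b2 (by positivity : 0 ≤ n * K * τ)
    have b4 : 0 ≤ n * K * τ * (n * ‖w‖) := by positivity
    nlinarith
  have b1 : 1 + n * ‖w‖ ≤ 3 * n * K := by
    have := mul_le_mul_of_nonneg_left hb (by linarith : 0 ≤ n)
    have := one_le_mul_of_one_le_of_one_le hn1 hK
    linarith
  have b2 : 4 * (τ * (1 + n * ‖w‖)) ≤ ‖z‖ / (2 * n) * t := by
    rw [div_mul_eq_mul_div, le_div_iff₀ (by positivity)]
    have := mul_le_mul_of_nonneg_left b1 (by positivity : 0 ≤ 8 * n * τ)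
    linarith
  rcases le_or_gt s0 (W.filter fun j => ‖z‖ / (2 * n) ≤ ‖w j‖).card with hs | hs
  · exact key _ (by positivity) hs b2
  refine le_trans (ExP_mono h0 h1 (G := fun B =>
    ∑ j ∈ insert v (W.filter fun j => ‖z‖ / (2 * n) ≤ ‖w j‖), ind (B v j = true)) fun B =>
    ind_le (sum_nonneg fun _ _ => ind_nonneg _) fun hB => ?_) ?_
  · by_contra hcon
    have b3 : ∀ j, ‖if B v j then x j else 0‖ ≤ ‖z‖ / (2 * n) := by
      intro j
      split_ifs with hj
      · have b4 : j ∉ insert v (W.filter fun j => ‖z‖ / (2 * n) ≤ ‖w j‖) := fun h =>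
          hcon ((ind_pos hj).ge.trans (single_le_sum (f := fun j => ind (B v j = true))
            (fun _ _ => ind_nonneg _) h))
        rw [mem_insert, not_or, mem_filter, not_and, not_le] at b4
        simp only [hx, b4.1, if_false]
        split_ifs with hj'
        · rw [norm_neg]
          exact (b4.2 hj').le
        · rw [norm_zero]
          positivity
      · rw [norm_zero]
        positivity
    have b4 := (norm_sum_le univ _).trans (sum_le_sum fun j _ => b3 j)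
    rw [sum_const, card_univ, nsmul_eq_mul, ← hn,
      (by field_simp : n * (‖z‖ / (2 * n)) = ‖z‖ / 2)] at b4
    have b5 := norm_sub_norm_le z (∑ j, if B v j then x j else 0)
    rw [← norm_neg (z - _), neg_sub, sub_eq_neg_add _ z] at b5
    have b6 : ‖z‖ / (2 * n) ≤ ‖z‖ / 2 := div_le_div_of_nonneg_left z0.le (by norm_num) (by linarith)
    have b7 := mul_le_mul_of_nonneg_left ht (by positivity : 0 ≤ ‖z‖ / (2 * n))
    have b8 : 0 < τ * (1 + n * ‖w‖) := by positivity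
    linarith
  · rw [ExP_sum]
    simp only [ExP_edge]
    refine (sum_le_sum fun j _ => hq v j).trans ?_
    rw [sum_const, nsmul_eq_mul]
    have b3 : ((insert v (W.filter fun j => ‖z‖ / (2 * n) ≤ ‖w j‖)).card : ℝ) ≤ s0 + 1 := by
      exact_mod_cast (card_insert_le _ _).trans (by omega)
    nlinarith

theorem step_prob {I : Matrix V V ℂ} (sp : Spr I W V0 D s0 m0 t K) (sp' : Spr Iᵀ W V0 D s0 m0 t K)
    (v : V) (hv : v ∉ W) (hQ : ∀ j ∈ V0, Q v j = q ∧ Q j v = q) (z : ℂ)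
    (c2 : 24 * (Fintype.card V : ℝ) ^ 2 * K * τ ≤ t * ‖z‖) (hD : 0 < D) :
    ExP Q (fun B => ind (¬ GS I (rowv (flp B) W v) (rowv B W v) (Mz B z v v) τ)) ≤
      3 * ε + Fintype.card V * q / D + q * (s0 + 1) := by
  have h1 : ∀ i j, Q i j ≤ 1 := fun i j => (hq i j).trans q1
  have q0 : 0 ≤ q := (h0 v v).trans (hq v v)
  have hD0 : (0 : ℝ) < D := by exact_mod_cast hD
  obtain ⟨u, u1, u2⟩ := sv_ex Iᵀ
  rw [sv_transpose] at u2
  obtain ⟨y, y1, y2⟩ := sv_ex I
  have e1 := lo_min h0 hq q1 hV0 hK ht hτ c1 hε hm sp' (fun j => (j, v))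
    (fun a b h => (Prod.ext_iff.1 h).1) (fun j hj => (hQ j hj).2) u u1 _ u2
  have e2 := lo_min h0 hq q1 hV0 hK ht hτ c1 hε hm sp (fun j => (v, j))
    (fun a b h => (Prod.ext_iff.1 h).2) (fun j hj => (hQ j hj).1) y y1 _ y2
  have e3 : ExP Q (fun B => 1 / (D : ℝ) * ∑ i, ind (B i v = true)) ≤ Fintype.card V * q / D := by
    rw [ExP_mul, ExP_sum, one_div, ← div_eq_inv_mul]
    simp only [ExP_edge]
    refine div_le_div_of_nonneg_right ((sum_le_sum fun j _ => hq j v).trans (le_of_eq ?_)) hD0.le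
    rw [sum_const, nsmul_eq_mul, card_univ]
  have e4 : ExP Q (fun B => ind (0 < sv I ∧ (W.filter fun i => B i v = true).card ≤ D ∧
      ¬ ∃ w, I *ᵥ w = rowv (flp B) W v ∧
        τ ^ 2 * (1 + n2 w) ≤ ‖Mz B z v v - rowv B W v ⬝ᵥ w‖ ^ 2)) ≤ ε + q * (s0 + 1) := by
    rw [ExP_mix Q (fun i _ => decide (i = v))]
    refine ExP_le h0 h1 fun B => ?_
    have hne : ∀ i ∈ W, i ≠ v := fun i hi h => hv (h ▸ hi)
    have m1 : ∀ B', (W.filter fun i => mix (fun i _ => decide (i = v)) B' B i v = true) =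
        W.filter fun i => B i v = true := fun B' =>
      filter_congr fun i hi => by simp [mix, hne i hi]
    have m2 : ∀ B', rowv (flp (mix (fun i _ => decide (i = v)) B' B)) W v = rowv (flp B) W v := by
      intro B'
      funext i
      by_cases hi : i ∈ W
      · simp [rowv, flp, mix, hne i hi]
      · simp [rowv, hi]
    have m3 : ∀ B', rowv (mix (fun i _ => decide (i = v)) B' B) W v = rowv B' W v := by
      intro B'
      funext i
      simp [rowv, mix]
    have m4 : ∀ B', Mz (mix (fun i _ => decide (i = v)) B' B) z v v = Mz B' z v v := by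
      intro B'
      simp [Mz_apply, mix]
    simp only [m1, m2, m3, m4]
    by_cases hc : 0 < sv I ∧ (W.filter fun i => B i v = true).card ≤ D
    · obtain ⟨w, hw⟩ := solve I hc.1 (rowv (flp B) W v)
      refine le_trans (ExP_mono h0 h1 fun B' => ind_le (ind_nonneg _) fun hB => (ind_pos ?_).ge)
        (lo_solve h0 hq q1 hV0 hK ht hτ c1 hε hm sp v hv (fun j hj => (hQ j hj).1) z c2 w _ hc.2
          (fun i => ?_) fun i hi => ?_)
      · exact not_le.1 fun h => hB.2.2 ⟨w, hw, h⟩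
      · rw [hw, rowv]
        split_ifs <;> simp
      · rw [mem_filter] at hi
        rw [hw, rowv]
        exact if_neg hi
    · refine ExP_le h0 h1 fun B' => ?_
      rw [ind_neg fun h => hc ⟨h.1, h.2.1⟩]
      positivity
  refine le_trans (ExP_mono h0 h1 fun B => ?_) (((ExP_add _ _ _).trans_le (add_le_add
    ((ExP_add _ _ _).trans_le (add_le_add ((ExP_add _ _ _).trans_le (add_le_add e1 e2)) e3))
      e4)).trans (by linarith))
  have p3 : 0 ≤ 1 / (D : ℝ) * ∑ i, ind (B i v = true) :=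
    mul_nonneg (by positivity) (sum_nonneg fun _ _ => ind_nonneg _)
  refine ind_le (add_nonneg (add_nonneg (add_nonneg (ind_nonneg _) (ind_nonneg _)) p3)
    (ind_nonneg _)) fun hB => ?_
  by_contra hcon
  have ne1 : ∀ {P : Prop} {x : ℝ}, x < 1 → ind P ≤ x → ¬ P := fun hx h hP => by
    rw [ind_pos hP] at h
    linarith
  replace hcon := not_le.1 hcon
  refine hB ⟨fun hS => ⟨u, y, u1, u2, y1, y2, ?_, ?_⟩, fun hS => ?_⟩
  · rw [rowv_dot]
    refine not_lt.1 fun h => ne1 hcon ?_ (And.intro hS h)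
    exact le_add_of_le_of_nonneg (le_add_of_le_of_nonneg
      (le_add_of_le_of_nonneg le_rfl (ind_nonneg _)) p3) (ind_nonneg _)
  · rw [rowv_dot]
    refine not_lt.1 fun h => ne1 hcon ?_ (And.intro hS h)
    exact le_add_of_le_of_nonneg (le_add_of_le_of_nonneg
      (le_add_of_nonneg_left (ind_nonneg _)) p3) (ind_nonneg _)
  · by_contra h
    refine ne1 hcon (le_add_of_nonneg_left (add_nonneg (add_nonneg (ind_nonneg _) (ind_nonneg _)) p3))
      ⟨hS, ?_, h⟩
    by_contra h2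
    have h3 : (D : ℝ) ≤ ∑ i, ind (B i v = true) := by
      simp only [ind_eq, sum_boole]
      exact_mod_cast (not_le.1 h2).le.trans (card_le_card (filter_subset_filter _ (subset_univ _)))
    have h4 : 1 ≤ 1 / (D : ℝ) * ∑ i, ind (B i v = true) := by
      rwa [one_div, ← div_eq_inv_mul, le_div_iff₀ hD0, one_mul]
    exact not_le.2 hcon (le_add_of_le_of_nonneg (le_add_of_nonneg_of_le
      (add_nonneg (ind_nonneg _) (ind_nonneg _)) h4) (ind_nonneg _))

end

end Pool.Agent.Fa2423
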