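import Pool.Agent.P.MP_fa2423_pr.SubGood

set_option autoImplicit false
set_option linter.unusedSectionVars false

namespace Pool.Agent.Fa2423

open Finset Function

variable {V : Type} [Fintype V] [DecidableEq V]

open Classical in
/-- paths starting at `i` -/
noncomputable def Pa (B : V → V → Bool) (i : V) (d : ℕ) : Finset (Fin (d + 1) → V) :=
  univ.filter fun y => IsP B y ∧ y 0 = i

theorem mem_Pa {B : V → V → Bool} {i : V} {d : ℕ} {y : Fin (d + 1) → V} :
    y ∈ Pa B i d ↔ IsP B y ∧ y 0 = i := by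
  classical
  unfold Pa
  simp only [mem_filter, mem_univ, true_and]

theorem card_Pa (B : V → V → Bool) (i : V) (d : ℕ)
    (hex : ∑ a ∈ Ds univ {i} B, od B a ≤ (Ds univ {i} B).card) :
    (Pa B i d).card ≤ (Ds univ {i} B).card * 2 := by
  classical
  set D := Ds univ {i} B with hD
  have hi : i ∈ D := sub_Ds (subset_univ _) _ (mem_singleton_self _)
  let par : V → V := fun b => if h : ∃ a ∈ D, B a b = true then h.choose else b
  have hpar : ∀ b, (∃ a ∈ D, B a b = true) → par b ∈ D ∧ B (par b) b = true := by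
    intro b h
    simp only [par, h, dif_pos]
    exact h.choose_spec
  have hin : ∀ b ∈ D, b = i ∨ ∃ a ∈ D, B a b = true := by
    intro b hb
    have : D ⊆ D.filter fun b => b = i ∨ ∃ a ∈ D, B a b = true := by
      refine Ds_least (fun s hs => ?_) fun a ha b hb hab => ?_
      · rw [mem_singleton.1 hs]
        exact mem_filter.2 ⟨hi, Or.inl rfl⟩
      · have ha' := (mem_filter.1 ha).1
        exact mem_filter.2 ⟨Ds_closed ha' hb hab, Or.inr ⟨a, ha', hab⟩⟩
    exact (mem_filter.1 (this hb)).2
  let E : Finset (V × V) := (D ×ˢ univ).filter fun e => B e.1 e.2 = true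
  have hE : E.card = ∑ a ∈ D, od B a := by
    simp only [E, od, card_filter]
    rw [sum_product]
  let X : Finset (V × V) := E.filter fun e => e.1 ≠ par e.2
  have hX : X.card ≤ 1 := by
    have h1 : ((D.erase i).image fun b => (par b, b)) ∪ X ⊆ E := by
      refine union_subset (fun e he => ?_) (filter_subset _ _)
      obtain ⟨b, hb, rfl⟩ := mem_image.1 he
      have hb' := mem_erase.1 hb
      have := hpar b ((hin b hb'.2).resolve_left hb'.1)
      exact mem_filter.2 ⟨mem_product.2 ⟨this.1, mem_univ _⟩, this.2⟩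
    have h2 := card_le_card h1
    rw [card_union_of_disjoint, card_image_of_injective _ fun a b h => (Prod.ext_iff.1 h).2,
      card_erase_of_mem hi] at h2
    · have := card_pos.2 ⟨i, hi⟩
      omega
    · rw [disjoint_left]
      intro e he he'
      obtain ⟨b, _, rfl⟩ := mem_image.1 he
      exact (mem_filter.1 he').2 rfl
  have hyD : ∀ y ∈ Pa B i d, ∀ t, y t ∈ D := by
    intro y hy t
    rw [mem_Pa] at hy
    induction t using Fin.induction with
    | zero => rw [hy.2]; exact hi
    | succ t ih => exact Ds_closed ih (mem_univ _) (hy.1.edge t)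
  have h3 : (Pa B i d).card ≤ (D ×ˢ X.powerset).card := by
    refine card_le_card_of_injOn (fun y => (y (Fin.last d), PE y ∩ X)) (fun y hy => ?_) ?_
    · exact mem_coe.2 (mem_product.2 ⟨hyD y hy _, mem_powerset.2 inter_subset_right⟩)
    · have key : ∀ y ∈ Pa B i d, ∀ y' ∈ Pa B i d, PE y ∩ X = PE y' ∩ X → ∀ t : Fin d,
          y t.succ = y' t.succ → y t.castSucc ≠ par (y t.succ) → y t.castSucc = y' t.castSucc := by
        intro y hy y' hy' h t h1 h2
        have h4 : (y t.castSucc, y t.succ) ∈ PE y ∩ X :=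
          mem_inter.2 ⟨mem_PE.2 ⟨t, rfl⟩, mem_filter.2 ⟨mem_filter.2
            ⟨mem_product.2 ⟨hyD y hy _, mem_univ _⟩, (mem_Pa.1 hy).1.edge t⟩, h2⟩⟩
        rw [h] at h4
        obtain ⟨s, hs⟩ := mem_PE.1 (mem_inter.1 h4).1
        have h5 : s = t := Fin.succ_injective _
          ((mem_Pa.1 hy').1.1 ((Prod.ext_iff.1 hs).2.trans h1))
        subst h5
        exact (Prod.ext_iff.1 hs).1.symm
      intro y hy y' hy' h
      obtain ⟨h1, h2⟩ := Prod.ext_iff.1 h
      funext t
      induction t using Fin.reverseInduction with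
      | last => exact h1
      | cast t ih =>
        by_cases a : y t.castSucc = par (y t.succ)
        · by_cases a' : y' t.castSucc = par (y' t.succ)
          · rw [a, a', ih]
          · exact (key y' hy' y hy h2.symm t ih.symm a').symm
        · exact key y hy y' hy' h2 t ih a
  refine h3.trans ?_
  rw [card_product, card_powerset]
  exact Nat.mul_le_mul_left _ (by
    calc 2 ^ X.card ≤ 2 ^ 1 := Nat.pow_le_pow_right (by norm_num) hX
      _ = 2 := rfl)

theorem orbit2 {B : V → V → Bool} {k : ℕ} (hk : ¬ ∃ x : Fin (k + 1) → V, IsP B x)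
    (τ : V → V) (hτ : Injective τ) (j : V) (h : ∀ s, s ≠ j → τ s ≠ s → B s (τ s) = true) :
    ∃ d < k, minimalPeriod τ (τ j) = d + 1 ∧ IsP B (fun t : Fin (d + 1) => τ^[t] (τ j)) ∧
      τ^[d] (τ j) = j ∧ ∀ s, τ s ≠ s → s ∈ Cy k B ∨ ∃ t : Fin (d + 1), τ^[t] (τ j) = s := by
  have hd := minimalPeriod_pos_of_mem_periodicPts (hτ.mem_periodicPts (τ j))
  have hinj := iterate_injOn_Iio_minimalPeriod (f := τ) (x := τ j)
  have hedge : ∀ t, t + 1 < minimalPeriod τ (τ j) →
      B (τ^[t] (τ j)) (τ^[t + 1] (τ j)) = true := by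
    intro t ht
    rw [iterate_succ_apply']
    apply h
    · intro h1
      have h2 : τ^[t + 1] (τ j) = τ^[0] (τ j) := by rw [iterate_succ_apply', h1]; rfl
      have := hinj (by simp only [Set.mem_Iio]; omega) (by simp only [Set.mem_Iio]; omega) h2
      omega
    · intro h1
      have h2 : τ^[t + 1] (τ j) = τ^[t] (τ j) := by rw [iterate_succ_apply', h1]
      have := hinj (by simp only [Set.mem_Iio]; omega) (by simp only [Set.mem_Iio]; omega) h2
      omega
  have hle : minimalPeriod τ (τ j) ≤ k := period_le hk τ (τ j) hedge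
  obtain ⟨d, hd'⟩ : ∃ d, minimalPeriod τ (τ j) = d + 1 := ⟨minimalPeriod τ (τ j) - 1, by omega⟩
  refine ⟨d, by omega, hd', isP_of_nat d (fun t => τ^[t] (τ j)) (fun a b ha hb hab =>
    hinj (by simp only [Set.mem_Iio]; omega) (by simp only [Set.mem_Iio]; omega) hab)
    fun t ht => hedge t (by omega), ?_, fun s hs => ?_⟩
  · apply hτ
    rw [← iterate_succ_apply' τ, Nat.succ_eq_add_one, ← hd', iterate_minimalPeriod]
  · by_cases h1 : ∃ t, τ^[t] s = j
    · obtain ⟨t, hst⟩ := h1
      have hP := minimalPeriod_pos_of_mem_periodicPts (hτ.mem_periodicPts s)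
      have h1 : τ^[minimalPeriod τ s * (t + 1)] s = s :=
        (isPeriodicPt_minimalPeriod τ s).mul_const (t + 1)
      have h2 : t + 1 ≤ minimalPeriod τ s * (t + 1) := Nat.le_mul_of_pos_left _ hP
      obtain ⟨c, hc⟩ := Nat.exists_eq_add_of_le' h2
      rw [hc, iterate_add_apply, iterate_succ_apply', hst] at h1
      refine Or.inr ⟨⟨c % minimalPeriod τ (τ j), hd' ▸ Nat.mod_lt _ (by omega)⟩, ?_⟩
      show τ^[c % minimalPeriod τ (τ j)] (τ j) = s
      rw [iterate_mod_minimalPeriod_eq, h1]
    · push Not at h1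
      refine Or.inl (cyc_mem hk τ hτ s fun t => ?_)
      rw [iterate_succ_apply']
      refine h _ (h1 t) fun h2 => hs ?_
      rw [← iterate_succ_apply' τ, iterate_succ_apply] at h2
      exact hτ.iterate t h2

open Classical in
/-- pairs (column, permutation) that can contribute to row `i` of the adjugate -/
noncomputable def Qs (B : V → V → Bool) (i : V) : Finset (V × Equiv.Perm V) :=
  univ.filter fun c => c.2 c.1 = i ∧ ∀ s, s ≠ c.1 → c.2 s ≠ s → B s (c.2 s) = true

theorem mem_Qs {B : V → V → Bool} {i : V} {c : V × Equiv.Perm V} :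
    c ∈ Qs B i ↔ c.2 c.1 = i ∧ ∀ s, s ≠ c.1 → c.2 s ≠ s → B s (c.2 s) = true := by
  classical
  unfold Qs
  simp only [mem_filter, mem_univ, true_and]

theorem card_Qs {B : V → V → Bool} {k m r : ℕ} (hk : ¬ ∃ x : Fin (k + 1) → V, IsP B x)
    (hm : (Cy k B).card ≤ m) (hm0 : 0 < m) (i : V) (hr : (Ds univ {i} B).card ≤ r)
    (hex : ∑ a ∈ Ds univ {i} B, od B a ≤ (Ds univ {i} B).card) :
    (Qs B i).card ≤ k * (r * 2 * m ^ m) := by
  classical
  have hsub : Qs B i ⊆ (range k).biUnion fun d =>
      (Qs B i).filter fun c => minimalPeriod c.2 i = d + 1 := by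
    intro c hc
    obtain ⟨d, hd, h1, -⟩ := orbit2 hk c.2 c.2.injective c.1 (mem_Qs.1 hc).2
    rw [(mem_Qs.1 hc).1] at h1
    exact mem_biUnion.2 ⟨d, mem_range.2 hd, mem_filter.2 ⟨hc, h1⟩⟩
  refine (card_le_card hsub).trans (card_biUnion_le.trans ?_)
  have hd : ∀ d ∈ range k, ((Qs B i).filter fun c => minimalPeriod c.2 i = d + 1).card ≤
      r * 2 * m ^ m := by
    intro d _
    have hfacts : ∀ c ∈ (Qs B i).filter fun c => minimalPeriod c.2 i = d + 1,
        IsP B (fun t : Fin (d + 1) => c.2^[t] i) ∧ c.2^[d] i = c.1 ∧ c.2 c.1 = i ∧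
        ∀ s, (¬ ∃ t : Fin (d + 1), c.2^[t] i = s) →
          c.2 s = if s ∈ Cy k B ∧ c.2 s ∈ Cy k B then c.2 s else s := by
      intro c hc
      obtain ⟨hc1, hc2⟩ := mem_filter.1 hc
      obtain ⟨e1, e2⟩ := mem_Qs.1 hc1
      obtain ⟨d', -, h1, h2, h3, h4⟩ := orbit2 hk c.2 c.2.injective c.1 e2
      rw [e1] at h1 h2 h3 h4
      have hdd : d' = d := by omega
      subst hdd
      refine ⟨h2, h3, e1, fun s hs => ?_⟩
      by_cases hfix : c.2 s = s
      · split_ifs
        · rfl
        · exact hfix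
      · rw [if_pos]
        refine ⟨(h4 s hfix).resolve_right hs, (h4 (c.2 s) fun h => hfix (c.2.injective h)).resolve_right ?_⟩
        rintro ⟨t, ht⟩
        apply hs
        induction t using Fin.cases with
        | zero =>
          refine ⟨Fin.last d', c.2.injective ?_⟩
          rw [Fin.val_last, h3, e1]
          exact ht
        | succ t =>
          refine ⟨t.castSucc, c.2.injective ?_⟩
          rw [← ht, Fin.val_succ, iterate_succ_apply', Fin.val_castSucc]
    have h1 : ((Qs B i).filter fun c => minimalPeriod c.2 i = d + 1).card ≤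
        (Pa B i d ×ˢ Fintype.piFinset fun s => if s ∈ Cy k B then Cy k B else {s}).card := by
      refine card_le_card_of_injOn (fun c => (fun t : Fin (d + 1) => c.2^[t] i,
        fun s => if s ∈ Cy k B ∧ c.2 s ∈ Cy k B then c.2 s else s)) (fun c hc => ?_) ?_
      · refine mem_coe.2 (mem_product.2 ⟨mem_Pa.2 ⟨(hfacts c hc).1, rfl⟩, ?_⟩)
        rw [Fintype.mem_piFinset]
        intro s
        by_cases a : s ∈ Cy k B <;> by_cases b : c.2 s ∈ Cy k B <;> simp [a, b]
      · intro c hc c' hc' h
        obtain ⟨-, a2, a3, a4⟩ := hfacts c hc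
        obtain ⟨-, b2, b3, b4⟩ := hfacts c' hc'
        obtain ⟨h1, h2⟩ := Prod.ext_iff.1 h
        have h3 : ∀ t : Fin (d + 1), c.2^[t] i = c'.2^[t] i := fun t => congrFun h1 t
        have h4 : c.1 = c'.1 := by rw [← a2, ← b2]; exact h3 (Fin.last d)
        refine Prod.ext h4 (Equiv.ext fun s => ?_)
        by_cases hs : ∃ t : Fin (d + 1), c.2^[t] i = s
        · obtain ⟨t, rfl⟩ := hs
          induction t using Fin.lastCases with
          | last =>
            rw [Fin.val_last, a2, a3, h4, b3]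
          | cast t =>
            have h5 := h3 t.succ
            rw [Fin.val_succ, iterate_succ_apply', iterate_succ_apply'] at h5
            rw [Fin.val_castSucc, h5]
            congr 1
            exact (h3 t.castSucc).symm
        · rw [a4 s hs, b4 s (by simpa only [← h3] using hs)]
          exact congrFun h2 s
    refine h1.trans ?_
    rw [card_product, Fintype.card_piFinset]
    refine Nat.mul_le_mul ((card_Pa B i d hex).trans (Nat.mul_le_mul_right _ hr)) ?_
    have h2 : ∀ s, (if s ∈ Cy k B then Cy k B else {s}).card =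
        if s ∈ Cy k B then (Cy k B).card else 1 := by
      intro s
      split_ifs <;> simp
    simp only [h2]
    rw [prod_ite_mem, univ_inter, prod_const]
    exact (Nat.pow_le_pow_left hm _).trans (Nat.pow_le_pow_right hm0 hm)
  refine (sum_le_sum hd).trans (le_of_eq ?_)
  simp

theorem adj_row {B : V → V → Bool} {k m r : ℕ} (hk : ¬ ∃ x : Fin (k + 1) → V, IsP B x)
    (hm : (Cy k B).card ≤ m) (hm0 : 0 < m) (i : V) (hr : (Ds univ {i} B).card ≤ r)
    (hex : ∑ a ∈ Ds univ {i} B, od B a ≤ (Ds univ {i} B).card)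
    (z : ℂ) (hz0 : 0 < ‖z‖) (L : ℝ) (hL1 : 1 ≤ L) (hL2 : 1 ≤ L * ‖z‖) :
    ∑ j, ‖(Mz B z).adjugate i j‖ ≤ ((k * (r * 2 * m ^ m) : ℕ) : ℝ) *
      ((2 * L) ^ m * L ^ k * ‖z‖ ^ Fintype.card V) := by
  classical
  have hterm : ∀ (j : V) (σ : Equiv.Perm V), ‖Equiv.Perm.sign σ •
      ∏ s, ((Mz B z).updateRow j (Pi.single i 1)).transpose (σ s) s‖ ≤
      if (j, σ) ∈ Qs B i then (2 * L) ^ m * L ^ k * ‖z‖ ^ Fintype.card V else 0 := by
    intro j σ
    have hs : ‖Equiv.Perm.sign σ • ∏ s, ((Mz B z).updateRow j (Pi.single i 1)).transpose (σ s) s‖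
        = ∏ s, ‖((Mz B z).updateRow j (Pi.single i 1)) s (σ s)‖ := by
      rw [← norm_prod]
      rcases Int.units_eq_one_or (Equiv.Perm.sign σ) with h | h <;> simp [h]
    rw [hs]
    split_ifs with hq
    · obtain ⟨O, hO1, hO2, hO3⟩ := orbit_struct hk σ σ.injective j (mem_Qs.1 hq).2
      have hzL : ‖z‖ ≤ L * ‖z‖ := le_mul_of_one_le_left hz0.le hL1
      have h3 : ∀ s, ‖((Mz B z).updateRow j (Pi.single i 1)) s (σ s)‖ ≤
          (if s ∈ Cy k B then 2 * L else 1) * (if s ∈ O then L else 1) * ‖z‖ := by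
        intro s
        have hloop : s ∉ Cy k B → σ s = s → ¬ B s s = true := by
          intro hsC hfix h
          refine hsC (cyc_mem hk σ σ.injective s fun t => ?_)
          rw [iterate_fixed hfix, iterate_fixed hfix]
          exact h
        have g1 : ‖((Mz B z).updateRow j (Pi.single i 1)) s (σ s)‖ ≤ 2 * L * ‖z‖ := by
          by_cases hsj : s = j
          · rw [hsj, Matrix.updateRow_self, Pi.single_apply]
            split_ifs <;> simp only [norm_one, norm_zero] <;> linarith
          · rw [Matrix.updateRow_ne hsj, Mz_apply]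
            refine (norm_sub_le _ _).trans ?_
            split_ifs <;> simp only [norm_one, norm_zero] <;> linarith
        by_cases hsC : s ∈ Cy k B
        · rw [if_pos hsC]
          refine g1.trans (mul_le_mul_of_nonneg_right ?_ hz0.le)
          split_ifs
          · exact le_mul_of_one_le_right (by linarith) hL1
          · rw [mul_one]
        · rw [if_neg hsC, one_mul]
          by_cases hsj : s = j
          · rw [if_pos (hsj ▸ hO2), hsj, Matrix.updateRow_self, Pi.single_apply]
            split_ifs <;> simp only [norm_one, norm_zero] <;> linarith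
          · rw [Matrix.updateRow_ne hsj, Mz_apply]
            by_cases hfix : σ s = s
            · rw [hfix, if_neg (hloop hsC hfix), if_pos rfl, zero_sub, norm_neg]
              split_ifs <;> linarith
            · rw [if_neg (Ne.symm hfix), sub_zero, if_pos ((hO3 s hfix).resolve_left hsC)]
              split_ifs <;> simp only [norm_one, norm_zero] <;> linarith
      refine (prod_le_prod (fun s _ => norm_nonneg _) fun s _ => h3 s).trans ?_
      rw [prod_mul_distrib, prod_mul_distrib, prod_const, card_univ, prod_ite_mem, univ_inter,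
        prod_const, prod_ite_mem, univ_inter, prod_const]
      have := pow_le_pow_right₀ (by linarith : 1 ≤ 2 * L) hm
      have := pow_le_pow_right₀ hL1 hO1
      gcongr
    · rw [mem_Qs, not_and_or] at hq
      rcases hq with hq | hq
      · rw [prod_eq_zero (mem_univ j)]
        rw [Matrix.updateRow_self, Pi.single_apply, if_neg hq, norm_zero]
      · push Not at hq
        obtain ⟨s, h1, h3, h4⟩ := hq
        rw [prod_eq_zero (mem_univ s)]
        rw [Matrix.updateRow_ne h1, Mz_apply, if_neg h4, if_neg (Ne.symm h3)]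
        simp
  have h1 : ∀ j, ‖(Mz B z).adjugate i j‖ ≤ ∑ σ : Equiv.Perm V,
      if (j, σ) ∈ Qs B i then (2 * L) ^ m * L ^ k * ‖z‖ ^ Fintype.card V else 0 := by
    intro j
    rw [Matrix.adjugate_apply, ← Matrix.det_transpose, Matrix.det_apply]
    exact (norm_sum_le _ _).trans (sum_le_sum fun σ _ => hterm j σ)
  refine (sum_le_sum fun j _ => h1 j).trans ?_
  rw [← Fintype.sum_prod_type' (f := fun j σ =>
    if (j, σ) ∈ Qs B i then (2 * L) ^ m * L ^ k * ‖z‖ ^ Fintype.card V else 0)]
  simp only [Prod.mk.eta]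
  rw [sum_ite_mem, univ_inter, sum_const, nsmul_eq_mul]
  refine mul_le_mul_of_nonneg_right ?_ (by positivity)
  exact_mod_cast card_Qs hk hm hm0 i hr hex

theorem det_core {B : V → V → Bool} {k : ℕ} (hk : ¬ ∃ x : Fin (k + 1) → V, IsP B x) (z : ℂ) :
    ∃ B' : Fin (Cy k B).card → Fin (Cy k B).card → Bool,
      ‖(Mz B z).det‖ = ‖(Mz B' z).det‖ * ‖z‖ ^ (Fintype.card V - (Cy k B).card) := by
  classical
  set C := Cy k B with hC
  let B0 : V → V → Bool := fun a b => B a b && decide (a ∈ C ∧ b ∈ C)
  have h1 : (Mz B z).det = (Mz B0 z).det := by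
    rw [← Matrix.det_transpose, ← Matrix.det_transpose (Mz B0 z), Matrix.det_apply,
      Matrix.det_apply]
    refine sum_congr rfl fun σ _ => ?_
    congr 1
    by_cases he : ∀ s, σ s ≠ s → B s (σ s) = true
    · have hmv : ∀ s, B s (σ s) = true → s ∈ C := by
        intro s hs
        refine cyc_mem hk σ σ.injective s fun t => ?_
        by_cases hfix : σ s = s
        · rw [iterate_fixed hfix, iterate_fixed hfix]
          rwa [hfix] at hs
        · rw [iterate_succ_apply']
          refine he _ fun h2 => hfix ?_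
          rw [← iterate_succ_apply' σ, iterate_succ_apply] at h2
          exact σ.injective.iterate t h2
      refine prod_congr rfl fun s _ => ?_
      rw [Matrix.transpose_apply, Matrix.transpose_apply, Mz_apply, Mz_apply]
      congr 1
      by_cases hb : B s (σ s) = true
      · have h2 : σ s ∈ C := by
          by_cases hfix : σ s = s
          · rw [hfix]; exact hmv s hb
          · exact hmv _ (he _ fun h => hfix (σ.injective h))
        simp [B0, hb, hmv s hb, h2]
      · simp [B0, hb]
    · push Not at he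
      obtain ⟨s, h1, h2⟩ := he
      rw [prod_eq_zero (mem_univ s), prod_eq_zero (mem_univ s)]
      · rw [Matrix.transpose_apply, Mz_apply, if_neg (Ne.symm h1)]
        simp [B0, h2]
      · rw [Matrix.transpose_apply, Mz_apply, if_neg (Ne.symm h1)]
        simp [h2]
  obtain ⟨P, hP⟩ : ∃ P : V → Prop, ∀ a, a ∈ C ↔ P a := ⟨_, fun _ => Iff.rfl⟩
  have h2 := Matrix.twoBlockTriangular_det (Mz B0 z) P (by
    intro a ha b hb
    rw [Mz_apply, if_neg (show ¬ a = b by rintro rfl; exact ha hb)]
    simp [B0, hP, ha])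
  have h3 : Matrix.toSquareBlockProp (Mz B0 z) (fun a => ¬ P a) =
      Matrix.diagonal fun _ => -z := by
    ext a b
    rw [Matrix.toSquareBlockProp_def, Matrix.of_apply, Mz_apply, Matrix.diagonal_apply]
    have h0 : B0 a b = false := by simp [B0, hP, a.2]
    simp only [h0, Subtype.val_inj]
    split_ifs <;> first | contradiction | simp
  have hcard : Fintype.card {a // P a} = C.card := Fintype.card_of_subtype C hP
  let e : Fin C.card ≃ {a // P a} := (Fintype.equivFinOfCardEq hcard).symm
  refine ⟨fun a b => B0 (e a) (e b), ?_⟩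
  have h4 : Mz (fun a b => B0 (e a) (e b)) z =
      (Matrix.toSquareBlockProp (Mz B0 z) P).submatrix e e := by
    ext a b
    rw [Matrix.submatrix_apply, Matrix.toSquareBlockProp_def, Matrix.of_apply, Mz_apply, Mz_apply]
    simp [Subtype.val_inj]
  rw [h1, h2, h3, h4, Matrix.det_submatrix_equiv_self, Matrix.det_diagonal, prod_const, norm_mul,
    norm_pow, norm_neg, card_univ, Fintype.card_subtype_compl, hcard]

theorem schur (B : V → V → Bool) (z : ℂ) (R t : ℝ) (hR : 0 ≤ R) (ht : 0 ≤ t)
    (h1 : ∀ i, ∑ j, ‖(Mz B z).adjugate i j‖ ≤ R)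
    (h2 : ∀ i, ∑ j, ‖(Mz (fun a b => B b a) z).adjugate i j‖ ≤ R)
    (h3 : R * t < ‖(Mz B z).det‖) : ¬ Sm B z t := by
  rintro ⟨v, hv, hv'⟩
  have hT : Mz (fun a b => B b a) z = (Mz B z).transpose := by
    ext a b
    rw [Matrix.transpose_apply, Mz_apply, Mz_apply]
    simp only [eq_comm]
  rw [hT, ← Matrix.adjugate_transpose] at h2
  simp only [Matrix.transpose_apply] at h2
  set u := Matrix.mulVec (Mz B z) v with hu
  have h4 : ∀ i, (‖(Mz B z).det‖ * ‖v i‖) ^ 2 ≤
      R * ∑ j, ‖(Mz B z).adjugate i j‖ * ‖u j‖ ^ 2 := by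
    intro i
    have h5 : (Mz B z).det * v i = ∑ j, (Mz B z).adjugate i j * u j := by
      have : Matrix.mulVec (Mz B z).adjugate (Matrix.mulVec (Mz B z) v) = (Mz B z).det • v := by
        rw [Matrix.mulVec_mulVec, Matrix.adjugate_mul, Matrix.smul_mulVec, Matrix.one_mulVec]
      exact (congrFun this i).symm
    have h6 : ‖(Mz B z).det‖ * ‖v i‖ ≤ ∑ j, ‖(Mz B z).adjugate i j‖ * ‖u j‖ := by
      rw [← norm_mul, h5]
      exact (norm_sum_le _ _).trans (le_of_eq (sum_congr rfl fun j _ => norm_mul _ _))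
    refine (pow_le_pow_left₀ (by positivity) h6 2).trans ?_
    refine (sum_sq_le_sum_mul_sum_of_sq_le_mul univ (f := fun j => ‖(Mz B z).adjugate i j‖)
      (g := fun j => ‖(Mz B z).adjugate i j‖ * ‖u j‖ ^ 2) (fun _ _ => norm_nonneg _)
      (fun _ _ => by positivity) fun j _ => le_of_eq (by ring)).trans ?_
    exact mul_le_mul_of_nonneg_right (h1 i) (sum_nonneg fun _ _ => by positivity)
  have h5 : ‖(Mz B z).det‖ ^ 2 ≤ (R * t) ^ 2 := by
    calc ‖(Mz B z).det‖ ^ 2 = ∑ i, (‖(Mz B z).det‖ * ‖v i‖) ^ 2 := by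
          simp only [mul_pow]
          rw [← mul_sum, hv, mul_one]
      _ ≤ ∑ i, R * ∑ j, ‖(Mz B z).adjugate i j‖ * ‖u j‖ ^ 2 := sum_le_sum fun i _ => h4 i
      _ = R * ∑ j, (∑ i, ‖(Mz B z).adjugate i j‖) * ‖u j‖ ^ 2 := by
          rw [← mul_sum, sum_comm]
          simp only [sum_mul]
      _ ≤ R * ∑ j, R * ‖u j‖ ^ 2 := by
          refine mul_le_mul_of_nonneg_left (sum_le_sum fun j _ => ?_) hR
          exact mul_le_mul_of_nonneg_right (h2 j) (by positivity)
      _ ≤ (R * t) ^ 2 := by
          rw [← mul_sum, mul_pow, sq R, mul_assoc]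
          gcongr
  have := (pow_le_pow_iff_left₀ (norm_nonneg _) (by positivity) two_ne_zero).1 h5
  linarith

end Pool.Agent.Fa2423
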