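import Pool.Agent.P.MP_fa2423_pr.Ae

set_option autoImplicit false
set_option linter.unusedSectionVars false

namespace Pool.Agent.Fa2423

open Finset

variable {V : Type} [Fintype V] [DecidableEq V]

theorem Ex_flip (p : ℝ) (F : (V → V → Bool) → ℝ) :
    Ex p (fun B => F (fun i j => B j i)) = Ex p F := by
  let e : (V → V → Bool) ≃ (V → V → Bool) :=
    { toFun := fun B i j => B j i
      invFun := fun B i j => B j i
      left_inv := fun _ => rfl
      right_inv := fun _ => rfl }
  unfold Ex
  rw [← e.sum_comp]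
  refine sum_congr rfl fun B _ => ?_
  congr 1
  unfold wt
  exact prod_comm

/-- out-degree -/
def od (B : V → V → Bool) (s : V) : ℕ := (univ.filter fun j => B s j = true).card

theorem explore2 {p : ℝ} (h0 : 0 ≤ p) (h1 : p ≤ 1) (n : ℕ) (F : ℕ → ℕ → ℝ)
    (Ψ : ℕ → ℕ → ℕ → ℝ)
    (hF : ∀ t y, F t y ≤ Ψ t 0 y)
    (hstep : ∀ (t a y : ℕ) (s : V) (T : Finset V), t + (a + 1) + T.card = n →
      Ex p (fun B => Ψ (t + 1) (a + (T.filter fun j => B s j = true).card) (y + od B s)) ≤
        Ψ t (a + 1) y) :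
    ∀ (N : ℕ) (U S : Finset V) (t y : ℕ), U.card = N → S ⊆ U → t + U.card = n →
      Ex p (fun B => F (t + (Ds U S B).card) (y + ∑ a ∈ Ds U S B, od B a)) ≤ Ψ t S.card y := by
  intro N
  induction N with
  | zero =>
    intro U S t y hU hS hn
    have hU0 : U = ∅ := card_eq_zero.1 hU
    subst hU0
    have hS0 : S = ∅ := subset_empty.1 hS
    subst hS0
    have : ∀ B : V → V → Bool, Ds (∅ : Finset V) ∅ B = ∅ := fun B => subset_empty.1 (Ds_sub _ _ _)
    simp only [this, card_empty, sum_empty, add_zero, Ex_const]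
    exact hF t y
  | succ N ih =>
    intro U S t y hU hS hn
    rcases S.eq_empty_or_nonempty with hS0 | ⟨s, hs⟩
    · subst hS0
      have : ∀ B : V → V → Bool, Ds U ∅ B = ∅ := fun B =>
        subset_empty.1 (Ds_least (Subset.refl _) (by simp))
      simp only [this, card_empty, sum_empty, add_zero, Ex_const]
      exact hF t _
    · have hsU : s ∈ U := hS hs
      have hnot : ∀ (X : Finset V) (B : V → V → Bool), s ∉ Ds (U.erase s) X B := by
        intro X B h
        exact (mem_erase.1 (Ds_sub _ _ _ h)).1 rfl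
      have hcard : ∀ B : V → V → Bool, F (t + (Ds U S B).card) (y + ∑ a ∈ Ds U S B, od B a) =
          F (t + 1 + (Ds (U.erase s) (S.erase s ∪ (U \ S).filter (fun j => B s j = true)) B).card)
            (y + od B s + ∑ a ∈ Ds (U.erase s)
              (S.erase s ∪ (U \ S).filter (fun j => B s j = true)) B, od B a) := by
        intro B
        rw [Ds_step hS hs B, card_insert_of_notMem (hnot _ _), sum_insert (hnot _ _)]
        congr 1 <;> omega
      have hUe : (U.erase s).card = N := by rw [card_erase_of_mem hsU]; omega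
      obtain ⟨a, ha⟩ : ∃ a, S.card = a + 1 := ⟨S.card - 1, by have := card_pos.2 ⟨s, hs⟩; omega⟩
      have hT : (U \ S).card = U.card - S.card := card_sdiff_of_subset hS
      have hle : S.card ≤ U.card := card_le_card hS
      simp only [hcard]
      rw [Ex_mix p (fun i _ => decide (i = s))]
      have hst := hstep t a y s (U \ S) (by omega)
      rw [ha]
      refine le_trans (Ex_mono h0 h1 fun B' => ?_) hst
      have e1 : ∀ B : V → V → Bool,
          (U \ S).filter (fun j => mix (fun i _ => decide (i = s)) B' B s j = true) =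
          (U \ S).filter (fun j => B' s j = true) := by
        intro B
        simp [mix]
      have e2 : ∀ B : V → V → Bool,
          Ds (U.erase s) (S.erase s ∪ (U \ S).filter (fun j => B' s j = true))
            (mix (fun i _ => decide (i = s)) B' B) =
          Ds (U.erase s) (S.erase s ∪ (U \ S).filter (fun j => B' s j = true)) B := by
        intro B
        refine Ds_congr (step_sub hS s B' hs) fun x hx y _ _ => ?_
        simp [mix, (mem_erase.1 hx).1]
      have e3 : ∀ B : V → V → Bool, od (mix (fun i _ => decide (i = s)) B' B) s = od B' s := by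
        intro B
        simp [mix, od]
      have e4 : ∀ (X : Finset V) (B : V → V → Bool),
          ∑ a ∈ Ds (U.erase s) X B, od (mix (fun i _ => decide (i = s)) B' B) a =
          ∑ a ∈ Ds (U.erase s) X B, od B a := by
        intro X B
        refine sum_congr rfl fun a ha => ?_
        simp [mix, od, (mem_erase.1 (Ds_sub _ _ _ ha)).1]
      simp only [e1, e2, e3, e4]
      have := ih (U.erase s) (S.erase s ∪ (U \ S).filter (fun j => B' s j = true)) (t + 1)
        (y + od B' s) hUe (step_sub hS s B' hs) (by omega)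
      have hc : (S.erase s ∪ (U \ S).filter (fun j => B' s j = true)).card =
          a + ((U \ S).filter (fun j => B' s j = true)).card := by
        rw [card_union_of_disjoint, card_erase_of_mem hs]
        · omega
        · rw [disjoint_left]
          intro x hx hx'
          exact (mem_sdiff.1 (mem_filter.1 hx').1).2 (mem_erase.1 hx).2
      rw [hc] at this
      exact this

theorem p_le {α : ℝ} (h1 : α ≤ 1) {n : ℕ} (hn : 0 < n) : α / n ≤ 1 := by
  have : (1 : ℝ) ≤ n := by exact_mod_cast hn
  rw [div_le_one (by linarith)]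
  linarith

/-- two surplus edges below one vertex are unlikely -/
theorem tail_excess (α : ℝ) (a0 : 0 ≤ α) (a1 : α ≤ 1) (n : ℕ) (hn : Fintype.card V = n) (u : V)
    (r : ℕ) (hr : 0 < r) (hrn : (r : ℝ) ^ 2 ≤ n) :
    Ex (α / n) (fun B => ind ((Ds univ {u} B).card ≤ r ∧
      (Ds univ {u} B).card + 1 ≤ ∑ a ∈ Ds univ {u} B, od B a)) ≤ 3 * (r : ℝ) ^ 4 / (n : ℝ) ^ 2 := by
  have hr0 : (0 : ℝ) < r := by exact_mod_cast hr
  have hn0 : (0 : ℝ) < n := lt_of_lt_of_le (by positivity) hrn
  have hn1 : 0 < n := by exact_mod_cast hn0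
  have h0 : 0 ≤ α / n := by positivity
  have h1 := p_le a1 hn1
  set κ : ℝ := n / (r : ℝ) ^ 2 with hκ
  have hκ1 : 1 ≤ κ := by rw [hκ, le_div_iff₀ (by positivity)]; linarith
  have hκ0 : 0 < κ := by linarith
  have hE : 1 ≤ Real.exp (1 / r) := Real.one_le_exp (by positivity)
  have key := explore2 (V := V) h0 h1 n (fun t y => ind (t ≤ r ∧ t + 1 ≤ y))
    (fun t a y => if t + a ≤ r then κ ^ y / κ ^ (t + a + 1) * Real.exp (1 / r) ^ (r - t) else 0)
    ?_ ?_ n univ {u} 0 0 (by simpa using hn) (subset_univ _) (by simpa using hn)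
  · simp only [zero_add, card_singleton, Nat.sub_zero, pow_zero] at key
    refine key.trans ?_
    split_ifs
    · rw [← Real.exp_nat_mul, mul_one_div_cancel hr0.ne']
      have h3 : Real.exp 1 ≤ 3 := by linarith [Real.exp_one_lt_d9]
      have h4 : 1 / κ ^ (1 + 1) = (r : ℝ) ^ 4 / (n : ℝ) ^ 2 := by
        rw [hκ, one_add_one_eq_two]
        field_simp
      rw [h4, mul_comm, ← mul_div_assoc]
      gcongr
    · positivity
  · intro t y
    refine ind_le (by split_ifs <;> positivity) fun h => ?_
    simp only [add_zero, h.1, if_true]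
    refine one_le_mul_of_one_le_of_one_le ?_ (one_le_pow₀ hE)
    rw [le_div_iff₀ (by positivity), one_mul]
    exact pow_le_pow_right₀ hκ1 h.2
  · intro t a y s T hT
    by_cases ht : t + (a + 1) ≤ r
    · simp only [ht, if_true]
      have e : ∀ B : V → V → Bool,
          (if t + 1 + (a + (T.filter fun j => B s j = true).card) ≤ r then
            κ ^ (y + od B s) / κ ^ (t + 1 + (a + (T.filter fun j => B s j = true).card) + 1) *
              Real.exp (1 / r) ^ (r - (t + 1)) else 0) ≤
          (κ ^ y / κ ^ (t + (a + 1) + 1) * Real.exp (1 / r) ^ (r - (t + 1))) *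
            (κ ^ (Tᶜ.filter fun j => B s j = true).card *
              1 ^ (Tᶜ.card - (Tᶜ.filter fun j => B s j = true).card)) := by
        intro B
        have hod : od B s = (T.filter fun j => B s j = true).card +
            (Tᶜ.filter fun j => B s j = true).card := by
          unfold od
          rw [← card_union_of_disjoint (disjoint_filter_filter disjoint_compl_right),
            ← filter_union, union_compl]
        split_ifs
        · refine le_of_eq ?_
          rw [hod]
          field_simp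
          ring
        · positivity
      refine (Ex_mono h0 h1 e).trans ?_
      rw [Ex_mul, Ex_row]
      have hM : r - t = r - (t + 1) + 1 := by omega
      rw [hM, pow_succ (Real.exp (1 / r)), ← mul_assoc]
      refine mul_le_mul_of_nonneg_left ?_ (by positivity)
      have h4 : α / n * κ + (1 - α / n) * 1 ≤ Real.exp (1 / (r : ℝ) ^ 2) := by
        have h5 := Real.add_one_le_exp (1 / (r : ℝ) ^ 2)
        have h6 : α / n * κ = α * (1 / (r : ℝ) ^ 2) := by
          rw [hκ]
          field_simp
        have h7 : α * (1 / (r : ℝ) ^ 2) ≤ 1 * (1 / (r : ℝ) ^ 2) :=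
          mul_le_mul_of_nonneg_right a1 (by positivity)
        linarith
      have h6 : 0 ≤ α / n * κ + (1 - α / n) * 1 := by
        have := mul_nonneg h0 hκ0.le
        linarith
      refine (pow_le_pow_left₀ h6 h4 _).trans ?_
      rw [← Real.exp_nat_mul]
      apply Real.exp_le_exp.2
      have h7 : (Tᶜ.card : ℝ) ≤ r := by
        rw [card_compl, hn]
        exact_mod_cast (by omega : n - T.card ≤ r)
      calc (Tᶜ.card : ℝ) * (1 / (r : ℝ) ^ 2) ≤ r * (1 / (r : ℝ) ^ 2) := by gcongr
        _ = 1 / (r : ℝ) := by field_simp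
    · have e : ∀ j : ℕ, ¬ (t + 1 + (a + j) ≤ r) := fun j => by omega
      simp only [ht, e, if_false, Ex_const, le_refl]

/-- subcritical tail of the descendant set -/
theorem tail_sub (α : ℝ) (a0 : 0 < α) (a1 : α ≤ 1) (n : ℕ) (hn : Fintype.card V = n) (u : V)
    (r : ℕ) : Ex (α / n) (fun B => ind (r < (Ds univ {u} B).card)) ≤
      α⁻¹ / (α⁻¹ * Real.exp (α - 1)) ^ r := by
  have hn1 : 0 < n := hn ▸ Fintype.card_pos_iff.2 ⟨u⟩
  have hn0 : (0 : ℝ) < n := by exact_mod_cast hn1
  have h0 : 0 ≤ α / n := by positivity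
  have h1 := p_le a1 hn1
  set θ : ℝ := α⁻¹ * Real.exp (α - 1) with hθ
  have hθ1 : 1 ≤ θ := by
    rw [hθ, ← div_eq_inv_mul, le_div_iff₀ a0]
    linarith [Real.add_one_le_exp (α - 1)]
  have hl : 1 ≤ α⁻¹ := (one_le_inv₀ a0).2 a1
  have key := explore (V := V) h0 h1 n (fun t => ind (r < t))
    (fun t a _ => α⁻¹ ^ a * θ ^ t / θ ^ r) ?_ ?_
    n univ {u} 0 (by simpa using hn) (subset_univ _) (by simpa using hn)
  · simpa using key
  · intro t b _
    refine ind_le (by positivity) fun h => ?_
    rw [pow_zero, one_mul, le_div_iff₀ (by positivity), one_mul]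
    exact pow_le_pow_right₀ hθ1 h.le
  · intro t a s T hT
    have e : ∀ j b : ℕ, α⁻¹ ^ (a + j) * θ ^ (t + 1) / θ ^ r =
        (α⁻¹ ^ a * θ ^ (t + 1) / θ ^ r) * (α⁻¹ ^ j * 1 ^ b) := by
      intro j b
      ring
    have e' : (fun B : V → V → Bool =>
        α⁻¹ ^ (a + (T.filter fun j => B s j = true).card) * θ ^ (t + 1) / θ ^ r) =
        fun B => (α⁻¹ ^ a * θ ^ (t + 1) / θ ^ r) * (α⁻¹ ^ (T.filter fun j => B s j = true).card *
          1 ^ (T.card - (T.filter fun j => B s j = true).card)) := funext fun B => e _ _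
    rw [e', Ex_mul, Ex_row]
    have h4 : α / n * α⁻¹ + (1 - α / n) * 1 ≤ Real.exp ((1 - α) / n) := by
      have h5 := Real.add_one_le_exp ((1 - α) / n)
      have h6 : α / n * α⁻¹ + (1 - α / n) * 1 = (1 - α) / n + 1 := by
        field_simp
        ring
      linarith
    have h6 : 0 ≤ α / n * α⁻¹ + (1 - α / n) * 1 := by
      have : 0 ≤ α / n * α⁻¹ := by positivity
      linarith
    have h7 : (α / n * α⁻¹ + (1 - α / n) * 1) ^ T.card ≤ Real.exp (1 - α) := by
      refine (pow_le_pow_left₀ h6 h4 _).trans ?_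
      rw [← Real.exp_nat_mul]
      apply Real.exp_le_exp.2
      have h8 : (T.card : ℝ) ≤ n := by exact_mod_cast (by omega : T.card ≤ n)
      have h9 : 0 ≤ (1 - α) / n := div_nonneg (by linarith) hn0.le
      calc (T.card : ℝ) * ((1 - α) / n) ≤ n * ((1 - α) / n) := by gcongr
        _ = 1 - α := by field_simp
    refine (mul_le_mul_of_nonneg_left h7 (by positivity)).trans (le_of_eq ?_)
    have h8 : θ * Real.exp (1 - α) = α⁻¹ := by
      rw [hθ, mul_assoc, ← Real.exp_add]
      simp
    calc α⁻¹ ^ a * θ ^ (t + 1) / θ ^ r * Real.exp (1 - α)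
        = α⁻¹ ^ a * (θ * Real.exp (1 - α)) * θ ^ t / θ ^ r := by ring
      _ = _ := by rw [h8]; ring

theorem long_sub (α : ℝ) (a0 : 0 ≤ α) (a1 : α ≤ 1) (n : ℕ) (hn : Fintype.card V = n) (hn1 : 0 < n)
    (k : ℕ) : Ex (α / n) (fun B => ind (∃ y : Fin (k + 1) → V, IsP B y)) ≤ n * α ^ k := by
  have hn0 : (0 : ℝ) < n := by exact_mod_cast hn1
  have h0 : 0 ≤ α / n := by positivity
  have h1 := p_le a1 hn1
  have hpt : ∀ B : V → V → Bool, ind (∃ y : Fin (k + 1) → V, IsP B y) ≤
      ∑ y ∈ Inj V k, ind (Has B (PE y)) := by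
    intro B
    refine ind_le (sum_nonneg fun _ _ => ind_nonneg _) ?_
    rintro ⟨y, hy⟩
    have := single_le_sum (f := fun y : Fin (k + 1) → V => ind (Has B (PE y)))
      (fun _ _ => ind_nonneg _) (mem_Inj.2 hy.1)
    rwa [ind_pos hy.2] at this
  refine (Ex_mono h0 h1 hpt).trans ?_
  rw [Ex_sum, sum_congr rfl fun y hy => by rw [Ex_ind_has, card_PE (mem_Inj.1 hy)],
    sum_const, nsmul_eq_mul]
  have := card_Inj_le (V := V) k
  rw [hn] at this
  refine (mul_le_mul_of_nonneg_right this (by positivity)).trans (le_of_eq ?_)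
  rw [pow_succ, div_pow]
  field_simp

theorem Cy_sub (α : ℝ) (a0 : 0 ≤ α) (a1 : α < 1) (n : ℕ) (hn : Fintype.card V = n) (hn1 : 0 < n)
    (k m : ℕ) (hm : 0 < m) :
    Ex (α / n) (fun B : V → V → Bool => ind (m < (Cy k B).card)) ≤ (1 - α)⁻¹ / m := by
  classical
  have hn0 : (0 : ℝ) < n := by exact_mod_cast hn1
  have hm0 : (0 : ℝ) < m := by exact_mod_cast hm
  have h0 : 0 ≤ α / n := by positivity
  have h1 := p_le a1.le hn1
  have hpt : ∀ B : V → V → Bool, ind (m < (Cy k B).card) ≤
      (1 / (m : ℝ)) * ∑ j ∈ range k, ∑ x ∈ Inj V j,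
        ind (Has B (insert (x (Fin.last j), x 0) (PE x))) := by
    intro B
    refine ind_le (mul_nonneg (by positivity)
      (sum_nonneg fun _ _ => sum_nonneg fun _ _ => ind_nonneg _)) fun hB => ?_
    have hsub : Cy k B ⊆ (range k).biUnion fun j => ((Inj V j).filter fun x =>
        Has B (insert (x (Fin.last j), x 0) (PE x))).image fun x => x 0 := by
      intro v hv
      obtain ⟨j, hj, x, hx, hx0, hx1⟩ := mem_Cy.1 hv
      refine mem_biUnion.2 ⟨j, mem_range.2 hj, mem_image.2 ⟨x, mem_filter.2 ⟨mem_Inj.2 hx.1, ?_⟩, hx0⟩⟩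
      intro e he
      rcases mem_insert.1 he with rfl | he
      · exact hx1
      · exact hx.2 e he
    have hc := (card_le_card hsub).trans (card_biUnion_le.trans (sum_le_sum fun j _ => card_image_le))
    have hc' : (m : ℝ) ≤ ∑ j ∈ range k, (((Inj V j).filter fun x =>
        Has B (insert (x (Fin.last j), x 0) (PE x))).card : ℝ) := by
      exact_mod_cast hB.le.trans hc
    rw [one_div, ← div_eq_inv_mul, le_div_iff₀ hm0, one_mul]
    refine hc'.trans (le_of_eq (sum_congr rfl fun j _ => ?_))
    rw [card_filter]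
    push_cast
    simp only [ind_eq]
  refine (Ex_mono h0 h1 hpt).trans ?_
  rw [Ex_mul, Ex_sum, one_div (m : ℝ), ← div_eq_inv_mul]
  refine div_le_div_of_nonneg_right ?_ hm0.le
  have : ∀ j ∈ range k, Ex (α / n) (fun B : V → V → Bool => ∑ x ∈ Inj V j,
        ind (Has B (insert (x (Fin.last j), x 0) (PE x)))) ≤ α ^ j := by
    intro j _
    rw [Ex_sum, sum_congr rfl fun x hx => by rw [Ex_ind_has, card_insert_PE (mem_Inj.1 hx)]]
    rw [sum_const, nsmul_eq_mul]
    have := card_Inj_le (V := V) j
    rw [hn] at this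
    refine (mul_le_mul_of_nonneg_right this (by positivity)).trans ?_
    rw [← mul_pow, mul_div_cancel₀ _ hn0.ne']
    exact pow_le_pow_of_le_one a0 a1.le (Nat.le_succ j)
  refine (sum_le_sum this).trans ?_
  rw [← tsum_geometric_of_lt_one a0 a1]
  exact (summable_geometric_of_lt_one a0 a1).sum_le_tsum _ fun _ _ => by positivity

end Pool.Agent.Fa2423
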